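import Pool.Agent.T2H05.GD.EndAll

/-!
# Complex conjugation of the field and de Rham classes
-/

set_option autoImplicit false

open CategoryTheory AlgebraicGeometry IntermediateField Finset

universe v

namespace Pool.Agent.T2H05.GD

open Pool.Agent.H914 Pool.Agent.H914.VarClass

/-- For the admissible triples with the field `F` such that `H = j(F)` consists of Hodge classes, the
map `j(x) ↦ j(conj x)`, `conj` the complex conjugation of `F`, respects the de Rham classes. -/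
def ConjFor {𝒱 : VarClass Qbar} (T : PeriodData.{v} 𝒱) (F : IntermediateField ℚ ℂ) : Prop :=
  ∀ (X : 𝒱.Obj) (k : ℕ) (j : F →+ T.H X (2 * k)), Admissible T X (2 * k) F j (fun _ => k) →
    ∀ κ : F →+ F, (∀ x : F, ((κ x : F) : ℂ) = (starRingEnd ℂ) (x : ℂ)) →
      Respects j κ (T.dR X (2 * k) : Set (T.H X (2 * k)))

private lemma bck_sim {x y z : ℂ} (hx : x ≠ 0) (hz : z ≠ 0) {k : ℕ} {α : ℂ}
    (hα : IsAlgebraic ℚ α) (hxy : x = α * y) (h : Sim (x * y) (z ^ (2 * k))) : Sim x (z ^ k) := by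
  obtain ⟨β, hβ, hβ0, he⟩ := h
  have hα0 : α ≠ 0 := by
    rintro rfl
    rw [zero_mul] at hxy
    exact hx hxy
  have hzk : z ^ k ≠ 0 := pow_ne_zero k hz
  have hsq : (x / z ^ k) ^ 2 = α * β := by
    have h1 : x ^ 2 = α * (x * y) := by
      rw [sq]
      nth_rewrite 2 [hxy]
      ring
    rw [div_pow, h1, he, mul_comm 2 k, pow_mul, div_eq_iff (pow_ne_zero 2 hzk)]
    ring
  refine ⟨x / z ^ k, ?_, div_ne_zero hx hzk, (div_mul_cancel₀ x hzk).symm⟩
  apply IsAlgebraic.of_pow (n := 2) (by norm_num)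
  rw [hsq]
  exact hα.mul hβ

theorem conj_of_end {𝒱 : VarClass Qbar} {T : PeriodData.{v} 𝒱} (hT : IsPeriodTheory T)
    {F : IntermediateField ℚ ℂ} (hF : AbelianField F) (hEnd : EndFor T F) : ConjFor T F := by
  intro X k j hadm φ _
  classical
  obtain ⟨N, hN, hFN⟩ := hF
  obtain ⟨hfd, -⟩ := aCY N hN F hFN
  have := hfd
  have hMAT := bMAT.{v}
  obtain ⟨c, hc⟩ := (aAD1 𝒱 T hT X (2 * k) F j (fun _ => k)).1 hadm
  have hdu2 := (aDU.{v} F).2
  have hexp : ∀ (n : ℕ) (z : Fin n → ℂ) (x : Fin n → F),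
      ∑ i, z i • j (x i) = ∑ τ : F →ₐ[ℚ] ℂ, (∑ i, z i * τ (x i)) • vv j τ := by
    intro n z x
    simp_rw [Finset.sum_smul]
    rw [Finset.sum_comm]
    refine Finset.sum_congr rfl fun i _ => ?_
    conv_lhs => rw [hdu2 _ j (x i), Finset.smul_sum]
    refine Finset.sum_congr rfl fun τ _ => ?_
    rw [smul_smul]
  have hmem : ∀ a : (F →ₐ[ℚ] ℂ) → ℂ, ∑ τ : F →ₐ[ℚ] ℂ, a τ • vv j τ ∈ T.hodge X (2 * k) k := by
    intro a
    exact Submodule.sum_mem _ fun τ _ => Submodule.smul_mem _ _ (hc.hodge τ)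
  have hHodge : HodgeEnd T j φ := by
    intro q n z x hw
    by_cases hq : q = k
    · subst hq
      have h1 := hMAT F _ j φ n z x
      show ∑ i, z i • j (φ (x i)) ∈ T.hodge X (2 * q) q
      rw [h1]
      exact hmem _
    · have hw' : ∑ i, z i • j (x i) ∈ T.hodge X (2 * k) q := hw
      have hwk : ∑ i, z i • j (x i) ∈ T.hodge X (2 * k) k := by
        rw [hexp]
        exact hmem _
      have h0 := hT.hodge_disjoint hq hw' hwk
      rw [hexp] at h0
      have hz := Fintype.linearIndependent_iff.1 hc.indep _ h0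
      have h1 := hMAT F _ j φ n z x
      show ∑ i, z i • j (φ (x i)) ∈ T.hodge X (2 * k) q
      rw [h1]
      have h2 : ∑ τ : F →ₐ[ℚ] ℂ, (∑ ρ : F →ₐ[ℚ] ℂ, AA φ ρ τ * ∑ i, z i * ρ (x i)) • vv j τ =
          0 := by
        refine Finset.sum_eq_zero fun τ _ => ?_
        have : ∑ ρ : F →ₐ[ℚ] ℂ, AA φ ρ τ * ∑ i, z i * ρ (x i) = 0 :=
          Finset.sum_eq_zero fun ρ _ => by rw [hz ρ, mul_zero]
        rw [this, zero_smul]
      rw [h2]
      exact Submodule.zero_mem _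
  exact hEnd X (2 * k) j (fun _ => k) hadm φ hHodge

theorem hodge_of_conj {𝒱 : VarClass Qbar} {T : PeriodData.{v} 𝒱} (hT : IsPeriodTheory T)
    {F : IntermediateField ℚ ℂ} (hF : CyclicImaginary F) (hConj : ConjFor T F) : HodgeFor T F := by
  intro X k j hadm σ P hP
  classical
  have hMAT := bMAT.{v}
  have hDRC := bDRC.{v}
  obtain ⟨N, hN, hFN⟩ := hF.1
  obtain ⟨hfd, res, hsurj, _, hval, hκ⟩ := aCY N hN F hFN
  have := hfd
  obtain ⟨c, hc⟩ := (aAD1 𝒱 T hT X (2 * k) F j (fun _ => k)).1 hadm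
  set κ : F ≃ₐ[ℚ] F := res (-1) with hκdef
  have hκκ : ∀ x : F, κ (κ x) = x := by
    intro x
    apply Subtype.ext
    rw [hκ, hκ, Complex.conj_conj]
  have hconj : ∀ (ρ : F →ₐ[ℚ] ℂ) (x : F), ρ (κ x) = (starRingEnd ℂ) (ρ x) := by
    intro ρ x
    obtain ⟨s, rfl⟩ := hval ρ
    obtain ⟨u, rfl⟩ := hsurj s
    have h1 : res u (κ x) = κ (res u x) := by
      have h2 : res u * κ = κ * res u := by
        rw [hκdef, ← map_mul, ← map_mul, mul_comm]
      exact congrArg (fun g : F ≃ₐ[ℚ] F => g x) h2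
    show ((res u (κ x) : F) : ℂ) = (starRingEnd ℂ) ((res u x : F) : ℂ)
    rw [h1, hκ]
  set φ : F →+ F := (κ : F ≃+ F).toAddMonoidHom with hφ
  have hφa : ∀ x, φ x = κ x := fun x => rfl
  obtain ⟨hdu1, -⟩ := aDU.{v} F
  have hdu2 := (aDU.{v} F).2
  have hAA : ∀ ρ τ : F →ₐ[ℚ] ℂ, AA φ ρ τ =
      if τ.comp (κ : F →ₐ[ℚ] F) = ρ then 1 else 0 := by
    intro ρ τ
    rw [← hdu1 (τ.comp (κ : F →ₐ[ℚ] F)) ρ]
    unfold AA
    refine Finset.sum_congr rfl fun i _ => ?_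
    rw [mul_comm]
    rfl
  have hdR := hConj X k j hadm φ (fun x => hκ x)
  -- apply it to `c σ • v_σ`
  have hstart : ∑ i, (c σ * σ (db F i)) • j (bs F i) ∈ (T.dR X (2 * k) : Set (T.H X (2 * k))) := by
    have h1 : ∑ i, (c σ * σ (db F i)) • j (bs F i) = c σ • vv j σ := by
      unfold vv
      rw [Finset.smul_sum]
      exact Finset.sum_congr rfl fun i _ => by rw [smul_smul]
    rw [h1]
    exact hc.dR σ
  have hend := hdR _ (fun i => c σ * σ (db F i)) (fun i => bs F i) hstart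
  rw [hMAT F _ j φ _ (fun i => c σ * σ (db F i)) (fun i => bs F i)] at hend
  have hcoef : ∀ τ : F →ₐ[ℚ] ℂ,
      ∑ ρ : F →ₐ[ℚ] ℂ, AA φ ρ τ * ∑ i, (c σ * σ (db F i)) * ρ (bs F i) = c σ * AA φ σ τ := by
    intro τ
    have h1 : ∀ ρ : F →ₐ[ℚ] ℂ, ∑ i, (c σ * σ (db F i)) * ρ (bs F i) =
        c σ * if ρ = σ then 1 else 0 := by
      intro ρ
      rw [← hdu1 ρ σ, Finset.mul_sum]
      exact Finset.sum_congr rfl fun i _ => by ring
    simp_rw [h1]
    rw [Finset.sum_eq_single σ]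
    · rw [if_pos rfl]
      ring
    · intro ρ _ hρ
      rw [if_neg hρ]
      ring
    · intro h
      exact absurd (Finset.mem_univ σ) h
  simp_rw [hcoef] at hend
  set σ' : F →ₐ[ℚ] ℂ := σ.comp (κ : F →ₐ[ℚ] F) with hσ'
  obtain ⟨α, hα, he⟩ := hDRC 𝒱 T hT X (2 * k) F j (fun _ => k) c hc (fun τ => c σ * AA φ σ τ)
    hend σ'
  have hAA1 : AA φ σ σ' = 1 := by
    rw [hAA, if_pos]
    ext x
    show σ (κ (κ x)) = σ x
    rw [hκκ]
  simp only [hAA1, mul_one] at he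
  have hpol := (aPOL 𝒱 T hT X (2 * k) F j (fun _ => k) c hc σ σ' (fun x => hconj σ x)).2
  have h2pi : (2 * Real.pi * Complex.I : ℂ) ≠ 0 := by
    simp [Real.pi_ne_zero]
  have hfin : Sim (c σ) ((2 * Real.pi * Complex.I) ^ k) :=
    bck_sim (hc.ne σ) h2pi hα he hpol
  exact ((aAD2 𝒱 T hT X (2 * k) F j (fun _ => k) c hc σ).1 P hP).trans hfin


theorem mainC {𝒱 : VarClass Qbar} (T : PeriodData.{v} 𝒱) (hT : IsPeriodTheory T)
    (hI : ∀ X m, iSupIndep (T.hodge X m)) (K : IntermediateField ℚ ℂ) (hK : AbelianField K)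
    (ref : ∀ F, F ≤ K → CyclicImaginary F → Reference T F) :
    List.TFAE [∀ F, F ≤ K → GDFor T F,
      (∀ F (h : F ≤ K) (hF : CyclicImaginary F), GDAt T (ref F h hF).j (ref F h hF).p (cond F)) ∧
        ∀ F, F ≤ K → EndFor T F,
      (∀ F (h : F ≤ K) (hF : CyclicImaginary F), GDAt T (ref F h hF).j (ref F h hF).p (cond F)) ∧
        ∀ F, F ≤ K → CyclicImaginary F → ConjFor T F] := by
  tfae_have 1 → 2 := (mainE T hT hI K hK ref).mp
  tfae_have 2 → 3 := fun ⟨hr, hE⟩ => ⟨hr, fun F h hF => conj_of_end hT hF.1 (hE F h)⟩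
  tfae_have 3 → 1 := fun ⟨hr, hC⟩ => (mainL T hT K hK ref).mpr fun F h hF =>
    ⟨hr F h hF, hodge_of_conj hT hF (hC F h hF)⟩
  tfae_finish

end Pool.Agent.T2H05.GD
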