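import Pool.Agent.T2H05.GD.OneStm

set_option autoImplicit false

open Finset IntermediateField CategoryTheory AlgebraicGeometry

universe v

namespace Pool.Agent.T2H05.GD

open Pool.Agent.H914 Pool.Agent.H914.VarClass

theorem kDSC5 (hTENF : S_TENF.{v}) (hUNL : S_UNL) : S_DSC.{v} := by
  intro 𝒱 T hT K hK him ⟨t⟩ hGD F hle X m j p hadm
  obtain ⟨hd0, hKd⟩ := cond_spec hK
  obtain ⟨hfd, -⟩ := aCY (cond K) hd0 K hKd
  have := hfd
  have hF : AbelianField F := by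
    obtain ⟨d, h1, h2⟩ := hK
    exact ⟨d, h1, hle.trans h2⟩
  obtain ⟨hd0', hFd⟩ := cond_spec hF
  obtain ⟨hfd', resF, -, hresF, -, -⟩ := aCY (cond F) hd0' F hFd
  have := hfd'
  obtain ⟨c, hA⟩ := (aAD1 𝒱 T hT X m F j p).mp hadm
  obtain ⟨c0, hA0⟩ := (aAD1 𝒱 T hT t.X t.m K t.j t.p).mp t.adm
  obtain ⟨εt, hεt⟩ := exists_eps hT hK him hA0
  obtain ⟨jr, hAr⟩ := hTENF 𝒱 T hT X t.X m t.m F K hle j t.j p t.p c c0 hA hA0
  obtain ⟨εr, hεr⟩ := exists_eps hT hK him hAr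
  have hadr := (aAD1 𝒱 T hT _ _ K jr _).mpr ⟨_, hAr⟩
  intro ε hε lam σ hσ P hP
  refine ((aAD2 𝒱 T hT X m F j p c hA σ).1 P hP).trans ?_
  refine aSEP _ _ (hA.ne σ) (gam_ne _ _ _) fun L hL => ?_
  have : NeZero (cond K) := ⟨hd0.ne'⟩
  obtain ⟨N, hN⟩ : ∃ N, N = cond K * cond F := ⟨_, rfl⟩
  have hN0 : 0 < N := hN ▸ Nat.mul_pos hd0 hd0'
  have hKN : cond K ∣ N := hN ▸ dvd_mul_right _ _
  have hFN : cond F ∣ N := hN ▸ dvd_mul_left _ _
  have : NeZero N := ⟨hN0.ne'⟩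
  obtain ⟨hKN', hRK⟩ := aRES (cond K) N hKN hN0 K hKd
  obtain ⟨hFN', hRF⟩ := aRES (cond F) N hFN hN0 F hFd
  obtain ⟨-, resN, hsurjN, hresN, hvalN, hconjN⟩ := aCY N hN0 K hKN'
  have hR1 : ∀ w, Restr N w (K.val.comp ((resN w) : K →ₐ[ℚ] K)) := fun w => (hresN w _).mpr rfl
  have hR2 : ∀ w, Restr (cond K) (ZMod.unitsMap hKN w) (K.val.comp ((resN w) : K →ₐ[ℚ] K)) :=
    fun w => hRK w _ (hR1 w)
  have hR3 : ∀ w, Restr (cond F) (ZMod.unitsMap hFN w)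
      ((K.val.comp ((resN w) : K →ₐ[ℚ] K)).comp (IntermediateField.inclusion hle)) := by
    intro w
    refine hRF w _ ?_
    obtain ⟨τ', h1, h2⟩ := hR1 w
    exact ⟨τ', h1, fun x h h' => h2 x (hle h) h'⟩
  have hlog : ∀ w, L (c ((K.val.comp ((resN w) : K →ₐ[ℚ] K)).comp
      (IntermediateField.inclusion hle))) =
      L ((gam (cond K) (fun a => εr a + (-1 : ℚ) * εt a) (ZMod.unitsMap hKN w) : ℝ) : ℂ) := by
    intro w
    obtain ⟨h1, P1, hP1⟩ := aAD2 𝒱 T hT _ _ K _ _ _ hA0 (K.val.comp ((resN w) : K →ₐ[ℚ] K))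
    obtain ⟨h2, P2, hP2⟩ := aAD2 𝒱 T hT _ _ K _ _ _ hAr (K.val.comp ((resN w) : K →ₐ[ℚ] K))
    have h3 := hGD _ _ _ _ t.adm εt hεt _ _ (hR2 w) P1 hP1
    have h4 := hGD _ _ _ _ hadr εr hεr _ _ (hR2 w) P2 hP2
    have e1 := hL.sim (hA0.ne _) (h1 P1 hP1)
    have e2 := hL.sim (hAr.ne _) (h2 P2 hP2)
    have e3 := hL.sim (gam_ne _ _ _) h3
    have e4 := hL.sim (gam_ne _ _ _) h4
    rw [hL.1 _ _ (hA.ne _) (hA0.ne _)] at e2
    rw [gam_lin hL]
    linarith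
  obtain ⟨w, hw⟩ := ZMod.unitsMap_surjective hFN lam
  have hσw : σ = (K.val.comp ((resN w) : K →ₐ[ℚ] K)).comp (IntermediateField.inclusion hle) := by
    have h1 := (hresF _ _).mp (hR3 w)
    rw [hw] at h1
    exact ((hresF _ _).mp hσ).trans h1.symm
  have hfin := hUNL L hL (cond K) (cond F) N hKN hFN hd0 hd0' hN0
    (fun a => εr a + (-1 : ℚ) * εt a) ε
    (fun w => p ((K.val.comp ((resN w) : K →ₐ[ℚ] K)).comp (IntermediateField.inclusion hle))) m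
    (fun w => by
      have h1 := hεt _ _ (hR2 w)
      have h2 := hεr _ _ (hR2 w)
      push_cast at h2
      have h3 : ∑ a ∈ Ioo 0 (cond K), (εr (a : ZMod (cond K)) + (-1 : ℚ) * εt (a : ZMod (cond K))) *
          ((((ZMod.unitsMap hKN w : (ZMod (cond K))ˣ) : ZMod (cond K)) * a).val : ℚ) =
          ∑ a ∈ Ioo 0 (cond K), εr (a : ZMod (cond K)) *
            ((((ZMod.unitsMap hKN w : (ZMod (cond K))ˣ) : ZMod (cond K)) * a).val : ℚ) -
          ∑ a ∈ Ioo 0 (cond K), εt (a : ZMod (cond K)) *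
            ((((ZMod.unitsMap hKN w : (ZMod (cond K))ˣ) : ZMod (cond K)) * a).val : ℚ) := by
        rw [← sum_sub_distrib]
        exact sum_congr rfl fun a _ => by ring
      rw [h3, ← h1, ← h2]
      ring)
    (fun w => hε _ _ (hR3 w))
    (fun w => by
      have h1 := (aPOL 𝒱 T hT X m F j p c hA
        ((K.val.comp ((resN w) : K →ₐ[ℚ] K)).comp (IntermediateField.inclusion hle))
        ((K.val.comp ((resN (-w)) : K →ₐ[ℚ] K)).comp (IntermediateField.inclusion hle)) (by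
          intro x
          have h2 : resN (-w) = resN (-1) * resN w := by rw [← map_mul]; simp
          rw [h2]
          exact hconjN (resN w _))).1
      exact_mod_cast h1) w
  rw [hw] at hfin
  exact (congrArg (fun s => L (c s)) hσw).trans ((hlog w).trans hfin)

end Pool.Agent.T2H05.GD
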