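import Pool.Agent.T2H05.GD.OneStm

/-!
# Package HDK: Hodge classes from one type
-/

set_option autoImplicit false

open CategoryTheory AlgebraicGeometry IntermediateField Finset

universe v

namespace Pool.Agent.T2H05.GD

open Pool.Agent.H914 Pool.Agent.H914.VarClass

theorem kHDK : S_HDK.{v} := by
  intro 𝒱 T hT K hK him R h X k j hadm σ P hP
  obtain ⟨hd0, hFd⟩ := cond_spec hK
  have hd2 := cond_two_le hK him
  have : NeZero (cond K) := ⟨hd0.ne'⟩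
  obtain ⟨hfd, res, hsurj, hres, hval, hconj⟩ := aCY (cond K) hd0 K hFd
  have := hfd
  have hr : GDAt T R.j R.p (cond K) := h R.X R.m 0 R.j R.adm
  obtain ⟨c0, hA0⟩ := (aAD1 𝒱 T hT R.X R.m K R.j R.p).mp R.adm
  obtain ⟨εt, hεt⟩ := exists_eps hT hK him hA0
  obtain ⟨c, hA⟩ := (aAD1 𝒱 T hT X (2 * k) K j _).mp hadm
  obtain ⟨j2, hA2⟩ := aTEN 𝒱 T hT R.X X R.m (2 * k) K R.j j R.p (fun _ => k) c0 c hA0 hA
  have hadm2 := (aAD1 𝒱 T hT _ _ K j2 _).mpr ⟨_, hA2⟩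
  obtain ⟨εk, h1, h2⟩ := aCONST (cond K) k hd2
  obtain ⟨s, hs⟩ := hval σ
  obtain ⟨lam, rfl⟩ := hsurj s
  have hσ : Restr (cond K) lam σ := (hres lam σ).mpr hs
  obtain ⟨h3, P2, hP2⟩ := aAD2 𝒱 T hT _ _ K j2 _ _ hA2 σ
  obtain ⟨h30, P0, hP0⟩ := aAD2 𝒱 T hT _ _ K R.j _ _ hA0 σ
  have h40 := hr εt hεt lam σ hσ P0 hP0
  have h4 := h _ _ k j2 hadm2 (fun a => εt a + εk a) (fun u τ hu => by
    push_cast
    have e1 := hεt u τ hu
    have e2 := h1 u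
    rw [mul_add, e1, e2, ← sum_add_distrib]
    exact sum_congr rfl fun a _ => by ring) lam σ hσ P2 hP2
  have h5 := h3 P2 hP2
  refine ((aAD2 𝒱 T hT X (2 * k) K j _ c hA σ).1 P hP).trans ?_
  have hpi : (2 * Real.pi * Complex.I : ℂ) ≠ 0 := Complex.two_pi_I_ne_zero
  refine aSEP _ _ (hA.ne σ) (pow_ne_zero k hpi) fun L hL => ?_
  have e1 := hL.sim (hA2.ne σ) h5
  have e2 := hL.sim (gam_ne _ _ _) h4
  have e3 := hL.sim (pow_ne_zero k hpi) (h2 lam)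
  have e4 := hL.sim (hA0.ne σ) (h30 P0 hP0)
  have e5 := hL.sim (gam_ne _ _ _) h40
  rw [gam_add hL, e3] at e2
  rw [hL.1 _ _ (hA0.ne σ) (hA.ne σ)] at e1
  linarith

end Pool.Agent.T2H05.GD
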