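import Pool.Agent.T2H05.GD.OneStm

/-!
# Package TENF: tensor product over a subfield
-/

set_option autoImplicit false

open CategoryTheory AlgebraicGeometry IntermediateField Finset

universe v

namespace Pool.Agent.T2H05.GD

open Pool.Agent.H914 Pool.Agent.H914.VarClass

namespace PkgTENF

variable {𝒱 : VarClass Qbar} (T : PeriodData.{v} 𝒱)

/-- The map `x ↦ ∑_i cup (j b_i) (j' (x b*_i))`. -/
noncomputable def tenF {X Y : 𝒱.Obj} {m n : ℕ} {F K : IntermediateField ℚ ℂ}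
    [FiniteDimensional ℚ F] [FiniteDimensional ℚ K] (q : F → K) (j : F →+ T.H X m)
    (j' : K →+ T.H Y n) : K →+ T.H (X.prod Y) (m + n) where
  toFun x := ∑ i, T.cup (j (bs F i)) (j' (x * q (db F i)))
  map_zero' := by simp
  map_add' x y := by
    rw [← Finset.sum_add_distrib]
    refine Finset.sum_congr rfl fun i _ => ?_
    rw [add_mul, map_add, map_add]

theorem tenF_apply {X Y : 𝒱.Obj} {m n : ℕ} {F K : IntermediateField ℚ ℂ}
    [FiniteDimensional ℚ F] [FiniteDimensional ℚ K] (q : F → K) (j : F →+ T.H X m)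
    (j' : K →+ T.H Y n) (x : K) :
    tenF T q j j' x = ∑ i, T.cup (j (bs F i)) (j' (x * q (db F i))) := rfl

theorem tenF_eq (hDU : S_DU.{v}) {X Y : 𝒱.Obj} {m n : ℕ} {F K : IntermediateField ℚ ℂ}
    [FiniteDimensional ℚ F] [FiniteDimensional ℚ K] (q : F → K)
    (r : (K →ₐ[ℚ] ℂ) → (F →ₐ[ℚ] ℂ)) (hr : ∀ σ y, σ (q y) = r σ y) (j : F →+ T.H X m)
    (j' : K →+ T.H Y n) (x : K) :
    tenF T q j j' x = ∑ σ : K →ₐ[ℚ] ℂ, σ x • T.cup (vv j (r σ)) (vv j' σ) := by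
  classical
  have h1 := (hDU F).1
  have h2 : ∀ y : F, j y = ∑ σ : F →ₐ[ℚ] ℂ, σ y • vv j σ := (hDU F).2 _ j
  have h3 : ∀ y : K, j' y = ∑ σ : K →ₐ[ℚ] ℂ, σ y • vv j' σ := (hDU K).2 _ j'
  rw [tenF_apply]
  have h4 : ∀ i, T.cup (j (bs F i)) (j' (x * q (db F i))) =
      ∑ σ : K →ₐ[ℚ] ℂ, ∑ τ : F →ₐ[ℚ] ℂ, (σ x * (τ (bs F i) * (r σ) (db F i))) •
          T.cup (vv j τ) (vv j' σ) := by
    intro i
    rw [h2, h3 (x * _), map_sum]
    refine Finset.sum_congr rfl fun σ _ => ?_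
    rw [map_smul, map_sum, LinearMap.sum_apply, Finset.smul_sum]
    refine Finset.sum_congr rfl fun τ _ => ?_
    rw [map_smul, LinearMap.smul_apply, smul_smul, map_mul, hr]
    congr 1
    ring
  rw [Finset.sum_congr rfl fun i _ => h4 i, Finset.sum_comm]
  refine Finset.sum_congr rfl fun σ _ => ?_
  rw [Finset.sum_comm]
  have h5 : ∀ τ : F →ₐ[ℚ] ℂ, ∑ i, (σ x * (τ (bs F i) * (r σ) (db F i))) •
        T.cup (vv j τ) (vv j' σ) =
      if τ = r σ then σ x • T.cup (vv j τ) (vv j' σ) else 0 := by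
    intro τ
    rw [← Finset.sum_smul, ← Finset.mul_sum, h1]
    split_ifs with h
    · rw [mul_one]
    · rw [mul_zero, zero_smul]
  rw [Finset.sum_congr rfl fun τ _ => h5 τ, Finset.sum_ite_eq', if_pos (Finset.mem_univ _)]

theorem adm (hDU : S_DU.{v}) (hT : IsPeriodTheory T) {X Y : 𝒱.Obj} {m n : ℕ}
    {F K : IntermediateField ℚ ℂ} [FiniteDimensional ℚ F] [FiniteDimensional ℚ K] (q : F → K)
    (r : (K →ₐ[ℚ] ℂ) → (F →ₐ[ℚ] ℂ)) (hr : ∀ σ y, σ (q y) = r σ y)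
    (j : F →+ T.H X m) (j' : K →+ T.H Y n) (p : (F →ₐ[ℚ] ℂ) → ℕ) (p' : (K →ₐ[ℚ] ℂ) → ℕ)
    (c : (F →ₐ[ℚ] ℂ) → ℂ) (c' : (K →ₐ[ℚ] ℂ) → ℂ) (ha : Adm T X m F j p c)
    (h' : Adm T Y n K j' p' c') :
    Adm T (X.prod Y) (m + n) K (tenF T q j j')
      (fun σ => p (r σ) + p' σ) (fun σ => c (r σ) * c' σ) := by
  have hv : ∀ σ, vv (tenF T q j j') σ = T.cup (vv j (r σ)) (vv j' σ) :=
    PkgTEN.vv_of hDU (tenF T q j j') (fun σ => T.cup (vv j (r σ)) (vv j' σ))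
      (tenF_eq T hDU q r hr j j')
  refine ⟨?_, ?_, ?_, ?_, ?_⟩
  · intro x
    rw [tenF_apply]
    exact sum_mem fun i _ => hT.cup_B (ha.mem_B _) (h'.mem_B _)
  · rw [Fintype.linearIndependent_iff]
    intro g hg σ
    classical
    have e := Fintype.equivFin (F →ₐ[ℚ] ℂ)
    have hsum : ∑ τ : F →ₐ[ℚ] ℂ, T.cup (vv j τ) (∑ s ∈ Finset.univ.filter
        (fun s : K →ₐ[ℚ] ℂ => r s = τ), g s • vv j' s) = 0 := by
      rw [← hg, ← Finset.sum_fiberwise Finset.univ r]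
      refine Finset.sum_congr rfl fun τ _ => ?_
      rw [map_sum]
      refine Finset.sum_congr rfl fun s hs => ?_
      rw [hv, map_smul, (Finset.mem_filter.1 hs).2]
    have h1 := hT.cup_injective (Fintype.card (F →ₐ[ℚ] ℂ)) (fun i => vv j (e.symm i))
      (fun i => ∑ s ∈ Finset.univ.filter
        (fun s : K →ₐ[ℚ] ℂ => r s = e.symm i), g s • vv j' s)
      (ha.indep.comp _ e.symm.injective) (by
        rw [← hsum, ← Equiv.sum_comp e.symm])
      (e (r σ))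
    simp only [Equiv.symm_apply_apply] at h1
    exact linearIndependent_iff'.1 h'.indep _ g h1 σ (by simp)
  · intro σ
    rw [hv]
    exact hT.cup_hodge (ha.hodge _) (h'.hodge σ)
  · intro σ
    exact mul_ne_zero (ha.ne _) (h'.ne σ)
  · intro σ
    rw [hv]
    have h1 := hT.cup_dR (ha.dR (r σ)) (h'.dR σ)
    rw [map_smul, map_smul, LinearMap.smul_apply, smul_smul, mul_comm] at h1
    exact h1

end PkgTENF

theorem kTENF : S_TENF.{v} := by
  intro 𝒱 T hT X Y m n F K _ _ h j j' p p' c c' ha h'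
  exact ⟨PkgTENF.tenF T (IntermediateField.inclusion h) j j',
    PkgTENF.adm T aDU hT (IntermediateField.inclusion h)
      (fun σ => σ.comp (IntermediateField.inclusion h)) (fun _ _ => rfl) j j' p p' c c' ha h'⟩

end Pool.Agent.T2H05.GD
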