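import Pool.Agent.T2H05.GD.OneStm

/-!
# Package UNL: two levels
-/

set_option autoImplicit false

open CategoryTheory AlgebraicGeometry IntermediateField Finset

universe v

namespace Pool.Agent.T2H05.GD

open Pool.Agent.H914 Pool.Agent.H914.VarClass

theorem kUNL (hUNQ : S_UNQ) : S_UNL := by
  intro L hL d d' N h h' hd hd' hN ε ε' P m hP hP' hPm w
  have : NeZero N := ⟨hN.ne'⟩
  obtain ⟨ε₁, h1, h2⟩ := aLIFT d N h hd hN ε
  obtain ⟨ε₂, h3, h4⟩ := aLIFT d' N h' hd' hN ε'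
  have hdN : ((N / d : ℕ) : ℚ) * d = N := by exact_mod_cast Nat.div_mul_cancel h
  have hdN' : ((N / d' : ℕ) : ℚ) * d' = N := by exact_mod_cast Nat.div_mul_cancel h'
  have e := hUNQ L hL N ε₁ ε₂ P m
    (fun u => by rw [h1 u, ← hP u, ← mul_assoc, hdN])
    (fun u => by rw [h3 u, ← hP' u, ← mul_assoc, hdN']) hPm w
  rw [h2 w, h4 w] at e
  exact e

end Pool.Agent.T2H05.GD
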