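import Pool.Agent.T2H05.GD.OneStm

set_option autoImplicit false

open Finset IntermediateField CategoryTheory AlgebraicGeometry

universe v

namespace Pool.Agent.T2H05.GD

open Pool.Agent.H914 Pool.Agent.H914.VarClass

theorem kUNQ : S_UNQ := by
  classical
  intro L hL N _ ε ε' P m hε hε' hm lam
  have hall := aCHI (ZMod N)ˣ (fun u => (L ((gam N ε u : ℝ) : ℂ) : ℂ) - (L ((gam N ε' u : ℝ) : ℂ) : ℂ)) (by
    intro χ
    by_cases hχ : χ (-1) = -1
    · obtain ⟨κ, hκ⟩ := ari aKC aDIST aGAM hL N χ hχ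
      simp only [mul_sub, sum_sub_distrib]
      rw [hκ ε P hε, hκ ε' P hε', sub_self]
    · have hχ1 : χ (-1) = 1 := by
        have h1 : χ (-1) * χ (-1) = 1 := by rw [← map_mul]; simp
        have h2 : ((χ (-1) : ℂˣ) : ℂ) * (χ (-1) : ℂˣ) = 1 := by rw [← Units.val_mul, h1, Units.val_one]
        rcases mul_self_eq_one_iff.mp h2 with h3 | h3
        · exact Units.ext h3
        · exact absurd (Units.ext (by rw [h3]; simp)) hχ
      have hodd : ∀ u, ((L ((gam N ε (-u) : ℝ) : ℂ) : ℂ) - (L ((gam N ε' (-u) : ℝ) : ℂ) : ℂ)) =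
          - ((L ((gam N ε u : ℝ) : ℂ) : ℂ) - (L ((gam N ε' u : ℝ) : ℂ) : ℂ)) := by
        intro u
        have h1 := evn aDIST aGAM hL N ε P m hε hm u
        have h2 := evn aDIST aGAM hL N ε' P m hε' hm u
        have h3 : L ((gam N ε (-u) : ℝ) : ℂ) - L ((gam N ε' (-u) : ℝ) : ℂ) =
            - (L ((gam N ε u : ℝ) : ℂ) - L ((gam N ε' u : ℝ) : ℂ)) := by linarith
        exact_mod_cast h3
      have h1 : ∑ u, (χ u : ℂ) * ((L ((gam N ε u : ℝ) : ℂ) : ℂ) - (L ((gam N ε' u : ℝ) : ℂ) : ℂ)) =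
          - ∑ u, (χ u : ℂ) * ((L ((gam N ε u : ℝ) : ℂ) : ℂ) - (L ((gam N ε' u : ℝ) : ℂ) : ℂ)) := by
        calc ∑ u, (χ u : ℂ) * ((L ((gam N ε u : ℝ) : ℂ) : ℂ) - (L ((gam N ε' u : ℝ) : ℂ) : ℂ))
            = ∑ u, (χ (-u) : ℂ) * ((L ((gam N ε (-u) : ℝ) : ℂ) : ℂ) - (L ((gam N ε' (-u) : ℝ) : ℂ) : ℂ)) :=
              (Equiv.sum_comp (Equiv.neg (ZMod N)ˣ) (fun u =>
                (χ u : ℂ) * ((L ((gam N ε u : ℝ) : ℂ) : ℂ) - (L ((gam N ε' u : ℝ) : ℂ) : ℂ)))).symm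
          _ = _ := by
              rw [← sum_neg_distrib]
              refine sum_congr rfl fun u _ => ?_
              have : χ (-u) = χ u := by
                rw [show (-u : (ZMod N)ˣ) = -1 * u by simp, map_mul, hχ1, one_mul]
              rw [hodd, this]
              ring
      have h2 : (2 : ℂ) * ∑ u, (χ u : ℂ) *
          ((L ((gam N ε u : ℝ) : ℂ) : ℂ) - (L ((gam N ε' u : ℝ) : ℂ) : ℂ)) = 0 := by
        linear_combination h1
      simpa using h2) lam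
  have h2 : (L ((gam N ε lam : ℝ) : ℂ) : ℂ) = (L ((gam N ε' lam : ℝ) : ℂ) : ℂ) := sub_eq_zero.mp hall
  exact_mod_cast h2

end Pool.Agent.T2H05.GD
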