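import Pool.Agent.T2H05.GD.OneMain
import Pool.Agent.T2H05.GD.K_TENF
import Pool.Agent.T2H05.GD.K_UNQ
import Pool.Agent.T2H05.GD.K_UNL
import Pool.Agent.T2H05.GD.K_HDK
import Pool.Agent.T2H05.GD.K_DSC5

set_option autoImplicit false

universe v

namespace Pool.Agent.T2H05.GD

open Pool.Agent.H914 Pool.Agent.H914.VarClass

theorem oneAll {𝒱 : VarClass Qbar} (T : PeriodData.{v} 𝒱)
    (hT : IsPeriodTheory T) (K : IntermediateField ℚ ℂ) (hK : AbelianField K)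
    (him : ∃ x ∈ K, x.im ≠ 0) (R : Generator T K) :
    List.TFAE [∀ F, F ≤ K → GDFor T F, GDFor T K, GDType T K R.p,
      R.toTriple.GD ∧ HodgeFor T K, R.toTriple.GD ∧ ∃ t : Triple T K, GDType T K t.p,
      R.toTriple.GD ∧ ∀ (h : Triple T K) (k : ℕ), h.p = (fun _ => k) → ∃ t, ¬ Series h t] :=
  oneMain kHDK (kDSC5 kTENF (kUNL kUNQ)) T hT K hK him R

end Pool.Agent.T2H05.GD
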