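import Pool.Agent.T2H05.GD.AllL

set_option autoImplicit false

open Finset IntermediateField CategoryTheory AlgebraicGeometry

universe v

namespace Pool.Agent.T2H05.GD

open Pool.Agent.H914 Pool.Agent.H914.VarClass
open Pool.Agent.H916R2 (OddDist SS saw)

variable {𝒱 : VarClass Qbar}

/-- The conjecture of Gross and Deligne for the admissible triples with the field `F` and with a
type of the form `q + k`, `k` a constant. -/
def GDType (T : PeriodData.{v} 𝒱) (F : IntermediateField ℚ ℂ) (q : (F →ₐ[ℚ] ℂ) → ℕ) : Prop :=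
  ∀ (X : 𝒱.Obj) (m k : ℕ) (j : F →+ T.H X m), Admissible T X m F j (fun σ => q σ + k) →
    GDAt T j (fun σ => q σ + k) (cond F)

lemma gam_add {L : ℂ → ℚ} (hL : IsLog L) (N : ℕ) [NeZero N] (ε ε' : ZMod N → ℚ) (u : (ZMod N)ˣ) :
    L ((gam N (fun a => ε a + ε' a) u : ℝ) : ℂ) =
      L ((gam N ε u : ℝ) : ℂ) + L ((gam N ε' u : ℝ) : ℂ) := by
  rw [aGAM L hL, aGAM L hL, aGAM L hL, sum_add_distrib]
  have : ∑ a, (ε a + ε' a) * cL L N ((u : ZMod N) * a) =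
      ∑ a, ε a * cL L N ((u : ZMod N) * a) + ∑ a, ε' a * cL L N ((u : ZMod N) * a) := by
    rw [← sum_add_distrib]
    exact sum_congr rfl fun a _ => by ring
  rw [this]
  ring

theorem hodge_of_type {T : PeriodData.{v} 𝒱} (hT : IsPeriodTheory T) {F : IntermediateField ℚ ℂ}
    (hF : CyclicImaginary F) (R : Reference T F) (h : GDType T F R.p) : HodgeFor T F := by
  intro X k j hadm σ P hP
  obtain ⟨hd0, hFd⟩ := cond_spec hF.1
  have hd2 := cond_two_le hF.1 hF.2.2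
  have : NeZero (cond F) := ⟨hd0.ne'⟩
  obtain ⟨hfd, res, hsurj, hres, hval, hconj⟩ := aCY (cond F) hd0 F hFd
  have := hfd
  have hr : GDAt T R.j R.p (cond F) := h R.Y R.n 0 R.j R.adm
  obtain ⟨c0, hA0, hN⟩ := refdata aEX aLIFT aAD1 aAD2 aPOL aCY aRES hT hF R.adm hr
  obtain ⟨ε0, hε0, hc0⟩ := hN (cond F) dvd_rfl hd0
  obtain ⟨c, hA⟩ := (aAD1 𝒱 T hT X (2 * k) F j _).mp hadm
  obtain ⟨j2, hA2⟩ := aTEN 𝒱 T hT R.Y X R.n (2 * k) F R.j j R.p (fun _ => k) c0 c hA0 hA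
  have hadm2 := (aAD1 𝒱 T hT _ _ F j2 _).mpr ⟨_, hA2⟩
  obtain ⟨εk, h1, h2⟩ := aCONST (cond F) k hd2
  obtain ⟨s, hs⟩ := hval σ
  obtain ⟨lam, rfl⟩ := hsurj s
  have hσ : Restr (cond F) lam σ := (hres lam σ).mpr hs
  obtain ⟨h3, P2, hP2⟩ := aAD2 𝒱 T hT _ _ F j2 _ _ hA2 σ
  have h4 := h _ _ k j2 hadm2 (fun a => ε0 a + εk a) (fun u τ hu => by
    push_cast
    have e1 := hε0 u τ hu
    have e2 := h1 u
    rw [mul_add, e1, e2, ← sum_add_distrib]
    exact sum_congr rfl fun a _ => by ring) lam σ hσ P2 hP2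
  have h5 := h3 P2 hP2
  refine ((aAD2 𝒱 T hT X (2 * k) F j _ c hA σ).1 P hP).trans ?_
  have hpi : (2 * Real.pi * Complex.I : ℂ) ≠ 0 := Complex.two_pi_I_ne_zero
  refine aSEP _ _ (hA.ne σ) (pow_ne_zero k hpi) fun L hL => ?_
  have e1 := hL.sim (hA2.ne σ) h5
  have e2 := hL.sim (gam_ne _ _ _) h4
  have e3 := hL.sim (pow_ne_zero k hpi) (h2 lam)
  rw [gam_add hL, e3, ← hc0 L hL lam σ hσ] at e2
  rw [hL.1 _ _ (hA0.ne σ) (hA.ne σ)] at e1
  linarith

theorem mainT {𝒱 : VarClass Qbar} (T : PeriodData.{v} 𝒱) (hT : IsPeriodTheory T)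
    (K : IntermediateField ℚ ℂ) (hK : AbelianField K)
    (ref : ∀ F, F ≤ K → CyclicImaginary F → Reference T F) :
    (∀ F, F ≤ K → GDFor T F) ↔
      ∀ F (h : F ≤ K) (hF : CyclicImaginary F), GDType T F (ref F h hF).p := by
  constructor
  · intro hGD F h hF X m k j hadm
    exact hGD F h X m j _ hadm
  · intro hall
    refine (mainL T hT K hK ref).mpr fun F h hF => ?_
    exact ⟨hall F h hF _ _ 0 _ (ref F h hF).adm, hodge_of_type hT hF _ (hall F h hF)⟩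

end Pool.Agent.T2H05.GD
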