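import Pool.Agent.T2H05.GD.Stm

/-! # Package AD1: admissible triples -/

set_option autoImplicit false

open CategoryTheory AlgebraicGeometry IntermediateField Finset

universe v

namespace Pool.Agent.T2H05.GD

theorem pAD1 (hLIN : S_LIN.{v}) (hIND : S_IND.{v}) : S_AD1.{v} := by
  classical
  intro 𝒱 T hT X m F _ j p
  constructor
  · intro h
    have hind : LinearIndependent ℂ (vv j) := (hIND 𝒱 T hT X m F j h.mem_B).1 h.injective
    obtain ⟨hl1, hl2⟩ := hLIN F (T.H X m) j hind
    have hc : ∀ σ : F →ₐ[ℚ] ℂ, ∃ c : ℂ, c ≠ 0 ∧ c • vv j σ ∈ T.dR X m := by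
      intro σ
      obtain ⟨w, hw0, ⟨n, z, x, hw, hy⟩, hwd⟩ := h.deRham σ
      have h1 := (hl1 σ n z x (fun y => by rw [hy y, hw])).1
      rw [← hw] at h1
      refine ⟨∑ i, z i * σ (x i), ?_, ?_⟩
      · intro h0
        rw [h0, zero_smul] at h1
        exact hw0 h1
      · rw [← h1]
        exact hwd
    choose c hc0 hcd using hc
    exact ⟨c, h.mem_B, hind, fun σ => h.hodge σ _ ⟨_, fun i => σ (db F i), fun i => bs F i, rfl,
      fun y => hl2 σ y⟩, hc0, hcd⟩
  · rintro ⟨c, h⟩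
    obtain ⟨hl1, hl2⟩ := hLIN F (T.H X m) j h.indep
    refine ⟨(hIND 𝒱 T hT X m F j h.mem_B).2 h.indep, h.mem_B, ?_, ?_⟩
    · rintro σ w ⟨n, z, x, hw, hy⟩
      have h1 := (hl1 σ n z x (fun y => by rw [hy y, hw])).1
      rw [← hw] at h1
      rw [h1]
      exact Submodule.smul_mem _ _ (h.hodge σ)
    · intro σ
      refine ⟨c σ • vv j σ, ?_, ?_, h.dR σ⟩
      · exact smul_ne_zero (h.ne σ) (h.indep.ne_zero σ)
      · refine ⟨_, fun i => c σ * σ (db F i), fun i => bs F i, ?_, ?_⟩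
        · unfold vv
          rw [Finset.smul_sum]
          exact Finset.sum_congr rfl fun i _ => smul_smul _ _ _
        · intro y
          have h1 := hl2 σ y
          rw [smul_comm (σ y) (c σ), ← h1, Finset.smul_sum]
          exact Finset.sum_congr rfl fun i _ => (smul_smul _ _ _).symm

end Pool.Agent.T2H05.GD
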