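import Pool.Agent.T2H05.GD.Stm

/-! Package AD2 of project GD (helper5), written by helper51. -/

set_option autoImplicit false

open CategoryTheory AlgebraicGeometry IntermediateField Finset

universe v

namespace Pool.Agent.T2H05.GD

open Pool.Agent.H914 Pool.Agent.H914.VarClass

private lemma ad2_alg {F : IntermediateField ℚ ℂ} [FiniteDimensional ℚ F] (σ : F →ₐ[ℚ] ℂ)
    (a : F) : IsAlgebraic ℚ (σ a) :=
  (Algebra.IsAlgebraic.isAlgebraic (R := ℚ) a).algHom σ

private lemma ad2_dep {𝒱 : VarClass Qbar} {T : PeriodData.{v} 𝒱} (hT : IsPeriodTheory T)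
    {X : 𝒱.Obj} {m : ℕ} {v : T.H X m} (hv : v ≠ 0) {A c : ℂ} (hA : A ≠ 0) (hc : c ≠ 0)
    (h1 : A • v ∈ T.dR X m) (h2 : c • v ∈ T.dR X m) :
    ∃ β : ℂ, IsAlgebraic ℚ β ∧ β ≠ 0 ∧ A = β * c := by
  have h3 : ¬ LinearIndependent ℂ ![A • v, c • v] := by
    intro h
    rw [LinearIndependent.pair_iff] at h
    have h4 := h c (-A) (by rw [smul_smul, smul_smul, ← add_smul]; ring_nf; simp)
    exact hc h4.1
  have h4 : ¬ ∀ z : Fin 2 → ℂ, (∀ i, IsAlgebraic ℚ (z i)) →
      ∑ i, z i • (![A • v, c • v] : Fin 2 → T.H X m) i = 0 → z = 0 := by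
    intro h
    apply h3
    apply hT.form_dR 2 _ _ h
    intro i
    fin_cases i
    · exact h1
    · exact h2
  push Not at h4
  obtain ⟨z, hz1, hz2, hz3⟩ := h4
  rw [Fin.sum_univ_two] at hz2
  simp only [Matrix.cons_val_zero, Matrix.cons_val_one] at hz2
  rw [smul_smul, smul_smul, ← add_smul] at hz2
  have h5 : z 0 * A + z 1 * c = 0 := by
    rcases smul_eq_zero.mp hz2 with h | h
    · exact h
    · exact absurd h hv
  have h6 : z 0 ≠ 0 := by
    intro h0
    rw [h0, zero_mul, zero_add] at h5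
    have h1' : z 1 = 0 := by
      rcases mul_eq_zero.mp h5 with h | h
      · exact h
      · exact absurd h hc
    apply hz3
    funext i
    fin_cases i
    · exact h0
    · exact h1'
  have h7 : A = (-(z 1) / z 0) * c := by
    field_simp
    linear_combination h5
  refine ⟨-(z 1) / z 0, ?_, ?_, h7⟩
  · rw [div_eq_mul_inv]
    exact (hz1 1).neg.mul (hz1 0).inv
  · intro h8
    rw [h8, zero_mul] at h7
    exact hA h7

theorem pAD2 (hLIN : S_LIN.{v}) (hFORM : S_FORM) : S_AD2.{v} := by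
  intro 𝒱 T hT X m F _ j p c hA σ
  obtain ⟨L1, L2⟩ := hLIN F (T.H X m) j hA.indep
  have hv : vv j σ ≠ 0 := hA.indep.ne_zero σ
  constructor
  · rintro P ⟨γ, hγ, n, z, x, he, hw, hdR, rfl⟩
    obtain ⟨a, ha, hγa⟩ := hFORM F γ hγ
    obtain ⟨h1, h2⟩ := L1 σ n z x he
    set A : ℂ := ∑ i, z i * σ (x i) with hAdef
    have hA0 : A ≠ 0 := by
      intro h
      rw [h1, h, zero_smul] at hw
      exact hw rfl
    rw [h1] at hdR
    obtain ⟨β, hβ1, hβ2, hβ3⟩ := ad2_dep hT hv hA0 (hA.ne σ) hdR (hA.dR σ)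
    have hσa : σ a ≠ 0 := (map_ne_zero σ).mpr ha
    refine ⟨β * σ a, hβ1.mul (ad2_alg σ a), mul_ne_zero hβ2 hσa, ?_⟩
    have h3 : ∑ i, z i * ((γ (x i) : ℚ) : ℂ) = A * σ a := by
      calc ∑ i, z i * ((γ (x i) : ℚ) : ℂ)
          = ∑ i, ∑ τ : F →ₐ[ℚ] ℂ, z i * τ (x i) * τ a := by
            refine sum_congr rfl fun i _ => ?_
            rw [hγa, mul_sum]
            refine sum_congr rfl fun τ _ => ?_
            ring
        _ = ∑ τ : F →ₐ[ℚ] ℂ, (∑ i, z i * τ (x i)) * τ a := by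
            rw [sum_comm]
            refine sum_congr rfl fun τ _ => ?_
            rw [sum_mul]
        _ = (∑ i, z i * σ (x i)) * σ a := by
            rw [sum_eq_single σ]
            · intro τ _ hτ
              rw [h2 τ hτ, zero_mul]
            · intro h
              exact absurd (mem_univ σ) h
    rw [h3, hβ3]
    ring
  · have he : ∀ y : F, ∑ i, (c σ * σ (db F i)) • j (y * bs F i) = (σ y * c σ) • vv j σ := by
      intro y
      have h1 : ∑ i, (c σ * σ (db F i)) • j (y * bs F i) =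
          c σ • ∑ i, σ (db F i) • j (y * bs F i) := by
        rw [smul_sum]
        refine sum_congr rfl fun i _ => ?_
        rw [smul_smul]
      rw [h1, L2 σ y, smul_smul, mul_comm]
    have he1 : ∑ i, (c σ * σ (db F i)) • j (bs F i) = c σ • vv j σ := by
      have h1 := he 1
      simpa using h1
    refine ⟨_, Algebra.trace ℚ F, Algebra.trace_ne_zero ℚ F, _,
      fun i => c σ * σ (db F i), fun i => bs F i, ?_, ?_, ?_, rfl⟩
    · intro y
      rw [he y, he1, smul_smul]
    · rw [he1]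
      exact smul_ne_zero (hA.ne σ) hv
    · rw [he1]
      exact hA.dR σ

end Pool.Agent.T2H05.GD
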