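import Pool.Agent.T2H05.GD.Stm

set_option autoImplicit false

open CategoryTheory AlgebraicGeometry IntermediateField Finset

universe v

namespace Pool.Agent.T2H05.GD

/-- CHI: orthogonality of characters of a finite abelian group. -/
theorem pCHI : S_CHI := by
  intro G _ _ r h k
  classical
  have : NeZero (Monoid.exponent G) := ⟨Monoid.exponent_ne_zero_of_finite⟩
  obtain ⟨e⟩ := CommGroup.monoidHom_mulEquiv_of_hasEnoughRootsOfUnity G ℂ
  have : Fintype (G →* ℂˣ) := Fintype.ofEquiv G e.symm.toEquiv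
  have key : ∀ g : G, g ≠ 1 → ∑ χ : G →* ℂˣ, (χ g : ℂ) = 0 := by
    intro g hg
    obtain ⟨χ₀, h0⟩ := CommGroup.exists_apply_ne_one_of_hasEnoughRootsOfUnity G ℂ hg
    have h1 : ∑ χ : G →* ℂˣ, (χ g : ℂ) = (χ₀ g : ℂ) * ∑ χ : G →* ℂˣ, (χ g : ℂ) := by
      rw [mul_sum]
      refine (Fintype.sum_equiv (Equiv.mulLeft χ₀) _ _ ?_).symm
      intro χ
      simp
    have h2 : (χ₀ g : ℂ) ≠ 1 := by
      intro h3
      exact h0 (Units.ext h3)
    have h3 : ((χ₀ g : ℂ) - 1) * ∑ χ : G →* ℂˣ, (χ g : ℂ) = 0 := by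
      rw [sub_mul, one_mul, ← h1, sub_self]
    rcases mul_eq_zero.mp h3 with h4 | h4
    · exact absurd (sub_eq_zero.mp h4) h2
    · exact h4
  have h5 : ∑ χ : G →* ℂˣ, (χ k⁻¹ : ℂ) * ∑ g, (χ g : ℂ) * r g = 0 :=
    Finset.sum_eq_zero fun χ _ => by rw [h χ, mul_zero]
  have h6 : ∑ χ : G →* ℂˣ, (χ k⁻¹ : ℂ) * ∑ g, (χ g : ℂ) * r g =
      ∑ g, (∑ χ : G →* ℂˣ, (χ (k⁻¹ * g) : ℂ)) * r g := by
    simp_rw [mul_sum, sum_mul]
    rw [sum_comm]
    refine sum_congr rfl fun g _ => sum_congr rfl fun χ _ => ?_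
    rw [map_mul, Units.val_mul, mul_assoc]
  rw [h6, sum_eq_single k] at h5
  · rcases mul_eq_zero.mp h5 with h7 | h7
    · exfalso
      simp at h7
    · exact h7
  · intro b _ hb
    rw [key, zero_mul]
    intro h8
    exact hb (by rw [← inv_mul_eq_one.mp h8])
  · intro h9
    exact absurd (mem_univ k) h9

end Pool.Agent.T2H05.GD
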