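import Pool.Agent.T2H05.GD.Stm

set_option autoImplicit false

open CategoryTheory AlgebraicGeometry IntermediateField Finset

universe v

namespace Pool.Agent.T2H05.GD

private lemma CONST_sum (N : ℕ) (hN : 2 ≤ N) (u : (ZMod N)ˣ) :
    2 * ∑ a ∈ Ioo 0 N, ((((u : ZMod N) * (a : ZMod N)).val : ℕ) : ℚ) = N * (N - 1) := by
  have : NeZero N := ⟨by omega⟩
  have h1 : ∑ a ∈ Ioo 0 N, ((((u : ZMod N) * (a : ZMod N)).val : ℕ) : ℚ) =
      ∑ a ∈ univ.erase (0 : ZMod N), ((((u : ZMod N) * a).val : ℕ) : ℚ) :=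
    sum_Ioo_zmod N fun a => ((((u : ZMod N) * a).val : ℕ) : ℚ)
  have h2 : ∑ a ∈ univ.erase (0 : ZMod N), ((((u : ZMod N) * a).val : ℕ) : ℚ) =
      ∑ a ∈ univ.erase (0 : ZMod N), ((a.val : ℕ) : ℚ) := by
    refine sum_nbij' (fun a => (u : ZMod N) * a) (fun a => ((u⁻¹ : (ZMod N)ˣ) : ZMod N) * a)
      ?_ ?_ ?_ ?_ ?_
    · intro a ha
      simp only [mem_erase, mem_univ, and_true, ne_eq] at ha ⊢
      rwa [Units.mul_right_eq_zero]
    · intro a ha
      simp only [mem_erase, mem_univ, and_true, ne_eq] at ha ⊢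
      rwa [Units.mul_right_eq_zero]
    · intro a _
      rw [← mul_assoc, Units.inv_mul, one_mul]
    · intro a _
      rw [← mul_assoc, Units.mul_inv, one_mul]
    · intro a _
      rfl
  have h3 : ∑ a ∈ univ.erase (0 : ZMod N), ((a.val : ℕ) : ℚ) = ∑ a ∈ Ioo 0 N, (a : ℚ) := by
    rw [← sum_Ioo_zmod N fun a => ((a.val : ℕ) : ℚ)]
    refine sum_congr rfl fun a ha => ?_
    rw [ZMod.val_cast_of_lt (mem_Ioo.1 ha).2]
  have h4 : ∑ a ∈ Ioo 0 N, (a : ℚ) = ∑ a ∈ range N, (a : ℚ) := by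
    refine sum_subset (fun a ha => mem_range.2 (mem_Ioo.1 ha).2) ?_
    intro a ha ha'
    have : a = 0 := by
      by_contra h
      exact ha' (mem_Ioo.2 ⟨Nat.pos_of_ne_zero h, mem_range.1 ha⟩)
    rw [this, Nat.cast_zero]
  have h5 : ∀ M : ℕ, 2 * ∑ a ∈ range M, (a : ℚ) = M * (M - 1) := by
    intro M
    induction M with
    | zero => simp
    | succ M ih =>
      rw [sum_range_succ, mul_add, ih]
      push_cast
      ring
  rw [h1, h2, h3, h4, h5]

private lemma CONST_prodAlg (s : Finset ℕ) (f : ℕ → ℂ) (hf : ∀ a ∈ s, IsAlgebraic ℚ (f a)) :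
    IsAlgebraic ℚ (∏ a ∈ s, f a) := by
  classical
  induction s using Finset.induction_on with
  | empty => rw [prod_empty]; exact isAlgebraic_one
  | insert a s ha ih =>
    rw [prod_insert ha]
    exact (hf a (mem_insert_self a s)).mul (ih fun b hb => hf b (mem_insert_of_mem hb))

theorem pCONST (hRF : S_RF) : S_CONST := by
  intro N k hN
  have hN0 : (N : ℚ) - 1 ≠ 0 := by
    have : (2 : ℚ) ≤ N := by exact_mod_cast hN
    intro h
    linarith
  have hN1 : (N : ℝ) - 1 ≠ 0 := by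
    have : (2 : ℝ) ≤ N := by exact_mod_cast hN
    intro h
    linarith
  have hNpos : (0 : ℝ) < N := by
    have : 0 < N := by omega
    exact_mod_cast this
  refine ⟨fun _ => 2 * k / (N - 1), ?_, ?_⟩
  · intro u
    rw [← mul_sum]
    have h := CONST_sum N hN u
    field_simp
    linear_combination (-(k : ℚ)) * h
  · intro u
    -- the product
    obtain ⟨G, hG⟩ : ∃ G : ℝ, G = ∏ a ∈ Ioo 0 N, Real.Gamma (1 - (a : ℝ) / N) := ⟨_, rfl⟩
    have hlt : ∀ a ∈ Ioo 0 N, (0 : ℝ) < (a : ℝ) / N ∧ (a : ℝ) / N < 1 := by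
      intro a ha
      rw [mem_Ioo] at ha
      have h1 : (0 : ℝ) < a := by exact_mod_cast ha.1
      have h2 : (a : ℝ) < N := by exact_mod_cast ha.2
      exact ⟨by positivity, (div_lt_one hNpos).2 h2⟩
    have hGpos : ∀ a ∈ Ioo 0 N, 0 < Real.Gamma (1 - (a : ℝ) / N) := fun a ha =>
      Real.Gamma_pos_of_pos (by linarith [(hlt a ha).2])
    have hGpos' : ∀ a ∈ Ioo 0 N, 0 < Real.Gamma ((a : ℝ) / N) := fun a ha =>
      Real.Gamma_pos_of_pos (hlt a ha).1
    have hG0 : 0 < G := by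
      rw [hG]
      exact prod_pos hGpos
    have hG' : G = ∏ a ∈ Ioo 0 N, Real.Gamma ((a : ℝ) / N) := by
      rw [hG]
      refine prod_nbij' (fun a => N - a) (fun a => N - a) ?_ ?_ ?_ ?_ ?_
      · intro a ha
        rw [mem_Ioo] at ha ⊢
        omega
      · intro a ha
        rw [mem_Ioo] at ha ⊢
        omega
      · intro a ha
        rw [mem_Ioo] at ha
        show N - (N - a) = a
        omega
      · intro a ha
        rw [mem_Ioo] at ha
        show N - (N - a) = a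
        omega
      · intro a ha
        rw [mem_Ioo] at ha
        rw [Nat.cast_sub ha.2.le]
        congr 1
        field_simp
    obtain ⟨A, hA⟩ : ∃ A : ℝ, A = ∏ a ∈ Ioo 0 N,
      (Real.Gamma ((a : ℝ) / N) * Real.Gamma (1 - (a : ℝ) / N) / Real.pi) := ⟨_, rfl⟩
    have hA0 : 0 < A := by
      rw [hA]
      exact prod_pos fun a ha => div_pos (mul_pos (hGpos' a ha) (hGpos a ha)) Real.pi_pos
    have hG2 : G ^ 2 = Real.pi ^ (N - 1) * A := by
      rw [hA, prod_div_distrib, prod_mul_distrib, ← hG', ← hG, prod_const, Nat.card_Ioo,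
        Nat.sub_zero]
      have : Real.pi ^ (N - 1) ≠ 0 := pow_ne_zero _ Real.pi_ne_zero
      field_simp
    have hAalg : IsAlgebraic ℚ (A : ℂ) := by
      rw [hA]
      push_cast
      apply CONST_prodAlg
      intro a ha
      have h1 := hlt a ha
      have h2 : (0 : ℚ) < (a : ℚ) / N := by
        have := h1.1
        have h3 : (((a : ℚ) / N : ℚ) : ℝ) = (a : ℝ) / N := by push_cast; rfl
        rw [← h3] at this
        exact_mod_cast this
      have h3 : (a : ℚ) / N < 1 := by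
        have := h1.2
        have h3 : (((a : ℚ) / N : ℚ) : ℝ) = (a : ℝ) / N := by push_cast; rfl
        rw [← h3] at this
        exact_mod_cast this
      obtain ⟨α, hα, hα0, hα1⟩ := hRF ((a : ℚ) / N) h2 h3
      have h4 : ((Real.Gamma ((a : ℝ) / N) : ℝ) : ℂ) * ((Real.Gamma (1 - (a : ℝ) / N) : ℝ) : ℂ) /
          (Real.pi : ℂ) = α := by
        rw [div_eq_iff (by exact_mod_cast Real.pi_ne_zero), ← hα1]
        push_cast
        rfl
      rw [h4]
      exact hα
    -- the root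
    obtain ⟨B, hB⟩ : ∃ B : ℝ, B = A ^ ((k : ℝ) / (N - 1)) := ⟨_, rfl⟩
    have hB0 : 0 < B := by rw [hB]; positivity
    have hcast : (((N - 1 : ℕ) : ℝ)) = (N : ℝ) - 1 := by
      rw [Nat.cast_sub (by omega), Nat.cast_one]
    have hBp : B ^ (N - 1) = A ^ k := by
      rw [hB, ← Real.rpow_natCast, ← Real.rpow_mul hA0.le, hcast, div_mul_cancel₀ _ hN1,
        Real.rpow_natCast]
    have hBalg : IsAlgebraic ℚ (B : ℂ) := by
      apply IsAlgebraic.of_pow (n := N - 1) (by omega)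
      have : ((B : ℂ)) ^ (N - 1) = (A : ℂ) ^ k := by exact_mod_cast hBp
      rw [this]
      exact hAalg.pow k
    have hgam : gam N (fun _ => 2 * (k : ℚ) / (N - 1)) u = Real.pi ^ k * B := by
      unfold gam
      have h1 : (((2 * (k : ℚ) / (N - 1) : ℚ)) : ℝ) = 2 * ((k : ℝ) / (N - 1)) := by
        push_cast
        ring
      rw [Real.finsetProd_rpow _ _ fun a ha => (hGpos a ha).le, ← hG, h1,
        Real.rpow_mul hG0.le, Real.rpow_two, hG2,
        Real.mul_rpow (by positivity) hA0.le, ← hB, ← Real.rpow_natCast Real.pi (N - 1),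
        ← Real.rpow_mul Real.pi_pos.le, hcast, mul_div_cancel₀ _ hN1, Real.rpow_natCast]
    have hI : IsAlgebraic ℚ Complex.I := by
      apply IsAlgebraic.of_pow (n := 2) (by norm_num)
      rw [Complex.I_sq]
      exact isAlgebraic_one.neg
    have h2I : IsAlgebraic ℚ ((2 * Complex.I) ^ k) := by
      have h2 : IsAlgebraic ℚ (2 : ℂ) := by
        have := isAlgebraic_natCast (R := ℚ) (A := ℂ) 2
        exact_mod_cast this
      exact (h2.mul hI).pow k
    have hne : (2 * Complex.I) ^ k ≠ 0 := pow_ne_zero _ (by simp)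
    refine ⟨(B : ℂ) * ((2 * Complex.I) ^ k)⁻¹, hBalg.mul h2I.inv,
      mul_ne_zero (by exact_mod_cast hB0.ne') (inv_ne_zero hne), ?_⟩
    rw [hgam]
    have : (2 * Real.pi * Complex.I : ℂ) ^ k = (2 * Complex.I) ^ k * (Real.pi : ℂ) ^ k := by
      rw [← mul_pow]
      congr 1
      ring
    rw [this, mul_assoc, ← mul_assoc (((2 * Complex.I) ^ k)⁻¹), inv_mul_cancel₀ hne, one_mul]
    push_cast
    ring

end Pool.Agent.T2H05.GD
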