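import Pool.Agent.T2H05.GD.Stm

set_option autoImplicit false

open CategoryTheory AlgebraicGeometry IntermediateField Finset

universe v

namespace Pool.Agent.T2H05.GD

open Pool.Agent.H914 Pool.Agent.H914.VarClass

namespace PkgCY

lemma prim (N : ℕ) [NeZero N] : IsPrimitiveRoot (zt N) N :=
  Complex.isPrimitiveRoot_exp N (NeZero.ne N)

lemma cyc (N : ℕ) [NeZero N] : IsCyclotomicExtension {N} ℚ ℚ⟮zt N⟯ := by
  change IsCyclotomicExtension {N} ℚ (ℚ⟮zt N⟯).toSubalgebra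
  have hint : IsIntegral ℚ (zt N) := (prim N).isIntegral (NeZero.pos N) |>.tower_top
  rw [IntermediateField.adjoin_simple_toSubalgebra_of_isAlgebraic hint.isAlgebraic]
  exact (prim N).adjoin_isCyclotomicExtension ℚ

/-- automorphisms: power map on the generator -/
lemma exists_hom (N : ℕ) [NeZero N] : ∃ f : (ZMod N)ˣ →* (ℚ⟮zt N⟯ ≃ₐ[ℚ] ℚ⟮zt N⟯),
    Function.Surjective f ∧ ∀ u, f u (AdjoinSimple.gen ℚ (zt N)) =
      (AdjoinSimple.gen ℚ (zt N)) ^ (u : ZMod N).val := by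
  haveI := cyc N
  have irr : Irreducible (Polynomial.cyclotomic N ℚ) :=
    Polynomial.cyclotomic.irreducible_rat (NeZero.pos N)
  refine ⟨(IsCyclotomicExtension.autEquivPow ℚ⟮zt N⟯ irr).symm.toMonoidHom,
    (IsCyclotomicExtension.autEquivPow ℚ⟮zt N⟯ irr).symm.surjective, ?_⟩
  intro u
  have hz := IsCyclotomicExtension.zeta_spec N ℚ ℚ⟮zt N⟯
  have hg : IsPrimitiveRoot (AdjoinSimple.gen ℚ (zt N)) N := by
    apply IsPrimitiveRoot.of_map_of_injective (f := (ℚ⟮zt N⟯).val)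
    · rw [IntermediateField.coe_val, AdjoinSimple.coe_gen]
      exact prim N
    · exact Subtype.val_injective
  obtain ⟨k, _, hk⟩ := hz.eq_pow_of_pow_eq_one hg.pow_eq_one
  set g := (IsCyclotomicExtension.autEquivPow ℚ⟮zt N⟯ irr).symm u with hgdef
  have h1 : (IsCyclotomicExtension.autEquivPow ℚ⟮zt N⟯ irr) g = u := by
    rw [hgdef, MulEquiv.apply_symm_apply]
  have h2 := hz.autToPow_spec ℚ g
  have h3 : (hz.autToPow ℚ) g = u := by
    rw [← h1]; rfl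
  rw [h3] at h2
  show g (AdjoinSimple.gen ℚ (zt N)) = _
  rw [← hk, map_pow, ← h2, ← pow_mul, ← pow_mul, mul_comm]

/-- homomorphisms on `ℚ(ζ)` are determined by the generator -/
lemma hom_ext (N : ℕ) (f g : ℚ⟮zt N⟯ →ₐ[ℚ] ℂ)
    (h : f (AdjoinSimple.gen ℚ (zt N)) = g (AdjoinSimple.gen ℚ (zt N))) : f = g := by
  apply adjoin_algHom_ext
  intro x hx
  have hx' : x = zt N := hx
  subst hx'
  exact h

lemma neg_one (N : ℕ) [NeZero N] : zt N ^ (((-1 : (ZMod N)ˣ) : ZMod N)).val =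
    (starRingEnd ℂ) (zt N) := by
  have h1 : zt N * (starRingEnd ℂ) (zt N) = 1 := by
    rw [Complex.mul_conj, Complex.normSq_eq_norm_sq]
    rw [(prim N).norm'_eq_one (NeZero.ne N)]
    simp
  have h2 : zt N * zt N ^ (((-1 : (ZMod N)ˣ) : ZMod N)).val = 1 := by
    rw [← pow_succ', (prim N).pow_eq_one_iff_dvd, ← ZMod.natCast_eq_zero_iff]
    push_cast
    rw [ZMod.natCast_zmod_val]
    simp
  have h3 : zt N ≠ 0 := (prim N).ne_zero (NeZero.ne N)
  exact mul_left_cancel₀ h3 (h2.trans h1.symm)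

end PkgCY

open PkgCY

theorem pCY : S_CY := by
  intro N hN F hF
  haveI : NeZero N := ⟨hN.ne'⟩
  haveI := cyc N
  haveI : IsAbelianGalois ℚ ℚ⟮zt N⟯ := IsCyclotomicExtension.isAbelianGalois {N} ℚ _
  haveI : FiniteDimensional ℚ ℚ⟮zt N⟯ := IsCyclotomicExtension.finiteDimensional {N} ℚ _
  let inc : F →ₐ[ℚ] ℚ⟮zt N⟯ := IntermediateField.inclusion hF
  haveI : IsAbelianGalois ℚ F := IsAbelianGalois.of_algHom inc
  have hfd : FiniteDimensional ℚ F :=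
    FiniteDimensional.of_injective (IntermediateField.inclusion hF).toLinearMap
      (IntermediateField.inclusion_injective hF)
  letI : Algebra F ℚ⟮zt N⟯ := (IntermediateField.inclusion hF).toRingHom.toAlgebra
  haveI : IsScalarTower ℚ F ℚ⟮zt N⟯ :=
    IsScalarTower.of_algebraMap_eq' (IntermediateField.inclusion hF).comp_algebraMap.symm
  obtain ⟨f, hfs, hfg⟩ := exists_hom N
  have hmap : ∀ x : F, ((algebraMap F ℚ⟮zt N⟯ x : ℚ⟮zt N⟯) : ℂ) = (x : ℂ) := fun x => rfl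
  have hres : ∀ (u : (ZMod N)ˣ) (x : F),
      ((((AlgEquiv.restrictNormalHom F).comp f) u x : F) : ℂ) =
        ((f u (algebraMap F ℚ⟮zt N⟯ x) : ℚ⟮zt N⟯) : ℂ) := by
    intro u x
    rw [← hmap]
    congr 1
    exact AlgEquiv.restrictNormal_commutes (f u) F x
  refine ⟨hfd, (AlgEquiv.restrictNormalHom F).comp f, ?_, ?_, ?_, ?_⟩
  · exact (AlgEquiv.restrictNormalHom_surjective (E := ℚ⟮zt N⟯) (K₁ := F)).comp hfs
  · intro u σ
    constructor
    · rintro ⟨τ, hτ1, hτ2⟩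
      have hτ : τ = (ℚ⟮zt N⟯).val.comp (f u : ℚ⟮zt N⟯ →ₐ[ℚ] ℚ⟮zt N⟯) := by
        apply hom_ext
        rw [hτ1]
        show _ = ((f u (AdjoinSimple.gen ℚ (zt N)) : ℚ⟮zt N⟯) : ℂ)
        rw [hfg]
        simp
      apply AlgHom.ext
      intro x
      show σ x = ((((AlgEquiv.restrictNormalHom F).comp f) u x : F) : ℂ)
      rw [hres, ← hτ2 x x.2 (hF x.2), hτ]
      rfl
    · intro hσ
      refine ⟨(ℚ⟮zt N⟯).val.comp (f u : ℚ⟮zt N⟯ →ₐ[ℚ] ℚ⟮zt N⟯), ?_, ?_⟩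
      · show ((f u (AdjoinSimple.gen ℚ (zt N)) : ℚ⟮zt N⟯) : ℂ) = _
        rw [hfg]
        simp
      · intro x h h'
        rw [hσ]
        show _ = ((((AlgEquiv.restrictNormalHom F).comp f) u ⟨x, h⟩ : F) : ℂ)
        rw [hres]
        rfl
  · intro σ
    refine ⟨Normal.algHomEquivAut ℚ ℂ F σ, ?_⟩
    have := (Normal.algHomEquivAut ℚ ℂ F).symm_apply_apply σ
    conv_lhs => rw [← this]
    rfl
  · intro x
    rw [hres]
    have h1 : (ℚ⟮zt N⟯).val.comp (f (-1) : ℚ⟮zt N⟯ →ₐ[ℚ] ℚ⟮zt N⟯) =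
        (Complex.conjAe.restrictScalars ℚ : ℂ →ₐ[ℚ] ℂ).comp (ℚ⟮zt N⟯).val := by
      apply hom_ext
      show ((f (-1) (AdjoinSimple.gen ℚ (zt N)) : ℚ⟮zt N⟯) : ℂ) =
        (starRingEnd ℂ) ((AdjoinSimple.gen ℚ (zt N) : ℚ⟮zt N⟯) : ℂ)
      rw [hfg]
      have h2 := neg_one N
      simpa using h2
    have h2 := AlgHom.congr_fun h1 (algebraMap F ℚ⟮zt N⟯ x)
    exact h2

end Pool.Agent.T2H05.GD
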