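import Pool.Agent.T2H05.GD.Stm

/-! # Package DIST -/

set_option autoImplicit false

open Finset

namespace Pool.Agent.T2H05.GD

open Pool.Agent.H916R2 (OddDist SS saw)

namespace PkgDIST

lemma gam_ne {x : ℝ} (hx : 0 < x) : ((Real.Gamma x : ℝ) : ℂ) ≠ 0 := by
  exact_mod_cast (Real.Gamma_pos_of_pos hx).ne'

lemma pi_ne : (Real.pi : ℂ) ≠ 0 := by exact_mod_cast Real.pi_ne_zero

/-- the value at a natural number -/
lemma cL_nat (L : ℂ → ℚ) (N : ℕ) [NeZero N] {x : ℕ} (hx : x < N) :
    cL L N (x : ZMod N) = if x = 0 then 0 else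
      L ((Real.Gamma ((x : ℝ) / N) : ℝ) : ℂ) - L (Real.pi : ℂ) / 2 := by
  unfold cL
  rw [ZMod.val_natCast, Nat.mod_eq_of_lt hx]
  by_cases h : x = 0
  · subst h; simp
  · rw [if_neg h, if_neg]
    intro h'
    rw [ZMod.natCast_eq_zero_iff] at h'
    exact h (Nat.eq_zero_of_dvd_of_lt h' hx)

lemma neg (hRF : S_RF) {L : ℂ → ℚ} (hL : IsLog L) (N : ℕ) [NeZero N] (a : ZMod N) :
    cL L N (-a) = - cL L N a := by
  by_cases h : a = 0
  · subst h
    simp [cL]
  · have hna : -a ≠ 0 := neg_ne_zero.2 h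
    unfold cL
    rw [if_neg h, if_neg hna]
    have hN : (0 : ℝ) < N := by exact_mod_cast NeZero.pos N
    have hv0 : 0 < a.val := Nat.pos_of_ne_zero fun h0 => h ((ZMod.val_eq_zero a).1 h0)
    have hvN : a.val < N := ZMod.val_lt a
    have hnv : (-a).val = N - a.val := by
      rw [ZMod.neg_val, if_neg h]
    set x : ℚ := (a.val : ℚ) / N with hx
    have hNq : (0 : ℚ) < N := by exact_mod_cast NeZero.pos N
    have hx0 : 0 < x := div_pos (by exact_mod_cast hv0) hNq
    have hx1 : x < 1 := by
      rw [hx, div_lt_one hNq]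
      exact_mod_cast hvN
    have hxr : (x : ℝ) = (a.val : ℝ) / N := by rw [hx]; push_cast; ring
    have h1 := hRF x hx0 hx1
    have h2 := hL.sim pi_ne h1
    rw [hxr] at h2
    have hx0' : 0 < (a.val : ℝ) / N := div_pos (by exact_mod_cast hv0) hN
    have hx1' : 0 < 1 - (a.val : ℝ) / N := by
      rw [sub_pos, div_lt_one hN]
      exact_mod_cast hvN
    rw [Complex.ofReal_mul, hL.1 _ _ (gam_ne hx0') (gam_ne hx1')] at h2
    have h3 : (((-a).val : ℕ) : ℝ) / N = 1 - (a.val : ℝ) / N := by
      rw [hnv, Nat.cast_sub hvN.le]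
      field_simp
    rw [h3]
    linarith

end PkgDIST

open PkgDIST

theorem pDIST (hRF : S_RF) (hGM : S_GM) : S_DIST := by
  intro L hL N hNN
  have hneg := neg hRF hL N
  refine ⟨hneg, ?_, ?_⟩
  · intro a ha
    have h1 : -a = a := by
      rw [neg_eq_iff_add_eq_zero]; exact ha
    have h2 := hneg a
    rw [h1] at h2
    linarith
  · intro p d hpp hpd a
    have hm : 0 < N := NeZero.pos N
    have hd : 0 < d := Nat.pos_of_ne_zero (by rintro rfl; simp at hpd; omega)
    have hp : 0 < p := hpp.pos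
    set r := a.val % d with hr
    set j := a.val / d with hj
    have hrd : r < d := Nat.mod_lt _ hd
    have ha : a = (r : ZMod N) + (j : ZMod N) * d := by
      have : a.val = r + j * d := by rw [hr, hj, mul_comm]; exact (Nat.mod_add_div _ _).symm
      calc a = ((a.val : ℕ) : ZMod N) := (ZMod.natCast_zmod_val a).symm
        _ = ((r + j * d : ℕ) : ZMod N) := by rw [← this]
        _ = _ := by push_cast; ring
    have hpd0 : ((p : ℕ) : ZMod N) * (d : ZMod N) = 0 := by
      have : ((p * d : ℕ) : ZMod N) = 0 := by rw [hpd]; simp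
      simpa using this
    have hpa : (p : ZMod N) * a = ((p * r : ℕ) : ZMod N) := by
      rw [ha]; push_cast
      linear_combination (j : ZMod N) * hpd0
    have hLs : ∑ i ∈ range p, cL L N (a + (i : ZMod N) * (d : ZMod N)) =
        ∑ i ∈ range p, cL L N ((r : ZMod N) + (i : ZMod N) * (d : ZMod N)) := by
      conv_lhs => rw [ha]
      exact Pool.Agent.H916R2.coset_sum_shift_mul (fun b => cL L N b) hpd (r : ZMod N) j
    rw [hLs, hpa]
    have hprm : p * r < N := by
      calc p * r < p * d := Nat.mul_lt_mul_of_pos_left hrd hp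
        _ = N := hpd
    by_cases h0 : r = 0
    · rw [h0, mul_zero, Nat.cast_zero]
      have hc0 : cL L N 0 = 0 := by simp [cL]
      rw [hc0]
      have h1 := Pool.Agent.H916R2.coset_sum_unit (fun b => cL L N b) hpd (-1) 0
      have h2 : ∑ i ∈ range p, cL L N (((-1 : (ZMod N)ˣ) : ZMod N) * (0 + (i : ZMod N) * (d : ZMod N))) =
          - ∑ i ∈ range p, cL L N (0 + (i : ZMod N) * (d : ZMod N)) := by
        rw [← Finset.sum_neg_distrib]
        refine Finset.sum_congr rfl fun i _ => ?_
        rw [← hneg]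
        congr 1
        simp
      have h3 : ∑ i ∈ range p, cL L N (((-1 : (ZMod N)ˣ) : ZMod N) * 0 + (i : ZMod N) * (d : ZMod N)) =
          ∑ i ∈ range p, cL L N (0 + (i : ZMod N) * (d : ZMod N)) := by
        rw [mul_zero]
      rw [h2, h3] at h1
      linarith
    · have hNr : (0 : ℝ) < N := by exact_mod_cast hm
      have hdr : (0 : ℝ) < d := by exact_mod_cast hd
      have hpr : (0 : ℝ) < p := by exact_mod_cast hp
      have hr0 : 0 < r := Nat.pos_of_ne_zero h0
      have hrr : (0 : ℝ) < r := by exact_mod_cast hr0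
      have hNpd : (N : ℝ) = p * d := by exact_mod_cast hpd.symm
      set t : ℚ := (r : ℚ) / d with ht
      have ht0 : 0 < t := div_pos (by exact_mod_cast hr0) (by exact_mod_cast hd)
      have htr : (t : ℝ) = (r : ℝ) / d := by rw [ht]; push_cast; ring
      have hterm : ∀ i ∈ range p, cL L N ((r : ZMod N) + (i : ZMod N) * (d : ZMod N)) =
          L ((Real.Gamma (((t : ℝ) + i) / p) : ℝ) : ℂ) - L (Real.pi : ℂ) / 2 := by
        intro i hi
        have hi' : i < p := mem_range.mp hi
        have hlt : r + i * d < N := by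
          calc r + i * d < d + i * d := by omega
            _ = (i + 1) * d := by ring
            _ ≤ p * d := Nat.mul_le_mul_right _ hi'
            _ = N := hpd
        have e1 : (r : ZMod N) + (i : ZMod N) * d = ((r + i * d : ℕ) : ZMod N) := by push_cast; ring
        rw [e1, cL_nat L N hlt, if_neg (by omega)]
        have e2 : ((r + i * d : ℕ) : ℝ) / N = ((t : ℝ) + i) / p := by
          rw [htr, hNpd]
          push_cast
          field_simp
        rw [e2]
      rw [Finset.sum_congr rfl hterm, Finset.sum_sub_distrib, Finset.sum_const, Finset.card_range,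
        nsmul_eq_mul, cL_nat L N hprm, if_neg (by positivity)]
      have hpos : ∀ i ∈ range p, 0 < ((t : ℝ) + i) / p := by
        intro i _
        have : (0 : ℝ) < t := by exact_mod_cast ht0
        positivity
      have hΓt : 0 < Real.Gamma (t : ℝ) := Real.Gamma_pos_of_pos (by exact_mod_cast ht0)
      have h1 := hGM p t hp ht0
      have hne : ((Real.pi ^ (p - 1) * Real.Gamma t ^ 2 : ℝ) : ℂ) ≠ 0 := by
        have : Real.pi ^ (p - 1) * Real.Gamma t ^ 2 ≠ 0 := by
          have := Real.pi_pos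
          positivity
        exact_mod_cast this
      have h2 := hL.sim hne h1
      have hprodne : ((∏ k ∈ range p, Real.Gamma (((t : ℝ) + k) / p) : ℝ) : ℂ) ≠ 0 := by
        have : ∏ k ∈ range p, Real.Gamma (((t : ℝ) + k) / p) ≠ 0 :=
          Finset.prod_ne_zero_iff.2 fun k hk => (Real.Gamma_pos_of_pos (hpos k hk)).ne'
        exact_mod_cast this
      have e3 : L (((∏ k ∈ range p, Real.Gamma (((t : ℝ) + k) / p)) ^ 2 : ℝ) : ℂ) =
          2 * ∑ i ∈ range p, L ((Real.Gamma (((t : ℝ) + i) / p) : ℝ) : ℂ) := by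
        rw [Complex.ofReal_pow, hL.pow hprodne, Complex.ofReal_prod, hL.prod _ _ fun i hi => gam_ne (hpos i hi)]
        norm_num
      have e4 : L ((Real.pi ^ (p - 1) * Real.Gamma t ^ 2 : ℝ) : ℂ) =
          ((p : ℚ) - 1) * L (Real.pi : ℂ) + 2 * L ((Real.Gamma (t : ℝ) : ℝ) : ℂ) := by
        have hpn : ((Real.pi : ℂ)) ^ (p - 1) ≠ 0 := pow_ne_zero _ pi_ne
        have hgn : (((Real.Gamma (t : ℝ) : ℝ)) : ℂ) ≠ 0 := by exact_mod_cast hΓt.ne'
        rw [Complex.ofReal_mul, Complex.ofReal_pow, Complex.ofReal_pow, hL.1 _ _ hpn (pow_ne_zero 2 hgn),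
          hL.pow pi_ne, hL.pow hgn, Nat.cast_sub hp]
        push_cast
        ring
      rw [e3, e4] at h2
      have e5 : ((p * r : ℕ) : ℝ) / N = (t : ℝ) := by
        rw [htr, hNpd]
        push_cast
        field_simp
      rw [e5]
      linarith

end Pool.Agent.T2H05.GD
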