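import Pool.Agent.T2H05.GD.Stm

/-! # Package DU: duality of the bases under embeddings -/

set_option autoImplicit false

open CategoryTheory AlgebraicGeometry IntermediateField Finset

universe v

namespace Pool.Agent.T2H05.GD

private lemma du_trace (F : IntermediateField ℚ ℂ) [FiniteDimensional ℚ F] (x : F) :
    ((Algebra.trace ℚ F x : ℚ) : ℂ) = ∑ σ : F →ₐ[ℚ] ℂ, σ x := by
  have h := trace_eq_sum_embeddings (K := ℚ) (L := F) ℂ (x := x)
  rw [← h]
  rfl

private lemma du_db (F : IntermediateField ℚ ℂ) [FiniteDimensional ℚ F] :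
    db F = (bs F).traceDual := rfl

private lemma du_repr (F : IntermediateField ℚ ℂ) [FiniteDimensional ℚ F] (x : F) :
    x = ∑ i, (Algebra.trace ℚ F (x * db F i)) • bs F i := by
  conv_lhs => rw [← (bs F).sum_repr x]
  refine Finset.sum_congr rfl fun i _ => ?_
  congr 1
  have h : bs F = (db F).traceDual := by
    rw [du_db, Module.Basis.traceDual_traceDual]
  have h2 : (bs F).repr x i = ((db F).traceDual).repr x i := by rw [← h]
  rw [h2, Module.Basis.traceDual_repr_apply]
  rfl

theorem pDU : S_DU.{v} := by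
  classical
  intro F _
  refine ⟨?_, ?_⟩
  · -- the matrices are inverse to each other
    let M : Matrix (Fin (Module.finrank ℚ F)) (F →ₐ[ℚ] ℂ) ℂ := fun i σ => σ (bs F i)
    let M' : Matrix (F →ₐ[ℚ] ℂ) (Fin (Module.finrank ℚ F)) ℂ := fun σ i => σ (db F i)
    have h1 : M * M' = 1 := by
      ext i j
      rw [Matrix.mul_apply, Matrix.one_apply]
      have h2 : ∑ σ : F →ₐ[ℚ] ℂ, M i σ * M' σ j = ∑ σ : F →ₐ[ℚ] ℂ, σ (bs F i * db F j) :=
        Finset.sum_congr rfl fun σ _ => (map_mul σ _ _).symm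
      rw [h2, ← du_trace, du_db, Module.Basis.trace_mul_traceDual]
      split_ifs <;> simp
    have hcard : Fintype.card (F →ₐ[ℚ] ℂ) = Fintype.card (Fin (Module.finrank ℚ F)) := by
      rw [Fintype.card_fin]
      exact AlgHom.card ℚ F ℂ
    have e : (Fin (Module.finrank ℚ F)) ≃ (F →ₐ[ℚ] ℂ) := (Fintype.equivOfCardEq hcard).symm
    have h3 : M' * M = 1 := (Matrix.mul_eq_one_comm_of_equiv e).1 h1
    intro σ τ
    have h4 := congrFun (congrFun h3 τ) σ
    rw [Matrix.mul_apply, Matrix.one_apply] at h4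
    calc ∑ i, σ (bs F i) * τ (db F i) = ∑ i, M' τ i * M i σ :=
          Finset.sum_congr rfl fun i _ => mul_comm _ _
      _ = if τ = σ then 1 else 0 := h4
      _ = if σ = τ then 1 else 0 := by simp only [eq_comm]
  · intro E _ _ j x
    have h1 : ∀ (r : ℚ) (y : F), j (r • y) = (r : ℂ) • j y := by
      intro r y
      have h2 := map_ratCast_smul j ℚ ℂ r y
      simpa using h2
    have h2 : ∑ σ : F →ₐ[ℚ] ℂ, σ x • vv j σ =
        ∑ i, ((Algebra.trace ℚ F (x * db F i) : ℚ) : ℂ) • j (bs F i) := by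
      unfold vv
      simp only [Finset.smul_sum, smul_smul]
      rw [Finset.sum_comm]
      refine Finset.sum_congr rfl fun i _ => ?_
      rw [← Finset.sum_smul, du_trace]
      congr 1
      exact Finset.sum_congr rfl fun σ _ => (map_mul σ _ _).symm
    rw [h2]
    conv_lhs => rw [du_repr F x, map_sum]
    exact Finset.sum_congr rfl fun i _ => h1 _ _

end Pool.Agent.T2H05.GD
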