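import Pool.Agent.T2H05.GD.Stm

/-! Package EX of project GD. -/

set_option autoImplicit false

namespace Pool.Agent.T2H05.GD

open Finset
open Pool.Agent.H916R2 (OddDist SS saw exists_SS_ne_zero SS_unit SS_neg SS_dist)

namespace PkgEX

variable {N : ℕ} [NeZero N]

/-- orthogonality for the units of `ZMod N` -/
lemma orth (r : (ZMod N)ˣ → ℂ)
    (h : ∀ χ : DirichletCharacter ℂ N, ∑ u : (ZMod N)ˣ, (χ u)⁻¹ * r u = 0) : ∀ v, r v = 0 := by
  intro v
  have h1 : ∑ χ : DirichletCharacter ℂ N, χ v * ∑ u : (ZMod N)ˣ, (χ u)⁻¹ * r u = 0 :=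
    sum_eq_zero fun χ _ => by rw [h χ, mul_zero]
  simp_rw [mul_sum] at h1
  rw [sum_comm] at h1
  have h2 : ∀ u : (ZMod N)ˣ, ∑ χ : DirichletCharacter ℂ N, χ v * ((χ u)⁻¹ * r u) =
      (if (u : ZMod N) = v then (N.totient : ℂ) else 0) * r u := by
    intro u
    rw [← DirichletCharacter.sum_char_inv_mul_char_eq ℂ u.isUnit (v : ZMod N), sum_mul]
    refine sum_congr rfl fun χ _ => ?_
    have h3 : χ ((u : ZMod N)⁻¹) = (χ u)⁻¹ := by
      rw [ZMod.inv_coe_unit]
      have h4 : (χ u) * χ ((u⁻¹ : (ZMod N)ˣ) : ZMod N) = 1 := by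
        rw [← map_mul]; simp
      rw [eq_comm, inv_eq_of_mul_eq_one_right h4]
    rw [h3]
    ring
  simp_rw [h2] at h1
  rw [Finset.sum_eq_single v] at h1
  · rw [if_pos rfl, mul_eq_zero] at h1
    rcases h1 with h1 | h1
    · exfalso
      have := Nat.totient_pos.2 (NeZero.pos N)
      exact (Nat.cast_ne_zero.2 this.ne') h1
    · exact h1
  · intro u _ huv
    rw [if_neg, zero_mul]
    intro h5
    exact huv (Units.ext h5)
  · intro h5
    exact absurd (mem_univ v) h5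

/-- a relation for the values forces evenness -/
lemma key (hN : 2 ≤ N) (y : (ZMod N)ˣ → ℚ)
    (hy : ∀ a : ZMod N, ∑ u : (ZMod N)ˣ, y u * (((u : ZMod N) * a).val : ℚ) = 0) :
    ∑ u, y u = 0 ∧ ∀ u, y (-u) = y u := by
  haveI : Fact (1 < N) := ⟨hN⟩
  have hN0 : (N : ℚ) ≠ 0 := by
    have : N ≠ 0 := by omega
    exact_mod_cast this
  have hs : ∑ u, y u = 0 := by
    have h1 := hy 1
    have h2 := hy (-1)
    have h3 : ∑ u : (ZMod N)ˣ, y u * (N : ℚ) = 0 := by
      have h4 : ∀ u : (ZMod N)ˣ, y u * (N : ℚ) =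
          y u * (((u : ZMod N) * 1).val : ℚ) + y u * (((u : ZMod N) * (-1)).val : ℚ) := by
        intro u
        have h5 : (u : ZMod N) ≠ 0 := u.ne_zero
        rw [← mul_add]
        congr 1
        rw [mul_one, mul_neg_one, ZMod.neg_val, if_neg h5]
        have h6 : (u : ZMod N).val ≤ N := (ZMod.val_lt _).le
        push_cast [Nat.cast_sub h6]
        ring
      simp_rw [h4]
      rw [sum_add_distrib, h1, h2, add_zero]
    rw [← sum_mul, mul_eq_zero] at h3
    rcases h3 with h3 | h3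
    · exact h3
    · exact absurd h3 hN0
  refine ⟨hs, ?_⟩
  have hsaw : ∀ a : ZMod N, ∑ u : (ZMod N)ˣ, (y u : ℂ) * (saw ((u : ZMod N) * a) : ℂ) = 0 := by
    intro a
    by_cases ha : a = 0
    · subst ha
      simp [Pool.Agent.H916R2.saw_zero]
    · have h3 : ∀ u : (ZMod N)ˣ, (y u : ℂ) * (saw ((u : ZMod N) * a) : ℂ) =
          ((2 * (y u * (((u : ZMod N) * a).val : ℚ)) - N * y u : ℚ) : ℂ) := by
        intro u
        have h4 : (u : ZMod N) * a ≠ 0 := by
          intro h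
          exact ha ((Units.mul_right_eq_zero u).1 h)
        unfold saw
        rw [if_neg h4]
        push_cast
        ring
      simp_rw [h3]
      rw [← Rat.cast_sum, sum_sub_distrib, ← mul_sum, ← mul_sum, hy, hs]
      simp
  have hodd : ∀ χ : DirichletCharacter ℂ N, χ.Odd →
      ∑ u : (ZMod N)ˣ, (χ u)⁻¹ * (y u : ℂ) = 0 := by
    intro χ hχ
    obtain ⟨a, ha⟩ := exists_SS_ne_zero χ hχ
    have h1 : ∑ w : (ZMod N)ˣ, χ w *
        ∑ u : (ZMod N)ˣ, (y u : ℂ) * (saw ((u : ZMod N) * ((w : ZMod N) * a)) : ℂ) = 0 :=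
      sum_eq_zero fun w _ => by rw [hsaw, mul_zero]
    have h2 : ∑ w : (ZMod N)ˣ, χ w *
        ∑ u : (ZMod N)ˣ, (y u : ℂ) * (saw ((u : ZMod N) * ((w : ZMod N) * a)) : ℂ) =
        (∑ u : (ZMod N)ˣ, (χ u)⁻¹ * (y u : ℂ)) * SS χ a := by
      simp_rw [mul_sum]
      rw [sum_comm, sum_mul]
      refine sum_congr rfl fun u _ => ?_
      have h3 := SS_unit χ u a
      rw [mul_right_comm, ← h3]
      unfold SS
      rw [sum_mul]
      refine sum_congr rfl fun w _ => ?_
      have h4 : (w : ZMod N) * ((u : ZMod N) * a) = (u : ZMod N) * ((w : ZMod N) * a) := by ring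
      rw [h4]
      ring
    rw [h2, mul_eq_zero] at h1
    rcases h1 with h1 | h1
    · exact h1
    · exact absurd h1 ha
  have hr := orth (fun u : (ZMod N)ˣ => ((y u : ℂ) - (y (-u) : ℂ))) (fun χ => by
    have h1 : ∑ u : (ZMod N)ˣ, (χ u)⁻¹ * (y (-u) : ℂ) =
        ∑ u : (ZMod N)ˣ, (χ ((-u : (ZMod N)ˣ) : ZMod N))⁻¹ * (y u : ℂ) := by
      rw [← Equiv.sum_comp (Equiv.neg (ZMod N)ˣ)]
      refine sum_congr rfl fun u _ => ?_
      simp
    simp_rw [mul_sub]
    rw [sum_sub_distrib, h1]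
    rcases χ.even_or_odd with hχ | hχ
    · have h2 : ∀ u : (ZMod N)ˣ, χ ((-u : (ZMod N)ˣ) : ZMod N) = χ u := fun u => by
        rw [Units.val_neg, hχ.eval_neg]
      simp_rw [h2]
      rw [sub_self]
    · have h2 : ∀ u : (ZMod N)ˣ, (χ ((-u : (ZMod N)ˣ) : ZMod N))⁻¹ * (y u : ℂ) =
          - ((χ u)⁻¹ * (y u : ℂ)) := fun u => by
        rw [Units.val_neg, hχ.eval_neg, inv_neg]
        ring
      simp_rw [h2]
      rw [sum_neg_distrib, hodd χ hχ]
      simp)
  intro u
  have h1 := hr u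
  have h2 : (y u : ℂ) = (y (-u) : ℂ) := sub_eq_zero.1 h1
  exact_mod_cast h2.symm

end PkgEX

open PkgEX

theorem pEX : S_EX := by
  intro N _ hN P m hP
  let T : (ZMod N → ℚ) →ₗ[ℚ] ((ZMod N)ˣ → ℚ) :=
    { toFun := fun x u => ∑ a, x a * (((u : ZMod N) * a).val : ℚ)
      map_add' := fun x y => by
        funext u
        simp only [Pi.add_apply, add_mul, sum_add_distrib]
      map_smul' := fun c x => by
        funext u
        simp only [Pi.smul_apply, smul_eq_mul, RingHom.id_apply, mul_assoc, mul_sum] }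
  have hmem : (fun u => (N : ℚ) * P u) ∈ LinearMap.range T := by
    by_contra hc
    obtain ⟨φ, hφ1, hφ2⟩ := Submodule.exists_dual_map_eq_bot_of_notMem hc inferInstance
    have hφ3 : ∀ x, φ (T x) = 0 := by
      intro x
      have h1 : φ (T x) ∈ Submodule.map φ (LinearMap.range T) := ⟨T x, ⟨x, rfl⟩, rfl⟩
      rw [hφ2] at h1
      exact (Submodule.mem_bot ℚ).1 h1
    obtain ⟨y, hyd⟩ : ∃ y : (ZMod N)ˣ → ℚ, y = fun u => φ (Pi.single u 1) := ⟨_, rfl⟩
    have hφ4 : ∀ f : (ZMod N)ˣ → ℚ, φ f = ∑ u, y u * f u := by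
      intro f
      have h1 : f = ∑ u, f u • (Pi.single u (1:ℚ) : (ZMod N)ˣ → ℚ) := by
        funext v
        rw [Finset.sum_apply]
        simp [Pi.single_apply]
      conv_lhs => rw [h1]
      rw [map_sum]
      refine sum_congr rfl fun u _ => ?_
      rw [map_smul, hyd, smul_eq_mul, mul_comm]
    have hy : ∀ a : ZMod N, ∑ u : (ZMod N)ˣ, y u * (((u : ZMod N) * a).val : ℚ) = 0 := by
      intro a
      have h1 := hφ3 (Pi.single a 1)
      rw [hφ4] at h1
      rw [← h1]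
      refine sum_congr rfl fun u _ => ?_
      congr 1
      show _ = ∑ b, (Pi.single a (1:ℚ) : ZMod N → ℚ) b * (((u : ZMod N) * b).val : ℚ)
      rw [Finset.sum_eq_single a]
      · simp
      · intro b _ hb
        simp [Pi.single_eq_of_ne hb]
      · intro h2
        exact absurd (mem_univ a) h2
    obtain ⟨h1, h2⟩ := key hN y hy
    have h3 : ∑ u : (ZMod N)ˣ, y u * P u = ∑ u : (ZMod N)ˣ, y u * P (-u) := by
      rw [← Equiv.sum_comp (Equiv.neg (ZMod N)ˣ)]
      refine sum_congr rfl fun u _ => ?_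
      simp only [Equiv.neg_apply]
      rw [h2]
    have h4 : 2 * ∑ u : (ZMod N)ˣ, y u * P u = 0 := by
      rw [two_mul]
      conv_lhs => arg 2; rw [h3]
      rw [← sum_add_distrib]
      simp_rw [← mul_add, hP]
      rw [← sum_mul, h1, zero_mul]
    apply hφ1
    rw [hφ4]
    have h5 : ∑ u : (ZMod N)ˣ, y u * ((N : ℚ) * P u) = N * ∑ u : (ZMod N)ˣ, y u * P u := by
      rw [mul_sum]
      refine sum_congr rfl fun u _ => ?_
      ring
    rw [h5]
    have h6 : ∑ u : (ZMod N)ˣ, y u * P u = 0 := by linarith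
    rw [h6, mul_zero]
  obtain ⟨x, hx⟩ := hmem
  exact ⟨x, fun u => (congrFun hx u).symm⟩

end Pool.Agent.T2H05.GD
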