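import Pool.Agent.T2H05.GD.Stm

/-! # Package FORM: rational linear forms -/

set_option autoImplicit false

open CategoryTheory AlgebraicGeometry IntermediateField Finset

universe v

namespace Pool.Agent.T2H05.GD

theorem pFORM (_hDU : S_DU.{v}) : S_FORM := by
  classical
  intro F _ γ hγ
  have hdb : db F = (bs F).traceDual := rfl
  have htr : ∀ x : F, γ x = Algebra.trace ℚ F ((∑ i, γ (bs F i) • db F i) * x) := by
    intro x
    have h1 : γ = (Algebra.traceForm ℚ F) (∑ i, γ (bs F i) • db F i) := by
      refine (bs F).ext fun k => ?_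
      rw [map_sum, LinearMap.sum_apply]
      have h2 : ∀ i, ((Algebra.traceForm ℚ F) (γ (bs F i) • db F i)) (bs F k) =
          γ (bs F i) * (if k = i then 1 else 0) := by
        intro i
        rw [map_smul, LinearMap.smul_apply, smul_eq_mul, Algebra.traceForm_apply, hdb,
          Module.Basis.trace_traceDual_mul]
      rw [Finset.sum_congr rfl fun i _ => h2 i]
      simp
    have h3 := congrArg (fun f : F →ₗ[ℚ] ℚ => f x) h1
    simp only [Algebra.traceForm_apply] at h3
    exact h3
  refine ⟨∑ i, γ (bs F i) • db F i, ?_, ?_⟩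
  · intro h0
    apply hγ
    refine LinearMap.ext fun x => ?_
    rw [htr x, h0, zero_mul, map_zero, LinearMap.zero_apply]
  · intro x
    rw [htr x]
    have h := trace_eq_sum_embeddings (K := ℚ) (L := F) ℂ (x := (∑ i, γ (bs F i) • db F i) * x)
    have h' : ((Algebra.trace ℚ F ((∑ i, γ (bs F i) • db F i) * x) : ℚ) : ℂ) =
        ∑ σ : F →ₐ[ℚ] ℂ, σ ((∑ i, γ (bs F i) • db F i) * x) := by
      rw [← h]
      rfl
    rw [h']
    refine Finset.sum_congr rfl fun σ _ => ?_
    rw [map_mul, mul_comm]

end Pool.Agent.T2H05.GD
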