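import Pool.Agent.T2H05.GD.Stm

/-!
# Project GD, package GAM: the logarithm of the gamma product
-/

set_option autoImplicit false

open CategoryTheory AlgebraicGeometry IntermediateField Finset

universe v

namespace Pool.Agent.T2H05.GD

open Pool.Agent.H914 Pool.Agent.H914.VarClass
open Pool.Agent.H916R2 (OddDist SS saw)

theorem pGAM (hRPOW : S_RPOW) (hDIST : S_DIST) : S_GAM := by
  intro L hL N _ ε u
  have hN0 : 0 < N := Nat.pos_of_ne_zero (NeZero.ne N)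
  have hN : (0 : ℝ) < N := by exact_mod_cast hN0
  have hodd := hDIST L hL N
  have hpos : ∀ a ∈ Ioo 0 N, (0 : ℝ) < 1 - (a : ℝ) / N := by
    intro a ha
    rw [mem_Ioo] at ha
    have h1 : (a : ℝ) < N := by exact_mod_cast ha.2
    have h2 : (a : ℝ) / N < 1 := (div_lt_one hN).2 h1
    linarith
  have hne : ∀ a ∈ Ioo 0 N, ((a : ℕ) : ZMod N) ≠ 0 := by
    intro a ha h0
    rw [mem_Ioo] at ha
    rw [ZMod.natCast_eq_zero_iff] at h0
    exact absurd (Nat.le_of_dvd ha.1 h0) (by omega)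
  have key : ∀ a ∈ Ioo 0 N, L ((Real.Gamma (1 - (a : ℝ) / N) : ℝ) : ℂ) =
      L (Real.pi : ℂ) / 2 - cL L N (a : ZMod N) := by
    intro a ha
    have ha' := mem_Ioo.1 ha
    have hn := hne a ha
    have hval : (-((a : ℕ) : ZMod N)).val = N - a := by
      rw [ZMod.neg_val, if_neg hn, ZMod.val_cast_of_lt ha'.2]
    have hneg : -((a : ℕ) : ZMod N) ≠ 0 := neg_ne_zero.2 hn
    have h1 : cL L N (-((a : ℕ) : ZMod N)) =
        L ((Real.Gamma ((((-((a : ℕ) : ZMod N)).val : ℕ) : ℝ) / N) : ℝ) : ℂ)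
          - L (Real.pi : ℂ) / 2 := by
      unfold cL
      rw [if_neg hneg]
    have h2 : ((((-((a : ℕ) : ZMod N)).val : ℕ) : ℝ) / N) = 1 - (a : ℝ) / N := by
      rw [hval, Nat.cast_sub ha'.2.le, sub_div, div_self hN.ne']
    rw [h2] at h1
    have h3 := hodd.neg ((a : ℕ) : ZMod N)
    linarith
  have hcast : ((gam N ε u : ℝ) : ℂ) = ∏ a ∈ Ioo 0 N, (((Real.Gamma (1 - (a : ℝ) / N) ^
      ((ε ((a : ZMod N) * (u⁻¹ : (ZMod N)ˣ)) : ℚ) : ℝ) : ℝ)) : ℂ) := by
    unfold gam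
    push_cast
    rfl
  have hL1 : L ((gam N ε u : ℝ) : ℂ) = ∑ a ∈ Ioo 0 N,
      ε ((a : ZMod N) * (u⁻¹ : (ZMod N)ˣ)) * (L (Real.pi : ℂ) / 2 - cL L N (a : ZMod N)) := by
    rw [hcast, hL.prod]
    · refine sum_congr rfl fun a ha => ?_
      rw [hRPOW L hL _ _ (Real.Gamma_pos_of_pos (hpos a ha)), key a ha]
    · intro a ha
      have := Real.rpow_pos_of_pos (Real.Gamma_pos_of_pos (hpos a ha))
        ((ε ((a : ZMod N) * (u⁻¹ : (ZMod N)ˣ)) : ℚ) : ℝ)
      exact_mod_cast this.ne'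
  rw [hL1, sum_Ioo_zmod N (fun a => ε (a * ((u⁻¹ : (ZMod N)ˣ) : ZMod N)) *
    (L (Real.pi : ℂ) / 2 - cL L N a))]
  have hsub : ∑ a ∈ univ.erase (0 : ZMod N), ε (a * ((u⁻¹ : (ZMod N)ˣ) : ZMod N)) *
      (L (Real.pi : ℂ) / 2 - cL L N a) =
      ∑ b ∈ univ.erase (0 : ZMod N), ε b * (L (Real.pi : ℂ) / 2 - cL L N ((u : ZMod N) * b)) := by
    symm
    refine sum_nbij' (fun b => (u : ZMod N) * b) (fun a => ((u⁻¹ : (ZMod N)ˣ) : ZMod N) * a)
      ?_ ?_ ?_ ?_ ?_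
    · intro b hb
      rw [mem_erase] at hb ⊢
      refine ⟨?_, mem_univ _⟩
      rw [Ne, Units.mul_right_eq_zero]
      exact hb.1
    · intro b hb
      rw [mem_erase] at hb ⊢
      refine ⟨?_, mem_univ _⟩
      rw [Ne, Units.mul_right_eq_zero]
      exact hb.1
    · intro b _
      simp
    · intro b _
      simp
    · intro b _
      have : (u : ZMod N) * b * ((u⁻¹ : (ZMod N)ˣ) : ZMod N) = b := by
        rw [mul_comm (u : ZMod N) b, mul_assoc, Units.mul_inv, mul_one]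
      simp only [this]
  rw [hsub]
  have hall : ∑ a, ε a * cL L N ((u : ZMod N) * a) =
      ∑ a ∈ univ.erase (0 : ZMod N), ε a * cL L N ((u : ZMod N) * a) := by
    rw [← Finset.add_sum_erase univ _ (mem_univ (0 : ZMod N))]
    have h0 : cL L N ((u : ZMod N) * 0) = 0 := by
      rw [mul_zero]; unfold cL; rw [if_pos rfl]
    rw [h0, mul_zero, zero_add]
  rw [hall, Finset.mul_sum, ← Finset.sum_sub_distrib]
  refine sum_congr rfl fun a _ => ?_
  ring

end Pool.Agent.T2H05.GD
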