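import Pool.Agent.T2H05.GD.Stm

/-! Package GM of project GD: Gauss multiplication formula up to algebraic factors. -/

set_option autoImplicit false

namespace Pool.Agent.T2H05.GD

open Finset

namespace PkgGM

/-- the product of the Gamma values -/
noncomputable def GP (n : ℕ) (s : ℝ) : ℝ := ∏ k ∈ range n, Real.Gamma ((s + k) / n)

/-- the constant -/
noncomputable def GC (n : ℕ) : ℝ := n * GP n 1

lemma GP_pos {n : ℕ} (hn : 1 ≤ n) {s : ℝ} (hs : 0 < s) : 0 < GP n s := by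
  have hn0 : (0:ℝ) < n := by exact_mod_cast hn
  exact prod_pos fun k _ => Real.Gamma_pos_of_pos (by positivity)

lemma GC_pos {n : ℕ} (hn : 1 ≤ n) : 0 < GC n := by
  have hn0 : (0:ℝ) < n := by exact_mod_cast hn
  have := GP_pos hn one_pos
  unfold GC
  positivity

lemma GP_succ {n : ℕ} (hn : 1 ≤ n) {s : ℝ} (hs : 0 < s) : GP n (s + 1) = s / n * GP n s := by
  have hn0 : (0:ℝ) < n := by exact_mod_cast hn
  obtain ⟨m, rfl⟩ : ∃ m, n = m + 1 := ⟨n - 1, by omega⟩
  unfold GP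
  rw [prod_range_succ, prod_range_succ' (fun k : ℕ => Real.Gamma ((s + k) / ((m + 1 : ℕ) : ℝ)))]
  have h1 : ∏ k ∈ range m, Real.Gamma ((s + 1 + (k : ℝ)) / ((m + 1 : ℕ) : ℝ)) =
      ∏ k ∈ range m, Real.Gamma ((s + ((k + 1 : ℕ) : ℝ)) / ((m + 1 : ℕ) : ℝ)) := by
    refine prod_congr rfl fun k _ => ?_
    congr 2
    push_cast
    ring
  have h2 : Real.Gamma ((s + 1 + (m : ℝ)) / ((m + 1 : ℕ) : ℝ)) =
      s / ((m + 1 : ℕ) : ℝ) * Real.Gamma (s / ((m + 1 : ℕ) : ℝ)) := by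
    rw [← Real.Gamma_add_one (by positivity)]
    congr 1
    push_cast
    have : (m : ℝ) + 1 ≠ 0 := by positivity
    field_simp
    ring
  rw [h1, h2]
  simp only [Nat.cast_zero, add_zero]
  ring

/-- the function of the Bohr-Mollerup theorem -/
noncomputable def ff (n : ℕ) (s : ℝ) : ℝ := (n : ℝ) ^ s * GP n s / GC n

lemma ff_pos {n : ℕ} (hn : 1 ≤ n) {s : ℝ} (hs : 0 < s) : 0 < ff n s := by
  have hn0 : (0:ℝ) < n := by exact_mod_cast hn
  have := GP_pos hn hs
  have := GC_pos hn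
  unfold ff
  positivity

lemma ff_eq {n : ℕ} (hn : 1 ≤ n) : Set.EqOn (ff n) Real.Gamma (Set.Ioi 0) := by
  have hn0 : (0:ℝ) < n := by exact_mod_cast hn
  have hC := GC_pos hn
  refine Real.eq_Gamma_of_log_convex ?_ ?_ ?_ ?_
  · have h1 : ConvexOn ℝ (Set.Ioi 0) (fun s : ℝ => Real.log n * s +
        ∑ k ∈ range n, Real.log (Real.Gamma ((s + k) / n)) + (- Real.log (GC n))) := by
      refine ConvexOn.add (ConvexOn.add ?_ ?_) (convexOn_const _ (convex_Ioi 0))
      · exact ((LinearMap.mulLeft ℝ (Real.log n)).convexOn (convex_Ioi 0))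
      · have h2 : ∀ k ∈ range n, ConvexOn ℝ (Set.Ioi 0)
            (fun s : ℝ => Real.log (Real.Gamma ((s + (k : ℝ)) / n))) := by
          intro k _
          have h3 := Real.convexOn_log_Gamma.comp_affineMap
            (AffineMap.lineMap ((k : ℝ) / n) (((k : ℝ) + 1) / n) : ℝ →ᵃ[ℝ] ℝ)
          have h4 : ∀ s : ℝ, (AffineMap.lineMap ((k : ℝ) / n) (((k : ℝ) + 1) / n) : ℝ →ᵃ[ℝ] ℝ) s =
              (s + k) / n := by
            intro s
            rw [AffineMap.lineMap_apply]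
            simp only [vsub_eq_sub, vadd_eq_add, smul_eq_mul]
            field_simp
            ring
          refine (h3.subset ?_ (convex_Ioi 0)).congr ?_
          · intro s hs
            rw [Set.mem_preimage, h4]
            rw [Set.mem_Ioi] at hs ⊢
            positivity
          · intro s _
            simp only [Function.comp, h4]
        have h5 : ∀ t : Finset ℕ, t ⊆ range n → ConvexOn ℝ (Set.Ioi 0)
            (fun s : ℝ => ∑ k ∈ t, Real.log (Real.Gamma ((s + (k : ℝ)) / n))) := by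
          intro t
          induction t using Finset.induction_on with
          | empty =>
            intro _
            simpa using convexOn_const (0:ℝ) (convex_Ioi (0:ℝ))
          | insert a t ha ih =>
            intro ht
            simp_rw [sum_insert ha]
            exact (h2 a (ht (mem_insert_self a t))).add
              (ih fun x hx => ht (mem_insert_of_mem hx))
        exact h5 _ (Finset.Subset.refl _)
    refine h1.congr fun s hs => ?_
    rw [Set.mem_Ioi] at hs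
    have h6 := GP_pos hn hs
    have h7 : (0:ℝ) < (n : ℝ) ^ s := Real.rpow_pos_of_pos hn0 _
    simp only [Function.comp]
    unfold ff
    rw [Real.log_div (by positivity) hC.ne', Real.log_mul h7.ne' h6.ne', Real.log_rpow hn0]
    unfold GP
    rw [Real.log_prod (fun k _ => (Real.Gamma_pos_of_pos (by positivity)).ne')]
    ring
  · intro s hs
    unfold ff
    rw [GP_succ hn hs, Real.rpow_add hn0, Real.rpow_one]
    field_simp
  · intro s hs
    exact ff_pos hn hs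
  · unfold ff
    rw [Real.rpow_one]
    unfold GC
    have := GP_pos hn one_pos
    field_simp

lemma GP_eq {n : ℕ} (hn : 1 ≤ n) {s : ℝ} (hs : 0 < s) :
    GP n s = GC n * ((n : ℝ) ^ s)⁻¹ * Real.Gamma s := by
  have hn0 : (0:ℝ) < n := by exact_mod_cast hn
  have hC := GC_pos hn
  have h1 := ff_eq hn (Set.mem_Ioi.2 hs)
  have h7 : (0:ℝ) < (n : ℝ) ^ s := Real.rpow_pos_of_pos hn0 _
  rw [← h1]
  unfold ff
  field_simp

/-- roots of natural numbers are algebraic -/
lemma alg_rpow (n : ℕ) (hn : 1 ≤ n) (x : ℚ) (hx : 0 < x) :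
    IsAlgebraic ℚ (((n : ℝ) ^ (x : ℝ) : ℝ) : ℂ) := by
  have hn0 : (0:ℝ) < n := by exact_mod_cast hn
  have hnum : ((x.num.toNat : ℕ) : ℤ) = x.num := Int.toNat_of_nonneg (Rat.num_pos.2 hx).le
  have h1 : (((n : ℝ) ^ (x : ℝ) : ℝ) : ℂ) ^ x.den = ((n ^ x.num.toNat : ℕ) : ℂ) := by
    have h2 : ((n : ℝ) ^ (x : ℝ)) ^ x.den = (n : ℝ) ^ x.num.toNat := by
      rw [← Real.rpow_natCast, ← Real.rpow_mul hn0.le, ← Real.rpow_natCast]
      congr 1
      have h3 : (x : ℚ) * x.den = x.num := Rat.mul_den_eq_num x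
      have h4 : ((x : ℚ) : ℝ) * (x.den : ℝ) = ((x.num : ℤ) : ℝ) := by exact_mod_cast h3
      rw [h4]
      have h6 : (((x.num.toNat : ℕ) : ℤ) : ℝ) = ((x.num : ℤ) : ℝ) := by rw [hnum]
      rw [← h6]
      push_cast
      rfl
    have h5 : (((((n : ℝ) ^ (x : ℝ)) ^ x.den : ℝ)) : ℂ) = (((n : ℝ) ^ x.num.toNat : ℝ) : ℂ) := by
      rw [h2]
    push_cast at h5 ⊢
    exact h5
  refine IsAlgebraic.of_pow (n := x.den) x.den_pos ?_
  rw [h1]
  exact isAlgebraic_natCast _

/-- the constant up to algebraic factors -/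
lemma GC_sim (hRF : S_RF) (n : ℕ) (hn : 1 ≤ n) :
    ∃ α : ℂ, IsAlgebraic ℚ α ∧ α ≠ 0 ∧ ((GC n ^ 2 : ℝ) : ℂ) = α * ((Real.pi ^ (n - 1) : ℝ) : ℂ) := by
  have hn0 : (0:ℝ) < n := by exact_mod_cast hn
  obtain ⟨m, rfl⟩ : ∃ m, n = m + 1 := ⟨n - 1, by omega⟩
  obtain ⟨A, hA⟩ : ∃ A : ℕ → ℝ, A = fun k : ℕ => Real.Gamma ((1 + (k : ℝ)) / ((m + 1 : ℕ) : ℝ)) :=
    ⟨_, rfl⟩
  have h1 : GP (m + 1) 1 = ∏ k ∈ range m, A k := by
    unfold GP
    rw [prod_range_succ, hA]
    have h2 : ((1:ℝ) + (m : ℝ)) / ((m + 1 : ℕ) : ℝ) = 1 := by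
      push_cast
      have : (m : ℝ) + 1 ≠ 0 := by positivity
      field_simp
      ring
    rw [h2, Real.Gamma_one, mul_one]
  have hq : ∀ k ∈ range m, ∃ α : ℂ, IsAlgebraic ℚ α ∧ α ≠ 0 ∧
      ((A k * A (m - 1 - k) : ℝ) : ℂ) = α * (Real.pi : ℂ) := by
    intro k hk
    rw [mem_range] at hk
    have hx0 : (0:ℚ) < (1 + (k : ℚ)) / ((m + 1 : ℕ) : ℚ) := by positivity
    have hx1 : (1 + (k : ℚ)) / ((m + 1 : ℕ) : ℚ) < 1 := by
      rw [div_lt_one (by positivity)]
      push_cast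
      have : (k : ℚ) < m := by exact_mod_cast hk
      linarith
    obtain ⟨α, h3, h4, h5⟩ := hRF _ hx0 hx1
    refine ⟨α, h3, h4, ?_⟩
    rw [← h5]
    congr 1
    rw [hA]
    beta_reduce
    congr 1
    · congr 1
      push_cast
      ring
    · congr 1
      have h6 : ((m - 1 - k : ℕ) : ℝ) = m - 1 - k := by
        rw [Nat.cast_sub (by omega), Nat.cast_sub (by omega)]
        push_cast
        ring
      rw [h6]
      push_cast
      have : (m : ℝ) + 1 ≠ 0 := by positivity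
      field_simp
      ring
  have hch : ∀ k, ∃ α : ℂ, k ∈ range m → IsAlgebraic ℚ α ∧ α ≠ 0 ∧
      ((A k * A (m - 1 - k) : ℝ) : ℂ) = α * (Real.pi : ℂ) := by
    intro k
    by_cases hk : k ∈ range m
    · obtain ⟨α, h⟩ := hq k hk
      exact ⟨α, fun _ => h⟩
    · exact ⟨0, fun h => absurd h hk⟩
  choose α hα using hch
  have hsq : (GP (m + 1) 1) ^ 2 = ∏ k ∈ range m, (A k * A (m - 1 - k)) := by
    rw [h1, prod_mul_distrib, Finset.prod_range_reflect A m, pow_two]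
  refine ⟨((m + 1 : ℕ) : ℂ) ^ 2 * ∏ k ∈ range m, α k, ?_, ?_, ?_⟩
  · refine IsAlgebraic.mul ((isAlgebraic_natCast _).pow 2) ?_
    have : ∀ t : Finset ℕ, t ⊆ range m → IsAlgebraic ℚ (∏ k ∈ t, α k) := by
      intro t
      induction t using Finset.induction_on with
      | empty => intro _; rw [prod_empty]; exact isAlgebraic_one
      | insert a t ha ih =>
        intro ht
        rw [prod_insert ha]
        exact (hα a (ht (mem_insert_self a t))).1.mul (ih fun x hx => ht (mem_insert_of_mem hx))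
    exact this _ (Finset.Subset.refl _)
  · refine mul_ne_zero (pow_ne_zero 2 (Nat.cast_ne_zero.2 (by omega))) ?_
    exact prod_ne_zero_iff.2 fun k hk => (hα k hk).2.1
  · unfold GC
    rw [mul_pow, hsq]
    push_cast
    have h7 : ∏ k ∈ range m, ((A k : ℂ) * (A (m - 1 - k) : ℂ)) =
        ∏ k ∈ range m, (α k * (Real.pi : ℂ)) := by
      refine prod_congr rfl fun k hk => ?_
      rw [← (hα k hk).2.2]
      push_cast
      rfl
    rw [h7, prod_mul_distrib, prod_const, card_range]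
    ring

end PkgGM

open PkgGM

theorem pGM (hRF : S_RF) : S_GM := by
  intro n x hn hx
  obtain ⟨α, h1, h2, h3⟩ := GC_sim hRF n hn
  have hn0 : (0:ℝ) < n := by exact_mod_cast hn
  have hxR : (0:ℝ) < (x : ℝ) := by exact_mod_cast hx
  have hy : (0:ℝ) < (n : ℝ) ^ (x : ℝ) := Real.rpow_pos_of_pos hn0 _
  have hyC : (((n : ℝ) ^ (x : ℝ) : ℝ) : ℂ) ≠ 0 := by exact_mod_cast hy.ne'
  refine ⟨α * ((((n : ℝ) ^ (x : ℝ) : ℝ) : ℂ)⁻¹) ^ 2, ?_, ?_, ?_⟩
  · exact h1.mul ((alg_rpow n hn x hx).inv.pow 2)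
  · exact mul_ne_zero h2 (pow_ne_zero 2 (inv_ne_zero hyC))
  · have h4 : (∏ k ∈ range n, Real.Gamma (((x : ℝ) + k) / n)) = GP n (x : ℝ) := rfl
    rw [h4, GP_eq hn hxR]
    have h5 : (((GC n * ((n : ℝ) ^ (x : ℝ))⁻¹ * Real.Gamma (x : ℝ)) ^ 2 : ℝ) : ℂ) =
        ((GC n ^ 2 : ℝ) : ℂ) * ((((n : ℝ) ^ (x : ℝ) : ℝ) : ℂ)⁻¹) ^ 2 *
          ((Real.Gamma (x : ℝ) ^ 2 : ℝ) : ℂ) := by
      push_cast
      ring
    rw [h5, h3]
    push_cast
    ring

end Pool.Agent.T2H05.GD
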