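import Pool.Agent.T2H05.GD.Stm

/-! # Package IND: injectivity and independence of the components -/

set_option autoImplicit false

open CategoryTheory AlgebraicGeometry IntermediateField Finset

universe v

namespace Pool.Agent.T2H05.GD

theorem pIND (hDU : S_DU.{v}) : S_IND.{v} := by
  classical
  intro 𝒱 T hT X m F _ j hB
  obtain ⟨hd1, hd2⟩ := hDU F
  have hd2' := hd2 (T.H X m) j
  constructor
  · intro hinj
    have h1 : ∀ (r : ℚ) (y : F), j (r • y) = (r : ℂ) • j y := by
      intro r y
      have h2 := map_ratCast_smul j ℚ ℂ r y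
      simpa using h2
    have h2 : LinearIndependent ℂ (fun i => j (bs F i)) := by
      refine hT.form_B _ (fun i => j (bs F i)) (fun i => hB _) ?_
      intro r hr
      have h3 : j (∑ i, r i • bs F i) = 0 := by
        rw [map_sum, ← hr]
        exact Finset.sum_congr rfl fun i _ => h1 _ _
      have h4 : ∑ i, r i • bs F i = 0 := hinj (h3.trans (map_zero j).symm)
      funext i
      exact (Fintype.linearIndependent_iff.1 (bs F).linearIndependent) r h4 i
    rw [Fintype.linearIndependent_iff]
    intro a ha τ
    have h3 : ∑ i, (∑ σ : F →ₐ[ℚ] ℂ, a σ * σ (db F i)) • j (bs F i) = 0 := by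
      rw [← ha]
      unfold vv
      simp only [Finset.smul_sum, smul_smul, Finset.sum_smul]
      rw [Finset.sum_comm]
    have h4 := (Fintype.linearIndependent_iff.1 h2) _ h3
    have h5 : ∑ i, τ (bs F i) * ∑ σ : F →ₐ[ℚ] ℂ, a σ * σ (db F i) = a τ := by
      simp only [Finset.mul_sum]
      rw [Finset.sum_comm, Finset.sum_eq_single τ]
      · have h6 : ∀ i, τ (bs F i) * (a τ * τ (db F i)) = a τ * (τ (bs F i) * τ (db F i)) := by
          intro i
          ring
        rw [Finset.sum_congr rfl fun i _ => h6 i, ← Finset.mul_sum, hd1 τ τ, if_pos rfl, mul_one]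
      · intro σ _ hσ
        have h6 : ∀ i, τ (bs F i) * (a σ * σ (db F i)) = a σ * (τ (bs F i) * σ (db F i)) := by
          intro i
          ring
        rw [Finset.sum_congr rfl fun i _ => h6 i, ← Finset.mul_sum, hd1 τ σ, if_neg (Ne.symm hσ),
          mul_zero]
      · intro h
        exact absurd (Finset.mem_univ τ) h
    rw [← h5]
    refine Finset.sum_eq_zero fun i _ => ?_
    rw [h4 i, mul_zero]
  · intro hind
    rw [injective_iff_map_eq_zero]
    intro x hx
    rw [hd2' x] at hx
    have h1 := (Fintype.linearIndependent_iff.1 hind) _ hx F.val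
    exact Subtype.ext h1

end Pool.Agent.T2H05.GD
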