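import Pool.Agent.T2H05.GD.Stm

set_option autoImplicit false

open CategoryTheory AlgebraicGeometry IntermediateField Finset

universe v

namespace Pool.Agent.T2H05.GD

open Pool.Agent.H914 Pool.Agent.H914.VarClass
open Pool.Agent.H916R2 (OddDist SS saw)

open scoped Classical in
private lemma iter_dec {ι : Type*} [Fintype ι] (k : ℕ) (n : ι → ℕ) (h : ∑ s, n s = k + 1) :
    ∃ (s : ι) (n' : ι → ℕ), ∑ t, n' t = k ∧ ∀ t, n t = n' t + if t = s then 1 else 0 := by
  obtain ⟨s, hs⟩ : ∃ s, n s ≠ 0 := by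
    by_contra hc
    push Not at hc
    rw [Finset.sum_eq_zero fun s _ => hc s] at h
    omega
  refine ⟨s, fun t => n t - if t = s then 1 else 0, ?_, ?_⟩
  · have h1 : ∀ t, n t = (n t - if t = s then 1 else 0) + if t = s then 1 else 0 := by
      intro t
      by_cases ht : t = s
      · subst ht
        simp only [if_true]
        omega
      · simp only [ht, if_false]
        omega
    have h2 : ∑ t, n t = ∑ t, (n t - if t = s then 1 else 0) + 1 := by
      calc ∑ t, n t = ∑ t, ((n t - if t = s then 1 else 0) + if t = s then 1 else 0) :=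
            Finset.sum_congr rfl fun t _ => h1 t
        _ = _ := by
            rw [Finset.sum_add_distrib]
            congr 1
            simp
    show ∑ t, (n t - if t = s then 1 else 0) = k
    omega
  · intro t
    by_cases ht : t = s
    · subst ht
      simp only [if_true]
      omega
    · simp only [ht, if_false]
      omega

open scoped Classical in
private lemma iter_sum {ι : Type*} [Fintype ι] {n n' : ι → ℕ} {s : ι}
    (h : ∀ t, n t = n' t + if t = s then 1 else 0) (f : ι → ℕ) :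
    ∑ t, n t * f t = ∑ t, n' t * f t + f s := by
  have : ∀ t, n t * f t = n' t * f t + if t = s then f t else 0 := by
    intro t
    rw [h t, add_mul]
    split_ifs <;> simp
  rw [Finset.sum_congr rfl fun t _ => this t, Finset.sum_add_distrib]
  simp

open scoped Classical in
private lemma iter_prod {ι : Type*} [Fintype ι] {n n' : ι → ℕ} {s : ι}
    (h : ∀ t, n t = n' t + if t = s then 1 else 0) (g : ι → ℂ) :
    ∏ t, g t ^ n t = (∏ t, g t ^ n' t) * g s := by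
  have : ∀ t, g t ^ n t = g t ^ n' t * if t = s then g t else 1 := by
    intro t
    rw [h t, pow_add]
    split_ifs <;> simp
  rw [Finset.prod_congr rfl fun t _ => this t, Finset.prod_mul_distrib]
  simp

theorem pITER (hTW : S_TW.{v}) (hTEN : S_TEN.{v}) : S_ITER.{v} := by
  classical
  intro 𝒱 T hT X m F _ j p c hA n hn
  have key : ∀ (k : ℕ) (n : (F ≃ₐ[ℚ] F) → ℕ), ∑ s, n s = k + 1 →
      ∃ (X' : 𝒱.Obj) (m' : ℕ) (j' : F →+ T.H X' m'), m' = (k + 1) * m ∧
      Adm T X' m' F j' (fun σ => ∑ s : F ≃ₐ[ℚ] F, n s * p (σ.comp (s : F →ₐ[ℚ] F)))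
        (fun σ => ∏ s : F ≃ₐ[ℚ] F, c (σ.comp (s : F →ₐ[ℚ] F)) ^ n s) := by
    intro k
    induction k with
    | zero =>
      intro n hn
      obtain ⟨s, n', hn', hd⟩ := iter_dec 0 n hn
      have h0 : ∀ t, n' t = 0 := fun t => (Finset.sum_eq_zero_iff.1 hn') t (Finset.mem_univ t)
      obtain ⟨j', hj'⟩ := hTW 𝒱 T X m F j p c hA s
      refine ⟨X, m, j', by ring, ?_⟩
      have e1 : (fun σ : F →ₐ[ℚ] ℂ => ∑ s : F ≃ₐ[ℚ] F, n s * p (σ.comp (s : F →ₐ[ℚ] F))) =
          fun σ => p (σ.comp (s : F →ₐ[ℚ] F)) := by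
        funext σ
        rw [iter_sum hd (fun t => p (σ.comp (t : F →ₐ[ℚ] F)))]
        simp [h0]
      have e2 : (fun σ : F →ₐ[ℚ] ℂ => ∏ s : F ≃ₐ[ℚ] F, c (σ.comp (s : F →ₐ[ℚ] F)) ^ n s) =
          fun σ => c (σ.comp (s : F →ₐ[ℚ] F)) := by
        funext σ
        rw [iter_prod hd (fun t => c (σ.comp (t : F →ₐ[ℚ] F)))]
        simp [h0]
      rw [e1, e2]
      exact hj'
    | succ k ih =>
      intro n hn
      obtain ⟨s, n', hn', hd⟩ := iter_dec (k + 1) n hn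
      obtain ⟨X₁, m₁, j₁, hm₁, hA₁⟩ := ih n' hn'
      obtain ⟨j₂, hA₂⟩ := hTW 𝒱 T X m F j p c hA s
      obtain ⟨j₃, hA₃⟩ := hTEN 𝒱 T hT X₁ X m₁ m F j₁ j₂ _ _ _ _ hA₁ hA₂
      refine ⟨X₁.prod X, m₁ + m, j₃, by rw [hm₁]; ring, ?_⟩
      have e1 : (fun σ : F →ₐ[ℚ] ℂ => ∑ s : F ≃ₐ[ℚ] F, n s * p (σ.comp (s : F →ₐ[ℚ] F))) =
          fun σ => (∑ s : F ≃ₐ[ℚ] F, n' s * p (σ.comp (s : F →ₐ[ℚ] F))) +
            p (σ.comp (s : F →ₐ[ℚ] F)) := by
        funext σ
        exact iter_sum hd (fun t => p (σ.comp (t : F →ₐ[ℚ] F)))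
      have e2 : (fun σ : F →ₐ[ℚ] ℂ => ∏ s : F ≃ₐ[ℚ] F, c (σ.comp (s : F →ₐ[ℚ] F)) ^ n s) =
          fun σ => (∏ s : F ≃ₐ[ℚ] F, c (σ.comp (s : F →ₐ[ℚ] F)) ^ n' s) *
            c (σ.comp (s : F →ₐ[ℚ] F)) := by
        funext σ
        exact iter_prod hd (fun t => c (σ.comp (t : F →ₐ[ℚ] F)))
      rw [e1, e2]
      exact hA₃
  obtain ⟨k, hk⟩ : ∃ k, ∑ s, n s = k + 1 := ⟨∑ s, n s - 1, by omega⟩
  obtain ⟨X', m', j', hm', hA'⟩ := key k n hk
  exact ⟨X', m', j', by rw [hk]; exact hm', hA'⟩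

end Pool.Agent.T2H05.GD
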