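import Pool.Agent.T2H05.GD.Stm

/-! Package KC of project GD. -/

set_option autoImplicit false

namespace Pool.Agent.T2H05.GD

open Finset
open Pool.Agent.H916R2 (OddDist SS saw exists_SS_ne_zero SS_unit SS_neg SS_dist)

namespace PkgKC

variable {N : ℕ} [NeZero N]

/-- the `χ`-part of `c` -/
noncomputable def CC (χ : DirichletCharacter ℂ N) (c : ZMod N → ℚ) (a : ZMod N) : ℂ :=
  ∑ u : (ZMod N)ˣ, χ u * ((c ((u : ZMod N) * a) : ℚ) : ℂ)

lemma CC_unit (χ : DirichletCharacter ℂ N) (c : ZMod N → ℚ) (u : (ZMod N)ˣ) (a : ZMod N) :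
    CC χ c ((u : ZMod N) * a) = (χ u)⁻¹ * CC χ c a := by
  unfold CC
  rw [mul_sum, ← Equiv.sum_comp (Equiv.mulRight u⁻¹)]
  refine sum_congr rfl fun t _ => ?_
  simp only [Equiv.coe_mulRight, Units.val_mul, map_mul]
  have h1 : (χ u) * χ ((u⁻¹ : (ZMod N)ˣ) : ZMod N) = 1 := by
    rw [← map_mul]; simp
  have h2 : χ ((u⁻¹ : (ZMod N)ˣ) : ZMod N) = (χ u)⁻¹ := by
    rw [eq_comm, inv_eq_of_mul_eq_one_right h1]
  have h3 : ((t : ZMod N) * ((u⁻¹ : (ZMod N)ˣ) : ZMod N)) * ((u : ZMod N) * a) = (t : ZMod N) * a := by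
    rw [mul_assoc, ← mul_assoc ((u⁻¹ : (ZMod N)ˣ) : ZMod N)]
    simp
  rw [h2, h3]
  ring

lemma CC_odd (χ : DirichletCharacter ℂ N) {c : ZMod N → ℚ} (hc : OddDist c) :
    OddDist (CC χ c) := by
  refine ⟨fun a => ?_, fun a ha => ?_, fun p d hp hpd a => ?_⟩
  · unfold CC
    rw [← sum_neg_distrib]
    refine sum_congr rfl fun t _ => ?_
    rw [mul_neg, hc.neg]
    push_cast
    ring
  · unfold CC
    refine sum_eq_zero fun t _ => ?_
    rw [hc.half]
    · simp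
    · rw [← mul_add, ha, mul_zero]
  · unfold CC
    rw [sum_comm]
    refine sum_congr rfl fun t _ => ?_
    rw [← mul_sum]
    congr 1
    have h1 : ∑ i ∈ range p, c ((t : ZMod N) * (a + (i : ZMod N) * (d : ZMod N))) =
        c ((t : ZMod N) * ((p : ZMod N) * a)) := by
      rw [Pool.Agent.H916R2.coset_sum_unit (fun b => c b) hpd, hc.dist p d hp hpd]
      congr 1
      ring
    rw [← h1]
    push_cast
    rfl

lemma SS_odd (χ : DirichletCharacter ℂ N) : OddDist (SS χ) := by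
  refine ⟨fun a => SS_neg χ a, fun a ha => ?_, fun p d hp hpd a => SS_dist χ hpd a⟩
  have h1 : -a = a := by
    rw [neg_eq_iff_add_eq_zero]
    exact ha
  have h2 := SS_neg χ a
  rw [h1] at h2
  exact self_eq_neg.1 h2

lemma sum_val (χ : DirichletCharacter ℂ N) (hχ : χ.Odd) (a : ZMod N) :
    ∑ u : (ZMod N)ˣ, χ u * ((((u : ZMod N) * a).val : ℕ) : ℂ) = SS χ a / 2 := by
  have h0 : ∑ u : (ZMod N)ˣ, χ u = 0 := by
    have h1 : ∑ u : (ZMod N)ˣ, χ ((-u : (ZMod N)ˣ) : ZMod N) = ∑ u : (ZMod N)ˣ, χ u :=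
      Equiv.sum_comp (Equiv.neg (ZMod N)ˣ) (fun u : (ZMod N)ˣ => χ (u : ZMod N))
    have h2 : ∑ u : (ZMod N)ˣ, χ ((-u : (ZMod N)ˣ) : ZMod N) = - ∑ u : (ZMod N)ˣ, χ u := by
      rw [← sum_neg_distrib]
      refine sum_congr rfl fun u _ => ?_
      rw [Units.val_neg, hχ.eval_neg]
    rw [h1] at h2
    exact self_eq_neg.1 h2
  by_cases ha : a = 0
  · subst ha
    unfold SS
    simp [Pool.Agent.H916R2.saw_zero]
  · unfold SS
    have h3 : ∀ u : (ZMod N)ˣ, χ u * (saw ((u : ZMod N) * a) : ℂ) =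
        2 * (χ u * ((((u : ZMod N) * a).val : ℕ) : ℂ)) - N * χ u := by
      intro u
      have h4 : (u : ZMod N) * a ≠ 0 := by
        intro h
        exact ha ((Units.mul_right_eq_zero u).1 h)
      unfold saw
      rw [if_neg h4]
      push_cast
      ring
    simp_rw [h3]
    rw [sum_sub_distrib, ← mul_sum, ← mul_sum, h0]
    ring

end PkgKC

open PkgKC

theorem pKC (hUNI : S_UNI) : S_KC := by
  intro N _ c hc χ hχ
  obtain ⟨b, hb⟩ := exists_SS_ne_zero χ hχ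
  have hU := hUNI N χ (CC χ c) (SS χ) (CC_odd χ hc) (SS_odd χ) (CC_unit χ c) (SS_unit χ)
  refine ⟨2 * (CC χ c b / SS χ b), fun x => ?_⟩
  have h1 : ∀ a, CC χ c a = CC χ c b / SS χ b * SS χ a := by
    intro a
    have := hU a b
    field_simp
    linear_combination this
  have h2 : ∑ u : (ZMod N)ˣ, χ u * ((∑ a, x a * c ((u : ZMod N) * a) : ℚ) : ℂ) =
      ∑ a, (x a : ℂ) * CC χ c a := by
    unfold CC
    simp_rw [mul_sum]
    rw [sum_comm]
    refine sum_congr rfl fun u _ => ?_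
    push_cast
    rw [mul_sum]
    refine sum_congr rfl fun a _ => ?_
    ring
  have h3 : ∑ u : (ZMod N)ˣ, χ u * ((∑ a, x a * (((u : ZMod N) * a).val : ℚ) : ℚ) : ℂ) =
      ∑ a, (x a : ℂ) * (SS χ a / 2) := by
    simp_rw [← sum_val χ hχ, mul_sum]
    rw [sum_comm]
    refine sum_congr rfl fun u _ => ?_
    push_cast
    rw [mul_sum]
    refine sum_congr rfl fun a _ => ?_
    ring
  rw [h2, h3, mul_sum]
  refine sum_congr rfl fun a _ => ?_
  rw [h1]
  ring

end Pool.Agent.T2H05.GD
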