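import Pool.Agent.T2H05.GD.Stm

set_option autoImplicit false

open CategoryTheory AlgebraicGeometry IntermediateField Finset

universe v

namespace Pool.Agent.T2H05.GD

private lemma LIFT_val (d e : ℕ) (he : 0 < e) (hd : 0 < d) (h : d ∣ e * d)
    (u : (ZMod (e * d))ˣ) (a : ℕ) :
    ((u : ZMod (e * d)) * ((e * a : ℕ) : ZMod (e * d))).val =
      e * (((ZMod.unitsMap h u : (ZMod d)ˣ) : ZMod d) * (a : ZMod d)).val := by
  have : NeZero (e * d) := ⟨(Nat.mul_pos he hd).ne'⟩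
  have : NeZero d := ⟨hd.ne'⟩
  have h1 : (u : ZMod (e * d)) = (((u : ZMod (e * d)).val : ℕ) : ZMod (e * d)) :=
    (ZMod.natCast_zmod_val _).symm
  have h2 : ((ZMod.unitsMap h u : (ZMod d)ˣ) : ZMod d) =
      (((u : ZMod (e * d)).val : ℕ) : ZMod d) := by
    rw [ZMod.unitsMap_val, ZMod.natCast_val]
  rw [h2]
  conv_lhs => rw [h1]
  rw [← Nat.cast_mul, ← Nat.cast_mul, ZMod.val_natCast, ZMod.val_natCast,
    ← Nat.mul_mod_mul_left]
  congr 1
  ring

private lemma LIFT_dvd (d e : ℕ) (he : 0 < e) (hd : 0 < d)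
    (u : (ZMod (e * d))ˣ) (b : ℕ) (h : e ∣ (((b : ℕ) : ZMod (e * d)) * (u : ZMod (e * d))).val) :
    e ∣ b := by
  have : NeZero (e * d) := ⟨(Nat.mul_pos he hd).ne'⟩
  have h1 : (u : ZMod (e * d)) = (((u : ZMod (e * d)).val : ℕ) : ZMod (e * d)) :=
    (ZMod.natCast_zmod_val _).symm
  rw [h1, ← Nat.cast_mul, ZMod.val_natCast] at h
  rw [Nat.dvd_mod_iff (Dvd.intro d rfl)] at h
  have h2 : Nat.Coprime e (u : ZMod (e * d)).val :=
    (Nat.Coprime.coprime_dvd_right (Dvd.intro d rfl) (ZMod.val_coe_unit_coprime u)).symm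
  exact h2.dvd_of_dvd_mul_right h

private lemma LIFT_sum (d e : ℕ) (he : 0 < e) (hd : 0 < d) {M : Type} [CommMonoid M] (f : ℕ → M)
    (hf : ∀ b, ¬ e ∣ b → f b = 1) :
    ∏ b ∈ Ioo 0 (e * d), f b = ∏ a ∈ Ioo 0 d, f (e * a) := by
  symm
  refine prod_of_injOn (fun a => e * a) ?_ ?_ ?_ ?_
  · intro a _ b _ hab
    exact Nat.eq_of_mul_eq_mul_left he hab
  · intro a ha
    rw [mem_coe, mem_Ioo] at ha ⊢
    exact ⟨Nat.mul_pos he ha.1, Nat.mul_lt_mul_of_pos_left ha.2 he⟩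
  · intro b hb hb'
    apply hf
    rintro ⟨a, rfl⟩
    apply hb'
    rw [mem_Ioo] at hb
    refine ⟨a, ?_, rfl⟩
    rw [mem_coe, mem_Ioo]
    exact ⟨Nat.pos_of_mul_pos_left hb.1, Nat.lt_of_mul_lt_mul_left hb.2⟩
  · intro a _
    rfl

theorem pLIFT : S_LIFT := by
  rintro d N h hd hN ε
  obtain ⟨e, rfl⟩ : ∃ e, N = e * d := ⟨N / d, (Nat.div_mul_cancel h).symm⟩
  have he : 0 < e := Nat.pos_of_mul_pos_right hN
  have : NeZero (e * d) := ⟨(Nat.mul_pos he hd).ne'⟩
  have : NeZero d := ⟨hd.ne'⟩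
  have hdiv : e * d / d = e := Nat.mul_div_cancel e hd
  obtain ⟨ε', hε'⟩ : ∃ ε' : ZMod (e * d) → ℚ, ∀ b, ε' b =
    if e ∣ b.val then ε ((b.val / e : ℕ) : ZMod d) else 0 := ⟨_, fun _ => rfl⟩
  have hval : ∀ b, b < e * d → ((b : ℕ) : ZMod (e * d)).val = b := fun b hb =>
    ZMod.val_cast_of_lt hb
  refine ⟨ε', ?_, ?_⟩
  · intro u
    rw [hdiv]
    have h1 := LIFT_sum d e he hd (M := Multiplicative ℚ) (fun b => Multiplicative.ofAdd
      (if b < e * d then ε' b * ((((u : ZMod (e * d)) * b).val : ℕ) : ℚ) else 0)) (by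
        intro b hb
        by_cases hlt : b < e * d
        · rw [if_pos hlt, hε', hval b hlt, if_neg hb, zero_mul]
          rfl
        · rw [if_neg hlt]
          rfl)
    have h2 : ∑ b ∈ Ioo 0 (e * d), (if b < e * d then
        ε' b * ((((u : ZMod (e * d)) * b).val : ℕ) : ℚ) else 0) =
        ∑ a ∈ Ioo 0 d, (if e * a < e * d then ε' (e * a : ℕ) *
          ((((u : ZMod (e * d)) * ((e * a : ℕ) : ZMod (e * d))).val : ℕ) : ℚ) else 0) := by
      have h3 := congrArg Multiplicative.toAdd h1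
      simpa only [toAdd_prod, toAdd_ofAdd] using h3
    rw [sum_congr rfl fun b hb => (if_pos (mem_Ioo.1 hb).2).symm, h2, mul_sum]
    refine sum_congr rfl fun a ha => ?_
    rw [mem_Ioo] at ha
    have hlt : e * a < e * d := Nat.mul_lt_mul_of_pos_left ha.2 he
    rw [if_pos hlt, hε', hval _ hlt, if_pos (Dvd.intro a rfl), Nat.mul_div_cancel_left a he,
      LIFT_val d e he hd h]
    push_cast
    ring
  · intro u
    unfold gam
    have h1 := LIFT_sum d e he hd (M := ℝ) (fun b => if b < e * d then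
      Real.Gamma (1 - (b : ℝ) / ((e * d : ℕ) : ℝ)) ^
        ((ε' ((b : ZMod (e * d)) * (u⁻¹ : (ZMod (e * d))ˣ)) : ℚ) : ℝ) else 1) (by
        intro b hb
        by_cases hlt : b < e * d
        · rw [if_pos hlt, hε', if_neg (fun h' => hb (LIFT_dvd d e he hd u⁻¹ b h'))]
          simp
        · rw [if_neg hlt])
    rw [prod_congr rfl fun b hb => (if_pos (mem_Ioo.1 hb).2).symm, h1]
    refine prod_congr rfl fun a ha => ?_
    rw [mem_Ioo] at ha
    have hlt : e * a < e * d := Nat.mul_lt_mul_of_pos_left ha.2 he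
    rw [if_pos hlt, hε', mul_comm (((e * a : ℕ)) : ZMod (e * d)), LIFT_val d e he hd h,
      if_pos (Dvd.intro _ rfl), Nat.mul_div_cancel_left _ he, ZMod.natCast_zmod_val]
    have he' : (e : ℝ) ≠ 0 := by exact_mod_cast he.ne'
    have hd' : (d : ℝ) ≠ 0 := by exact_mod_cast hd.ne'
    congr 1
    · congr 2
      push_cast
      field_simp
    · rw [map_inv, mul_comm]

end Pool.Agent.T2H05.GD
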