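import Pool.Agent.T2H05.GD.Stm

/-! # Package LIN: the lines of a triple -/

set_option autoImplicit false

open CategoryTheory AlgebraicGeometry IntermediateField Finset

universe v

namespace Pool.Agent.T2H05.GD

theorem pLIN (hDU : S_DU.{v}) : S_LIN.{v} := by
  classical
  intro F _ E _ _ j hind
  obtain ⟨hd1, hd2⟩ := hDU F
  have hd2' := hd2 E j
  have key : ∀ (n : ℕ) (z : Fin n → ℂ) (x : Fin n → F) (y : F),
      ∑ i, z i • j (y * x i) = ∑ τ : F →ₐ[ℚ] ℂ, (τ y * ∑ i, z i * τ (x i)) • vv j τ := by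
    intro n z x y
    have h1 : ∀ i, z i • j (y * x i) = ∑ τ : F →ₐ[ℚ] ℂ, (τ y * (z i * τ (x i))) • vv j τ := by
      intro i
      rw [hd2' (y * x i), Finset.smul_sum]
      refine Finset.sum_congr rfl fun τ _ => ?_
      rw [smul_smul, map_mul]
      congr 1
      ring
    rw [Finset.sum_congr rfl fun i _ => h1 i, Finset.sum_comm]
    refine Finset.sum_congr rfl fun τ _ => ?_
    rw [← Finset.sum_smul, Finset.mul_sum]
  refine ⟨?_, ?_⟩
  · intro σ n z x hz
    have hw : ∑ i, z i • j (x i) = ∑ τ : F →ₐ[ℚ] ℂ, (∑ i, z i * τ (x i)) • vv j τ := by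
      have h1 := key n z x 1
      simp only [one_mul, map_one] at h1
      exact h1
    have hA : ∀ τ : F →ₐ[ℚ] ℂ, τ ≠ σ → ∑ i, z i * τ (x i) = 0 := by
      intro τ hτ
      obtain ⟨y, hy⟩ : ∃ y, τ y ≠ σ y := by
        by_contra hcon
        push Not at hcon
        exact hτ (AlgHom.ext hcon)
      have h1 := hz y
      rw [key n z x y, hw, Finset.smul_sum] at h1
      have h2 : ∑ τ : F →ₐ[ℚ] ℂ, ((τ y - σ y) * ∑ i, z i * τ (x i)) • vv j τ = 0 := by
        have h3 := sub_eq_zero.2 h1
        rw [← Finset.sum_sub_distrib] at h3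
        rw [← h3]
        refine Finset.sum_congr rfl fun τ _ => ?_
        rw [smul_smul, ← sub_smul, sub_mul]
      have h4 := (Fintype.linearIndependent_iff.1 hind) _ h2 τ
      rcases mul_eq_zero.1 h4 with h5 | h5
      · exact absurd (sub_eq_zero.1 h5) hy
      · exact h5
    refine ⟨?_, hA⟩
    rw [hw, Finset.sum_eq_single σ]
    · intro τ _ hτ
      rw [hA τ hτ, zero_smul]
    · intro h
      exact absurd (Finset.mem_univ σ) h
  · intro σ y
    rw [key _ (fun i => σ (db F i)) (fun i => bs F i) y]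
    rw [Finset.sum_eq_single σ]
    · have h1 : ∑ i, σ (db F i) * σ (bs F i) = 1 := by
        have h2 := hd1 σ σ
        rw [if_pos rfl] at h2
        rw [← h2]
        exact Finset.sum_congr rfl fun i _ => mul_comm _ _
      rw [h1, mul_one]
    · intro τ _ hτ
      have h1 : ∑ i, σ (db F i) * τ (bs F i) = 0 := by
        have h2 := hd1 τ σ
        rw [if_neg hτ] at h2
        rw [← h2]
        exact Finset.sum_congr rfl fun i _ => mul_comm _ _
      rw [h1, mul_zero, zero_smul]
    · intro h
      exact absurd (Finset.mem_univ σ) h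

end Pool.Agent.T2H05.GD
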