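import Pool.Agent.T2H05.GD.Stm

/-!
# Package NRM: the norm to a subfield
-/

set_option autoImplicit false

open CategoryTheory AlgebraicGeometry IntermediateField Finset

universe v

namespace Pool.Agent.T2H05.GD

open Pool.Agent.H914 Pool.Agent.H914.VarClass

namespace NRM

/-- restriction to a smaller field -/
private lemma restr_incl {N : ℕ} {F F' : IntermediateField ℚ ℂ} (h : F' ≤ F) (u : (ZMod N)ˣ)
    (σ : F →ₐ[ℚ] ℂ) (hσ : Restr N u σ) : Restr N u (σ.comp (IntermediateField.inclusion h)) := by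
  obtain ⟨τ, h1, h2⟩ := hσ
  exact ⟨τ, h1, fun x hx hx' => h2 x (h hx) hx'⟩

open Classical in
private lemma sum_reindex {N : ℕ} [NeZero N] (χ : (ZMod N)ˣ →* ℂˣ) {M : Type} [AddCommMonoid M]
    (f : (ZMod N)ˣ → M) (a b : (ZMod N)ˣ) (hab : χ a = χ b) :
    ∑ u ∈ univ.filter (fun u => χ u = 1), f (a * u) =
      ∑ u ∈ univ.filter (fun u => χ u = 1), f (b * u) := by
  refine Finset.sum_bij' (fun u _ => b⁻¹ * a * u) (fun u _ => a⁻¹ * b * u) ?_ ?_ ?_ ?_ ?_
  · intro u hu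
    rw [Finset.mem_filter] at hu ⊢
    refine ⟨Finset.mem_univ _, ?_⟩
    rw [map_mul, map_mul, map_inv, hab, hu.2]
    simp
  · intro u hu
    rw [Finset.mem_filter] at hu ⊢
    refine ⟨Finset.mem_univ _, ?_⟩
    rw [map_mul, map_mul, map_inv, hab, hu.2]
    simp
  · intro u _
    group
  · intro u _
    group
  · intro u _
    congr 1
    group

open Classical in
private lemma prod_reindex {N : ℕ} [NeZero N] (χ : (ZMod N)ˣ →* ℂˣ) {M : Type} [CommMonoid M]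
    (f : (ZMod N)ˣ → M) (a b : (ZMod N)ˣ) (hab : χ a = χ b) :
    ∏ u ∈ univ.filter (fun u => χ u = 1), f (a * u) =
      ∏ u ∈ univ.filter (fun u => χ u = 1), f (b * u) := by
  refine Finset.prod_bij' (fun u _ => b⁻¹ * a * u) (fun u _ => a⁻¹ * b * u) ?_ ?_ ?_ ?_ ?_
  · intro u hu
    rw [Finset.mem_filter] at hu ⊢
    refine ⟨Finset.mem_univ _, ?_⟩
    rw [map_mul, map_mul, map_inv, hab, hu.2]
    simp
  · intro u hu
    rw [Finset.mem_filter] at hu ⊢
    refine ⟨Finset.mem_univ _, ?_⟩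
    rw [map_mul, map_mul, map_inv, hab, hu.2]
    simp
  · intro u _
    group
  · intro u _
    group
  · intro u _
    congr 1
    group

open Classical in
private lemma finsum_eq {N : ℕ} [NeZero N] (χ : (ZMod N)ˣ →* ℂˣ) (f : (ZMod N)ˣ → ℕ) :
    ∑ᶠ (u : (ZMod N)ˣ) (_ : χ u = 1), f u = ∑ u ∈ univ.filter (fun u => χ u = 1), f u := by
  rw [finsum_eq_sum_of_fintype, Finset.sum_filter]
  exact Finset.sum_congr rfl fun u _ => finsum_eq_if

open Classical in
private lemma finprod_eq {N : ℕ} [NeZero N] (χ : (ZMod N)ˣ →* ℂˣ) (f : (ZMod N)ˣ → ℂ) :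
    ∏ᶠ (u : (ZMod N)ˣ) (_ : χ u = 1), f u = ∏ u ∈ univ.filter (fun u => χ u = 1), f u := by
  rw [finprod_eq_prod_of_fintype, Finset.prod_filter]
  exact Finset.prod_congr rfl fun u _ => finprod_eq_if

end NRM

open NRM in
theorem pNRM (hITER : S_ITER.{v}) (hRST : S_RST.{v}) (hCY : S_CY) : S_NRM.{v} := by
  classical
  intro 𝒱 T hT N hN F F' _ _ hFN hF'F χ ψ hψ hψχ X m j p c hA pu cu hpc
  have hN0 : 0 < N := Nat.pos_of_ne_zero (NeZero.ne N)
  obtain ⟨-, res, hres, hR, hσ, -⟩ := hCY N hN0 F hFN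
  obtain ⟨-, res', hres', hR', hσ', -⟩ := hCY N hN0 F' (hF'F.trans hFN)
  -- the kernel
  set ker : Finset (ZMod N)ˣ := univ.filter (fun u => χ u = 1) with hker
  have hone : (1 : (ZMod N)ˣ) ∈ ker := by rw [hker, Finset.mem_filter]; simp
  have hn : 1 ≤ ∑ s : F ≃ₐ[ℚ] F, (ker.filter (fun u => res u = s)).card := by
    have h1 : ∑ s : F ≃ₐ[ℚ] F, (ker.filter (fun u => res u = s)).card = ker.card := by
      simp only [Finset.card_eq_sum_ones]
      exact Finset.sum_fiberwise' ker (fun u => res u) (fun _ => 1)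
    rw [h1]
    exact Finset.card_pos.2 ⟨1, hone⟩
  obtain ⟨X', m', j₁, -, hA'⟩ := hITER 𝒱 T hT X m F j p c hA
    (fun s => (ker.filter (fun u => res u = s)).card) hn
  -- sections
  have hex : ∀ τ : F' →ₐ[ℚ] ℂ, ∃ u : (ZMod N)ˣ, Restr N u τ := by
    intro τ
    obtain ⟨s, hs⟩ := hσ' τ
    obtain ⟨u, hu⟩ := hres' s
    exact ⟨u, (hR' u τ).2 (by rw [hu, hs])⟩
  choose l hl using hex
  have hwd : ∀ (u : (ZMod N)ˣ) (τ : F' →ₐ[ℚ] ℂ), Restr N u τ → χ u = χ (l τ) := by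
    intro u τ hu
    obtain ⟨s, hs⟩ := hσ' τ
    have h1 := hψχ u s (by rw [← hs]; exact hu)
    have h2 := hψχ (l τ) s (by rw [← hs]; exact hl τ)
    rw [← h1, ← h2]
  have hpu : ∀ u, pu u = p (F.val.comp ((res u : F ≃ₐ[ℚ] F) : F →ₐ[ℚ] F)) := fun u =>
    (hpc u _ ((hR u _).2 rfl)).1
  have hcu : ∀ u, cu u = c (F.val.comp ((res u : F ≃ₐ[ℚ] F) : F →ₐ[ℚ] F)) := fun u =>
    (hpc u _ ((hR u _).2 rfl)).2
  have hcomp : ∀ (a b : (ZMod N)ˣ), (F.val.comp ((res a : F ≃ₐ[ℚ] F) : F →ₐ[ℚ] F)).comp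
      ((res b : F ≃ₐ[ℚ] F) : F →ₐ[ℚ] F) =
      F.val.comp ((res (a * b) : F ≃ₐ[ℚ] F) : F →ₐ[ℚ] F) := by
    intro a b
    rw [map_mul]
    rfl
  obtain ⟨j', hj'⟩ := hRST 𝒱 T X' m' F F' hF'F j₁ _ _
    (fun τ => ∑ u ∈ ker, pu (l τ * u)) (fun τ => ∏ u ∈ ker, cu (l τ * u)) hA' (by
      intro σ
      obtain ⟨s, hs⟩ := hσ σ
      obtain ⟨a, ha⟩ := hres s
      have hσa : σ = F.val.comp ((res a : F ≃ₐ[ℚ] F) : F →ₐ[ℚ] F) := by rw [ha, hs]
      have hRa : Restr N a σ := (hR a σ).2 hσa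
      have hχ := hwd a _ (restr_incl hF'F a σ hRa)
      constructor
      · show ∑ s : F ≃ₐ[ℚ] F, (ker.filter (fun u => res u = s)).card *
            p (σ.comp (s : F →ₐ[ℚ] F)) =
          ∑ u ∈ ker, pu (l (σ.comp (IntermediateField.inclusion hF'F)) * u)
        rw [hker, ← sum_reindex χ pu a _ hχ, ← hker]
        rw [← Finset.sum_fiberwise ker (fun u => res u)]
        refine Finset.sum_congr rfl fun s _ => ?_
        rw [← smul_eq_mul, ← Finset.sum_const]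
        refine Finset.sum_congr rfl fun u hu => ?_
        rw [hpu, ← hcomp, ← hσa, (Finset.mem_filter.1 hu).2]
      · show ∏ s : F ≃ₐ[ℚ] F, c (σ.comp (s : F →ₐ[ℚ] F)) ^
            (ker.filter (fun u => res u = s)).card =
          ∏ u ∈ ker, cu (l (σ.comp (IntermediateField.inclusion hF'F)) * u)
        rw [hker, ← prod_reindex χ cu a _ hχ, ← hker]
        rw [← Finset.prod_fiberwise ker (fun u => res u)]
        refine Finset.prod_congr rfl fun s _ => ?_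
        rw [← Finset.prod_const]
        refine Finset.prod_congr rfl fun u hu => ?_
        rw [hcu, ← hcomp, ← hσa, (Finset.mem_filter.1 hu).2])
  refine ⟨X', m', j', _, _, hj', fun lam τ hτ => ?_⟩
  have hχ := hwd lam τ hτ
  constructor
  · show ∑ u ∈ ker, pu (l τ * u) = _
    rw [finsum_eq χ (fun u => pu (lam * u)), hker, sum_reindex χ pu lam _ hχ]
  · show ∏ u ∈ ker, cu (l τ * u) = _
    rw [finprod_eq χ (fun u => cu (lam * u)), hker, prod_reindex χ cu lam _ hχ]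

end Pool.Agent.T2H05.GD
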