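import Pool.Agent.T2H05.GD.Stm

set_option autoImplicit false

open CategoryTheory AlgebraicGeometry IntermediateField Finset

universe v

namespace Pool.Agent.T2H05.GD

open Pool.Agent.H914 Pool.Agent.H914.VarClass
open Pool.Agent.H916R2 (OddDist SS saw)

private lemma pol_bar_sum {𝒱 : VarClass Qbar} {T : PeriodData.{v} 𝒱} (hT : IsPeriodTheory T)
    {X : 𝒱.Obj} {m : ℕ} {ι : Type} (s : Finset ι) (f : ι → T.H X m) :
    T.bar (∑ i ∈ s, f i) = ∑ i ∈ s, T.bar (f i) := by
  classical
  induction s using Finset.induction_on with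
  | empty =>
    rw [Finset.sum_empty, Finset.sum_empty]
    have h := hT.bar_smul (X := X) (m := m) 0 0
    rw [zero_smul, map_zero, zero_smul] at h
    exact h
  | insert a s ha ih => rw [Finset.sum_insert ha, Finset.sum_insert ha, hT.bar_add, ih]

theorem pPOL : S_POL.{v} := by
  classical
  intro 𝒱 T hT X m F _ j p c hA σ σ' hσ
  have hbar : T.bar (vv j σ) = vv j σ' := by
    unfold vv
    rw [pol_bar_sum hT]
    refine Finset.sum_congr rfl fun i _ => ?_
    rw [hT.bar_smul, hT.bar_B (hA.mem_B _), hσ]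
  have hne : vv j σ ≠ 0 := hA.indep.ne_zero σ
  have hne' : vv j σ' ≠ 0 := hA.indep.ne_zero σ'
  have hpm : p σ ≤ m := by
    by_contra hc
    exact hne (hT.hodge_le (not_le.1 hc) (hA.hodge σ))
  have h1 := hT.bar_hodge hpm (hA.hodge σ)
  rw [hbar] at h1
  have hp : m - p σ = p σ' := by
    by_contra hc
    exact hne' (hT.hodge_disjoint hc h1 (hA.hodge σ'))
  refine ⟨by omega, ?_⟩
  obtain ⟨z, hz, hz2⟩ := hT.pol_dR (hA.dR σ) (hA.dR σ')
  have hpol := hT.pol_ne_zero (hA.hodge σ) hne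
  rw [hbar] at hpol
  have halg : IsAlgebraic ℚ (T.pol (vv j σ) (vv j σ')) := by
    have hF : ∀ (τ : F →ₐ[ℚ] ℂ) (x : F), IsAlgebraic ℚ (τ x) := by
      intro τ x
      exact (Algebra.IsAlgebraic.isAlgebraic (R := ℚ) x).algHom τ
    have e : T.pol (vv j σ) (vv j σ') = ∑ i, ∑ k, σ (db F i) * (σ' (db F k) *
        T.pol (j (bs F i)) (j (bs F k))) := by
      have e1 : vv j σ = ∑ i, σ (db F i) • j (bs F i) := rfl
      have e2 : vv j σ' = ∑ i, σ' (db F i) • j (bs F i) := rfl
      have e3 : ∀ y, T.pol (vv j σ) y = ∑ i, σ (db F i) * T.pol (j (bs F i)) y := by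
        intro y
        rw [e1, map_sum, LinearMap.sum_apply]
        refine Finset.sum_congr rfl fun i _ => ?_
        rw [map_smul]
        rfl
      rw [e3]
      refine Finset.sum_congr rfl fun i _ => ?_
      rw [e2, map_sum, Finset.mul_sum]
      refine Finset.sum_congr rfl fun k _ => ?_
      rw [map_smul]
      rfl
    rw [e]
    have hsum : ∀ {ι : Type} (s : Finset ι) (f : ι → ℂ), (∀ i ∈ s, IsAlgebraic ℚ (f i)) →
        IsAlgebraic ℚ (∑ i ∈ s, f i) := by
      intro ι s f hf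
      induction s using Finset.induction_on with
      | empty => rw [Finset.sum_empty]; exact isAlgebraic_zero
      | insert a s ha ih =>
        rw [Finset.sum_insert ha]
        exact (hf a (Finset.mem_insert_self a s)).add
          (ih fun i hi => hf i (Finset.mem_insert_of_mem hi))
    refine hsum _ _ fun i _ => hsum _ _ fun k _ => ?_
    obtain ⟨r, hr⟩ := hT.pol_B (hA.mem_B (bs F i)) (hA.mem_B (bs F k))
    rw [hr]
    have hr2 : IsAlgebraic ℚ ((r : ℚ) : ℂ) := by
      have := isAlgebraic_algebraMap (R := ℚ) (A := ℂ) r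
      exact this
    exact (hF σ _).mul ((hF σ' _).mul hr2)
  have e5 : T.pol (c σ • vv j σ) (c σ' • vv j σ') =
      c σ * (c σ' * T.pol (vv j σ) (vv j σ')) := by
    rw [map_smul (T.pol (c σ • vv j σ)), map_smul T.pol]
    show c σ' * (c σ * T.pol (vv j σ) (vv j σ')) = _
    ring
  rw [e5] at hz2
  have hcc : c σ * c σ' ≠ 0 := mul_ne_zero (hA.ne σ) (hA.ne σ')
  refine ⟨z * (T.pol (vv j σ) (vv j σ'))⁻¹, hz.mul halg.inv, ?_, ?_⟩
  · refine mul_ne_zero ?_ (inv_ne_zero hpol)
    intro hz0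
    rw [hz0, zero_mul] at hz2
    exact (mul_ne_zero (hA.ne σ) (mul_ne_zero (hA.ne σ') hpol)) hz2
  · have : z * (2 * Real.pi * Complex.I) ^ m * (T.pol (vv j σ) (vv j σ'))⁻¹ = c σ * c σ' := by
      rw [← hz2]
      field_simp
    rw [← this]
    ring

end Pool.Agent.T2H05.GD
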