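import Pool.Agent.T2H05.GD.Stm

set_option autoImplicit false

open CategoryTheory AlgebraicGeometry IntermediateField Finset

universe v

namespace Pool.Agent.T2H05.GD

private lemma res_zt_pow (d N k : ℕ) (hN : 0 < N) (hk : N = d * k) : zt d = zt N ^ k := by
  have hd : (d : ℂ) ≠ 0 := by
    rcases Nat.eq_zero_or_pos d with h | h
    · subst h; omega
    · exact_mod_cast h.ne'
  have hk0 : (k : ℂ) ≠ 0 := by
    rcases Nat.eq_zero_or_pos k with h | h
    · subst h; omega
    · exact_mod_cast h.ne'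
  unfold zt
  rw [← Complex.exp_nat_mul]
  congr 1
  rw [hk]
  push_cast
  field_simp

private lemma res_zt_self (d : ℕ) : zt d ^ d = 1 := by
  unfold zt
  rw [← Complex.exp_nat_mul]
  rcases Nat.eq_zero_or_pos d with h | h
  · subst h; simp
  · have hd : (d : ℂ) ≠ 0 := by exact_mod_cast h.ne'
    rw [mul_div_cancel₀ _ hd, Complex.exp_two_pi_mul_I]

/-- RES: change of level. -/
theorem pRES : S_RES := by
  intro d N h hN F hF
  obtain ⟨k, hk⟩ := h
  have hzt : zt d = zt N ^ k := res_zt_pow d N k hN hk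
  have hle : ℚ⟮zt d⟯ ≤ ℚ⟮zt N⟯ := by
    rw [adjoin_simple_le_iff, hzt]
    exact pow_mem (mem_adjoin_simple_self ℚ (zt N)) k
  refine ⟨hF.trans hle, ?_⟩
  rintro u σ ⟨τ, h1, h2⟩
  have hN0 : NeZero N := ⟨hN.ne'⟩
  refine ⟨τ.comp (IntermediateField.inclusion hle), ?_, ?_⟩
  · have e1 : (IntermediateField.inclusion hle) (AdjoinSimple.gen ℚ (zt d)) =
        (AdjoinSimple.gen ℚ (zt N)) ^ k := by
      apply Subtype.ext
      rw [SubmonoidClass.coe_pow]
      simp [hzt]
    change τ ((IntermediateField.inclusion hle) (AdjoinSimple.gen ℚ (zt d))) = _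
    rw [e1, map_pow, h1]
    have e2 : ((ZMod.unitsMap ⟨k, hk⟩ u : (ZMod d)ˣ) : ZMod d).val = (u : ZMod N).val % d := by
      rw [ZMod.unitsMap_val, ZMod.cast_eq_val, ZMod.val_natCast]
    rw [e2, ← pow_mul, mul_comm, pow_mul, ← hzt]
    exact pow_eq_pow_mod _ (res_zt_self d)
  · intro x hx hx'
    rw [← h2 x hx (hle hx')]
    rfl

end Pool.Agent.T2H05.GD
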