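import Pool.Agent.T2H05.GD.Stm

set_option autoImplicit false

open CategoryTheory AlgebraicGeometry IntermediateField Finset

universe v

namespace Pool.Agent.T2H05.GD

private lemma RF_alg (q : ℚ) : IsAlgebraic ℚ ((Real.sin (q * Real.pi) : ℝ) : ℂ) := by
  have h1 : IsAlgebraic ℤ (Complex.sin (q * Real.pi)) := Complex.isAlgebraic_sin_rat_mul_pi q
  have h2 := h1.extendScalars (algebraMap ℤ ℚ).injective_int
  convert h2 using 1
  push_cast
  rfl

theorem pRF : S_RF := by
  intro x hx0 hx1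
  have hx0' : (0 : ℝ) < x := by exact_mod_cast hx0
  have hx1' : (x : ℝ) < 1 := by exact_mod_cast hx1
  have hsin : 0 < Real.sin (x * Real.pi) := by
    apply Real.sin_pos_of_pos_of_lt_pi
    · positivity
    · nlinarith [Real.pi_pos]
  have halg : IsAlgebraic ℚ ((Real.sin (x * Real.pi) : ℝ) : ℂ) :=
    RF_alg x
  refine ⟨((Real.sin (x * Real.pi) : ℝ) : ℂ)⁻¹, halg.inv, ?_, ?_⟩
  · apply inv_ne_zero
    exact_mod_cast hsin.ne'
  · rw [Real.Gamma_mul_Gamma_one_sub, mul_comm (Real.pi) (x : ℝ)]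
    push_cast
    field_simp

end Pool.Agent.T2H05.GD
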