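import Pool.Agent.T2H05.GD.Stm

/-!
# Package RPOW : `L (x ^ q) = q L (x)`
-/

set_option autoImplicit false

universe v

namespace Pool.Agent.T2H05.GD

private lemma rpow_zpow {L : ℂ → ℚ} (h : IsLog L) {x : ℂ} (hx : x ≠ 0) (n : ℤ) :
    L (x ^ n) = n * L x := by
  obtain ⟨m, rfl | rfl⟩ := n.eq_nat_or_neg
  · rw [zpow_natCast, h.pow hx]
    push_cast
    ring
  · rw [zpow_neg, zpow_natCast, h.inv (pow_ne_zero m hx), h.pow hx]
    push_cast
    ring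

theorem pRPOW : S_RPOW := by
  intro L hL x q hx
  have hy : 0 < x ^ ((q : ℚ) : ℝ) := Real.rpow_pos_of_pos hx _
  have h1 : (x ^ ((q : ℚ) : ℝ)) ^ q.den = x ^ q.num := by
    rw [← Real.rpow_natCast, ← Real.rpow_mul hx.le, ← Real.rpow_intCast]
    congr 1
    exact_mod_cast Rat.mul_den_eq_num q
  have h2 : (((x ^ ((q : ℚ) : ℝ) : ℝ) : ℂ)) ^ q.den = (x : ℂ) ^ q.num := by
    rw [← Complex.ofReal_pow, h1, Complex.ofReal_zpow]
  have h3 : (q.den : ℚ) * L ((x ^ ((q : ℚ) : ℝ) : ℝ) : ℂ) = q.num * L (x : ℂ) := by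
    rw [← hL.pow (Complex.ofReal_ne_zero.2 hy.ne'), h2,
      rpow_zpow hL (Complex.ofReal_ne_zero.2 hx.ne')]
  have h4 : (q.den : ℚ) ≠ 0 := by exact_mod_cast q.den_ne_zero
  apply mul_left_cancel₀ h4
  rw [h3, ← mul_assoc]
  congr 1
  have := Rat.mul_den_eq_num q
  rw [mul_comm]
  exact this.symm

end Pool.Agent.T2H05.GD
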