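import Pool.Agent.T2H05.GD.Stm

set_option autoImplicit false

open CategoryTheory AlgebraicGeometry IntermediateField Finset

universe v

namespace Pool.Agent.T2H05.GD

open Pool.Agent.H914 Pool.Agent.H914.VarClass
open Pool.Agent.H916R2 (OddDist SS saw)

private lemma rst_ext (F F' : IntermediateField ℚ ℂ) [FiniteDimensional ℚ F]
    (h : F' ≤ F) (τ : F' →ₐ[ℚ] ℂ) : ∃ σ : F →ₐ[ℚ] ℂ, σ.comp (IntermediateField.inclusion h) = τ := by
  have hS : IntermediateField.adjoin ℚ (F : Set ℂ) = F := IntermediateField.adjoin_self ℚ F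
  have hI : ∀ s ∈ (F : Set ℂ), IsIntegral ℚ s ∧
      ((minpoly ℚ s).map (algebraMap ℚ ℂ)).Splits := fun s hs =>
    ⟨(Algebra.IsIntegral.isIntegral (R := ℚ) (⟨s, hs⟩ : F)).map F.val, IsAlgClosed.splits _⟩
  obtain ⟨φ, hφ⟩ := IntermediateField.exists_algHom_adjoin_of_splits (F := ℚ) (E := ℂ) (K := ℂ)
    (S := (F : Set ℂ)) (L := F') hI τ (by rw [hS]; exact h)
  refine ⟨φ.comp (IntermediateField.inclusion (le_of_eq hS.symm)), ?_⟩
  rw [← hφ]
  rfl

theorem pRST (hDU : S_DU.{v}) : S_RST.{v} := by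
  classical
  intro 𝒱 T X m F F' _ _ h j p c p' c' hA hpc
  obtain ⟨-, hj⟩ := hDU F
  obtain ⟨hd', -⟩ := hDU F'
  let j' : F' →+ T.H X m := j.comp (IntermediateField.inclusion h).toRingHom.toAddMonoidHom
  have hj'1 : ∀ x : F', j' x = j (IntermediateField.inclusion h x) := fun x => rfl
  have hvv : ∀ τ : F' →ₐ[ℚ] ℂ, vv j' τ =
      ∑ σ : F →ₐ[ℚ] ℂ, (if σ.comp (IntermediateField.inclusion h) = τ then (1 : ℂ) else 0) •
        vv j σ := by
    intro τ
    have h0 : vv j' τ = ∑ i, τ (db F' i) • j (IntermediateField.inclusion h (bs F' i)) := rfl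
    rw [h0]
    have h1 : ∀ i, τ (db F' i) • j (IntermediateField.inclusion h (bs F' i)) =
        ∑ σ : F →ₐ[ℚ] ℂ, ((σ.comp (IntermediateField.inclusion h)) (bs F' i) * τ (db F' i)) •
          vv j σ := by
      intro i
      rw [hj (T.H X m) j, Finset.smul_sum]
      refine Finset.sum_congr rfl fun σ _ => ?_
      rw [smul_smul, mul_comm]
      rfl
    rw [Finset.sum_congr rfl fun i _ => h1 i, Finset.sum_comm]
    refine Finset.sum_congr rfl fun σ _ => ?_
    rw [← Finset.sum_smul]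
    exact congrArg (fun z : ℂ => z • vv j σ) (hd' (σ.comp (IntermediateField.inclusion h)) τ)
  have hvv2 : ∀ τ : F' →ₐ[ℚ] ℂ, vv j' τ =
      ∑ σ ∈ Finset.univ.filter (fun σ : F →ₐ[ℚ] ℂ => σ.comp (IntermediateField.inclusion h) = τ),
        vv j σ := by
    intro τ
    rw [hvv τ, Finset.sum_filter]
    refine Finset.sum_congr rfl fun σ _ => ?_
    split_ifs <;> simp
  refine ⟨j', ?_, ?_, ?_, ?_, ?_⟩
  · intro x
    exact hA.mem_B _
  · rw [Fintype.linearIndependent_iff]
    intro a ha τ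
    have h2 : ∑ σ : F →ₐ[ℚ] ℂ, a (σ.comp (IntermediateField.inclusion h)) • vv j σ = 0 := by
      rw [← ha]
      have h5 : ∀ τ : F' →ₐ[ℚ] ℂ, a τ • vv j' τ = ∑ σ : F →ₐ[ℚ] ℂ,
          (if σ.comp (IntermediateField.inclusion h) = τ then a τ else 0) • vv j σ := by
        intro τ
        rw [hvv τ, Finset.smul_sum]
        refine Finset.sum_congr rfl fun σ _ => ?_
        rw [smul_smul]
        split_ifs
        · rw [mul_one]
        · rw [mul_zero]
      rw [Finset.sum_congr rfl fun τ _ => h5 τ, Finset.sum_comm]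
      refine Finset.sum_congr rfl fun σ _ => ?_
      rw [← Finset.sum_smul]
      refine congrArg (fun z : ℂ => z • vv j σ) ?_
      exact ((Finset.sum_eq_single (σ.comp (IntermediateField.inclusion h))
        (fun b _ hb => if_neg (Ne.symm hb)) (fun hn => absurd (Finset.mem_univ _) hn)).trans
        (if_pos rfl)).symm
    obtain ⟨σ, hσ⟩ := rst_ext F F' h τ
    have h3 := Fintype.linearIndependent_iff.1 hA.indep _ h2 σ
    exact (congrArg a hσ).symm.trans h3
  · intro τ
    rw [hvv2 τ]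
    refine Submodule.sum_mem _ fun σ hσ => ?_
    have hσ2 := (Finset.mem_filter.1 hσ).2
    have h2 := hA.hodge σ
    have h3 : p σ = p' τ := (hpc σ).1.trans (congrArg p' hσ2)
    rw [h3] at h2
    exact h2
  · intro τ
    obtain ⟨σ, hσ⟩ := rst_ext F F' h τ
    have h3 : c σ = c' τ := (hpc σ).2.trans (congrArg c' hσ)
    rw [← h3]
    exact hA.ne σ
  · intro τ
    rw [hvv2 τ, Finset.smul_sum]
    refine AddSubgroup.sum_mem _ fun σ hσ => ?_
    have hσ2 := (Finset.mem_filter.1 hσ).2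
    have h3 : c σ = c' τ := (hpc σ).2.trans (congrArg c' hσ2)
    rw [← h3]
    exact hA.dR σ

end Pool.Agent.T2H05.GD
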