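import Pool.Agent.T2H05.GD.Stm

set_option autoImplicit false

open CategoryTheory AlgebraicGeometry IntermediateField Finset

universe v

namespace Pool.Agent.T2H05.GD

namespace PkgSEP

/-- The subgroup of algebraic numbers in the multiplicative group of `ℂ`. -/
def algUnits : AddSubgroup (Additive ℂˣ) where
  carrier := {u | IsAlgebraic ℚ ((Additive.toMul u : ℂˣ) : ℂ)}
  add_mem' := by
    intro a b ha hb
    simp only [Set.mem_ofPred_eq, toMul_add, Units.val_mul] at *
    exact ha.mul hb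
  zero_mem' := by
    simp only [Set.mem_ofPred_eq, toMul_zero, Units.val_one]
    exact isAlgebraic_one
  neg_mem' := by
    intro a ha
    simp only [Set.mem_ofPred_eq, toMul_neg, Units.val_inv_eq_inv_val] at *
    exact ha.inv

theorem mem_algUnits (u : Additive ℂˣ) :
    u ∈ algUnits ↔ IsAlgebraic ℚ ((Additive.toMul u : ℂˣ) : ℂ) := Iff.rfl

theorem isAlgebraic_of_zpow (z : ℂˣ) (n : ℤ) (hn : n ≠ 0)
    (h : IsAlgebraic ℚ (((z ^ n : ℂˣ)) : ℂ)) : IsAlgebraic ℚ (z : ℂ) := by
  have key : ∀ k : ℕ, k ≠ 0 → IsAlgebraic ℚ ((z : ℂ) ^ k) → IsAlgebraic ℚ (z : ℂ) := by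
    intro k hk hz
    exact hz.of_pow (Nat.pos_of_ne_zero hk)
  rcases Int.eq_nat_or_neg n with ⟨k, rfl | rfl⟩
  · rw [zpow_natCast, Units.val_pow_eq_pow_val] at h
    exact key k (by simpa using hn) h
  · rw [zpow_neg, zpow_natCast, Units.val_inv_eq_inv_val, Units.val_pow_eq_pow_val] at h
    have h' := h.inv
    rw [inv_inv] at h'
    exact key k (by simpa using hn) h'

theorem exists_hom (z : ℂˣ) (hz : ¬ IsAlgebraic ℚ (z : ℂ)) :
    ∃ h : Additive ℂˣ →+ ℚ, (∀ u : ℂˣ, IsAlgebraic ℚ (u : ℂ) → h (Additive.ofMul u) = 0) ∧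
      h (Additive.ofMul z) ≠ 0 := by
  let q : Additive ℂˣ →+ (Additive ℂˣ ⧸ algUnits) := QuotientAddGroup.mk' algUnits
  let f : ℤ →+ (Additive ℂˣ ⧸ algUnits) :=
    (zmultiplesHom (Additive ℂˣ ⧸ algUnits)) (q (Additive.ofMul z))
  have hf : Function.Injective f := by
    refine (injective_iff_map_eq_zero f).mpr ?_
    intro n hn
    by_contra hn0
    apply hz
    have h1 : f n = q (n • Additive.ofMul z) := by
      rw [map_zsmul]; rfl
    rw [h1] at hn
    have h2 : n • Additive.ofMul z ∈ algUnits := (QuotientAddGroup.eq_zero_iff _).mp hn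
    rw [mem_algUnits] at h2
    exact isAlgebraic_of_zpow z n hn0 h2
  obtain ⟨h, hh⟩ := Module.Baer.extension_property_addMonoidHom (M := ℤ)
    (N := Additive ℂˣ ⧸ algUnits) (Q := ℚ) (Module.Baer.of_divisible ℚ) f hf (Int.castAddHom ℚ)
  refine ⟨h.comp q, ?_, ?_⟩
  · intro u hu
    have : q (Additive.ofMul u) = 0 := (QuotientAddGroup.eq_zero_iff _).mpr hu
    rw [AddMonoidHom.comp_apply, this, map_zero]
  · have h1 := DFunLike.congr_fun hh (1 : ℤ)
    have h2 : f 1 = q (Additive.ofMul z) := by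
      change (1 : ℤ) • q (Additive.ofMul z) = _
      rw [one_zsmul]
    rw [AddMonoidHom.comp_apply, h2] at h1
    rw [AddMonoidHom.comp_apply, h1]
    simp

end PkgSEP

open PkgSEP in
theorem pSEP : S_SEP := by
  intro x y hx hy hL
  by_contra hs
  have hz : ¬ IsAlgebraic ℚ (x / y) := by
    intro h
    exact hs ⟨x / y, h, div_ne_zero hx hy, by field_simp⟩
  set z : ℂˣ := Units.mk0 (x / y) (div_ne_zero hx hy) with hzd
  obtain ⟨h, h1, h2⟩ := exists_hom z hz
  let L : ℂ → ℚ := fun w => if hw : w = 0 then 0 else h (Additive.ofMul (Units.mk0 w hw))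
  have hLv : ∀ (w : ℂ) (hw : w ≠ 0), L w = h (Additive.ofMul (Units.mk0 w hw)) := by
    intro w hw
    simp only [L, dif_neg hw]
  have hLog : IsLog L := by
    refine ⟨?_, ?_⟩
    · intro a b ha hb
      rw [hLv _ (mul_ne_zero ha hb), hLv a ha, hLv b hb, Units.mk0_mul, ofMul_mul, map_add]
    · intro a ha haa
      rw [hLv a ha]
      exact h1 _ haa
  have h3 := hL L hLog
  have h4 : L x = L (x / y) + L y := by
    rw [← hLog.1 _ _ (div_ne_zero hx hy) hy, div_mul_cancel₀ _ hy]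
  rw [h3] at h4
  have h5 : L (x / y) = 0 := by linarith
  rw [hLv _ (div_ne_zero hx hy)] at h5
  exact h2 h5

end Pool.Agent.T2H05.GD
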