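import Pool.Agent.T2H05.GD.Stm

/-!
# Package TEN: tensor product over `F`
-/

set_option autoImplicit false

open CategoryTheory AlgebraicGeometry IntermediateField Finset

universe v

namespace Pool.Agent.T2H05.GD

open Pool.Agent.H914 Pool.Agent.H914.VarClass

namespace PkgTEN

variable {𝒱 : VarClass Qbar} (T : PeriodData.{v} 𝒱)

/-- The map `x ↦ ∑_i cup (j (x b_i)) (j' (b*_i))`. -/
noncomputable def ten {X Y : 𝒱.Obj} {m n : ℕ} {F : IntermediateField ℚ ℂ} [FiniteDimensional ℚ F]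
    (j : F →+ T.H X m) (j' : F →+ T.H Y n) : F →+ T.H (X.prod Y) (m + n) where
  toFun x := ∑ i, T.cup (j (x * bs F i)) (j' (db F i))
  map_zero' := by simp
  map_add' x y := by
    rw [← Finset.sum_add_distrib]
    refine Finset.sum_congr rfl fun i _ => ?_
    rw [add_mul, map_add, map_add, LinearMap.add_apply]

theorem ten_apply {X Y : 𝒱.Obj} {m n : ℕ} {F : IntermediateField ℚ ℂ} [FiniteDimensional ℚ F]
    (j : F →+ T.H X m) (j' : F →+ T.H Y n) (x : F) :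
    ten T j j' x = ∑ i, T.cup (j (x * bs F i)) (j' (db F i)) := rfl

theorem ten_eq (hDU : S_DU.{v}) {X Y : 𝒱.Obj} {m n : ℕ} {F : IntermediateField ℚ ℂ}
    [FiniteDimensional ℚ F] (j : F →+ T.H X m) (j' : F →+ T.H Y n) (x : F) :
    ten T j j' x = ∑ σ : F →ₐ[ℚ] ℂ, σ x • T.cup (vv j σ) (vv j' σ) := by
  classical
  have h1 := (hDU F).1
  have h2 : ∀ y : F, j y = ∑ σ : F →ₐ[ℚ] ℂ, σ y • vv j σ := (hDU F).2 _ j
  have h3 : ∀ y : F, j' y = ∑ σ : F →ₐ[ℚ] ℂ, σ y • vv j' σ := (hDU F).2 _ j'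
  rw [ten_apply]
  have h4 : ∀ i, T.cup (j (x * bs F i)) (j' (db F i)) =
      ∑ σ : F →ₐ[ℚ] ℂ, ∑ τ : F →ₐ[ℚ] ℂ, (σ x * (σ (bs F i) * τ (db F i))) •
        T.cup (vv j σ) (vv j' τ) := by
    intro i
    rw [h2, h3 (db F i), map_sum, Finset.sum_comm]
    refine Finset.sum_congr rfl fun τ _ => ?_
    rw [map_sum, LinearMap.sum_apply]
    refine Finset.sum_congr rfl fun σ _ => ?_
    rw [map_smul, map_smul, LinearMap.smul_apply, smul_smul, map_mul]
    congr 1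
    ring
  rw [Finset.sum_congr rfl fun i _ => h4 i, Finset.sum_comm]
  refine Finset.sum_congr rfl fun σ _ => ?_
  rw [Finset.sum_comm]
  have h5 : ∀ τ : F →ₐ[ℚ] ℂ, ∑ i, (σ x * (σ (bs F i) * τ (db F i))) • T.cup (vv j σ) (vv j' τ) =
      if σ = τ then σ x • T.cup (vv j σ) (vv j' τ) else 0 := by
    intro τ
    rw [← Finset.sum_smul, ← Finset.mul_sum, h1]
    split_ifs with h
    · rw [mul_one]
    · rw [mul_zero, zero_smul]
  rw [Finset.sum_congr rfl fun τ _ => h5 τ, Finset.sum_ite_eq, if_pos (Finset.mem_univ _)]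

theorem vv_of (hDU : S_DU.{v}) {E : Type v} [AddCommGroup E] [Module ℂ E]
    {F : IntermediateField ℚ ℂ} [FiniteDimensional ℚ F] (j : F →+ E) (u : (F →ₐ[ℚ] ℂ) → E)
    (h : ∀ x : F, j x = ∑ σ : F →ₐ[ℚ] ℂ, σ x • u σ) (σ : F →ₐ[ℚ] ℂ) : vv j σ = u σ := by
  classical
  have h1 := (hDU F).1
  unfold vv
  have h2 : ∀ i, σ (db F i) • j (bs F i) =
      ∑ τ : F →ₐ[ℚ] ℂ, (τ (bs F i) * σ (db F i)) • u τ := by
    intro i
    rw [h, Finset.smul_sum]
    refine Finset.sum_congr rfl fun τ _ => ?_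
    rw [smul_smul, mul_comm]
  rw [Finset.sum_congr rfl fun i _ => h2 i, Finset.sum_comm]
  have h3 : ∀ τ : F →ₐ[ℚ] ℂ, ∑ i, (τ (bs F i) * σ (db F i)) • u τ = if σ = τ then u τ else 0 := by
    intro τ
    rw [← Finset.sum_smul, h1]
    by_cases h : τ = σ
    · rw [if_pos h, if_pos h.symm, one_smul]
    · rw [if_neg h, if_neg (fun hc => h hc.symm), zero_smul]
  rw [Finset.sum_congr rfl fun τ _ => h3 τ, Finset.sum_ite_eq, if_pos (Finset.mem_univ _)]

end PkgTEN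

open PkgTEN in
theorem pTEN (hDU : S_DU.{v}) : S_TEN.{v} := by
  intro 𝒱 T hT X Y m n F _ j j' p p' c c' h h'
  have hv : ∀ σ, vv (ten T j j') σ = T.cup (vv j σ) (vv j' σ) :=
    vv_of hDU (ten T j j') (fun σ => T.cup (vv j σ) (vv j' σ)) (ten_eq T hDU j j')
  refine ⟨ten T j j', ?_, ?_, ?_, ?_, ?_⟩
  · intro x
    rw [ten_apply]
    exact sum_mem fun i _ => hT.cup_B (h.mem_B _) (h'.mem_B _)
  · rw [Fintype.linearIndependent_iff]
    intro g hg σ
    have e := Fintype.equivFin (F →ₐ[ℚ] ℂ)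
    have h1 := hT.cup_injective (Fintype.card (F →ₐ[ℚ] ℂ)) (fun i => vv j (e.symm i))
      (fun i => g (e.symm i) • vv j' (e.symm i)) (h.indep.comp _ e.symm.injective) (by
        rw [← hg, ← Equiv.sum_comp e.symm]
        refine Finset.sum_congr rfl fun i _ => ?_
        rw [hv, map_smul]) (e σ)
    simp only [Equiv.symm_apply_apply] at h1
    rcases smul_eq_zero.1 h1 with h2 | h2
    · exact h2
    · exact absurd h2 (h'.indep.ne_zero σ)
  · intro σ
    rw [hv]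
    exact hT.cup_hodge (h.hodge σ) (h'.hodge σ)
  · intro σ
    exact mul_ne_zero (h.ne σ) (h'.ne σ)
  · intro σ
    rw [hv]
    have h1 := hT.cup_dR (h.dR σ) (h'.dR σ)
    rw [map_smul, map_smul, LinearMap.smul_apply, smul_smul, mul_comm] at h1
    exact h1

end Pool.Agent.T2H05.GD
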