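import Pool.Agent.T2H05.GD.Stm

/-! Package TW of project GD (helper5), written by helper51. -/

set_option autoImplicit false

open CategoryTheory AlgebraicGeometry IntermediateField Finset

universe v

namespace Pool.Agent.T2H05.GD

open Pool.Agent.H914 Pool.Agent.H914.VarClass

open scoped Classical in
private lemma tw_vv (hDU : S_DU.{v}) {F : IntermediateField ℚ ℂ} [FiniteDimensional ℚ F]
    {E : Type v} [AddCommGroup E] [Module ℂ E] (j j' : F →+ E) (s : F ≃ₐ[ℚ] F)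
    (hj : ∀ x, j' x = j (s.symm x)) (σ : F →ₐ[ℚ] ℂ) :
    vv j' σ = vv j (σ.comp (s : F →ₐ[ℚ] F)) := by
  obtain ⟨h1, h2⟩ := hDU F
  have h3 : vv j' σ = ∑ τ : F →ₐ[ℚ] ℂ,
      (∑ i, (τ.comp (s.symm : F →ₐ[ℚ] F)) (bs F i) * σ (db F i)) • vv j τ := by
    unfold vv
    simp_rw [hj]
    have e : ∀ i, σ (db F i) • j (s.symm (bs F i)) =
        ∑ τ : F →ₐ[ℚ] ℂ, ((τ.comp (s.symm : F →ₐ[ℚ] F)) (bs F i) * σ (db F i)) • vv j τ := by
      intro i
      rw [h2 E j (s.symm (bs F i)), smul_sum]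
      refine sum_congr rfl fun τ _ => ?_
      rw [smul_smul, mul_comm]
      rfl
    rw [sum_congr rfl fun i _ => e i, sum_comm]
    refine sum_congr rfl fun τ _ => ?_
    rw [sum_smul]
    rfl
  rw [h3]
  have h4 : ∀ τ : F →ₐ[ℚ] ℂ,
      (∑ i, (τ.comp (s.symm : F →ₐ[ℚ] F)) (bs F i) * σ (db F i)) • vv j τ =
        if τ = σ.comp (s : F →ₐ[ℚ] F) then vv j τ else 0 := by
    intro τ
    rw [h1]
    have h5 : τ.comp (s.symm : F →ₐ[ℚ] F) = σ ↔ τ = σ.comp (s : F →ₐ[ℚ] F) := by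
      constructor
      · intro h
        ext x
        rw [← h]
        simp
      · intro h
        ext x
        rw [h]
        simp
    by_cases h : τ = σ.comp (s : F →ₐ[ℚ] F)
    · rw [if_pos (h5.mpr h), if_pos h, one_smul]
    · rw [if_neg (fun h' => h (h5.mp h')), if_neg h, zero_smul]
  rw [sum_congr rfl fun τ _ => h4 τ]
  simp

theorem pTW (hDU : S_DU.{v}) : S_TW.{v} := by
  intro 𝒱 T X m F _ j p c hA s
  set j' : F →+ T.H X m := j.comp ((s.symm : F ≃+* F).toAddEquiv : F ≃+ F).toAddMonoidHom with hj'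
  have hj : ∀ x, j' x = j (s.symm x) := fun x => rfl
  have hv : ∀ σ : F →ₐ[ℚ] ℂ, vv j' σ = vv j (σ.comp (s : F →ₐ[ℚ] F)) :=
    fun σ => tw_vv hDU j j' s hj σ
  refine ⟨j', ?_, ?_, ?_, ?_, ?_⟩
  · intro x
    rw [hj]
    exact hA.mem_B _
  · have hinj : Function.Injective (fun σ : F →ₐ[ℚ] ℂ => σ.comp (s : F →ₐ[ℚ] F)) := by
      intro σ τ h
      ext x
      have h1 := DFunLike.congr_fun h (s.symm x)
      simpa using h1
    have h1 := hA.indep.comp _ hinj
    have h2 : vv j' = vv j ∘ (fun σ : F →ₐ[ℚ] ℂ => σ.comp (s : F →ₐ[ℚ] F)) := funext hv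
    rw [h2]
    exact h1
  · intro σ
    rw [hv]
    exact hA.hodge _
  · intro σ
    exact hA.ne _
  · intro σ
    rw [hv]
    exact hA.dR _

end Pool.Agent.T2H05.GD
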