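import Pool.Agent.T2H05.GD.Stm

set_option autoImplicit false

open Finset

namespace Pool.Agent.T2H05.GD

open Pool.Agent.H916R2 (OddDist)

private lemma uni_act {N n : ℕ} [NeZero N] (hn : n ∣ N) (u : (ZMod N)ˣ) (t t' : ℕ)
    (h : ((ZMod.unitsMap hn u : (ZMod n)ˣ) : ZMod n) * (t : ZMod n) = (t' : ZMod n)) :
    (u : ZMod N) * ((N / n * t : ℕ) : ZMod N) = ((N / n * t' : ℕ) : ZMod N) := by
  have h1 : (u : ZMod N) = (((u : ZMod N).val : ℕ) : ZMod N) := by
    rw [ZMod.natCast_val, ZMod.cast_id', id]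
  have hN0 : N ≠ 0 := NeZero.ne N
  have hn0 : n ≠ 0 := fun h0 => hN0 (by rw [h0] at hn; exact zero_dvd_iff.1 hn)
  haveI : NeZero n := ⟨hn0⟩
  have h2 : ((ZMod.unitsMap hn u : (ZMod n)ˣ) : ZMod n) = (((u : ZMod N).val : ℕ) : ZMod n) := by
    rw [ZMod.unitsMap_val, ZMod.cast_eq_val]
  rw [h2] at h
  have h3 : ((u : ZMod N).val * t : ℕ) ≡ t' [MOD n] := by
    rw [← ZMod.natCast_eq_natCast_iff]
    push_cast
    exact h
  rw [h1, ← Nat.cast_mul, ZMod.natCast_eq_natCast_iff]
  have h4 := Nat.ModEq.mul_left' (N / n) h3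
  rw [Nat.div_mul_cancel hn] at h4
  have e : (u : ZMod N).val * (N / n * t) = N / n * ((u : ZMod N).val * t) := by ring
  rw [e]
  exact h4

private lemma uni_main (N : ℕ) [NeZero N] (χ : DirichletCharacter ℂ N) (h : ZMod N → ℂ)
    (hh : OddDist h) (hχ : ∀ (u : (ZMod N)ˣ) a, h ((u : ZMod N) * a) = (χ u)⁻¹ * h a)
    (h0 : h ((N / χ.conductor * 1 : ℕ) : ZMod N) = 0) :
    ∀ n : ℕ, n ∣ N → ∀ t : ℕ, h ((N / n * t : ℕ) : ZMod N) = 0 := by
  have hN0 : N ≠ 0 := NeZero.ne N
  have hNpos : 0 < N := Nat.pos_of_ne_zero hN0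
  intro n
  induction n using Nat.strong_induction_on with
  | _ n ih =>
  intro hn t
  have hnpos : 0 < n := Nat.pos_of_dvd_of_pos hn hNpos
  haveI : NeZero n := ⟨hnpos.ne'⟩
  -- reduction to `t` coprime to `n`
  have hred : ∀ t : ℕ, ¬ Nat.Coprime t n → h ((N / n * t : ℕ) : ZMod N) = 0 := by
    intro t ht
    obtain ⟨g, hg⟩ : ∃ g, g = Nat.gcd t n := ⟨_, rfl⟩
    have hgpos : 0 < g := hg ▸ Nat.gcd_pos_of_pos_right t hnpos
    have hg1 : g ≠ 1 := fun h1 => ht (by rw [Nat.coprime_iff_gcd_eq_one, ← hg, h1])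
    have hgn : g ∣ n := hg ▸ Nat.gcd_dvd_right t n
    have hgt : g ∣ t := hg ▸ Nat.gcd_dvd_left t n
    have hlt : n / g < n := Nat.div_lt_self hnpos (by omega)
    have hd : n / g ∣ N := (Nat.div_dvd_of_dvd hgn).trans hn
    have := ih (n / g) hlt hd (t / g)
    convert this using 2
    congr 1
    obtain ⟨a, ha⟩ := hgn
    obtain ⟨b, hb⟩ := hgt
    obtain ⟨c, hc⟩ := hn
    subst ha hb
    have ha0 : 0 < a := Nat.pos_of_mul_pos_left hnpos |> fun h => by
      rcases Nat.eq_zero_or_pos a with h1 | h1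
      · subst h1; simp at hnpos
      · exact h1
    rw [hc, Nat.mul_div_cancel_left _ hnpos, Nat.mul_div_cancel_left _ hgpos,
      Nat.mul_div_cancel_left _ hgpos,
      show g * a * c = a * (g * c) by ring, Nat.mul_div_cancel_left _ ha0]
    ring
  by_cases hcop : Nat.Coprime t n
  swap
  · exact hred t hcop
  by_cases hF : χ.FactorsThrough n
  swap
  · rw [DirichletCharacter.factorsThrough_iff_ker_unitsMap hn, SetLike.not_le_iff_exists] at hF
    obtain ⟨u, hu1, hu2⟩ := hF
    rw [MonoidHom.mem_ker] at hu1 hu2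
    have h1 : (u : ZMod N) * ((N / n * t : ℕ) : ZMod N) = ((N / n * t : ℕ) : ZMod N) := by
      apply uni_act hn
      rw [hu1]
      simp
    have h2 := hχ u ((N / n * t : ℕ) : ZMod N)
    rw [h1] at h2
    have h3 : χ (u : ZMod N) ≠ 1 := by
      intro h3
      apply hu2
      apply Units.ext
      rw [Units.val_one, ← h3]
      exact MulChar.coe_toUnitHom χ u
    have h4 : (χ (u : ZMod N))⁻¹ ≠ 1 := by
      intro h4
      exact h3 (inv_eq_one.1 h4)
    have h5 : (1 - (χ (u : ZMod N))⁻¹) * h ((N / n * t : ℕ) : ZMod N) = 0 := by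
      rw [sub_mul, one_mul]
      exact sub_eq_zero.2 h2
    rcases mul_eq_zero.1 h5 with h6 | h6
    · exact absurd (sub_eq_zero.1 h6).symm h4
    · exact h6
  have hfn : χ.conductor ∣ n := χ.conductor_dvd_of_mem_conductorSet hF
  have hker : ∀ {n' : ℕ} (hn' : n' ∣ N), χ.conductor ∣ n' → ∀ u : (ZMod N)ˣ,
      ZMod.unitsMap hn' u = 1 → χ (u : ZMod N) = 1 := by
    intro n' hn' hc u hu
    have h1 := (χ.mem_conductorSet_iff_conductor_dvd hn').2 hc
    have h2 := (DirichletCharacter.factorsThrough_iff_ker_unitsMap hn').1 h1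
      (MonoidHom.mem_ker.2 hu)
    rw [MonoidHom.mem_ker] at h2
    rw [← MulChar.coe_toUnitHom χ u]
    change ((χ.toUnitHom u : ℂˣ) : ℂ) = 1
    rw [h2, Units.val_one]
  by_cases hnf : n = χ.conductor
  · -- `n` is the conductor
    obtain ⟨u, hu⟩ := ZMod.unitsMap_surjective hn (ZMod.unitOfCoprime t hcop)
    have h1 : (u : ZMod N) * ((N / n * 1 : ℕ) : ZMod N) = ((N / n * t : ℕ) : ZMod N) := by
      apply uni_act hn
      rw [hu, ZMod.coe_unitOfCoprime]
      simp
    rw [← h1, hχ, hnf, h0, mul_zero]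
  · obtain ⟨c, hc⟩ := hfn
    have hc1 : c ≠ 1 := fun h1 => hnf (by rw [hc, h1, mul_one])
    obtain ⟨p, hp, hpc⟩ := Nat.exists_prime_and_dvd hc1
    have hfp : χ.conductor ∣ n / p := by
      obtain ⟨c', rfl⟩ := hpc
      rw [hc, show χ.conductor * (p * c') = p * (χ.conductor * c') by ring,
        Nat.mul_div_cancel_left _ hp.pos]
      exact Dvd.intro _ rfl
    have hpn : p ∣ n := hpc.trans (Dvd.intro_left _ hc.symm)
    have hpN : p ∣ N := hpn.trans hn
    have hnp : n / p ∣ N := (Nat.div_dvd_of_dvd hpn).trans hn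
    have hnpn : n / p ∣ n := Nat.div_dvd_of_dvd hpn
    have hdist := hh.dist p (N / p) hp (Nat.mul_div_cancel' hpN) ((N / n * t : ℕ) : ZMod N)
    have hrhs : h ((p : ZMod N) * ((N / n * t : ℕ) : ZMod N)) = 0 := by
      have := ih (n / p) (Nat.div_lt_self hnpos hp.one_lt) hnp t
      rw [← this]
      congr 1
      rw [← Nat.cast_mul]
      congr 1
      obtain ⟨a, ha⟩ := hpn
      obtain ⟨b, hb⟩ := hn
      have ha0 : 0 < a := by
        rcases Nat.eq_zero_or_pos a with h1 | h1
        · subst h1; omega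
        · exact h1
      rw [ha] at hb
      rw [hb, ha, Nat.mul_div_cancel_left _ (Nat.mul_pos hp.pos ha0),
        Nat.mul_div_cancel_left _ hp.pos, show p * a * b = a * (p * b) by ring,
        Nat.mul_div_cancel_left _ ha0]
      ring
    rw [hrhs] at hdist
    have hterm : ∀ i : ℕ, h (((N / n * t : ℕ) : ZMod N) + (i : ZMod N) * ((N / p : ℕ) : ZMod N)) =
        if Nat.Coprime (t + i * (n / p)) n then h ((N / n * t : ℕ) : ZMod N) else 0 := by
      intro i
      have e1 : ((N / n * t : ℕ) : ZMod N) + (i : ZMod N) * ((N / p : ℕ) : ZMod N) =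
          ((N / n * (t + i * (n / p)) : ℕ) : ZMod N) := by
        rw [← Nat.cast_mul, ← Nat.cast_add]
        congr 1
        have : N / p = N / n * (n / p) := by
          obtain ⟨a, ha⟩ := hpn
          obtain ⟨b, hb⟩ := hn
          have ha0 : 0 < p * a := by rw [← ha]; exact hnpos
          rw [ha] at hb
          rw [hb, ha, Nat.mul_div_cancel_left _ ha0, Nat.mul_div_cancel_left _ hp.pos,
            mul_assoc, Nat.mul_div_cancel_left _ hp.pos]
          ring
        rw [this]
        ring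
      rw [e1]
      split_ifs with hci
      · -- both coprime
        obtain ⟨u, hu⟩ := ZMod.unitsMap_surjective hn
          (ZMod.unitOfCoprime (t + i * (n / p)) hci * (ZMod.unitOfCoprime t hcop)⁻¹)
        have h1 : (u : ZMod N) * ((N / n * t : ℕ) : ZMod N) =
            ((N / n * (t + i * (n / p)) : ℕ) : ZMod N) := by
          apply uni_act hn
          rw [hu, ← ZMod.coe_unitOfCoprime t hcop, ← ZMod.coe_unitOfCoprime _ hci,
            ← Units.val_mul, inv_mul_cancel_right]
        have h2 : ZMod.unitsMap hnp u = 1 := by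
          have h3 : ZMod.unitsMap hnp u = ZMod.unitsMap hnpn (ZMod.unitsMap hn u) := by
            rw [← MonoidHom.comp_apply, ZMod.unitsMap_comp]
          rw [h3, hu, map_mul, map_inv, mul_inv_eq_one]
          apply Units.ext
          rw [ZMod.unitsMap_def, Units.coe_map, Units.coe_map, ZMod.coe_unitOfCoprime,
            ZMod.coe_unitOfCoprime]
          simp only [MonoidHom.coe_coe, map_natCast]
          push_cast
          rw [ZMod.natCast_self, mul_zero, add_zero]
        rw [← h1, hχ, hker hnp hfp u h2, inv_one, one_mul]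
      · exact hred _ hci
    rw [Finset.sum_congr rfl (fun i _ => hterm i), ← Finset.sum_filter, Finset.sum_const,
      nsmul_eq_mul] at hdist
    rcases mul_eq_zero.1 hdist with h1 | h1
    · exfalso
      have h2 : 0 ∈ (range p).filter (fun i => Nat.Coprime (t + i * (n / p)) n) := by
        rw [mem_filter, mem_range]
        exact ⟨hp.pos, by simpa using hcop⟩
      have h3 : 0 < ((range p).filter (fun i => Nat.Coprime (t + i * (n / p)) n)).card :=
        Finset.card_pos.2 ⟨0, h2⟩
      have h4 := Nat.cast_eq_zero.1 h1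
      omega
    · exact h1

theorem pUNI : S_UNI := by
  intro N _ χ f g hf hg hfχ hgχ
  have key : ∀ h : ZMod N → ℂ, OddDist h →
      (∀ (u : (ZMod N)ˣ) a, h ((u : ZMod N) * a) = (χ u)⁻¹ * h a) →
      h ((N / χ.conductor * 1 : ℕ) : ZMod N) = 0 → ∀ a, h a = 0 := by
    intro h hh hχ h0 a
    have := uni_main N χ h hh hχ h0 N dvd_rfl a.val
    rw [Nat.div_self (Nat.pos_of_ne_zero (NeZero.ne N)), one_mul, ZMod.natCast_zmod_val] at this
    exact this
  obtain ⟨e, he⟩ : ∃ e : ZMod N, e = ((N / χ.conductor * 1 : ℕ) : ZMod N) := ⟨_, rfl⟩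
  rw [← he] at key
  have hcomb : ∀ a, f e * g a - g e * f a = 0 := by
    refine key (fun a => f e * g a - g e * f a) ⟨?_, ?_, ?_⟩ ?_ ?_
    · intro a
      simp only [hf.neg, hg.neg]; ring
    · intro a ha
      simp only [hf.half a ha, hg.half a ha]; ring
    · intro p d hp hpd a
      rw [Finset.sum_sub_distrib, ← Finset.mul_sum, ← Finset.mul_sum, hf.dist p d hp hpd a,
        hg.dist p d hp hpd a]
    · intro u a
      simp only [hfχ, hgχ]; ring
    · ring
  intro a b
  by_cases h1 : f e = 0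
  · have hf0 := key f hf hfχ h1
    rw [hf0 a, hf0 b]
    ring
  · have ha := hcomb a
    have hb := hcomb b
    have : f e * (f a * g b - f b * g a) = 0 := by
      linear_combination f a * hb - f b * ha
    rcases mul_eq_zero.1 this with h2 | h2
    · exact absurd h2 h1
    · exact sub_eq_zero.1 h2

end Pool.Agent.T2H05.GD
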