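import Pool.Agent.T2H05.GD.Fin4
import Pool.Agent.T2H05.GD.T_SEP
import Pool.Agent.T2H05.GD.T_RPOW
import Pool.Agent.T2H05.GD.T_RF
import Pool.Agent.T2H05.GD.T_GM
import Pool.Agent.T2H05.GD.T_DIST
import Pool.Agent.T2H05.GD.T_GAM
import Pool.Agent.T2H05.GD.T_UNI
import Pool.Agent.T2H05.GD.T_KC
import Pool.Agent.T2H05.GD.T_EX
import Pool.Agent.T2H05.GD.T_CONST
import Pool.Agent.T2H05.GD.T_LIFT
import Pool.Agent.T2H05.GD.T_CHI
import Pool.Agent.T2H05.GD.T_CONV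
import Pool.Agent.T2H05.GD.T_DU
import Pool.Agent.T2H05.GD.T_LIN
import Pool.Agent.T2H05.GD.T_IND
import Pool.Agent.T2H05.GD.T_FORM
import Pool.Agent.T2H05.GD.T_AD1
import Pool.Agent.T2H05.GD.T_AD2
import Pool.Agent.T2H05.GD.T_TW
import Pool.Agent.T2H05.GD.T_TEN
import Pool.Agent.T2H05.GD.T_RST
import Pool.Agent.T2H05.GD.T_POL
import Pool.Agent.T2H05.GD.T_ITER
import Pool.Agent.T2H05.GD.T_CY
import Pool.Agent.T2H05.GD.T_RES
import Pool.Agent.T2H05.GD.T_SUB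
import Pool.Agent.T2H05.GD.T_HC1
import Pool.Agent.T2H05.GD.T_NRM

set_option autoImplicit false

universe v

namespace Pool.Agent.T2H05.GD

open Pool.Agent.H914

theorem aSEP : S_SEP := pSEP
theorem aRPOW : S_RPOW := pRPOW
theorem aRF : S_RF := pRF
theorem aGM : S_GM := pGM aRF
theorem aDIST : S_DIST := pDIST aRF aGM
theorem aGAM : S_GAM := pGAM aRPOW aDIST
theorem aUNI : S_UNI := pUNI
theorem aKC : S_KC := pKC aUNI
theorem aEX : S_EX := pEX
theorem aCONST : S_CONST := pCONST aRF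
theorem aLIFT : S_LIFT := pLIFT
theorem aCHI : S_CHI := pCHI
theorem aCONV : S_CONV := pCONV
theorem aDU : S_DU.{v} := pDU
theorem aLIN : S_LIN.{v} := pLIN aDU
theorem aIND : S_IND.{v} := pIND aDU
theorem aFORM : S_FORM := pFORM (aDU.{0})
theorem aAD1 : S_AD1.{v} := pAD1 aLIN aIND
theorem aAD2 : S_AD2.{v} := pAD2 aLIN aFORM
theorem aTW : S_TW.{v} := pTW aDU
theorem aTEN : S_TEN.{v} := pTEN aDU
theorem aRST : S_RST.{v} := pRST aDU
theorem aPOL : S_POL.{v} := pPOL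
theorem aITER : S_ITER.{v} := pITER aTW aTEN
theorem aCY : S_CY := pCY
theorem aRES : S_RES := pRES
theorem aSUB : S_SUB := pSUB aCY
theorem aHC1 : S_HC1.{v} := pHC1 aITER aTEN aAD1 aAD2 aPOL
theorem aNRM : S_NRM.{v} := pNRM aITER aRST aCY

theorem main {𝒱 : VarClass Qbar} (T : PeriodData.{v} 𝒱) (hT : IsPeriodTheory T)
    (ref : ∀ F, CyclicImaginary F → Reference T F) :
    GrossDeligne T ↔
      (∀ F (hF : CyclicImaginary F), GDAt T (ref F hF).j (ref F hF).p (cond F)) ∧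
        HodgePeriods T :=
  ⟨fun h => ⟨fun F hF => h _ _ F _ _ hF.1 (ref F hF).adm, forth aCONST aCY h⟩,
    fun h => back aSEP aCHI aKC aDIST aGAM aEX aLIFT aCONV aAD1 aAD2 aPOL aCY aRES aSUB aHC1 aNRM
      hT ref h.1 h.2⟩

end Pool.Agent.T2H05.GD
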