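import Pool.Agent.T2H05.GD.Fin3L

set_option autoImplicit false

open Finset IntermediateField CategoryTheory AlgebraicGeometry

universe v

namespace Pool.Agent.T2H05.GD

open Pool.Agent.H914 Pool.Agent.H914.VarClass
open Pool.Agent.H916R2 (OddDist SS saw)

variable {𝒱 : VarClass Qbar}

/-- From Hodge classes and the reference triples to the conjecture. -/
theorem backL (hSEP : S_SEP) (hCHI : S_CHI) (hKC : S_KC) (hD : S_DIST) (hG : S_GAM) (hEX : S_EX)
    (hLIFT : S_LIFT) (hCONV : S_CONV) (hAD1 : S_AD1.{v}) (hAD2 : S_AD2.{v})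
    (hPOL : S_POL.{v}) (hCY : S_CY) (hRES : S_RES) (hSUB : S_SUB) (hHC1 : S_HC1L.{v})
    (hNRM : S_NRM.{v}) {T : PeriodData.{v} 𝒱} (hT : IsPeriodTheory T)
    (F : IntermediateField ℚ ℂ) (hF : AbelianField F)
    (ref : ∀ F', F' ≤ F → CyclicImaginary F' → Reference T F')
    (hr : ∀ F' (hle : F' ≤ F) (hF : CyclicImaginary F'),
      GDAt T (ref F' hle hF).j (ref F' hle hF).p (cond F'))
    (hHP : ∀ F', F' ≤ F → CyclicImaginary F' → HodgeFor T F') : GDFor T F := by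
  classical
  intro X m j p hadm
  obtain ⟨hd0, hFd⟩ := cond_spec hF
  generalize cond F = d at hd0 hFd ⊢
  intro ε hε lam σ hσ P hP
  have : NeZero d := ⟨hd0.ne'⟩
  obtain ⟨hfd, res, hsurj, hres, hval, hconj⟩ := hCY d hd0 F hFd
  obtain ⟨c, hA⟩ := (hAD1 𝒱 T hT X m F j p).mp hadm
  refine ((hAD2 𝒱 T hT X m F j p c hA σ).1 P hP).trans ?_
  refine hSEP _ _ (hA.ne σ) (gam_ne _ _ _) fun L hL => ?_
  let pu : (ZMod d)ˣ → ℕ := fun u => p (F.val.comp ((res u) : F →ₐ[ℚ] F))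
  let cu : (ZMod d)ˣ → ℂ := fun u => c (F.val.comp ((res u) : F →ₐ[ℚ] F))
  have hpc : ∀ u σ, Restr d u σ → pu u = p σ ∧ cu u = c σ := fun u σ h => by
    rw [(hres u σ).mp h]
    exact ⟨rfl, rfl⟩
  have hε' : ∀ u : (ZMod d)ˣ, (d : ℚ) * pu u =
      ∑ a ∈ Ioo 0 d, ε a * (((u : ZMod d) * a).val : ℚ) := fun u =>
    hε u _ ((hres u _).mpr rfl)
  have hpol : ∀ u : (ZMod d)ˣ, pu u + pu (-u) = m ∧
      Sim (cu u * cu (-u)) ((2 * Real.pi * Complex.I) ^ m) := fun u =>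
    hPOL 𝒱 T hT X m F j p c hA _ _ (by
      intro x
      have h2 : res (-u) = res (-1) * res u := by rw [← map_mul]; simp
      rw [h2]
      exact hconj (res u x))
  have hpi : (2 * Real.pi * Complex.I : ℂ) ≠ 0 := Complex.two_pi_I_ne_zero
  have hall := hCHI (ZMod d)ˣ (fun u => (L (cu u) : ℂ) - (L ((gam d ε u : ℝ) : ℂ) : ℂ)) (by
    intro χ
    by_cases hχ : χ (-1) = -1
    · have := odd_partL hKC hD hG hEX hLIFT hCONV hAD1 hAD2 hPOL hCY hRES hSUB hHC1 hNRM hT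
        d F ref hr hHP hFd X m j p c hA pu cu hpc ε hε' hL χ hχ
      simp only [mul_sub, sum_sub_distrib]
      rw [this, sub_self]
    · have hχ1 : χ (-1) = 1 := by
        have h1 : χ (-1) * χ (-1) = 1 := by rw [← map_mul]; simp
        have h2 : ((χ (-1) : ℂˣ) : ℂ) * (χ (-1) : ℂˣ) = 1 := by rw [← Units.val_mul, h1, Units.val_one]
        rcases mul_self_eq_one_iff.mp h2 with h3 | h3
        · exact Units.ext h3
        · exact absurd (Units.ext (by rw [h3]; simp)) hχ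
      have hodd : ∀ u, ((L (cu (-u)) : ℂ) - (L ((gam d ε (-u) : ℝ) : ℂ) : ℂ)) =
          - ((L (cu u) : ℂ) - (L ((gam d ε u : ℝ) : ℂ) : ℂ)) := by
        intro u
        have h1 := evn hD hG hL d ε (fun u => pu u) m hε' (fun u => by exact_mod_cast (hpol u).1) u
        have h2 := hL.sim (pow_ne_zero m hpi) (hpol u).2
        rw [hL.1 _ _ (hA.ne _) (hA.ne _), hL.pow hpi, log_two_pi hL] at h2
        have h3 : L (cu (-u)) - L ((gam d ε (-u) : ℝ) : ℂ) =
            - (L (cu u) - L ((gam d ε u : ℝ) : ℂ)) := by linarith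
        exact_mod_cast h3
      have h1 : ∑ u, (χ u : ℂ) * ((L (cu u) : ℂ) - (L ((gam d ε u : ℝ) : ℂ) : ℂ)) =
          - ∑ u, (χ u : ℂ) * ((L (cu u) : ℂ) - (L ((gam d ε u : ℝ) : ℂ) : ℂ)) := by
        calc ∑ u, (χ u : ℂ) * ((L (cu u) : ℂ) - (L ((gam d ε u : ℝ) : ℂ) : ℂ))
            = ∑ u, (χ (-u) : ℂ) * ((L (cu (-u)) : ℂ) - (L ((gam d ε (-u) : ℝ) : ℂ) : ℂ)) :=
              (Equiv.sum_comp (Equiv.neg (ZMod d)ˣ) (fun u =>
                (χ u : ℂ) * ((L (cu u) : ℂ) - (L ((gam d ε u : ℝ) : ℂ) : ℂ)))).symm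
          _ = _ := by
              rw [← sum_neg_distrib]
              refine sum_congr rfl fun u _ => ?_
              have : χ (-u) = χ u := by
                rw [show (-u : (ZMod d)ˣ) = -1 * u by simp, map_mul, hχ1, one_mul]
              rw [hodd, this]
              ring
      have h2 : (2 : ℂ) * ∑ u, (χ u : ℂ) * ((L (cu u) : ℂ) - (L ((gam d ε u : ℝ) : ℂ) : ℂ)) = 0 := by
        linear_combination h1
      simpa using h2) lam
  have h1 := (hpc lam σ hσ).2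
  rw [← h1]
  have h2 : (L (cu lam) : ℂ) = (L ((gam d ε lam : ℝ) : ℂ) : ℂ) := sub_eq_zero.mp hall
  exact_mod_cast h2

/-- From the conjecture to the statement on Hodge classes. -/
theorem forthL (hCONST : S_CONST) (hCY : S_CY) {T : PeriodData.{v} 𝒱} {F : IntermediateField ℚ ℂ}
    (hcyc : CyclicImaginary F) (hGD : GDFor T F) : HodgeFor T F := by
  intro X k j hadm σ P hP
  obtain ⟨hd0, hFd⟩ := cond_spec hcyc.1
  obtain ⟨-, res, hsurj, hres, hval, hconj⟩ := hCY (cond F) hd0 F hFd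
  obtain ⟨ε, h1, h2⟩ := hCONST (cond F) k (cond_two_le hcyc.1 hcyc.2.2)
  obtain ⟨s, hs⟩ := hval σ
  obtain ⟨lam, rfl⟩ := hsurj s
  have h3 := hGD X (2 * k) j (fun _ => k) hadm ε (fun u σ _ => h1 u) lam σ
    ((hres lam σ).mpr hs) P hP
  exact h3.trans (h2 lam)

end Pool.Agent.T2H05.GD
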