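import Pool.Agent.T2H05.GD.LocStm

set_option autoImplicit false

open CategoryTheory AlgebraicGeometry IntermediateField Finset

universe v

namespace Pool.Agent.T2H05.GD

open Pool.Agent.H914 Pool.Agent.H914.VarClass

private lemma hc1_inv {G : Type*} [Group G] [Fintype G] (f h : G → ℚ) (g : G) :
    ∑ s, f s⁻¹ * h (g * s) = ∑ t, f t * h (g * t⁻¹) := by
  rw [← Equiv.sum_comp (Equiv.inv G)]
  simp

private lemma hc1_kap {G : Type*} [Group G] [Fintype G] (hcomm : ∀ s t : G, s * t = t * s) (k : G)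
    (hk : k * k = 1) (f h : G → ℚ) (g : G) :
    ∑ s, f (s⁻¹ * k) * h (g * s) = ∑ t, f t * h (k * (g * t⁻¹)) := by
  rw [← Equiv.sum_comp ((Equiv.inv G).trans (Equiv.mulLeft k))]
  refine Finset.sum_congr rfl fun t _ => ?_
  simp only [Equiv.trans_apply, Equiv.inv_apply, Equiv.coe_mulLeft, mul_inv_rev, inv_inv]
  have e1 : t * k⁻¹ * k = t := by group
  have e2 : g * (k * t⁻¹) = k * (g * t⁻¹) := by rw [← mul_assoc, hcomm g k, mul_assoc]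
  rw [e1, e2]

private lemma hc1_sum {G : Type*} [Group G] [Fintype G] (h : G → ℚ) (g : G) :
    ∑ s, h (g * s) = ∑ t, h t := Equiv.sum_comp (Equiv.mulLeft g) h

private lemma hc1_swap {G : Type*} [Group G] [Fintype G] (hcomm : ∀ s t : G, s * t = t * s)
    (f h : G → ℚ) (g : G) :
    ∑ t, f t * h (g * t⁻¹) = ∑ t, h t * f (g * t⁻¹) := by
  rw [← Equiv.sum_comp ((Equiv.inv G).trans (Equiv.mulLeft g))]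
  refine Finset.sum_congr rfl fun t _ => ?_
  simp only [Equiv.trans_apply, Equiv.inv_apply, Equiv.coe_mulLeft, mul_inv_rev, inv_inv]
  have e1 : g * (t * g⁻¹) = t := by rw [hcomm t g⁻¹]; group
  rw [e1, mul_comm]

theorem pHC1L (hITER : S_ITER.{v}) (hTEN : S_TEN.{v}) (hAD1 : S_AD1.{v}) (hAD2 : S_AD2.{v})
    (hPOL : S_POL.{v}) : S_HC1L.{v} := by
  intro 𝒱 T hT F _ hHP hcomm κ hκ hemb X Y m n j j₀ p p₀ c c₀ hA hA₀ L hL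
  have hcomp : ∀ s t : F ≃ₐ[ℚ] F, (F.val.comp (s : F →ₐ[ℚ] F)).comp (t : F →ₐ[ℚ] F) =
      F.val.comp ((s * t : F ≃ₐ[ℚ] F) : F →ₐ[ℚ] F) := fun s t => rfl
  have hconj : ∀ (s : F ≃ₐ[ℚ] F) (x : F), F.val.comp ((κ * s : F ≃ₐ[ℚ] F) : F →ₐ[ℚ] F) x =
      (starRingEnd ℂ) (F.val.comp (s : F →ₐ[ℚ] F) x) := fun s x => hκ (s x)
  have hkk : κ * κ = 1 := by
    apply AlgEquiv.ext
    intro x
    apply Subtype.ext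
    change ((κ (κ x) : F) : ℂ) = x
    rw [hκ, hκ, Complex.conj_conj]
  -- numerical functions on the group
  obtain ⟨a, ha⟩ : ∃ a : (F ≃ₐ[ℚ] F) → ℕ, ∀ g : F ≃ₐ[ℚ] F, a g = p (F.val.comp (g : F →ₐ[ℚ] F)) :=
    ⟨_, fun _ => rfl⟩
  obtain ⟨a₀, ha₀⟩ : ∃ a : (F ≃ₐ[ℚ] F) → ℕ,
      ∀ g : F ≃ₐ[ℚ] F, a g = p₀ (F.val.comp (g : F →ₐ[ℚ] F)) := ⟨_, fun _ => rfl⟩
  obtain ⟨l, hl⟩ : ∃ l : (F ≃ₐ[ℚ] F) → ℚ,
      ∀ g : F ≃ₐ[ℚ] F, l g = L (c (F.val.comp (g : F →ₐ[ℚ] F))) := ⟨_, fun _ => rfl⟩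
  obtain ⟨l₀, hl₀⟩ : ∃ l : (F ≃ₐ[ℚ] F) → ℚ,
      ∀ g : F ≃ₐ[ℚ] F, l g = L (c₀ (F.val.comp (g : F →ₐ[ℚ] F))) := ⟨_, fun _ => rfl⟩
  have h2pi : (2 * Real.pi * Complex.I : ℂ) ≠ 0 := by
    simp [Real.pi_ne_zero, Complex.I_ne_zero]
  -- polarisation
  have hp : ∀ g, (a g : ℚ) + a (κ * g) = m := by
    intro g
    have := (hPOL 𝒱 T hT X m F j p c hA _ _ (hconj g)).1
    rw [ha, ha]
    exact_mod_cast this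
  have hp₀ : ∀ g, (a₀ g : ℚ) + a₀ (κ * g) = n := by
    intro g
    have := (hPOL 𝒱 T hT Y n F j₀ p₀ c₀ hA₀ _ _ (hconj g)).1
    rw [ha₀, ha₀]
    exact_mod_cast this
  have hl₀' : ∀ g, l₀ g + l₀ (κ * g) = n * L (2 * Real.pi * Complex.I) := by
    intro g
    have := (hPOL 𝒱 T hT Y n F j₀ p₀ c₀ hA₀ _ _ (hconj g)).2
    rw [hl₀, hl₀, ← hL.1 _ _ (hA₀.ne _) (hA₀.ne _), hL.sim (pow_ne_zero n h2pi) this,
      hL.pow h2pi]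
  -- the tensor product
  have hpos : ∀ f : (F ≃ₐ[ℚ] F) → ℕ, 1 ≤ ∑ s : F ≃ₐ[ℚ] F, (f s + 1) := by
    intro f
    have : (f 1 + 1) ≤ ∑ s : F ≃ₐ[ℚ] F, (f s + 1) :=
      Finset.single_le_sum (f := fun s => f s + 1) (fun _ _ => Nat.zero_le _) (Finset.mem_univ 1)
    omega
  obtain ⟨X1, m1, j1, -, hA1⟩ := hITER 𝒱 T hT X m F j p c hA (fun s => a₀ s⁻¹ + 1)
    (hpos (fun s => a₀ s⁻¹))
  obtain ⟨X2, m2, j2, -, hA2⟩ := hITER 𝒱 T hT Y n F j₀ p₀ c₀ hA₀ (fun s => a (s⁻¹ * κ) + 1)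
    (hpos (fun s => a (s⁻¹ * κ)))
  obtain ⟨j3, hA3⟩ := hTEN 𝒱 T hT X1 X2 m1 m2 F j1 j2 _ _ _ _ hA1 hA2
  -- the type is constant
  obtain ⟨S, hS⟩ : ∃ S : ℚ, S = (∑ t, (a t : ℚ)) + (∑ t, (a₀ t : ℚ)) + n * ∑ t, (a t : ℚ) :=
    ⟨_, rfl⟩
  have htype : ∀ g : F ≃ₐ[ℚ] F,
      (((∑ s : F ≃ₐ[ℚ] F, (a₀ s⁻¹ + 1) * p ((F.val.comp (g : F →ₐ[ℚ] F)).comp (s : F →ₐ[ℚ] F))) +
        (∑ s : F ≃ₐ[ℚ] F, (a (s⁻¹ * κ) + 1) *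
          p₀ ((F.val.comp (g : F →ₐ[ℚ] F)).comp (s : F →ₐ[ℚ] F))) : ℕ) : ℚ) = S := by
    intro g
    have e1 : (((∑ s : F ≃ₐ[ℚ] F, (a₀ s⁻¹ + 1) *
        p ((F.val.comp (g : F →ₐ[ℚ] F)).comp (s : F →ₐ[ℚ] F))) : ℕ) : ℚ) =
        ∑ s, (a₀ s⁻¹ : ℚ) * a (g * s) + ∑ s, (a (g * s) : ℚ) := by
      push_cast
      rw [← Finset.sum_add_distrib]
      refine Finset.sum_congr rfl fun s _ => ?_
      rw [hcomp, ha]; ring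
    have e2 : (((∑ s : F ≃ₐ[ℚ] F, (a (s⁻¹ * κ) + 1) *
          p₀ ((F.val.comp (g : F →ₐ[ℚ] F)).comp (s : F →ₐ[ℚ] F))) : ℕ) : ℚ) =
        ∑ s, (a (s⁻¹ * κ) : ℚ) * a₀ (g * s) + ∑ s, (a₀ (g * s) : ℚ) := by
      push_cast
      rw [← Finset.sum_add_distrib]
      refine Finset.sum_congr rfl fun s _ => ?_
      rw [hcomp, ha₀]; ring
    rw [Nat.cast_add, e1, e2, hc1_sum (fun s => (a s : ℚ)), hc1_sum (fun s => (a₀ s : ℚ)),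
      hc1_inv (fun s => (a₀ s : ℚ)) (fun s => (a s : ℚ)),
      hc1_kap hcomm κ hkk (fun s => (a s : ℚ)) (fun s => (a₀ s : ℚ)),
      hc1_swap hcomm (fun s => (a₀ s : ℚ)) (fun s => (a s : ℚ))]
    have e3 : ∑ t, (a t : ℚ) * a₀ (κ * (g * t⁻¹)) =
        n * ∑ t, (a t : ℚ) - ∑ t, (a t : ℚ) * a₀ (g * t⁻¹) := by
      rw [Finset.mul_sum, ← Finset.sum_sub_distrib]
      refine Finset.sum_congr rfl fun t _ => ?_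
      have := hp₀ (g * t⁻¹)
      have h2 : (a₀ (κ * (g * t⁻¹)) : ℚ) = n - a₀ (g * t⁻¹) := by linarith
      rw [h2]; ring
    rw [e3, hS]
    ring
  -- the logarithms
  have hlog : ∀ g : F ≃ₐ[ℚ] F,
      L ((∏ s : F ≃ₐ[ℚ] F, c ((F.val.comp (g : F →ₐ[ℚ] F)).comp (s : F →ₐ[ℚ] F)) ^ (a₀ s⁻¹ + 1)) *
        (∏ s : F ≃ₐ[ℚ] F, c₀ ((F.val.comp (g : F →ₐ[ℚ] F)).comp (s : F →ₐ[ℚ] F)) ^
          (a (s⁻¹ * κ) + 1))) =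
      ∑ t, (a₀ t : ℚ) * l (g * t⁻¹) - ∑ t, (a t : ℚ) * l₀ (g * t⁻¹) + ∑ t, l t + ∑ t, l₀ t +
        n * L (2 * Real.pi * Complex.I) * ∑ t, (a t : ℚ) := by
    intro g
    rw [hL.1 _ _ (Finset.prod_ne_zero_iff.2 fun s _ => pow_ne_zero _ (hA.ne _))
      (Finset.prod_ne_zero_iff.2 fun s _ => pow_ne_zero _ (hA₀.ne _)),
      hL.prod _ _ (fun s _ => pow_ne_zero _ (hA.ne _)),
      hL.prod _ _ (fun s _ => pow_ne_zero _ (hA₀.ne _))]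
    have e1 : ∑ s : F ≃ₐ[ℚ] F,
        L (c ((F.val.comp (g : F →ₐ[ℚ] F)).comp (s : F →ₐ[ℚ] F)) ^ (a₀ s⁻¹ + 1)) =
        ∑ s, (a₀ s⁻¹ : ℚ) * l (g * s) + ∑ s, l (g * s) := by
      rw [← Finset.sum_add_distrib]
      refine Finset.sum_congr rfl fun s _ => ?_
      rw [hL.pow (hA.ne _), hcomp, hl]; push_cast; ring
    have e2 : ∑ s : F ≃ₐ[ℚ] F,
        L (c₀ ((F.val.comp (g : F →ₐ[ℚ] F)).comp (s : F →ₐ[ℚ] F)) ^ (a (s⁻¹ * κ) + 1)) =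
        ∑ s, (a (s⁻¹ * κ) : ℚ) * l₀ (g * s) + ∑ s, l₀ (g * s) := by
      rw [← Finset.sum_add_distrib]
      refine Finset.sum_congr rfl fun s _ => ?_
      rw [hL.pow (hA₀.ne _), hcomp, hl₀]; push_cast; ring
    rw [e1, e2, hc1_sum l, hc1_sum l₀, hc1_inv (fun s => (a₀ s : ℚ)) l,
      hc1_kap hcomm κ hkk (fun s => (a s : ℚ)) l₀]
    have e3 : ∑ t, (a t : ℚ) * l₀ (κ * (g * t⁻¹)) =
        n * L (2 * Real.pi * Complex.I) * ∑ t, (a t : ℚ) - ∑ t, (a t : ℚ) * l₀ (g * t⁻¹) := by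
      rw [Finset.mul_sum, ← Finset.sum_sub_distrib]
      refine Finset.sum_congr rfl fun t _ => ?_
      have := hl₀' (g * t⁻¹)
      have h2 : l₀ (κ * (g * t⁻¹)) = n * L (2 * Real.pi * Complex.I) - l₀ (g * t⁻¹) := by linarith
      rw [h2]; ring
    rw [e3]
    ring
  -- Hodge classes
  obtain ⟨k, hk⟩ : ∃ k : ℕ, k = (∑ s : F ≃ₐ[ℚ] F, (a₀ s⁻¹ + 1) *
        p ((F.val.comp ((1 : F ≃ₐ[ℚ] F) : F →ₐ[ℚ] F)).comp (s : F →ₐ[ℚ] F))) +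
        (∑ s : F ≃ₐ[ℚ] F, (a (s⁻¹ * κ) + 1) *
          p₀ ((F.val.comp ((1 : F ≃ₐ[ℚ] F) : F →ₐ[ℚ] F)).comp (s : F →ₐ[ℚ] F))) := ⟨_, rfl⟩
  have hconst : ∀ g : F ≃ₐ[ℚ] F,
      (∑ s : F ≃ₐ[ℚ] F, (a₀ s⁻¹ + 1) *
        p ((F.val.comp (g : F →ₐ[ℚ] F)).comp (s : F →ₐ[ℚ] F))) +
        (∑ s : F ≃ₐ[ℚ] F, (a (s⁻¹ * κ) + 1) *
          p₀ ((F.val.comp (g : F →ₐ[ℚ] F)).comp (s : F →ₐ[ℚ] F))) = k := by
    intro g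
    have h1 := htype g
    have h2 := htype 1
    rw [← hk] at h2
    exact_mod_cast h1.trans h2.symm
  have hfun : (fun σ : F →ₐ[ℚ] ℂ => (∑ s : F ≃ₐ[ℚ] F, (a₀ s⁻¹ + 1) *
        p (σ.comp (s : F →ₐ[ℚ] F))) +
        (∑ s : F ≃ₐ[ℚ] F, (a (s⁻¹ * κ) + 1) * p₀ (σ.comp (s : F →ₐ[ℚ] F)))) = fun _ => k := by
    funext σ
    obtain ⟨g, rfl⟩ := hemb σ
    exact hconst g
  have hA4 : Adm T (X1.prod X2) (m1 + m2) F j3 (fun _ => k) _ := hfun ▸ hA3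
  have hdeg : m1 + m2 = 2 * k := by
    have := (hPOL 𝒱 T hT _ _ F j3 _ _ hA4 _ _ (hconj 1)).1
    omega
  obtain ⟨M, hM⟩ : ∃ M, M = m1 + m2 := ⟨_, rfl⟩
  have key : ∀ σ : F →ₐ[ℚ] ℂ, L ((∏ s : F ≃ₐ[ℚ] F, c (σ.comp (s : F →ₐ[ℚ] F)) ^ (a₀ s⁻¹ + 1)) *
        (∏ s : F ≃ₐ[ℚ] F, c₀ (σ.comp (s : F →ₐ[ℚ] F)) ^ (a (s⁻¹ * κ) + 1))) =
        k * L (2 * Real.pi * Complex.I) := by
    clear hA3 hM
    clear M
    revert hA4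
    revert j3
    rw [hdeg]
    intro j3 hA4 σ
    have hadm := (hAD1 𝒱 T hT _ _ F j3 _).2 ⟨_, hA4⟩
    obtain ⟨h1, P, hP⟩ := hAD2 𝒱 T hT _ _ F j3 _ _ hA4 σ
    have h2 := hHP _ k j3 hadm σ P hP
    have h3 := h1 P hP
    have h4 := hL.sim (hA4.ne σ) h3
    have h5 := hL.sim (pow_ne_zero k h2pi) h2
    rw [← h4, h5, hL.pow h2pi]
  refine ⟨k * L (2 * Real.pi * Complex.I) - ∑ t, l t - ∑ t, l₀ t -
    n * L (2 * Real.pi * Complex.I) * ∑ t, (a t : ℚ), fun g => ?_⟩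
  have h1 := key (F.val.comp (g : F →ₐ[ℚ] F))
  rw [hlog g] at h1
  simp only [← ha, ← ha₀, ← hl, ← hl₀]
  linarith

end Pool.Agent.T2H05.GD
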