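import Pool.Agent.T2H05.GD.All
import Pool.Agent.T2H05.GD.Fin4L
import Pool.Agent.T2H05.GD.T_HC1L

set_option autoImplicit false

universe v

namespace Pool.Agent.T2H05.GD

open Pool.Agent.H914

theorem aHC1L : S_HC1L.{v} := pHC1L aITER aTEN aAD1 aAD2 aPOL

theorem mainL {𝒱 : VarClass Qbar} (T : PeriodData.{v} 𝒱) (hT : IsPeriodTheory T)
    (K : IntermediateField ℚ ℂ) (hK : AbelianField K)
    (ref : ∀ F, F ≤ K → CyclicImaginary F → Reference T F) :
    (∀ F, F ≤ K → GDFor T F) ↔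
      ∀ F (h : F ≤ K) (hF : CyclicImaginary F),
        GDAt T (ref F h hF).j (ref F h hF).p (cond F) ∧ HodgeFor T F := by
  constructor
  · intro hGD F h hF
    exact ⟨hGD F h _ _ _ _ (ref F h hF).adm, forthL aCONST aCY hF (hGD F h)⟩
  · intro hall F h
    obtain ⟨d, hd, hKd⟩ := hK
    exact backL aSEP aCHI aKC aDIST aGAM aEX aLIFT aCONV aAD1 aAD2 aPOL aCY aRES aSUB aHC1L aNRM
      hT F ⟨d, hd, h.trans hKd⟩ (fun F' hle hF => ref F' (hle.trans h) hF)
      (fun F' hle hF => (hall F' (hle.trans h) hF).1) (fun F' hle hF => (hall F' (hle.trans h) hF).2)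

end Pool.Agent.T2H05.GD
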