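import Pool.Agent.H914R2.Weil

/-!
# Periods of Hodge structures with multiplication by an abelian field: definitions

`PeriodData` records the complex cohomology `H^m(X)` of the varieties of a class `𝒱` of smooth
projective varieties over the field of algebraic numbers, with its rational (Betti) structure, its
algebraic (de Rham) structure, Hodge pieces, complex conjugation, exterior products and
polarisations; `IsPeriodTheory` lists their formal properties.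
-/

set_option autoImplicit false

open CategoryTheory AlgebraicGeometry IntermediateField

universe v

namespace Pool.Agent.T2H05.GD

open Pool.Agent.H914 Pool.Agent.H914.VarClass

/-- The field of algebraic numbers. -/
noncomputable abbrev Qbar : IntermediateField ℚ ℂ := algebraicClosure ℚ ℂ

/-- The cohomology of the varieties of the class `𝒱` with its structures. -/
structure PeriodData (𝒱 : VarClass Qbar) where
  /-- the complex cohomology `H^m(X(ℂ), ℂ)` -/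
  H : 𝒱.Obj → ℕ → Type v
  [grp : ∀ X m, AddCommGroup (H X m)]
  [mod : ∀ X m, Module ℂ (H X m)]
  /-- the rational (Betti) cohomology -/
  B : ∀ X m, AddSubgroup (H X m)
  /-- the de Rham cohomology of `X` over the field of algebraic numbers -/
  dR : ∀ X m, AddSubgroup (H X m)
  /-- the Hodge piece `H^{p, m - p}` -/
  hodge : ∀ X m, ℕ → Submodule ℂ (H X m)
  /-- complex conjugation -/
  bar : ∀ {X m}, H X m → H X m
  /-- the exterior product `H^m(X) × H^n(Y) → H^(m + n)(X × Y)` -/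
  cup : ∀ {X Y : 𝒱.Obj} {m n : ℕ}, H X m →ₗ[ℂ] H Y n →ₗ[ℂ] H (X.prod Y) (m + n)
  /-- the polarisation of `H^m(X)` -/
  pol : ∀ {X m}, H X m →ₗ[ℂ] H X m →ₗ[ℂ] ℂ

attribute [instance] PeriodData.grp PeriodData.mod

variable {𝒱 : VarClass Qbar}

/-- The formal properties of Betti and de Rham cohomology: `B` is a rational structure, `dR` is a
structure over the algebraic numbers (linearly independent elements remain so over `ℂ`), Hodge
decomposition, Künneth, Hodge-Riemann. -/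
structure IsPeriodTheory (T : PeriodData.{v} 𝒱) : Prop where
  rat : ∀ {X m} {x : T.H X m} (r : ℚ), x ∈ T.B X m → (r : ℂ) • x ∈ T.B X m
  alg : ∀ {X m} {x : T.H X m} (z : ℂ), IsAlgebraic ℚ z → x ∈ T.dR X m → z • x ∈ T.dR X m
  form_B : ∀ {X m} (n : ℕ) (x : Fin n → T.H X m), (∀ i, x i ∈ T.B X m) →
    (∀ r : Fin n → ℚ, ∑ i, (r i : ℂ) • x i = 0 → r = 0) → LinearIndependent ℂ x
  form_dR : ∀ {X m} (n : ℕ) (x : Fin n → T.H X m), (∀ i, x i ∈ T.dR X m) →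
    (∀ z : Fin n → ℂ, (∀ i, IsAlgebraic ℚ (z i)) → ∑ i, z i • x i = 0 → z = 0) →
    LinearIndependent ℂ x
  hodge_disjoint : ∀ {X m p q} {x : T.H X m}, p ≠ q → x ∈ T.hodge X m p → x ∈ T.hodge X m q →
    x = 0
  hodge_le : ∀ {X m p} {x : T.H X m}, m < p → x ∈ T.hodge X m p → x = 0
  bar_add : ∀ {X m} (x y : T.H X m), T.bar (x + y) = T.bar x + T.bar y
  bar_smul : ∀ {X m} (z : ℂ) (x : T.H X m), T.bar (z • x) = (starRingEnd ℂ) z • T.bar x
  bar_B : ∀ {X m} {x : T.H X m}, x ∈ T.B X m → T.bar x = x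
  bar_hodge : ∀ {X m p} {x : T.H X m}, p ≤ m → x ∈ T.hodge X m p → T.bar x ∈ T.hodge X m (m - p)
  cup_B : ∀ {X Y m n} {x : T.H X m} {y : T.H Y n}, x ∈ T.B X m → y ∈ T.B Y n →
    T.cup x y ∈ T.B (X.prod Y) (m + n)
  cup_dR : ∀ {X Y m n} {x : T.H X m} {y : T.H Y n}, x ∈ T.dR X m → y ∈ T.dR Y n →
    T.cup x y ∈ T.dR (X.prod Y) (m + n)
  cup_hodge : ∀ {X Y m n p q} {x : T.H X m} {y : T.H Y n}, x ∈ T.hodge X m p →
    y ∈ T.hodge Y n q → T.cup x y ∈ T.hodge (X.prod Y) (m + n) (p + q)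
  cup_injective : ∀ {X Y m n} (k : ℕ) (x : Fin k → T.H X m) (y : Fin k → T.H Y n),
    LinearIndependent ℂ x → ∑ i, T.cup (x i) (y i) = 0 → ∀ i, y i = 0
  pol_B : ∀ {X m} {x y : T.H X m}, x ∈ T.B X m → y ∈ T.B X m → ∃ r : ℚ, T.pol x y = r
  pol_dR : ∀ {X m} {x y : T.H X m}, x ∈ T.dR X m → y ∈ T.dR X m →
    ∃ z : ℂ, IsAlgebraic ℚ z ∧ T.pol x y = z * (2 * Real.pi * Complex.I) ^ m
  pol_ne_zero : ∀ {X m p} {x : T.H X m}, x ∈ T.hodge X m p → x ≠ 0 → T.pol x (T.bar x) ≠ 0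

/-- `w` lies on the line `H_σ = H ⊗_{F, σ} ℂ` of `H = j(F)`, where `F` acts by
`x · j(y) = j(x y)`. -/
def OnLine {E : Type v} [AddCommGroup E] [Module ℂ E] {F : IntermediateField ℚ ℂ} (j : F →+ E)
    (σ : F →ₐ[ℚ] ℂ) (w : E) : Prop :=
  ∃ (n : ℕ) (z : Fin n → ℂ) (x : Fin n → F), w = ∑ i, z i • j (x i) ∧
    ∀ y : F, ∑ i, z i • j (y * x i) = σ y • w

/-- The admissible triple `(H, F, ι)` with `H = j(F)` in `H^m(X)` and the type `p`: the line `H_σ`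
is in the Hodge piece with `p = p(σ)` and is spanned by a de Rham class. -/
structure Admissible (T : PeriodData.{v} 𝒱) (X : 𝒱.Obj) (m : ℕ) (F : IntermediateField ℚ ℂ)
    (j : F →+ T.H X m) (p : (F →ₐ[ℚ] ℂ) → ℕ) : Prop where
  injective : Function.Injective j
  mem_B : ∀ x, j x ∈ T.B X m
  hodge : ∀ σ w, OnLine j σ w → w ∈ T.hodge X m (p σ)
  deRham : ∀ σ, ∃ w, w ≠ 0 ∧ OnLine j σ w ∧ w ∈ T.dR X m

/-- `P` is a period `P_σ(H)`: the value of a nonzero rational linear form `γ` of `H = j(F)` at a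
de Rham class `w ≠ 0` on the line `H_σ`. -/
def IsPeriod (T : PeriodData.{v} 𝒱) {X : 𝒱.Obj} {m : ℕ} {F : IntermediateField ℚ ℂ}
    (j : F →+ T.H X m) (σ : F →ₐ[ℚ] ℂ) (P : ℂ) : Prop :=
  ∃ γ : F →ₗ[ℚ] ℚ, γ ≠ 0 ∧ ∃ (n : ℕ) (z : Fin n → ℂ) (x : Fin n → F),
    (∀ y : F, ∑ i, z i • j (y * x i) = σ y • ∑ i, z i • j (x i)) ∧
    ∑ i, z i • j (x i) ≠ 0 ∧ ∑ i, z i • j (x i) ∈ T.dR X m ∧ P = ∑ i, z i * (γ (x i) : ℂ)

/-- `e(1 / d) = exp (2 π i / d)` -/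
noncomputable def zt (d : ℕ) : ℂ := Complex.exp (2 * Real.pi * Complex.I / d)

/-- `F` is an abelian number field (theorem of Kronecker and Weber). -/
def AbelianField (F : IntermediateField ℚ ℂ) : Prop := ∃ d : ℕ, 0 < d ∧ F ≤ ℚ⟮zt d⟯

/-- The conductor of `F`. -/
noncomputable def cond (F : IntermediateField ℚ ℂ) : ℕ := sInf {d : ℕ | 0 < d ∧ F ≤ ℚ⟮zt d⟯}

/-- `σ = φ(lam)`: the restriction to `F` of the embedding of `ℚ(μ_d)` with `ζ ↦ ζ ^ lam`. -/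
def Restr (d : ℕ) {F : IntermediateField ℚ ℂ} (lam : (ZMod d)ˣ) (σ : F →ₐ[ℚ] ℂ) : Prop :=
  ∃ τ : ℚ⟮zt d⟯ →ₐ[ℚ] ℂ, τ (AdjoinSimple.gen ℚ (zt d)) = zt d ^ (lam : ZMod d).val ∧
    ∀ (x : ℂ) (h : x ∈ F) (h' : x ∈ ℚ⟮zt d⟯), τ ⟨x, h'⟩ = σ ⟨x, h⟩

/-- `d p(lam) = ∑_a ε(a) ⟨lam a⟩` -/
def IsEps (d : ℕ) {F : IntermediateField ℚ ℂ} (p : (F →ₐ[ℚ] ℂ) → ℕ) (ε : ZMod d → ℚ) : Prop :=
  ∀ (lam : (ZMod d)ˣ) (σ : F →ₐ[ℚ] ℂ), Restr d lam σ →
    (d : ℚ) * p σ = ∑ a ∈ Finset.Ioo 0 d, ε a * (((lam : ZMod d) * a).val : ℚ)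

/-- `∏_{0 < a < d} Γ(1 - a/d) ^ ε(a lam⁻¹)` -/
noncomputable def gam (d : ℕ) (ε : ZMod d → ℚ) (lam : (ZMod d)ˣ) : ℝ :=
  ∏ a ∈ Finset.Ioo 0 d, Real.Gamma (1 - (a : ℝ) / d) ^ ((ε ((a : ZMod d) * (lam⁻¹ : (ZMod d)ˣ)) : ℚ) : ℝ)

/-- `x ∼ y` -/
def Sim (x y : ℂ) : Prop := ∃ α : ℂ, IsAlgebraic ℚ α ∧ α ≠ 0 ∧ x = α * y

/-- The relation of Gross and Deligne for `H = j(F)`, of type `p`, in the level `d`. -/
def GDAt (T : PeriodData.{v} 𝒱) {X : 𝒱.Obj} {m : ℕ} {F : IntermediateField ℚ ℂ}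
    (j : F →+ T.H X m) (p : (F →ₐ[ℚ] ℂ) → ℕ) (d : ℕ) : Prop :=
  ∀ ε : ZMod d → ℚ, IsEps d p ε → ∀ (lam : (ZMod d)ˣ) (σ : F →ₐ[ℚ] ℂ), Restr d lam σ →
    ∀ P, IsPeriod T j σ P → Sim P (gam d ε lam)

/-- The conjecture of Gross and Deligne for the varieties of the class. -/
def GrossDeligne (T : PeriodData.{v} 𝒱) : Prop :=
  ∀ (X : 𝒱.Obj) (m : ℕ) (F : IntermediateField ℚ ℂ) (j : F →+ T.H X m)
    (p : (F →ₐ[ℚ] ℂ) → ℕ), AbelianField F → Admissible T X m F j p → GDAt T j p (cond F)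

/-- `F` is cyclic over `ℚ` and not contained in `ℝ`. -/
def CyclicImaginary (F : IntermediateField ℚ ℂ) : Prop :=
  AbelianField F ∧ IsCyclic (F ≃ₐ[ℚ] F) ∧ ∃ x ∈ F, x.im ≠ 0

/-- The statement on Hodge classes: if `H = j(F)` consists of Hodge classes, `F` cyclic and
imaginary, and the lines `H_σ` are spanned by de Rham classes, then the periods are `(2 π i) ^ k`, up
to algebraic factors. -/
def HodgePeriods (T : PeriodData.{v} 𝒱) : Prop :=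
  ∀ (X : 𝒱.Obj) (k : ℕ) (F : IntermediateField ℚ ℂ) (j : F →+ T.H X (2 * k)),
    CyclicImaginary F → Admissible T X (2 * k) F j (fun _ => k) →
    ∀ σ P, IsPeriod T j σ P → Sim P ((2 * Real.pi * Complex.I) ^ k)

/-- A reference triple for `F`: an admissible triple whose type `p` is not orthogonal to the
injective characters of the Galois group. -/
structure Reference (T : PeriodData.{v} 𝒱) (F : IntermediateField ℚ ℂ) where
  /-- the variety -/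
  Y : 𝒱.Obj
  /-- the degree -/
  n : ℕ
  /-- the triple -/
  j : F →+ T.H Y n
  /-- the type -/
  p : (F →ₐ[ℚ] ℂ) → ℕ
  adm : Admissible T Y n F j p
  nondeg : ∀ ψ : (F ≃ₐ[ℚ] F) →* ℂˣ, Function.Injective ψ →
    ∑ᶠ s : F ≃ₐ[ℚ] F, (ψ s : ℂ) * p (F.val.comp (s : F →ₐ[ℚ] F)) ≠ 0

end Pool.Agent.T2H05.GD
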