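import Pool.Agent.T2H05.GD.EndStm

/-! # Package DRC (helper77): coefficients of de Rham classes -/

set_option autoImplicit false

open CategoryTheory AlgebraicGeometry IntermediateField Finset

universe v

namespace Pool.Agent.T2H05.GD

open Pool.Agent.H914 Pool.Agent.H914.VarClass

theorem gDRC : G_DRC.{v} := by
  intro 𝒱 T hT X m F _ j p c A a hw
  obtain ⟨N, hN⟩ : ∃ N, N = Fintype.card (F →ₐ[ℚ] ℂ) := ⟨_, rfl⟩
  obtain ⟨e⟩ : Nonempty ((F →ₐ[ℚ] ℂ) ≃ Fin N) := by
    subst hN
    exact ⟨Fintype.equivFin _⟩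
  obtain ⟨w, hwd⟩ : ∃ w, w = ∑ σ : F →ₐ[ℚ] ℂ, a σ • vv j σ := ⟨_, rfl⟩
  rw [← hwd] at hw
  have hconv : ∀ f : Fin N → ℂ, ∑ i : Fin N, f i • (c (e.symm i) • vv j (e.symm i)) =
      ∑ σ : F →ₐ[ℚ] ℂ, (f (e σ) * c σ) • vv j σ := by
    intro f
    rw [← Equiv.sum_comp e]
    refine Finset.sum_congr rfl fun σ _ => ?_
    rw [Equiv.symm_apply_apply, smul_smul]
  have hnot : ¬ LinearIndependent ℂ
      (Fin.cons w (fun i : Fin N => c (e.symm i) • vv j (e.symm i)) : Fin (N + 1) → T.H X m) := by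
    intro hli
    have h1 := Fintype.linearIndependent_iff.1 hli
      (Fin.cons 1 (fun i : Fin N => -(a (e.symm i) / c (e.symm i)))) (by
        rw [Fin.sum_univ_succ]
        simp only [Fin.cons_zero, Fin.cons_succ, one_smul]
        rw [hconv, hwd, ← Finset.sum_add_distrib]
        refine Finset.sum_eq_zero fun σ _ => ?_
        rw [← add_smul, Equiv.symm_apply_apply, neg_mul, div_mul_cancel₀ _ (A.ne σ), add_neg_cancel,
          zero_smul]) 0
    simp at h1
  have hex : ∃ z : Fin (N + 1) → ℂ, (∀ i, IsAlgebraic ℚ (z i)) ∧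
      ∑ i, z i • (Fin.cons w (fun i : Fin N => c (e.symm i) • vv j (e.symm i)) :
        Fin (N + 1) → T.H X m) i = 0 ∧ z ≠ 0 := by
    by_contra hcon
    push Not at hcon
    refine hnot (hT.form_dR (N + 1) _ (fun i => ?_) hcon)
    refine Fin.cases ?_ (fun i => ?_) i
    · rw [Fin.cons_zero]
      exact hw
    · rw [Fin.cons_succ]
      exact A.dR _
  obtain ⟨z, hz, hsum, hz0⟩ := hex
  rw [Fin.sum_univ_succ] at hsum
  simp only [Fin.cons_zero, Fin.cons_succ] at hsum
  rw [hconv (fun i => z i.succ), hwd, Finset.smul_sum, ← Finset.sum_add_distrib] at hsum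
  simp only [smul_smul, ← add_smul] at hsum
  have hall := Fintype.linearIndependent_iff.1 A.indep _ hsum
  have hne : z 0 ≠ 0 := by
    intro h0
    apply hz0
    funext i
    refine Fin.cases h0 (fun i => ?_) i
    have h1 := hall (e.symm i)
    rw [h0, zero_mul, zero_add, Equiv.apply_symm_apply] at h1
    exact (mul_eq_zero.1 h1).resolve_right (A.ne _)
  intro σ
  refine ⟨-(z (e σ).succ * (z 0)⁻¹), ((hz _).mul (hz _).inv).neg, ?_⟩
  have h1 := hall σ
  field_simp
  linear_combination h1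

end Pool.Agent.T2H05.GD
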