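import Pool.Agent.T2H05.GD.EndStm

/-! # Package EQV of project GE: the matrix is equivariant and algebraic -/

set_option autoImplicit false

open CategoryTheory AlgebraicGeometry IntermediateField Finset

universe v

namespace Pool.Agent.T2H05.GD

open Pool.Agent.H914 Pool.Agent.H914.VarClass

private lemma geqv_val (F : IntermediateField ℚ ℂ) [FiniteDimensional ℚ F] (φ : F →+ F)
    (u w : F ≃ₐ[ℚ] F) :
    AA φ (F.val.comp (u : F →ₐ[ℚ] F)) (F.val.comp (w : F →ₐ[ℚ] F)) =
      F.val (∑ i, u (db F i) * w (φ (bs F i))) := by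
  unfold AA
  rw [map_sum]
  refine Finset.sum_congr rfl fun i _ => ?_
  rw [map_mul]
  rfl

theorem gEQV : G_EQV := by
  intro F _ φ
  refine ⟨?_, ?_⟩
  · intro g u w h
    rw [geqv_val] at h ⊢
    have e : ∑ i, (g * u : F ≃ₐ[ℚ] F) (db F i) * (g * w : F ≃ₐ[ℚ] F) (φ (bs F i)) =
        g (∑ i, u (db F i) * w (φ (bs F i))) := by
      rw [map_sum]
      refine Finset.sum_congr rfl fun i _ => ?_
      rw [map_mul]
      rfl
    rw [e]
    intro h0
    apply h
    have h1 := (map_eq_zero F.val).mp h0
    rw [(map_eq_zero g).mp h1, map_zero]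
  · intro σ τ
    have hF : ∀ (ρ : F →ₐ[ℚ] ℂ) (x : F), IsAlgebraic ℚ (ρ x) := fun ρ x =>
      (Algebra.IsAlgebraic.isAlgebraic (R := ℚ) x).algHom ρ
    unfold AA
    have h1 : ∀ s : Finset (Fin (Module.finrank ℚ F)),
        IsAlgebraic ℚ (∑ i ∈ s, σ (db F i) * τ (φ (bs F i))) := by
      intro s
      classical
      induction s using Finset.induction_on with
      | empty => simpa using isAlgebraic_zero
      | insert a s ha ih =>
        rw [sum_insert ha]
        exact ((hF σ _).mul (hF τ _)).add ih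
    exact h1 _

end Pool.Agent.T2H05.GD
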