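import Pool.Agent.T2H05.GD.EndStm

/-!
# Package G_FWD: from the conjecture to the endomorphisms
-/

set_option autoImplicit false

open CategoryTheory AlgebraicGeometry IntermediateField Finset

universe v

namespace Pool.Agent.T2H05.GD

open Pool.Agent.H914 Pool.Agent.H914.VarClass

private lemma fwd_sum_alg {ι : Type*} (s : Finset ι) (f : ι → ℂ) (h : ∀ i ∈ s, IsAlgebraic ℚ (f i)) :
    IsAlgebraic ℚ (∑ i ∈ s, f i) := by
  rw [← mem_algebraicClosure_iff]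
  exact sum_mem fun i hi => mem_algebraicClosure_iff.mpr (h i hi)

private lemma fwd_comp {F : IntermediateField ℚ ℂ} (r s : F ≃ₐ[ℚ] F) :
    (F.val.comp (r : F →ₐ[ℚ] F)).comp (s : F →ₐ[ℚ] F) =
      F.val.comp ((r * s : F ≃ₐ[ℚ] F) : F →ₐ[ℚ] F) := by
  ext x
  rfl

theorem gFWD (hMAT : G_MAT.{v}) (hHOD : G_HOD.{v}) (hEQV : G_EQV) (hSYM : G_SYM.{v})
    (hDRC : G_DRC.{v}) : G_FWD.{v} := by
  intro 𝒱 T hT hind F hF hGD X m j p hadm φ hφ n z x hw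
  obtain ⟨N, hN, hFN⟩ := id hF
  obtain ⟨hfd, res, -, -, hval, -⟩ := aCY N hN F hFN
  obtain ⟨c, hc⟩ := (aAD1 𝒱 T hT X m F j p).mp hadm
  -- the class in the basis
  have e1 : ∑ i, z i • j (x i) = ∑ σ : F →ₐ[ℚ] ℂ, (∑ i, z i * σ (x i)) • vv j σ := by
    have h1 : ∀ i, z i • j (x i) = ∑ σ : F →ₐ[ℚ] ℂ, (z i * σ (x i)) • vv j σ := by
      intro i
      rw [(aDU F).2 (T.H X m) j (x i), Finset.smul_sum]
      exact Finset.sum_congr rfl fun σ _ => smul_smul _ _ _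
    rw [Finset.sum_congr rfl fun i _ => h1 i, Finset.sum_comm]
    exact Finset.sum_congr rfl fun σ _ => (Finset.sum_smul).symm
  have hw' : ∑ σ : F →ₐ[ℚ] ℂ, (∑ i, z i * σ (x i)) • vv j σ ∈ T.dR X m := by
    rw [← e1]
    exact hw
  have hα := hDRC 𝒱 T hT X m F j p c hc (fun σ => ∑ i, z i * σ (x i)) hw'
  have key : ∀ σ τ : F →ₐ[ℚ] ℂ, ∃ β : ℂ, IsAlgebraic ℚ β ∧
      AA φ σ τ * (∑ i, z i * σ (x i)) = β * c τ := by
    intro σ τ
    by_cases hA : AA φ σ τ = 0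
    · exact ⟨0, isAlgebraic_zero, by rw [hA]; ring⟩
    · obtain ⟨u, hu⟩ := hval σ
      obtain ⟨t, ht⟩ := hval τ
      have hp : ∀ ρ : F →ₐ[ℚ] ℂ, p (ρ.comp ((t⁻¹ * u : F ≃ₐ[ℚ] F) : F →ₐ[ℚ] F)) = p ρ := by
        intro ρ
        obtain ⟨r, hr⟩ := hval ρ
        have h1 : AA φ (F.val.comp (u : F →ₐ[ℚ] F)) (F.val.comp (t : F →ₐ[ℚ] F)) ≠ 0 := by
          rw [← hu, ← ht]
          exact hA
        have h2 := (hEQV F φ).1 (r * t⁻¹) u t h1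
        have h3 := hHOD 𝒱 T X m (hind X m) F j p c hc φ hφ _ _ h2
        have h4 : r * t⁻¹ * t = r := by group
        have h5 : r * (t⁻¹ * u) = r * t⁻¹ * u := by group
        rw [hr, fwd_comp, h5]
        rw [h4] at h3
        exact h3.symm
      have hsim := hSYM 𝒱 T hT F hF hGD X m j p c hc (t⁻¹ * u) hp τ
      have h6 : τ.comp ((t⁻¹ * u : F ≃ₐ[ℚ] F) : F →ₐ[ℚ] F) = σ := by
        rw [ht, fwd_comp, hu]
        have : t * (t⁻¹ * u) = u := by group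
        rw [this]
      rw [h6] at hsim
      obtain ⟨α', ha', -, hca⟩ := hsim
      obtain ⟨α, ha, hwa⟩ := hα σ
      refine ⟨AA φ σ τ * α * α', (((hEQV F φ).2 σ τ).mul ha).mul ha', ?_⟩
      have hwa' : ∑ i, z i * σ (x i) = α * c σ := hwa
      rw [hwa', hca]
      ring
  choose β hβ1 hβ2 using key
  show ∑ i, z i • j (φ (x i)) ∈ T.dR X m
  rw [hMAT F (T.H X m) j φ n z x]
  refine AddSubgroup.sum_mem _ fun τ _ => ?_
  have e2 : (∑ σ : F →ₐ[ℚ] ℂ, AA φ σ τ * ∑ i, z i * σ (x i)) • vv j τ =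
      (∑ σ : F →ₐ[ℚ] ℂ, β σ τ) • (c τ • vv j τ) := by
    rw [smul_smul, Finset.sum_mul]
    congr 1
    exact Finset.sum_congr rfl fun σ _ => hβ2 σ τ
  rw [e2]
  exact hT.alg _ (fwd_sum_alg _ _ fun σ _ => hβ1 σ τ) (hc.dR τ)

end Pool.Agent.T2H05.GD
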