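import Pool.Agent.T2H05.GD.EndStm

/-! # Package HOD of project GE: the entries of the matrix of a Hodge endomorphism -/

set_option autoImplicit false

open CategoryTheory AlgebraicGeometry IntermediateField Finset

universe v

namespace Pool.Agent.T2H05.GD

open Pool.Agent.H914 Pool.Agent.H914.VarClass

private lemma ghod_img {𝒱 : VarClass Qbar} (h : G_MAT.{v}) (T : PeriodData.{v} 𝒱) (X : 𝒱.Obj)
    (m : ℕ) (F : IntermediateField ℚ ℂ) [FiniteDimensional ℚ F] (j : F →+ T.H X m)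
    (p : (F →ₐ[ℚ] ℂ) → ℕ) (c : (F →ₐ[ℚ] ℂ) → ℂ) (A : Adm T X m F j p c) (φ : F →+ F)
    (hφ : HodgeEnd T j φ) (σ : F →ₐ[ℚ] ℂ) :
    ∑ τ : F →ₐ[ℚ] ℂ, AA φ σ τ • vv j τ ∈ T.hodge X m (p σ) := by
  classical
  have h1 := hφ (p σ) _ (fun i => σ (db F i)) (fun i => bs F i) (A.hodge σ)
  rw [h F (T.H X m) j φ _ (fun i => σ (db F i)) (fun i => bs F i)] at h1
  have h2 : ∀ ρ : F →ₐ[ℚ] ℂ, ∑ i, σ (db F i) * ρ (bs F i) = if ρ = σ then 1 else 0 := by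
    intro ρ
    have h3 := (aDU.{0} F).1 ρ σ
    rw [Finset.sum_congr rfl fun i _ => mul_comm (σ (db F i)) (ρ (bs F i))]
    rw [h3]
  have h4 : ∀ τ : F →ₐ[ℚ] ℂ,
      ∑ ρ : F →ₐ[ℚ] ℂ, AA φ ρ τ * ∑ i, σ (db F i) * ρ (bs F i) = AA φ σ τ := by
    intro τ
    rw [Finset.sum_congr rfl fun ρ _ => by rw [h2 ρ]]
    simp
  rw [Finset.sum_congr rfl fun τ _ => by rw [h4 τ]] at h1
  exact h1

theorem gHOD (h : G_MAT.{v}) : G_HOD.{v} := by
  classical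
  intro 𝒱 T X m hind F _ j p c A φ hφ σ τ0 hne
  by_contra hp
  have hW := ghod_img h T X m F j p c A φ hφ σ
  have hdis : Disjoint (T.hodge X m (p τ0)) (⨆ q, ⨆ (_ : q ≠ p τ0), T.hodge X m q) := hind (p τ0)
  have hS1 : ∑ τ ∈ (univ : Finset (F →ₐ[ℚ] ℂ)).filter (fun τ => p τ = p τ0),
      AA φ σ τ • vv j τ ∈ T.hodge X m (p τ0) := by
    refine Submodule.sum_mem _ fun τ hτ => Submodule.smul_mem _ _ ?_
    rw [← (mem_filter.mp hτ).2]
    exact A.hodge τ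
  have hle : ∀ q, q ≠ p τ0 → T.hodge X m q ≤ ⨆ q, ⨆ (_ : q ≠ p τ0), T.hodge X m q := fun q hq =>
    le_iSup₂_of_le q hq le_rfl
  have hS2 : ∑ τ ∈ (univ : Finset (F →ₐ[ℚ] ℂ)).filter (fun τ => ¬ p τ = p τ0),
      AA φ σ τ • vv j τ ∈ ⨆ q, ⨆ (_ : q ≠ p τ0), T.hodge X m q := by
    refine Submodule.sum_mem _ fun τ hτ => Submodule.smul_mem _ _ ?_
    exact hle _ (mem_filter.mp hτ).2 (A.hodge τ)
  have hsplit := Finset.sum_filter_add_sum_filter_not (univ : Finset (F →ₐ[ℚ] ℂ))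
    (fun τ => p τ = p τ0) (fun τ => AA φ σ τ • vv j τ)
  have hW' := hle (p σ) (fun e => hp e.symm) hW
  have hS1' : ∑ τ ∈ (univ : Finset (F →ₐ[ℚ] ℂ)).filter (fun τ => p τ = p τ0),
      AA φ σ τ • vv j τ ∈ ⨆ q, ⨆ (_ : q ≠ p τ0), T.hodge X m q := by
    have e := eq_sub_of_add_eq hsplit
    rw [e]
    exact Submodule.sub_mem _ hW' hS2
  have h0 := Submodule.disjoint_def.mp hdis _ hS1 hS1'
  rw [Finset.sum_filter] at h0
  have h1 : ∑ τ : F →ₐ[ℚ] ℂ, (if p τ = p τ0 then AA φ σ τ else 0) • vv j τ = 0 := by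
    rw [← h0]
    refine Finset.sum_congr rfl fun τ _ => ?_
    split_ifs <;> simp
  have h2 := Fintype.linearIndependent_iff.mp A.indep _ h1 τ0
  rw [if_pos rfl] at h2
  exact hne h2

end Pool.Agent.T2H05.GD
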