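import Pool.Agent.T2H05.GD.EndStm

/-!
# Project GE, package SYM: the conjecture and the symmetries of the type
-/

set_option autoImplicit false

open CategoryTheory AlgebraicGeometry IntermediateField Finset

universe v

namespace Pool.Agent.T2H05.GD

open Pool.Agent.H914 Pool.Agent.H914.VarClass

private lemma SYM_one {F : IntermediateField ℚ ℂ} (hF : F ≤ ℚ⟮zt 1⟯) (σ σ' : F →ₐ[ℚ] ℂ) : σ = σ' := by
  refine AlgHom.ext fun x => ?_
  have h3 := hF x.2
  have h4 : zt 1 = 1 := by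
    unfold zt
    rw [Nat.cast_one, div_one, Complex.exp_two_pi_mul_I]
  rw [h4, IntermediateField.adjoin_one, IntermediateField.mem_bot] at h3
  obtain ⟨q, hq⟩ := h3
  have h5 : x = algebraMap ℚ F q := Subtype.ext (by rw [← hq]; rfl)
  rw [h5, AlgHom.commutes, AlgHom.commutes]

theorem gSYM : G_SYM.{v} := by
  intro 𝒱 T hT F _ hF hGD X m j p c hA s hs σ
  obtain ⟨hd0, hFd⟩ := cond_spec hF
  have hGD1 := hGD X m j p ((aAD1 𝒱 T hT X m F j p).mpr ⟨c, hA⟩)
  obtain ⟨j', hA'⟩ := aTW 𝒱 T X m F j p c hA s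
  have hps : (fun σ : F →ₐ[ℚ] ℂ => p (σ.comp (s : F →ₐ[ℚ] F))) = p := funext hs
  rw [hps] at hA'
  have hGD2 := hGD X m j' p ((aAD1 𝒱 T hT X m F j' p).mpr ⟨_, hA'⟩)
  generalize cond F = d at hd0 hFd hGD1 hGD2
  rcases Nat.lt_or_ge d 2 with h2 | hd2
  · have hd1 : d = 1 := by omega
    subst hd1
    rw [SYM_one hFd (σ.comp (s : F →ₐ[ℚ] F)) σ]
    exact Sim.refl _
  · have : NeZero d := ⟨hd0.ne'⟩
    obtain ⟨-, res, hsurj, hres, hval, hconj⟩ := aCY d hd0 F hFd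
    let P : (ZMod d)ˣ → ℚ := fun u => p (F.val.comp ((res u) : F →ₐ[ℚ] F))
    have hPn : ∀ u, P u + P (-u) = m := by
      intro u
      have h1 := (aPOL 𝒱 T hT X m F j p c hA (F.val.comp ((res u) : F →ₐ[ℚ] F))
        (F.val.comp ((res (-u)) : F →ₐ[ℚ] F)) (by
          intro x
          have h2 : res (-u) = res (-1) * res u := by rw [← map_mul]; simp
          rw [h2]
          exact hconj (res u x))).1
      show ((p _ : ℕ) : ℚ) + ((p _ : ℕ) : ℚ) = m
      exact_mod_cast h1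
    obtain ⟨x, hx⟩ := aEX d hd2 P m hPn
    have hx' : IsEps d p x := by
      intro u σ hσ
      rw [(hres u σ).mp hσ]
      have := hx u
      rw [show ((p (F.val.comp ((res u) : F →ₐ[ℚ] F)) : ℕ) : ℚ) = P u from rfl, this,
        sum_Ioo_zmod d (fun a : ZMod d => x a * (((u : ZMod d) * a).val : ℚ)),
        ← Finset.add_sum_erase univ _ (mem_univ (0 : ZMod d))]
      simp
    obtain ⟨t, ht⟩ := hval σ
    obtain ⟨lam, rfl⟩ := hsurj t
    have hR : Restr d lam σ := (hres lam σ).mpr ht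
    obtain ⟨hp1, P1, hP1⟩ := aAD2 𝒱 T hT X m F j p c hA σ
    obtain ⟨hp2, P2, hP2⟩ := aAD2 𝒱 T hT X m F j' p _ hA' σ
    have e1 : Sim P1 (gam d x lam : ℝ) := hGD1 x hx' lam σ hR P1 hP1
    have e2 : Sim P2 (gam d x lam : ℝ) := hGD2 x hx' lam σ hR P2 hP2
    exact ((hp2 P2 hP2).symm.trans e2).trans (e1.symm.trans (hp1 P1 hP1))

end Pool.Agent.T2H05.GD
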