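import Pool.Agent.T2H05.GD.G_MAT
import Pool.Agent.T2H05.GD.G_HOD
import Pool.Agent.T2H05.GD.G_EQV
import Pool.Agent.T2H05.GD.G_SYM
import Pool.Agent.T2H05.GD.G_DRC
import Pool.Agent.T2H05.GD.G_BCK
import Pool.Agent.T2H05.GD.G_FWD

set_option autoImplicit false

universe v

namespace Pool.Agent.T2H05.GD

open Pool.Agent.H914

theorem bMAT : G_MAT.{v} := gMAT
theorem bHOD : G_HOD.{v} := gHOD bMAT
theorem bEQV : G_EQV := gEQV
theorem bSYM : G_SYM.{v} := gSYM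
theorem bDRC : G_DRC.{v} := gDRC
theorem bBCK : G_BCK.{v} := gBCK bMAT bDRC
theorem bFWD : G_FWD.{v} := gFWD bMAT bHOD bEQV bSYM bDRC

theorem mainE {𝒱 : VarClass Qbar} (T : PeriodData.{v} 𝒱) (hT : IsPeriodTheory T)
    (hI : ∀ X m, iSupIndep (T.hodge X m)) (K : IntermediateField ℚ ℂ) (hK : AbelianField K)
    (ref : ∀ F, F ≤ K → CyclicImaginary F → Reference T F) :
    (∀ F, F ≤ K → GDFor T F) ↔
      (∀ F (h : F ≤ K) (hF : CyclicImaginary F), GDAt T (ref F h hF).j (ref F h hF).p (cond F)) ∧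
        ∀ F, F ≤ K → EndFor T F := by
  constructor
  · intro hGD
    refine ⟨fun F h hF => hGD F h _ _ _ _ (ref F h hF).adm, fun F h => ?_⟩
    obtain ⟨d, hd, hKd⟩ := hK
    exact bFWD 𝒱 T hT hI F ⟨d, hd, h.trans hKd⟩ (hGD F h)
  · rintro ⟨hr, hE⟩
    exact (mainL T hT K hK ref).mpr fun F h hF => ⟨hr F h hF, bBCK 𝒱 T hT F hF (hE F h)⟩

end Pool.Agent.T2H05.GD
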