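import Pool.Agent.T2H05.GD.AllL

/-!
# Project GE (third theorem for MP_b23d8d_ag): endomorphisms of Hodge structures and de Rham classes

Theorem: the conjecture of Gross and Deligne for the fields in an abelian field `K` is equivalent to
(anchors and) the statement that all endomorphisms of the Hodge structures `H` of admissible triples
respect the de Rham classes. Package `ID`: prove `theorem gID : G_ID` in
`Pool/Agent/T2H05/GD/G_ID.lean` (import this file, namespace `Pool.Agent.T2H05.GD`, lemmas private).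
Available: the theorems `aSEP aRPOW aRF aGM aDIST aGAM aUNI aKC aEX aCONST aLIFT aCHI aCONV aDU aLIN
aIND aFORM aAD1 aAD2 aTW aTEN aRST aPOL aITER aCY aRES aSUB` (proofs of the statements `S_...` of
`GD/Stm.lean`), `Sim.refl/symm/trans/ne_zero`, `cond_spec`, `gam_ne`, `log_two_pi`, `IsLog.sim` etc.
-/

set_option autoImplicit false

open CategoryTheory AlgebraicGeometry IntermediateField Finset

universe v

namespace Pool.Agent.T2H05.GD

open Pool.Agent.H914 Pool.Agent.H914.VarClass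

variable {𝒱 : VarClass Qbar}

/-- The endomorphism `φ` of the rational vector space `H = j(F)`, extended to `H ⊗ ℂ`, maps the
elements of `S` to elements of `S`. -/
def Respects {E : Type v} [AddCommGroup E] [Module ℂ E] {F : IntermediateField ℚ ℂ} (j : F →+ E)
    (φ : F →+ F) (S : Set E) : Prop :=
  ∀ (n : ℕ) (z : Fin n → ℂ) (x : Fin n → F),
    ∑ i, z i • j (x i) ∈ S → ∑ i, z i • j (φ (x i)) ∈ S

/-- `φ` is an endomorphism of the Hodge structure `H = j(F)`. -/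
def HodgeEnd (T : PeriodData.{v} 𝒱) {X : 𝒱.Obj} {m : ℕ} {F : IntermediateField ℚ ℂ}
    (j : F →+ T.H X m) (φ : F →+ F) : Prop :=
  ∀ q, Respects j φ (T.hodge X m q : Set (T.H X m))

/-- All endomorphisms of the Hodge structures `H` of the admissible triples with the field `F`
respect the de Rham classes. -/
def EndFor (T : PeriodData.{v} 𝒱) (F : IntermediateField ℚ ℂ) : Prop :=
  ∀ (X : 𝒱.Obj) (m : ℕ) (j : F →+ T.H X m) (p : (F →ₐ[ℚ] ℂ) → ℕ), Admissible T X m F j p →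
    ∀ φ : F →+ F, HodgeEnd T j φ → Respects j φ (T.dR X m : Set (T.H X m))

/-- The matrix of `φ` in the basis `v_σ`: `φ(v_σ) = ∑_τ A(σ, τ) v_τ`. -/
noncomputable def AA {F : IntermediateField ℚ ℂ} [FiniteDimensional ℚ F] (φ : F →+ F)
    (σ τ : F →ₐ[ℚ] ℂ) : ℂ := ∑ i, σ (db F i) * τ (φ (bs F i))

/-- MAT (20 min). `τ(φ x) = ∑_σ σ(x) A(σ,τ)` by `aDU.{0}` part (2) for the additive map
`τ ∘ φ : F →+ ℂ` (its `vv` is `A(·,τ)`); and `j(φ x_i) = ∑_τ τ(φ x_i) v_τ` by `aDU.{v}` part (2); sum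
over `i`. -/
def G_MAT : Prop := ∀ (F : IntermediateField ℚ ℂ) [FiniteDimensional ℚ F] (E : Type v)
  [AddCommGroup E] [Module ℂ E] (j : F →+ E) (φ : F →+ F) (n : ℕ) (z : Fin n → ℂ) (x : Fin n → F),
  ∑ i, z i • j (φ (x i)) =
    ∑ τ : F →ₐ[ℚ] ℂ, (∑ σ : F →ₐ[ℚ] ℂ, AA φ σ τ * ∑ i, z i * σ (x i)) • vv j τ

/-- HOD (30 min; deps G_MAT). Take `z_i = σ(b*_i)`, `x_i = b_i`: `∑ z_i j(x_i) = v_σ` is in `hodge (p σ)`
and `∑_i z_i ρ(x_i) = δ_(ρ σ)` by `aDU` part (1), so `∑_τ A(σ,τ) v_τ` is in `hodge (p σ)`. Subtract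
the `τ` with `p τ = p σ`: the rest is in `hodge (p σ) ⊓ ⨆_(q ≠ p σ) hodge q = ⊥`; now the `v_τ` are
linearly independent. -/
def G_HOD : Prop := ∀ (𝒱 : VarClass Qbar) (T : PeriodData.{v} 𝒱) (X : 𝒱.Obj) (m : ℕ),
  iSupIndep (T.hodge X m) → ∀ (F : IntermediateField ℚ ℂ) [FiniteDimensional ℚ F]
    (j : F →+ T.H X m) (p : (F →ₐ[ℚ] ℂ) → ℕ) (c : (F →ₐ[ℚ] ℂ) → ℂ), Adm T X m F j p c →
    ∀ φ : F →+ F, HodgeEnd T j φ → ∀ σ τ : F →ₐ[ℚ] ℂ, AA φ σ τ ≠ 0 → p τ = p σ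

/-- EQV (25 min). For `u, w, g` in the group of `F`: `A(u, w) = ∑_i u(b*_i) w(φ b_i)` is (the image in
`ℂ` of) an element `a` of `F`, and `A(g u, g w) = g(a)`. So it is nonzero if `A(u, w)` is nonzero; and
all `A(σ, τ)` are algebraic. -/
def G_EQV : Prop := ∀ (F : IntermediateField ℚ ℂ) [FiniteDimensional ℚ F] (φ : F →+ F),
  (∀ g u w : F ≃ₐ[ℚ] F, AA φ (F.val.comp (u : F →ₐ[ℚ] F)) (F.val.comp (w : F →ₐ[ℚ] F)) ≠ 0 →
    AA φ (F.val.comp ((g * u : F ≃ₐ[ℚ] F) : F →ₐ[ℚ] F))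
      (F.val.comp ((g * w : F ≃ₐ[ℚ] F) : F →ₐ[ℚ] F)) ≠ 0) ∧
  ∀ σ τ : F →ₐ[ℚ] ℂ, IsAlgebraic ℚ (AA φ σ τ)

/-- SYM (45 min). The conjecture for `F` and a symmetry `s` of the type: the periods are symmetric.
Let `d = cond F` (`cond_spec`). If `d = 1` then `F ≤ ℚ⟮zt 1⟯ = ⊥` (`zt 1 = 1`) and `σ.comp s = σ`. If
`d ≥ 2`: an `ε` with `IsEps d p ε` exists (copy the first 30 lines of the proof of `refdata` in
`GD/Fin2.lean`, from `aEX`, `aPOL`, `aCY`). By `aTW` there is `j'` with type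
`σ ↦ p (σ.comp s) = p σ` and numbers `c (σ.comp s)`. By `aAD1`, `aAD2` and the conjecture for both
triples and the same `ε`, `λ`: `c(σ) ∼ gam d ε λ ∼ c(σ.comp s)` (`σ` corresponds to some `λ` by
`aCY`). -/
def G_SYM : Prop := ∀ (𝒱 : VarClass Qbar) (T : PeriodData.{v} 𝒱), IsPeriodTheory T →
  ∀ (F : IntermediateField ℚ ℂ) [FiniteDimensional ℚ F], AbelianField F → GDFor T F →
  ∀ (X : 𝒱.Obj) (m : ℕ) (j : F →+ T.H X m) (p : (F →ₐ[ℚ] ℂ) → ℕ) (c : (F →ₐ[ℚ] ℂ) → ℂ),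
    Adm T X m F j p c → ∀ s : F ≃ₐ[ℚ] F, (∀ σ, p (σ.comp (s : F →ₐ[ℚ] F)) = p σ) →
    ∀ σ, Sim (c (σ.comp (s : F →ₐ[ℚ] F))) (c σ)

/-- DRC (35 min). Coefficients of de Rham classes. Let `w = ∑ a_σ v_σ` be in `dR`. The family
`w, (c(σ) v_σ)_σ` consists of elements of `dR` (index it by `Fin (n + 1)`, `n` the number of `σ`, via
`Fintype.equivFin` and `Fin.cons`) and it is linearly dependent over `ℂ`, so by `form_dR` there are
algebraic numbers `z_0, z_σ`, not all zero, with `z_0 w + ∑ z_σ c(σ) v_σ = 0`; `z_0 ≠ 0` by the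
independence of the `v_σ`, and `a_σ = - (z_σ / z_0) c(σ)`. -/
def G_DRC : Prop := ∀ (𝒱 : VarClass Qbar) (T : PeriodData.{v} 𝒱), IsPeriodTheory T →
  ∀ (X : 𝒱.Obj) (m : ℕ) (F : IntermediateField ℚ ℂ) [FiniteDimensional ℚ F]
    (j : F →+ T.H X m) (p : (F →ₐ[ℚ] ℂ) → ℕ) (c : (F →ₐ[ℚ] ℂ) → ℂ), Adm T X m F j p c →
    ∀ a : (F →ₐ[ℚ] ℂ) → ℂ, ∑ σ : F →ₐ[ℚ] ℂ, a σ • vv j σ ∈ T.dR X m →
    ∀ σ, ∃ α : ℂ, IsAlgebraic ℚ α ∧ a σ = α * c σ

/-- BCK (50 min; deps G_MAT, G_DRC). From the endomorphisms to Hodge classes. Let `κ = res (-1)` be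
complex conjugation (`aCY`), `φ = κ` as an additive map. `HodgeEnd`: all `v_σ` are in `hodge k`, so
all `∑ z_i j(x_i)` and (by `G_MAT`) `∑ z_i j(φ x_i)` are in `hodge k`; if `q ≠ k` and
`∑ z_i j(x_i) = ∑_σ (∑ z_i σ(x_i)) v_σ` is in `hodge q` then it is `0` (`hodge_disjoint`), so all its
coefficients are `0` and so is `∑ z_i j(φ x_i)` by `G_MAT`. So `φ` respects `dR`. Apply this to
`z_i = c(σ) σ(b*_i)`, `x_i = b_i`: `c(σ) v_σ` in `dR`, so `∑_τ c(σ) A(σ,τ) v_τ` in `dR`, and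
`A(σ, τ) = ∑_i σ(b*_i) (τ κ)(b_i) = δ_(σ, τ κ)`, so `c(σ) v_τ` in `dR` for `τ = σ κ` (`κ² = 1`); by
`G_DRC` `c(σ) = α c(σ κ)`, `α` algebraic. By `aPOL` `c(σ) c(σ κ) ∼ (2πi)^(2k)` (`σ κ` is the complex
conjugate of `σ` as `F` is abelian), so with `aSEP`: `2 L(c σ) = 2 k L(2πi)`, so
`c(σ) ∼ (2πi)^k`, and `aAD2`. -/
def G_BCK : Prop := ∀ (𝒱 : VarClass Qbar) (T : PeriodData.{v} 𝒱), IsPeriodTheory T →
  ∀ F : IntermediateField ℚ ℂ, CyclicImaginary F → EndFor T F → HodgeFor T F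

/-- FWD (40 min; deps G_MAT, G_HOD, G_EQV, G_SYM, G_DRC). From the conjecture to the endomorphisms.
`c` from `aAD1`. Let `w = ∑ z_i j(x_i)` be in `dR`; `w = ∑_σ w_σ v_σ`, `w_σ = ∑ z_i σ(x_i)` (`G_MAT`
with the identity or `aDU`), `w_σ = α_σ c(σ)` by DRC. If `A(σ, τ) ≠ 0` write `σ = val u`, `τ = val t`
(`aCY`); by EQV and HOD `p(g t) = p(g u)` for all `g`, so with `s = t⁻¹ u` (the group is
commutative, a quotient of the units) `p (ρ.comp s) = p ρ` for all `ρ`, and SYM gives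
`c(σ) ∼ c(τ)`. So the coefficient `∑_σ A(σ,τ) w_σ` of `v_τ` in `∑ z_i j(φ x_i)` (MAT) is an algebraic
number times `c(τ)`; use `alg` and that `dR` is an additive group. -/
def G_FWD : Prop := ∀ (𝒱 : VarClass Qbar) (T : PeriodData.{v} 𝒱), IsPeriodTheory T →
  (∀ X m, iSupIndep (T.hodge X m)) → ∀ F : IntermediateField ℚ ℂ, AbelianField F → GDFor T F →
  EndFor T F

end Pool.Agent.T2H05.GD
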