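import Pool.Agent.T2H05.GD.T_ARI

set_option autoImplicit false

open Finset IntermediateField CategoryTheory AlgebraicGeometry

universe v

namespace Pool.Agent.T2H05.GD

open Pool.Agent.H914 Pool.Agent.H914.VarClass
open Pool.Agent.H916R2 (OddDist SS saw)

lemma Sim.refl (x : ℂ) : Sim x x := ⟨1, isAlgebraic_one, one_ne_zero, (one_mul x).symm⟩

lemma Sim.symm {x y : ℂ} (h : Sim x y) : Sim y x := by
  obtain ⟨α, h1, h2, rfl⟩ := h
  exact ⟨α⁻¹, h1.inv, inv_ne_zero h2, by rw [← mul_assoc, inv_mul_cancel₀ h2, one_mul]⟩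

lemma Sim.trans {x y z : ℂ} (h : Sim x y) (h' : Sim y z) : Sim x z := by
  obtain ⟨α, h1, h2, rfl⟩ := h
  obtain ⟨β, h3, h4, rfl⟩ := h'
  exact ⟨α * β, h1.mul h3, mul_ne_zero h2 h4, by ring⟩

lemma Sim.ne_zero {x y : ℂ} (h : Sim x y) (hy : y ≠ 0) : x ≠ 0 := by
  obtain ⟨α, h1, h2, rfl⟩ := h
  exact mul_ne_zero h2 hy

lemma gam_pos (d : ℕ) (ε : ZMod d → ℚ) (u : (ZMod d)ˣ) : 0 < gam d ε u := by
  unfold gam
  refine prod_pos fun a ha => ?_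
  rw [mem_Ioo] at ha
  apply Real.rpow_pos_of_pos
  apply Real.Gamma_pos_of_pos
  have hd : (0 : ℝ) < d := by exact_mod_cast (lt_trans ha.1 ha.2)
  have : (a : ℝ) / d < 1 := (div_lt_one hd).mpr (by exact_mod_cast ha.2)
  linarith

lemma gam_ne (d : ℕ) (ε : ZMod d → ℚ) (u : (ZMod d)ˣ) : ((gam d ε u : ℝ) : ℂ) ≠ 0 :=
  Complex.ofReal_ne_zero.mpr (gam_pos d ε u).ne'

lemma cond_spec {F : IntermediateField ℚ ℂ} (h : AbelianField F) : 0 < cond F ∧ F ≤ ℚ⟮zt (cond F)⟯ :=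
  Nat.sInf_mem (s := {d : ℕ | 0 < d ∧ F ≤ ℚ⟮zt d⟯}) h

lemma cond_two_le {F : IntermediateField ℚ ℂ} (h : AbelianField F) (hi : ∃ x ∈ F, x.im ≠ 0) :
    2 ≤ cond F := by
  obtain ⟨h0, h1⟩ := cond_spec h
  by_contra hlt
  have h2 : cond F = 1 := by omega
  obtain ⟨x, hx, hxi⟩ := hi
  have h3 := h1 hx
  have h4 : zt 1 = 1 := by
    unfold zt
    rw [Nat.cast_one, div_one, Complex.exp_two_pi_mul_I]
  rw [h2, h4, IntermediateField.adjoin_one, IntermediateField.mem_bot] at h3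
  obtain ⟨q, rfl⟩ := h3
  apply hxi
  simp

/-- `L(2 π i) = L(π)`. -/
lemma log_two_pi {L : ℂ → ℚ} (hL : IsLog L) : L (2 * Real.pi * Complex.I) = L (Real.pi : ℂ) := by
  have hpi : (Real.pi : ℂ) ≠ 0 := Complex.ofReal_ne_zero.mpr Real.pi_ne_zero
  have h2 : (2 * Complex.I : ℂ) ≠ 0 := by simp
  have h3 : IsAlgebraic ℚ (2 * Complex.I : ℂ) := by
    refine IsAlgebraic.mul (by simpa using isAlgebraic_algebraMap (R := ℚ) (A := ℂ) (2 : ℚ)) ?_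
    exact Complex.isIntegral_rat_I.isAlgebraic
  rw [show (2 * Real.pi * Complex.I : ℂ) = (2 * Complex.I) * Real.pi by ring, hL.1 _ _ h2 hpi,
    hL.2 _ h2 h3, zero_add]

end Pool.Agent.T2H05.GD
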