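import Pool.Agent.T2H05.GD.Fin1

set_option autoImplicit false

open Finset IntermediateField CategoryTheory AlgebraicGeometry

universe v

namespace Pool.Agent.T2H05.GD

open Pool.Agent.H914 Pool.Agent.H914.VarClass
open Pool.Agent.H916R2 (OddDist SS saw)

variable {𝒱 : VarClass Qbar}

/-- The reference triple in all levels. -/
theorem refdata (hEX : S_EX) (hLIFT : S_LIFT) (hAD1 : S_AD1.{v}) (hAD2 : S_AD2.{v})
    (hPOL : S_POL.{v}) (hCY : S_CY) (hRES : S_RES) {T : PeriodData.{v} 𝒱} (hT : IsPeriodTheory T)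
    {F : IntermediateField ℚ ℂ} [FiniteDimensional ℚ F] (hF : CyclicImaginary F)
    {Y : 𝒱.Obj} {n : ℕ} {j : F →+ T.H Y n} {p : (F →ₐ[ℚ] ℂ) → ℕ} (hadm : Admissible T Y n F j p)
    (hGD : GDAt T j p (cond F)) :
    ∃ c : (F →ₐ[ℚ] ℂ) → ℂ, Adm T Y n F j p c ∧ ∀ N, cond F ∣ N → 0 < N → ∃ ε : ZMod N → ℚ,
      (∀ (u : (ZMod N)ˣ) (τ : F →ₐ[ℚ] ℂ), Restr N u τ →
        (N : ℚ) * p τ = ∑ a ∈ Ioo 0 N, ε a * (((u : ZMod N) * a).val : ℚ)) ∧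
      ∀ L, IsLog L → ∀ (u : (ZMod N)ˣ) (τ : F →ₐ[ℚ] ℂ), Restr N u τ →
        L (c τ) = L ((gam N ε u : ℝ) : ℂ) := by
  obtain ⟨hd0, hFd⟩ := cond_spec hF.1
  have hd2 := cond_two_le hF.1 hF.2.2
  set d := cond F with hd
  have : NeZero d := ⟨hd0.ne'⟩
  obtain ⟨c, hc⟩ := (hAD1 𝒱 T hT Y n F j p).mp hadm
  obtain ⟨-, res, hsurj, hres, hval, hconj⟩ := hCY d hd0 F hFd
  let P : (ZMod d)ˣ → ℚ := fun u => p (F.val.comp ((res u) : F →ₐ[ℚ] F))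
  have hPn : ∀ u, P u + P (-u) = n := by
    intro u
    have h1 := (hPOL 𝒱 T hT Y n F j p c hc (F.val.comp ((res u) : F →ₐ[ℚ] F))
      (F.val.comp ((res (-u)) : F →ₐ[ℚ] F)) (by
        intro x
        have h2 : res (-u) = res (-1) * res u := by rw [← map_mul]; simp
        rw [h2]
        exact hconj (res u x))).1
    show ((p _ : ℕ) : ℚ) + ((p _ : ℕ) : ℚ) = n
    exact_mod_cast h1
  obtain ⟨x, hx⟩ := hEX d hd2 P n hPn
  have hx' : ∀ (u : (ZMod d)ˣ) (σ : F →ₐ[ℚ] ℂ), Restr d u σ →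
      (d : ℚ) * p σ = ∑ a ∈ Ioo 0 d, x a * (((u : ZMod d) * a).val : ℚ) := by
    intro u σ hσ
    rw [(hres u σ).mp hσ]
    have := hx u
    rw [show ((p (F.val.comp ((res u) : F →ₐ[ℚ] F)) : ℕ) : ℚ) = P u from rfl, this,
      sum_Ioo_zmod d (fun a : ZMod d => x a * (((u : ZMod d) * a).val : ℚ)),
      ← Finset.add_sum_erase univ _ (mem_univ (0 : ZMod d))]
    simp
  refine ⟨c, hc, fun N hN hN0 => ?_⟩
  obtain ⟨ε, he1, he2⟩ := hLIFT d N hN hd0 hN0 x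
  have hRS := (hRES d N hN hN0 F hFd).2
  have hdq : (d : ℚ) ≠ 0 := Nat.cast_ne_zero.mpr hd0.ne'
  refine ⟨ε, fun u τ hτ => ?_, fun L hL u τ hτ => ?_⟩
  · rw [he1 u, ← hx' _ τ (hRS u τ hτ), ← mul_assoc]
    congr 1
    obtain ⟨e, rfl⟩ := hN
    rw [Nat.mul_div_cancel_left e hd0]
    push_cast
    ring
  · have h1 := hRS u τ hτ
    obtain ⟨hp1, P0, hP0⟩ := hAD2 𝒱 T hT Y n F j p c hc τ
    have h2 : Sim P0 (c τ) := hp1 P0 hP0
    have h3 := hGD x hx' _ τ h1 P0 hP0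
    rw [he2 u, ← hL.sim (hc.ne τ) h2, hL.sim (gam_ne _ _ _) h3]

end Pool.Agent.T2H05.GD
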