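import Pool.Agent.T2H05.GD.Fin2

set_option autoImplicit false

open Finset IntermediateField CategoryTheory AlgebraicGeometry

universe v

namespace Pool.Agent.T2H05.GD

open Pool.Agent.H914 Pool.Agent.H914.VarClass
open Pool.Agent.H916R2 (OddDist SS saw)

variable {𝒱 : VarClass Qbar}

private lemma sum_eq_zero_of_inv {G : Type*} [CommGroup G] [Fintype G] (χ : G →* ℂˣ) (φ : G → ℂ)
    (u0 : G) (h : χ u0 ≠ 1) (hφ : ∀ u, φ (u * u0) = φ u) : ∑ u, (χ u : ℂ) * φ u = 0 := by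
  have h1 : ∑ u, (χ u : ℂ) * φ u = (χ u0 : ℂ) * ∑ u, (χ u : ℂ) * φ u := by
    calc ∑ u, (χ u : ℂ) * φ u = ∑ u, (χ (u * u0) : ℂ) * φ (u * u0) :=
          (Equiv.sum_comp (Equiv.mulRight u0) (fun u => (χ u : ℂ) * φ u)).symm
      _ = _ := by
          rw [mul_sum]
          refine sum_congr rfl fun u _ => ?_
          rw [hφ, map_mul, Units.val_mul]
          ring
  have h2 : (1 - (χ u0 : ℂ)) * ∑ u, (χ u : ℂ) * φ u = 0 := by linear_combination h1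
  rcases mul_eq_zero.mp h2 with h3 | h3
  · exact absurd (Units.ext (by rw [Units.val_one]; linear_combination -h3)) h
  · exact h3

open scoped Classical in
private lemma norm_sum {G : Type*} [CommGroup G] [Fintype G] (χ : G →* ℂˣ) (φ : G → ℂ) :
    ∑ u, (χ u : ℂ) * ∑ w, (if χ w = 1 then φ (u * w) else 0) =
      (∑ w, if χ w = 1 then (1 : ℂ) else 0) * ∑ u, (χ u : ℂ) * φ u := by
  have h0 : ∑ u, (χ u : ℂ) * ∑ w, (if χ w = 1 then φ (u * w) else 0) =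
      ∑ w, ∑ u, (χ u : ℂ) * (if χ w = 1 then φ (u * w) else 0) := by
    rw [sum_comm]
    exact sum_congr rfl fun u _ => mul_sum _ _ _
  rw [h0, sum_mul]
  refine sum_congr rfl fun w _ => ?_
  by_cases hw : χ w = 1
  · simp only [hw, if_true]
    rw [one_mul, ← Equiv.sum_comp (Equiv.mulRight w) (fun u => (χ u : ℂ) * φ u)]
    refine sum_congr rfl fun u _ => ?_
    simp only [Equiv.coe_mulRight, map_mul, hw, mul_one]
  · simp [hw]

open scoped Classical in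
private lemma card_ne {G : Type*} [CommGroup G] [Fintype G] (χ : G →* ℂˣ) :
    (∑ w, if χ w = 1 then (1 : ℂ) else 0) ≠ 0 := by
  rw [Finset.sum_boole]
  have : 0 < (univ.filter fun w => χ w = 1).card := card_pos.mpr ⟨1, by simp⟩
  exact_mod_cast this.ne'

private lemma unitsMap_neg_one {d N : ℕ} (h : d ∣ N) : ZMod.unitsMap h (-1) = -1 := by
  ext
  simp [ZMod.unitsMap_def]

/-- The odd characters. -/
theorem odd_part (hKC : S_KC) (hD : S_DIST) (hG : S_GAM) (hEX : S_EX) (hLIFT : S_LIFT)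
    (hCONV : S_CONV) (hAD1 : S_AD1.{v}) (hAD2 : S_AD2.{v})
    (hPOL : S_POL.{v}) (hCY : S_CY) (hRES : S_RES) (hSUB : S_SUB) (hHC1 : S_HC1.{v})
    (hNRM : S_NRM.{v}) {T : PeriodData.{v} 𝒱} (hT : IsPeriodTheory T)
    (ref : ∀ F, CyclicImaginary F → Reference T F)
    (hr : ∀ F (hF : CyclicImaginary F), GDAt T (ref F hF).j (ref F hF).p (cond F))
    (hHP : HodgePeriods T) (d : ℕ) [NeZero d] (F : IntermediateField ℚ ℂ) [FiniteDimensional ℚ F]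
    (hFd : F ≤ ℚ⟮zt d⟯) (X : 𝒱.Obj) (m : ℕ) (j : F →+ T.H X m) (p : (F →ₐ[ℚ] ℂ) → ℕ)
    (c : (F →ₐ[ℚ] ℂ) → ℂ) (hA : Adm T X m F j p c) (pu : (ZMod d)ˣ → ℕ) (cu : (ZMod d)ˣ → ℂ)
    (hpc : ∀ u σ, Restr d u σ → pu u = p σ ∧ cu u = c σ) (ε : ZMod d → ℚ)
    (hε : ∀ u : (ZMod d)ˣ, (d : ℚ) * pu u = ∑ a ∈ Ioo 0 d, ε a * (((u : ZMod d) * a).val : ℚ))
    {L : ℂ → ℚ} (hL : IsLog L) (χ : (ZMod d)ˣ →* ℂˣ) (hχ : χ (-1) = -1) :
    ∑ u, (χ u : ℂ) * (L (cu u) : ℂ) = ∑ u, (χ u : ℂ) * (L ((gam d ε u : ℝ) : ℂ) : ℂ) := by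
  classical
  have hd0 : 0 < d := NeZero.pos d
  obtain ⟨-, res, hsurj, hres, hval, hconj⟩ := hCY d hd0 F hFd
  have hpu : ∀ u, pu u = p (F.val.comp ((res u) : F →ₐ[ℚ] F)) := fun u =>
    (hpc u _ ((hres u _).mpr rfl)).1
  have hcu : ∀ u, cu u = c (F.val.comp ((res u) : F →ₐ[ℚ] F)) := fun u =>
    (hpc u _ ((hres u _).mpr rfl)).2
  by_cases hfix : ∀ u, Restr d u F.val → χ u = 1
  swap
  · push Not at hfix
    obtain ⟨u0, hu0, hne⟩ := hfix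
    have h1 : res u0 = 1 := by
      refine AlgEquiv.ext fun x => Subtype.ext ?_
      exact (DFunLike.congr_fun ((hres u0 _).mp hu0) x).symm
    obtain ⟨κ, hκ⟩ := ari hKC hD hG hL d χ hχ
    rw [hκ ε (fun u => pu u) hε]
    rw [sum_eq_zero_of_inv χ (fun u => (L (cu u) : ℂ)) u0 hne (fun u => by
      simp only [hcu, map_mul, h1, mul_one]),
      sum_eq_zero_of_inv χ (fun u => ((pu u : ℚ) : ℂ)) u0 hne (fun u => by
      simp only [hpu, map_mul, h1, mul_one]), mul_zero]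
  -- the character cuts out a cyclic imaginary subfield
  obtain ⟨F', hle, hcyc, ψ, hψi, hψ⟩ := hSUB d hd0 F hFd χ hχ hfix
  have hF'd : F' ≤ ℚ⟮zt d⟯ := hle.trans hFd
  obtain ⟨hfd', resd, hsurjd, hresd, hvald, hconjd⟩ := hCY d hd0 F' hF'd
  have := hfd'
  obtain ⟨X', m', j', p', c', hA', hn'⟩ := hNRM 𝒱 T hT d F F' hFd hle χ ψ hψi hψ X m j p c hA pu cu
    hpc
  obtain ⟨hd0', hF'c⟩ := cond_spec hcyc.1
  set R := ref F' hcyc with hR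
  obtain ⟨c0, hA0, hN⟩ := refdata hEX hLIFT hAD1 hAD2 hPOL hCY hRES hT hcyc R.adm (hr F' hcyc)
  set N := d * cond F' with hNdef
  have hN0 : 0 < N := Nat.mul_pos hd0 hd0'
  have : NeZero N := ⟨hN0.ne'⟩
  have hdN : d ∣ N := dvd_mul_right _ _
  obtain ⟨ε0, hε0, hc0⟩ := hN N (dvd_mul_left _ _) hN0
  obtain ⟨hF'N, hRSd⟩ := hRES d N hdN hN0 F' hF'd
  obtain ⟨-, resN, hsurjN, hresN, -, -⟩ := hCY N hN0 F' hF'N
  have hψd : ∀ u, ψ (resd u) = χ u := fun u => hψ u _ ((hresd u _).mpr rfl)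
  have hψN : ∀ v, ψ (resN v) = χ (ZMod.unitsMap hdN v) := fun v =>
    hψ _ _ (hRSd v _ ((hresN v _).mpr rfl))
  have hcomm : ∀ s t : F' ≃ₐ[ℚ] F', s * t = t * s := by
    intro s t
    obtain ⟨a, rfl⟩ := hsurjd s
    obtain ⟨b, rfl⟩ := hsurjd t
    rw [← map_mul, ← map_mul, mul_comm]
  let _ : CommGroup (F' ≃ₐ[ℚ] F') := { (inferInstance : Group (F' ≃ₐ[ℚ] F')) with mul_comm := hcomm }
  have hψ1 : ψ ≠ 1 := by
    intro h
    have h1 := hψd (-1)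
    rw [h, hχ, MonoidHom.one_apply] at h1
    have h2 := congrArg Units.val h1
    simp only [Units.val_one, Units.val_neg] at h2
    norm_num at h2
  obtain ⟨C, hC⟩ := hHC1 𝒱 T hT hHP F' hcyc hcomm (resd (-1)) hconjd hvald X' R.Y m' R.n j' R.j p'
    R.p c' c0 hA' hA0 L hL
  have key := hCONV (F' ≃ₐ[ℚ] F') (fun t => (R.p (F'.val.comp (t : F' →ₐ[ℚ] F')) : ℂ))
    (fun g => (L (c0 (F'.val.comp (g : F' →ₐ[ℚ] F'))) : ℂ))
    (fun t => (p' (F'.val.comp (t : F' →ₐ[ℚ] F')) : ℂ))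
    (fun g => (L (c' (F'.val.comp (g : F' →ₐ[ℚ] F'))) : ℂ)) (C : ℂ) (fun g => by
      have h2 := congrArg (Rat.cast : ℚ → ℂ) (hC g)
      push_cast at h2
      exact h2) ψ hψ1
  have hnd := R.nondeg ψ hψi
  rw [finsum_eq_sum_of_fintype] at hnd
  -- level N
  have hχN : (χ.comp (ZMod.unitsMap hdN)) (-1) = -1 := by
    rw [MonoidHom.comp_apply, unitsMap_neg_one, hχ]
  obtain ⟨κ, hκ⟩ := ari hKC hD hG hL N (χ.comp (ZMod.unitsMap hdN)) hχN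
  -- the reference
  have e1 := hκ ε0 (fun v => R.p (F'.val.comp ((resN v) : F' →ₐ[ℚ] F')))
    (fun v => hε0 v _ ((hresN v _).mpr rfl))
  have e2 : ∑ v, ((χ.comp (ZMod.unitsMap hdN)) v : ℂ) * (L ((gam N ε0 v : ℝ) : ℂ) : ℂ) =
      (Nat.card resN.ker : ℂ) * ∑ g, (ψ g : ℂ) * (L (c0 (F'.val.comp (g : F' →ₐ[ℚ] F'))) : ℂ) := by
    rw [← sum_surj resN hsurjN (fun g => (ψ g : ℂ) * (L (c0 (F'.val.comp (g : F' →ₐ[ℚ] F'))) : ℂ))]
    refine sum_congr rfl fun v _ => ?_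
    rw [MonoidHom.comp_apply, ← hψN v, hc0 L hL v _ ((hresN v _).mpr rfl)]
  have e3 : ∑ v, ((χ.comp (ZMod.unitsMap hdN)) v : ℂ) *
      ((R.p (F'.val.comp ((resN v) : F' →ₐ[ℚ] F')) : ℚ) : ℂ) =
      (Nat.card resN.ker : ℂ) * ∑ g, (ψ g : ℂ) * (R.p (F'.val.comp (g : F' →ₐ[ℚ] F')) : ℂ) := by
    rw [← sum_surj resN hsurjN (fun g => (ψ g : ℂ) * (R.p (F'.val.comp (g : F' →ₐ[ℚ] F')) : ℂ))]
    refine sum_congr rfl fun v _ => ?_
    rw [MonoidHom.comp_apply, ← hψN v]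
    push_cast
    rfl
  have hk0 : (Nat.card resN.ker : ℂ) ≠ 0 := by
    exact_mod_cast (Nat.card_pos (α := resN.ker)).ne'
  rw [e2, e3] at e1
  have e4 : ∑ g, (ψ g : ℂ) * (L (c0 (F'.val.comp (g : F' →ₐ[ℚ] F'))) : ℂ) =
      κ * ∑ g, (ψ g : ℂ) * (R.p (F'.val.comp (g : F' →ₐ[ℚ] F')) : ℂ) :=
    mul_left_cancel₀ hk0 (by linear_combination e1)
  -- the given triple, gamma side
  obtain ⟨ε1, h11, h12⟩ := hLIFT d N hdN hd0 hN0 ε
  have f1 := hκ ε1 (fun v => pu (ZMod.unitsMap hdN v)) (fun v => by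
    rw [h11 v, ← hε, ← mul_assoc]
    congr 1
    rw [hNdef, Nat.mul_div_cancel_left _ hd0]
    push_cast
    ring)
  have hsu : Function.Surjective (ZMod.unitsMap hdN) := ZMod.unitsMap_surjective hdN
  have f2 : ∑ v, ((χ.comp (ZMod.unitsMap hdN)) v : ℂ) * (L ((gam N ε1 v : ℝ) : ℂ) : ℂ) =
      (Nat.card (ZMod.unitsMap hdN).ker : ℂ) * ∑ u, (χ u : ℂ) * (L ((gam d ε u : ℝ) : ℂ) : ℂ) := by
    rw [← sum_surj (ZMod.unitsMap hdN) hsu (fun u => (χ u : ℂ) * (L ((gam d ε u : ℝ) : ℂ) : ℂ))]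
    refine sum_congr rfl fun v _ => ?_
    rw [h12 v, MonoidHom.comp_apply]
  have f3 : ∑ v, ((χ.comp (ZMod.unitsMap hdN)) v : ℂ) * ((pu (ZMod.unitsMap hdN v) : ℚ) : ℂ) =
      (Nat.card (ZMod.unitsMap hdN).ker : ℂ) * ∑ u, (χ u : ℂ) * ((pu u : ℚ) : ℂ) := by
    rw [← sum_surj (ZMod.unitsMap hdN) hsu (fun u => (χ u : ℂ) * ((pu u : ℚ) : ℂ))]
    refine sum_congr rfl fun v _ => ?_
    rw [MonoidHom.comp_apply]
  have hk1 : (Nat.card (ZMod.unitsMap hdN).ker : ℂ) ≠ 0 := by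
    exact_mod_cast (Nat.card_pos (α := (ZMod.unitsMap hdN).ker)).ne'
  rw [f2, f3] at f1
  have f4 : ∑ u, (χ u : ℂ) * (L ((gam d ε u : ℝ) : ℂ) : ℂ) = κ * ∑ u, (χ u : ℂ) * ((pu u : ℚ) : ℂ) :=
    mul_left_cancel₀ hk1 (by linear_combination f1)
  -- the norm
  have hn : ∀ u : (ZMod d)ˣ,
      (p' (F'.val.comp ((resd u) : F' →ₐ[ℚ] F')) : ℂ) = ∑ w, (if χ w = 1 then ((pu (u * w) : ℚ) : ℂ) else 0) ∧
      (L (c' (F'.val.comp ((resd u) : F' →ₐ[ℚ] F'))) : ℂ) =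
        ∑ w, (if χ w = 1 then (L (cu (u * w)) : ℂ) else 0) := by
    intro u
    obtain ⟨h1, h2⟩ := hn' u _ ((hresd u _).mpr rfl)
    constructor
    · rw [h1, finsum_eq_sum_of_fintype]
      push_cast
      refine sum_congr rfl fun w _ => ?_
      rw [finsum_eq_if]
      split_ifs <;> simp
    · rw [h2, finprod_eq_prod_of_fintype]
      have h3 : ∀ w, cu w ≠ 0 := fun w => by rw [hcu]; exact hA.ne _
      rw [hL.prod univ _ (fun w _ => by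
        rw [finprod_eq_if]
        split_ifs
        · exact h3 _
        · exact one_ne_zero)]
      push_cast
      refine sum_congr rfl fun w _ => ?_
      rw [finprod_eq_if]
      split_ifs
      · rfl
      · rw [hL.one]; simp
  have g1 : ∑ u, (χ u : ℂ) * (L (c' (F'.val.comp ((resd u) : F' →ₐ[ℚ] F'))) : ℂ) =
      (∑ w, if χ w = 1 then (1 : ℂ) else 0) * ∑ u, (χ u : ℂ) * (L (cu u) : ℂ) := by
    rw [← norm_sum χ (fun u => (L (cu u) : ℂ))]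
    exact sum_congr rfl fun u _ => by rw [(hn u).2]
  have g2 : ∑ u, (χ u : ℂ) * (p' (F'.val.comp ((resd u) : F' →ₐ[ℚ] F')) : ℂ) =
      (∑ w, if χ w = 1 then (1 : ℂ) else 0) * ∑ u, (χ u : ℂ) * ((pu u : ℚ) : ℂ) := by
    rw [← norm_sum χ (fun u => ((pu u : ℚ) : ℂ))]
    exact sum_congr rfl fun u _ => by rw [(hn u).1]
  have g3 : ∑ u, (χ u : ℂ) * (L (c' (F'.val.comp ((resd u) : F' →ₐ[ℚ] F'))) : ℂ) =
      (Nat.card resd.ker : ℂ) * ∑ g, (ψ g : ℂ) * (L (c' (F'.val.comp (g : F' →ₐ[ℚ] F'))) : ℂ) := by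
    rw [← sum_surj resd hsurjd (fun g => (ψ g : ℂ) * (L (c' (F'.val.comp (g : F' →ₐ[ℚ] F'))) : ℂ))]
    exact sum_congr rfl fun u _ => by rw [hψd]
  have g4 : ∑ u, (χ u : ℂ) * (p' (F'.val.comp ((resd u) : F' →ₐ[ℚ] F')) : ℂ) =
      (Nat.card resd.ker : ℂ) * ∑ g, (ψ g : ℂ) * (p' (F'.val.comp (g : F' →ₐ[ℚ] F')) : ℂ) := by
    rw [← sum_surj resd hsurjd (fun g => (ψ g : ℂ) * (p' (F'.val.comp (g : F' →ₐ[ℚ] F')) : ℂ))]
    exact sum_congr rfl fun u _ => by rw [hψd]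
  have hk2 := card_ne χ
  rw [f4]
  rw [e4] at key
  have key2 : ∑ g, (ψ g : ℂ) * (L (c' (F'.val.comp (g : F' →ₐ[ℚ] F'))) : ℂ) =
      κ * ∑ g, (ψ g : ℂ) * (p' (F'.val.comp (g : F' →ₐ[ℚ] F')) : ℂ) :=
    mul_left_cancel₀ hnd (by linear_combination key)
  apply mul_left_cancel₀ hk2
  rw [← g1, g3, key2]
  linear_combination κ * (g2 - g4)

end Pool.Agent.T2H05.GD
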