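import Pool.Agent.T2H05.GD.Stm

/-!
# The conjecture and the statement on Hodge classes for one field
-/

set_option autoImplicit false

open CategoryTheory AlgebraicGeometry IntermediateField Finset

universe v

namespace Pool.Agent.T2H05.GD

open Pool.Agent.H914 Pool.Agent.H914.VarClass

variable {𝒱 : VarClass Qbar}

/-- The conjecture of Gross and Deligne for the admissible triples with the field `F`. -/
def GDFor (T : PeriodData.{v} 𝒱) (F : IntermediateField ℚ ℂ) : Prop :=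
  ∀ (X : 𝒱.Obj) (m : ℕ) (j : F →+ T.H X m) (p : (F →ₐ[ℚ] ℂ) → ℕ),
    Admissible T X m F j p → GDAt T j p (cond F)

/-- The statement on Hodge classes for the field `F`: if `H = j(F)` consists of Hodge classes and
the lines `H_σ` are spanned by de Rham classes, then the periods are `(2 π i) ^ k`, up to algebraic
factors. -/
def HodgeFor (T : PeriodData.{v} 𝒱) (F : IntermediateField ℚ ℂ) : Prop :=
  ∀ (X : 𝒱.Obj) (k : ℕ) (j : F →+ T.H X (2 * k)), Admissible T X (2 * k) F j (fun _ => k) →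
    ∀ σ P, IsPeriod T j σ P → Sim P ((2 * Real.pi * Complex.I) ^ k)

/-- The package HC1 for one field. -/
def S_HC1L : Prop := ∀ (𝒱 : VarClass Qbar) (T : PeriodData.{v} 𝒱), IsPeriodTheory T →
  ∀ (F : IntermediateField ℚ ℂ) [FiniteDimensional ℚ F], HodgeFor T F →
  (∀ s t : F ≃ₐ[ℚ] F, s * t = t * s) →
  ∀ κ : F ≃ₐ[ℚ] F, (∀ x : F, ((κ x : F) : ℂ) = (starRingEnd ℂ) (x : ℂ)) →
  (∀ σ : F →ₐ[ℚ] ℂ, ∃ s : F ≃ₐ[ℚ] F, σ = F.val.comp (s : F →ₐ[ℚ] F)) →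
  ∀ (X Y : 𝒱.Obj) (m n : ℕ) (j : F →+ T.H X m) (j₀ : F →+ T.H Y n)
    (p p₀ : (F →ₐ[ℚ] ℂ) → ℕ) (c c₀ : (F →ₐ[ℚ] ℂ) → ℂ),
    Adm T X m F j p c → Adm T Y n F j₀ p₀ c₀ → ∀ L, IsLog L →
    ∃ C : ℚ, ∀ g : F ≃ₐ[ℚ] F,
      ∑ t : F ≃ₐ[ℚ] F, (p₀ (F.val.comp (t : F →ₐ[ℚ] F)) : ℚ) *
          L (c (F.val.comp ((g * t⁻¹ : F ≃ₐ[ℚ] F) : F →ₐ[ℚ] F))) -
        ∑ t : F ≃ₐ[ℚ] F, (p (F.val.comp (t : F →ₐ[ℚ] F)) : ℚ) *
          L (c₀ (F.val.comp ((g * t⁻¹ : F ≃ₐ[ℚ] F) : F →ₐ[ℚ] F))) = C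

end Pool.Agent.T2H05.GD
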