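import Pool.Agent.T2H05.GD.EndStm

/-! # Package MAT of project GE: the matrix of an endomorphism -/

set_option autoImplicit false

open CategoryTheory AlgebraicGeometry IntermediateField Finset

universe v

namespace Pool.Agent.T2H05.GD

open Pool.Agent.H914 Pool.Agent.H914.VarClass

private lemma gmat_coef (F : IntermediateField ℚ ℂ) [FiniteDimensional ℚ F] (φ : F →+ F)
    (τ : F →ₐ[ℚ] ℂ) (y : F) : τ (φ y) = ∑ σ : F →ₐ[ℚ] ℂ, σ y * AA φ σ τ := by
  have h := (aDU.{0} F).2 ℂ ((τ : F →+* ℂ).toAddMonoidHom.comp φ) y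
  have h1 : ((τ : F →+* ℂ).toAddMonoidHom.comp φ) y = τ (φ y) := rfl
  rw [h1] at h
  rw [h]
  rfl

theorem gMAT : G_MAT.{v} := by
  intro F _ E _ _ j φ n z x
  have h1 : ∀ i, z i • j (φ (x i)) =
      ∑ τ : F →ₐ[ℚ] ℂ, (z i * ∑ σ : F →ₐ[ℚ] ℂ, σ (x i) * AA φ σ τ) • vv j τ := by
    intro i
    rw [(aDU.{v} F).2 E j (φ (x i)), Finset.smul_sum]
    refine Finset.sum_congr rfl fun τ _ => ?_
    rw [smul_smul, gmat_coef F φ τ (x i)]
  rw [Finset.sum_congr rfl fun i _ => h1 i, Finset.sum_comm]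
  refine Finset.sum_congr rfl fun τ _ => ?_
  rw [← Finset.sum_smul]
  congr 1
  simp only [Finset.mul_sum]
  rw [Finset.sum_comm]
  refine Finset.sum_congr rfl fun σ _ => Finset.sum_congr rfl fun i _ => ?_
  ring

end Pool.Agent.T2H05.GD
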