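import Pool.Agent.T2H05.GD.OneStm

/-! Package DSC: descent to subfields. -/

set_option autoImplicit false

open CategoryTheory AlgebraicGeometry IntermediateField Finset

universe v

namespace Pool.Agent.T2H05.GD

open Pool.Agent.H914 Pool.Agent.H914.VarClass

private lemma restr_incl {N : ℕ} {F K : IntermediateField ℚ ℂ} (h : F ≤ K) {w : (ZMod N)ˣ}
    {σ : K →ₐ[ℚ] ℂ} (hσ : Restr N w σ) : Restr N w (σ.comp (IntermediateField.inclusion h)) := by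
  obtain ⟨τ, h1, h2⟩ := hσ
  exact ⟨τ, h1, fun x hx hx' => h2 x (h hx) hx'⟩

theorem kDSC (hTENF : S_TENF.{v}) (hUNL : S_UNL) : S_DSC.{v} := by
  intro 𝒱 T hT K hK him ht hGD F hFK X m j p hadm ε hε lam0 σ0 hσ0 P hP
  obtain ⟨t⟩ := ht
  obtain ⟨hK0, hKd⟩ := cond_spec hK
  have hF : AbelianField F := ⟨cond K, hK0, hFK.trans hKd⟩
  obtain ⟨hF0, hFd⟩ := cond_spec hF
  have : NeZero (cond K) := ⟨hK0.ne'⟩
  have : NeZero (cond F) := ⟨hF0.ne'⟩
  have hN : 0 < cond K * cond F := Nat.mul_pos hK0 hF0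
  have : NeZero (cond K * cond F) := ⟨hN.ne'⟩
  have hKN : cond K ∣ cond K * cond F := Dvd.intro _ rfl
  have hFN : cond F ∣ cond K * cond F := Dvd.intro_left _ rfl
  obtain ⟨hKle, hKres⟩ := aRES (cond K) (cond K * cond F) hKN hN K hKd
  obtain ⟨hFle, hFres⟩ := aRES (cond F) (cond K * cond F) hFN hN F hFd
  obtain ⟨hfdK, resK, hsK, hrK, hvK, hcK⟩ := aCY (cond K * cond F) hN K hKle
  obtain ⟨hfdF, resF, hsF, hrF, hvF, hcF⟩ := aCY (cond K * cond F) hN F hFle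
  obtain ⟨-, resf, hsf, hrf, hvf, hcf⟩ := aCY (cond F) hF0 F hFd
  have := hfdK
  have := hfdF
  obtain ⟨c, hA⟩ := (aAD1 𝒱 T hT X m F j p).mp hadm
  obtain ⟨c0, hA0⟩ := (aAD1 𝒱 T hT t.X t.m K t.j t.p).mp t.adm
  obtain ⟨εt, hεt⟩ := exists_eps hT hK him hA0
  obtain ⟨j2, hA2⟩ := hTENF 𝒱 T hT X t.X m t.m F K hFK j t.j p t.p c c0 hA hA0
  obtain ⟨εr, hεr⟩ := exists_eps hT hK him hA2
  -- the restrictions
  have hkey : ∀ w : (ZMod (cond K * cond F))ˣ,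
      (K.val.comp ((resK w) : K →ₐ[ℚ] K)).comp (IntermediateField.inclusion hFK) =
        F.val.comp ((resF w) : F →ₐ[ℚ] F) := by
    intro w
    exact (hrF w _).mp (restr_incl hFK ((hrK w _).mpr rfl))
  obtain ⟨w, hw⟩ := ZMod.unitsMap_surjective hFN lam0
  have hσ : σ0 = (K.val.comp ((resK w) : K →ₐ[ℚ] K)).comp (IntermediateField.inclusion hFK) := by
    rw [hkey]
    have h1 := hFres w _ ((hrF w _).mpr rfl)
    rw [hw] at h1
    rw [(hrf lam0 σ0).mp hσ0, ← (hrf lam0 _).mp h1]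
  obtain ⟨σK, hσK⟩ : ∃ σK : K →ₐ[ℚ] ℂ, σK = K.val.comp ((resK w) : K →ₐ[ℚ] K) := ⟨_, rfl⟩
  rw [← hσK] at hσ
  have hRK : Restr (cond K) (ZMod.unitsMap hKN w) σK := hKres w σK ((hrK w σK).mpr hσK)
  refine ((aAD2 𝒱 T hT X m F j p c hA σ0).1 P hP).trans ?_
  refine aSEP _ _ (hA.ne σ0) (gam_ne _ _ _) fun L hL => ?_
  -- the numbers of `t`
  have e1 : L (c0 σK) = L ((gam (cond K) εt (ZMod.unitsMap hKN w) : ℝ) : ℂ) := by
    obtain ⟨h3, P2, hP2⟩ := aAD2 𝒱 T hT _ _ K _ _ _ hA0 σK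
    have h4 := hGD t.X t.m t.j t.p t.adm εt hεt _ σK hRK P2 hP2
    rw [← hL.sim (hA0.ne σK) (h3 P2 hP2), hL.sim (gam_ne _ _ _) h4]
  have e2 : L (c σ0) + L (c0 σK) = L ((gam (cond K) εr (ZMod.unitsMap hKN w) : ℝ) : ℂ) := by
    obtain ⟨h3, P2, hP2⟩ := aAD2 𝒱 T hT _ _ K _ _ _ hA2 σK
    have h4 := hGD _ _ j2 _ ((aAD1 𝒱 T hT _ _ K j2 _).mpr ⟨_, hA2⟩) εr hεr _ σK hRK P2 hP2
    have h5 : L P2 = L (c (σK.comp (IntermediateField.inclusion hFK)) * c0 σK) :=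
      hL.sim (hA2.ne σK) (h3 P2 hP2)
    have h6 : L (c (σK.comp (IntermediateField.inclusion hFK)) * c0 σK) =
        L (c (σK.comp (IntermediateField.inclusion hFK))) + L (c0 σK) :=
      hL.1 _ _ (hA.ne _) (hA0.ne σK)
    have h7 : L (c σ0) = L (c (σK.comp (IntermediateField.inclusion hFK))) :=
      congrArg (fun s => L (c s)) hσ
    have h8 := hL.sim (gam_ne (cond K) εr (ZMod.unitsMap hKN w)) h4
    linarith
  have e3 := gam_lin hL (cond K) εr εt (-1) (ZMod.unitsMap hKN w)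
  have e4 : L (c σ0) =
      L ((gam (cond K) (fun a => εr a + (-1) * εt a) (ZMod.unitsMap hKN w) : ℝ) : ℂ) := by
    rw [e3]
    linarith
  -- comparison of the levels
  have e5 := hUNL L hL (cond K) (cond F) (cond K * cond F) hKN hFN hK0 hF0 hN
    (fun a => εr a + (-1) * εt a) ε (fun w => (p (F.val.comp ((resF w) : F →ₐ[ℚ] F)) : ℚ)) (m : ℚ)
    (fun w => by
      have hR := hKres w _ ((hrK w _).mpr rfl)
      have h1 := hεr _ _ hR
      have h2 := hεt _ _ hR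
      have h1' : (cond K : ℚ) * ((p (F.val.comp ((resF w) : F →ₐ[ℚ] F)) +
          t.p (K.val.comp ((resK w) : K →ₐ[ℚ] K)) : ℕ) : ℚ) =
          ∑ a ∈ Ioo 0 (cond K), εr (a : ZMod (cond K)) *
            (((ZMod.unitsMap hKN w : (ZMod (cond K))ˣ) : ZMod (cond K)) * (a : ZMod (cond K))).val := by
        rw [← hkey w]
        exact h1
      rw [Nat.cast_add] at h1'
      have h3 : (cond K : ℚ) * (p (F.val.comp ((resF w) : F →ₐ[ℚ] F)) : ℚ) =
          (cond K : ℚ) * ((p (F.val.comp ((resF w) : F →ₐ[ℚ] F)) : ℚ) +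
            (t.p (K.val.comp ((resK w) : K →ₐ[ℚ] K)) : ℚ)) -
          (cond K : ℚ) * (t.p (K.val.comp ((resK w) : K →ₐ[ℚ] K)) : ℚ) := by ring
      show (cond K : ℚ) * (p (F.val.comp ((resF w) : F →ₐ[ℚ] F)) : ℚ) = _
      rw [h3, h1', h2, ← sum_sub_distrib]
      exact sum_congr rfl fun a _ => by ring)
    (fun w => hε _ _ (hFres w _ ((hrF w _).mpr rfl)))
    (fun w => by
      have h1 := (aPOL 𝒱 T hT X m F j p c hA (F.val.comp ((resF w) : F →ₐ[ℚ] F))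
        (F.val.comp ((resF (-w)) : F →ₐ[ℚ] F)) (by
          intro x
          have h2 : resF (-w) = resF (-1) * resF w := by rw [← map_mul]; simp
          rw [h2]
          exact hcF (resF w x))).1
      show ((p _ : ℕ) : ℚ) + ((p _ : ℕ) : ℚ) = m
      exact_mod_cast h1) w
  rw [e4, e5, hw]

end Pool.Agent.T2H05.GD
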