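import Pool.Agent.T2H05.GD.OneStm

set_option autoImplicit false

open Finset IntermediateField CategoryTheory AlgebraicGeometry

universe v

namespace Pool.Agent.T2H05.GD

open Pool.Agent.H914 Pool.Agent.H914.VarClass
open Pool.Agent.H916R2 (OddDist SS saw)

private lemma odk_inv {G : Type*} [CommGroup G] [Fintype G] (χ : G →* ℂˣ) (φ : G → ℂ)
    (u0 : G) (h : χ u0 ≠ 1) (hφ : ∀ u, φ (u * u0) = φ u) : ∑ u, (χ u : ℂ) * φ u = 0 := by
  have h1 : ∑ u, (χ u : ℂ) * φ u = (χ u0 : ℂ) * ∑ u, (χ u : ℂ) * φ u := by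
    calc ∑ u, (χ u : ℂ) * φ u = ∑ u, (χ (u * u0) : ℂ) * φ (u * u0) :=
          (Equiv.sum_comp (Equiv.mulRight u0) (fun u => (χ u : ℂ) * φ u)).symm
      _ = _ := by
          rw [mul_sum]
          refine sum_congr rfl fun u _ => ?_
          rw [hφ, map_mul, Units.val_mul]
          ring
  have h2 : (1 - (χ u0 : ℂ)) * ∑ u, (χ u : ℂ) * φ u = 0 := by linear_combination h1
  rcases mul_eq_zero.mp h2 with h3 | h3
  · exact absurd (Units.ext (by rw [Units.val_one]; linear_combination -h3)) h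
  · exact h3

theorem kODK : S_ODK.{v} := by
  classical
  intro 𝒱 T hT K hK him R hRGD hHK X m j p hadm
  obtain ⟨hd0, hFd⟩ := cond_spec hK
  obtain ⟨hfd, res, hsurj, hres, hval, hconj⟩ := aCY (cond K) hd0 K hFd
  have := hfd
  obtain ⟨c, hA⟩ := (aAD1 𝒱 T hT X m K j p).mp hadm
  obtain ⟨c0, hA0⟩ := (aAD1 𝒱 T hT R.X R.m K R.j R.p).mp R.adm
  obtain ⟨εR, hεR⟩ := exists_eps hT hK him hA0
  have hRGD' : GDAt T R.j R.p (cond K) := hRGD
  generalize cond K = d at hd0 hFd res hsurj hres hval hconj εR hεR hRGD' ⊢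
  have : NeZero d := ⟨hd0.ne'⟩
  intro ε hε lam σ hσ P hP
  refine ((aAD2 𝒱 T hT X m K j p c hA σ).1 P hP).trans ?_
  refine aSEP _ _ (hA.ne σ) (gam_ne _ _ _) fun L hL => ?_
  let pu : (ZMod d)ˣ → ℕ := fun u => p (K.val.comp ((res u) : K →ₐ[ℚ] K))
  let cu : (ZMod d)ˣ → ℂ := fun u => c (K.val.comp ((res u) : K →ₐ[ℚ] K))
  have hε' : ∀ u : (ZMod d)ˣ, (d : ℚ) * pu u =
      ∑ a ∈ Ioo 0 d, ε a * (((u : ZMod d) * a).val : ℚ) := fun u =>
    hε u _ ((hres u _).mpr rfl)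
  have hc0 : ∀ u : (ZMod d)ˣ, L (c0 (K.val.comp ((res u) : K →ₐ[ℚ] K))) =
      L ((gam d εR u : ℝ) : ℂ) := by
    intro u
    obtain ⟨hp1, P0, hP0⟩ := aAD2 𝒱 T hT R.X R.m K R.j R.p c0 hA0 (K.val.comp ((res u) : K →ₐ[ℚ] K))
    have h2 := hp1 P0 hP0
    have h3 := hRGD' εR hεR u _ ((hres u _).mpr rfl) P0 hP0
    rw [← hL.sim (hA0.ne _) h2, hL.sim (gam_ne _ _ _) h3]
  have hpol : ∀ u : (ZMod d)ˣ, pu u + pu (-u) = m ∧
      Sim (cu u * cu (-u)) ((2 * Real.pi * Complex.I) ^ m) := fun u =>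
    aPOL 𝒱 T hT X m K j p c hA _ _ (by
      intro x
      have h2 : res (-u) = res (-1) * res u := by rw [← map_mul]; simp
      rw [h2]
      exact hconj (res u x))
  have hpi : (2 * Real.pi * Complex.I : ℂ) ≠ 0 := Complex.two_pi_I_ne_zero
  have hcomm : ∀ s t : K ≃ₐ[ℚ] K, s * t = t * s := by
    intro s t
    obtain ⟨a, rfl⟩ := hsurj s
    obtain ⟨b, rfl⟩ := hsurj t
    rw [← map_mul, ← map_mul, mul_comm]
  have hodd : ∀ χ : (ZMod d)ˣ →* ℂˣ, χ (-1) = -1 →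
      ∑ u, (χ u : ℂ) * (L (cu u) : ℂ) = ∑ u, (χ u : ℂ) * (L ((gam d ε u : ℝ) : ℂ) : ℂ) := by
    intro χ hχ
    obtain ⟨κ, hκ⟩ := ari aKC aDIST aGAM hL d χ hχ
    by_cases hfix : ∀ u, res u = 1 → χ u = 1
    swap
    · push Not at hfix
      obtain ⟨u0, h1, hne⟩ := hfix
      rw [hκ ε (fun u => pu u) hε']
      rw [odk_inv χ (fun u => (L (cu u) : ℂ)) u0 hne (fun u => by
        simp only [cu, map_mul, h1, mul_one]),
        odk_inv χ (fun u => ((pu u : ℚ) : ℂ)) u0 hne (fun u => by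
        simp only [pu, map_mul, h1, mul_one]), mul_zero]
    let _ : CommGroup (K ≃ₐ[ℚ] K) := { (inferInstance : Group (K ≃ₐ[ℚ] K)) with mul_comm := hcomm }
    let ψ : (K ≃ₐ[ℚ] K) →* ℂˣ := res.liftOfSurjective hsurj ⟨χ, fun u hu => hfix u hu⟩
    have hψ : ∀ u, ψ (res u) = χ u := fun u =>
      MonoidHom.liftOfRightInverse_comp_apply res _ _ ⟨χ, fun u hu => hfix u hu⟩ u
    have hψ1 : ψ ≠ 1 := by
      intro h
      have h1 := hψ (-1)
      rw [h, hχ, MonoidHom.one_apply] at h1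
      have h2 := congrArg Units.val h1
      simp only [Units.val_one, Units.val_neg] at h2
      norm_num at h2
    obtain ⟨C, hC⟩ := aHC1L 𝒱 T hT K hHK hcomm (res (-1)) hconj hval X R.X m R.m j R.j p
      R.p c c0 hA hA0 L hL
    have key := aCONV (K ≃ₐ[ℚ] K) (fun t => (R.p (K.val.comp (t : K →ₐ[ℚ] K)) : ℂ))
      (fun g => (L (c0 (K.val.comp (g : K →ₐ[ℚ] K))) : ℂ))
      (fun t => (p (K.val.comp (t : K →ₐ[ℚ] K)) : ℂ))
      (fun g => (L (c (K.val.comp (g : K →ₐ[ℚ] K))) : ℂ)) (C : ℂ) (fun g => by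
        have h2 := congrArg (Rat.cast : ℚ → ℂ) (hC g)
        push_cast at h2
        exact h2) ψ hψ1
    have hnd := R.nondeg ψ (fun κ' hκ' => by
      have h1 : κ' = res (-1) := by
        refine AlgEquiv.ext fun x => Subtype.ext ?_
        rw [hκ', hconj]
      rw [h1, hψ, hχ])
    rw [finsum_eq_sum_of_fintype] at hnd
    have hk0 : (Nat.card res.ker : ℂ) ≠ 0 := by
      exact_mod_cast (Nat.card_pos (α := res.ker)).ne'
    have hs : ∀ f : (K ≃ₐ[ℚ] K) → ℂ, ∑ u, (χ u : ℂ) * f (res u) =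
        (Nat.card res.ker : ℂ) * ∑ g, (ψ g : ℂ) * f g := by
      intro f
      rw [← sum_surj res hsurj (fun g => (ψ g : ℂ) * f g)]
      exact sum_congr rfl fun u _ => by rw [hψ]
    -- the reference
    have e1 := hκ εR (fun u => R.p (K.val.comp ((res u) : K →ₐ[ℚ] K)))
      (fun u => hεR u _ ((hres u _).mpr rfl))
    have e2 : ∑ u, (χ u : ℂ) * (L ((gam d εR u : ℝ) : ℂ) : ℂ) =
        (Nat.card res.ker : ℂ) * ∑ g, (ψ g : ℂ) * (L (c0 (K.val.comp (g : K →ₐ[ℚ] K))) : ℂ) := by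
      rw [← hs (fun g => (L (c0 (K.val.comp (g : K →ₐ[ℚ] K))) : ℂ))]
      exact sum_congr rfl fun u _ => by rw [← hc0 u]
    have e3 : ∑ u, (χ u : ℂ) * ((R.p (K.val.comp ((res u) : K →ₐ[ℚ] K)) : ℚ) : ℂ) =
        (Nat.card res.ker : ℂ) * ∑ g, (ψ g : ℂ) * (R.p (K.val.comp (g : K →ₐ[ℚ] K)) : ℂ) := by
      rw [← hs (fun g => (R.p (K.val.comp (g : K →ₐ[ℚ] K)) : ℂ))]
      exact sum_congr rfl fun u _ => by push_cast; rfl
    rw [e2, e3] at e1
    have e4 : ∑ g, (ψ g : ℂ) * (L (c0 (K.val.comp (g : K →ₐ[ℚ] K))) : ℂ) =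
        κ * ∑ g, (ψ g : ℂ) * (R.p (K.val.comp (g : K →ₐ[ℚ] K)) : ℂ) :=
      mul_left_cancel₀ hk0 (by linear_combination e1)
    -- the given triple
    have f1 := hκ ε (fun u => pu u) hε'
    have f3 : ∑ u, (χ u : ℂ) * ((pu u : ℚ) : ℂ) =
        (Nat.card res.ker : ℂ) * ∑ g, (ψ g : ℂ) * (p (K.val.comp (g : K →ₐ[ℚ] K)) : ℂ) := by
      rw [← hs (fun g => (p (K.val.comp (g : K →ₐ[ℚ] K)) : ℂ))]
      exact sum_congr rfl fun u _ => by push_cast; rfl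
    rw [f1, f3, hs (fun g => (L (c (K.val.comp (g : K →ₐ[ℚ] K))) : ℂ))]
    rw [e4] at key
    have key2 : ∑ g, (ψ g : ℂ) * (L (c (K.val.comp (g : K →ₐ[ℚ] K))) : ℂ) =
        κ * ∑ g, (ψ g : ℂ) * (p (K.val.comp (g : K →ₐ[ℚ] K)) : ℂ) :=
      mul_left_cancel₀ hnd (by linear_combination key)
    rw [key2]
    ring
  have hall := aCHI (ZMod d)ˣ (fun u => (L (cu u) : ℂ) - (L ((gam d ε u : ℝ) : ℂ) : ℂ)) (by
    intro χ
    by_cases hχ : χ (-1) = -1
    · simp only [mul_sub, sum_sub_distrib]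
      rw [hodd χ hχ, sub_self]
    · have hχ1 : χ (-1) = 1 := by
        have h1 : χ (-1) * χ (-1) = 1 := by rw [← map_mul]; simp
        have h2 : ((χ (-1) : ℂˣ) : ℂ) * (χ (-1) : ℂˣ) = 1 := by rw [← Units.val_mul, h1, Units.val_one]
        rcases mul_self_eq_one_iff.mp h2 with h3 | h3
        · exact Units.ext h3
        · exact absurd (Units.ext (by rw [h3]; simp)) hχ
      have hodd : ∀ u, ((L (cu (-u)) : ℂ) - (L ((gam d ε (-u) : ℝ) : ℂ) : ℂ)) =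
          - ((L (cu u) : ℂ) - (L ((gam d ε u : ℝ) : ℂ) : ℂ)) := by
        intro u
        have h1 := evn aDIST aGAM hL d ε (fun u => pu u) m hε' (fun u => by exact_mod_cast (hpol u).1) u
        have h2 := hL.sim (pow_ne_zero m hpi) (hpol u).2
        rw [hL.1 _ _ (hA.ne _) (hA.ne _), hL.pow hpi, log_two_pi hL] at h2
        have h3 : L (cu (-u)) - L ((gam d ε (-u) : ℝ) : ℂ) =
            - (L (cu u) - L ((gam d ε u : ℝ) : ℂ)) := by linarith
        exact_mod_cast h3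
      have h1 : ∑ u, (χ u : ℂ) * ((L (cu u) : ℂ) - (L ((gam d ε u : ℝ) : ℂ) : ℂ)) =
          - ∑ u, (χ u : ℂ) * ((L (cu u) : ℂ) - (L ((gam d ε u : ℝ) : ℂ) : ℂ)) := by
        calc ∑ u, (χ u : ℂ) * ((L (cu u) : ℂ) - (L ((gam d ε u : ℝ) : ℂ) : ℂ))
            = ∑ u, (χ (-u) : ℂ) * ((L (cu (-u)) : ℂ) - (L ((gam d ε (-u) : ℝ) : ℂ) : ℂ)) :=
              (Equiv.sum_comp (Equiv.neg (ZMod d)ˣ) (fun u =>
                (χ u : ℂ) * ((L (cu u) : ℂ) - (L ((gam d ε u : ℝ) : ℂ) : ℂ)))).symm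
          _ = _ := by
              rw [← sum_neg_distrib]
              refine sum_congr rfl fun u _ => ?_
              have : χ (-u) = χ u := by
                rw [show (-u : (ZMod d)ˣ) = -1 * u by simp, map_mul, hχ1, one_mul]
              rw [hodd, this]
              ring
      have h2 : (2 : ℂ) * ∑ u, (χ u : ℂ) * ((L (cu u) : ℂ) - (L ((gam d ε u : ℝ) : ℂ) : ℂ)) = 0 := by
        linear_combination h1
      simpa using h2) lam
  have h1 : cu lam = c σ := by rw [(hres lam σ).mp hσ]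
  rw [← h1]
  have h2 : (L (cu lam) : ℂ) = (L ((gam d ε lam : ℝ) : ℂ) : ℂ) := sub_eq_zero.mp hall
  exact_mod_cast h2

end Pool.Agent.T2H05.GD
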