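import Pool.Agent.T2H05.GD.Defs

/-!
# Triples, series of triples and generators
-/

set_option autoImplicit false

open CategoryTheory AlgebraicGeometry IntermediateField

universe v

namespace Pool.Agent.T2H05.GD

open Pool.Agent.H914 Pool.Agent.H914.VarClass

variable {𝒱 : VarClass Qbar}

/-- An admissible triple `(H, F, ι)` with the field `F`. -/
structure Triple (T : PeriodData.{v} 𝒱) (F : IntermediateField ℚ ℂ) where
  /-- the variety -/
  X : 𝒱.Obj
  /-- the degree -/
  m : ℕ
  /-- the triple -/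
  j : F →+ T.H X m
  /-- the type -/
  p : (F →ₐ[ℚ] ℂ) → ℕ
  adm : Admissible T X m F j p

/-- The relation of Gross and Deligne holds for the triple. -/
def Triple.GD {T : PeriodData.{v} 𝒱} {F : IntermediateField ℚ ℂ} (t : Triple T F) : Prop :=
  GDAt T t.j t.p (cond F)

/-- A series of triples on the varieties `X, X × Y, X × Y × Y, …` (`X` the variety of `t`, `Y` the
variety of `h`), with the types of `t ⊗ h ⊗ … ⊗ h`, at most one of which satisfies the relation of
Gross and Deligne. -/
def Series {T : PeriodData.{v} 𝒱} {F : IntermediateField ℚ ℂ} (h t : Triple T F) : Prop :=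
  ∃ s : ℕ → Triple T F, s 0 = t ∧
    (∀ n, (s (n + 1)).X = (s n).X.prod h.X ∧ (s (n + 1)).m = (s n).m + h.m ∧
      ∀ σ, (s (n + 1)).p σ = (s n).p σ + h.p σ) ∧
    {n | (s n).GD}.Subsingleton

/-- A triple with the field `K` whose type is not orthogonal to the odd characters of the Galois
group: those with the value `-1` at complex conjugation `κ`. -/
structure Generator (T : PeriodData.{v} 𝒱) (K : IntermediateField ℚ ℂ) extends Triple T K where
  nondeg : ∀ ψ : (K ≃ₐ[ℚ] K) →* ℂˣ,
    (∀ κ : K ≃ₐ[ℚ] K, (∀ x : K, ((κ x : K) : ℂ) = (starRingEnd ℂ) (x : ℂ)) → ψ κ = -1) →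
    ∑ᶠ s : K ≃ₐ[ℚ] K, (ψ s : ℂ) * p (K.val.comp (s : K →ₐ[ℚ] K)) ≠ 0

end Pool.Agent.T2H05.GD
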