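import Pool.Agent.T2H05.GD.K_ODK

set_option autoImplicit false

open Finset IntermediateField CategoryTheory AlgebraicGeometry

universe v

namespace Pool.Agent.T2H05.GD

open Pool.Agent.H914 Pool.Agent.H914.VarClass

theorem const_of_GD' {𝒱 : VarClass Qbar} {T : PeriodData.{v} 𝒱} {K : IntermediateField ℚ ℂ}
    (hK : AbelianField K) (him : ∃ x ∈ K, x.im ≠ 0)
    {X : 𝒱.Obj} {k : ℕ} {j : K →+ T.H X (2 * k)}
    (h : GDAt T j (fun _ => k) (cond K)) (σ : K →ₐ[ℚ] ℂ) (P : ℂ) (hP : IsPeriod T j σ P) :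
    Sim P ((2 * Real.pi * Complex.I) ^ k) := by
  obtain ⟨hd0, hFd⟩ := cond_spec hK
  obtain ⟨-, res, hsurj, hres, hval, hconj⟩ := aCY (cond K) hd0 K hFd
  obtain ⟨ε, h1, h2⟩ := aCONST (cond K) k (cond_two_le hK him)
  obtain ⟨s, hs⟩ := hval σ
  obtain ⟨lam, rfl⟩ := hsurj s
  exact (h ε (fun u σ _ => h1 u) lam σ ((hres lam σ).mpr hs) P hP).trans (h2 lam)

theorem oneMain (hHDK : S_HDK.{v}) (hDSC : S_DSC.{v}) {𝒱 : VarClass Qbar} (T : PeriodData.{v} 𝒱)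
    (hT : IsPeriodTheory T) (K : IntermediateField ℚ ℂ) (hK : AbelianField K)
    (him : ∃ x ∈ K, x.im ≠ 0) (R : Generator T K) :
    List.TFAE [∀ F, F ≤ K → GDFor T F, GDFor T K, GDType T K R.p,
      R.toTriple.GD ∧ HodgeFor T K, R.toTriple.GD ∧ ∃ t : Triple T K, GDType T K t.p,
      R.toTriple.GD ∧ ∀ (h : Triple T K) (k : ℕ), h.p = (fun _ => k) → ∃ t, ¬ Series h t] := by
  tfae_have 1 → 2 := fun h => h K le_rfl
  tfae_have 2 → 3 := fun h X m k j hadm => h X m j _ hadm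
  tfae_have 3 → 5 := fun h => ⟨h _ _ 0 _ R.adm, R.toTriple, h⟩
  tfae_have 5 → 4 := fun ⟨h1, t, ht⟩ => ⟨h1, hHDK 𝒱 T hT K hK him t ht⟩
  tfae_have 4 → 2 := fun ⟨h1, h2⟩ => kODK 𝒱 T hT K hK him R h1 h2
  tfae_have 2 → 1 := fun h => hDSC 𝒱 T hT K hK him ⟨R.toTriple⟩ h
  tfae_have 2 → 6 := by
    intro h
    refine ⟨h _ _ _ _ R.adm, fun h' k _ => ⟨R.toTriple, ?_⟩⟩
    rintro ⟨s, -, -, hs⟩
    exact absurd (hs (show (s 0).GD from h _ _ _ _ (s 0).adm)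
      (show (s 1).GD from h _ _ _ _ (s 1).adm)) (by norm_num)
  tfae_have 6 → 4 := by
    rintro ⟨h1, h2⟩
    refine ⟨h1, fun X k j hadm σ P hP => ?_⟩
    by_contra hnot
    obtain ⟨t, ht⟩ := h2 ⟨X, 2 * k, j, fun _ => k, hadm⟩ k rfl
    exact ht (series hT hK him ⟨X, 2 * k, j, fun _ => k, hadm⟩
        (fun hGD => hnot (const_of_GD' hK him hGD σ P hP)) t)
  tfae_finish

end Pool.Agent.T2H05.GD
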