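import Pool.Agent.T2H05.GD.Zero

/-!
# One type for one field: statements of the packages

Package `ID`: prove `theorem kID (hypotheses = deps, in order) : S_ID` in the file
`Pool/Agent/T2H05/GD/K_ID.lean` (import this file, namespace `Pool.Agent.T2H05.GD`, helper lemmas
private or prefixed). All the theorems `aTEN : S_TEN`, `aDU`, `aAD1`, `aAD2`, `aPOL`, `aCY`, `aRES`,
`aSEP`, `aCHI`, `aKC`, `aDIST`, `aGAM`, `aLIFT`, `aCONST`, `aCONV`, `aHC1L` are available.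
-/

set_option autoImplicit false

open CategoryTheory AlgebraicGeometry IntermediateField Finset

universe v

namespace Pool.Agent.T2H05.GD

open Pool.Agent.H914 Pool.Agent.H914.VarClass

/-- TENF (20 min). Tensor product over a subfield `F ≤ K`. Adapt `T_TEN.lean`:
`j''(x) = ∑_i cup (j (b_i)) (j' (x b*_i))`, `b_i = bs F i`, `b*_i = db F i` (included in `K`). By DU
`j(b_i) = ∑_τ τ(b_i) v_τ`, `j'(x b*_i) = ∑_σ σ(x) σ|F(b*_i) v'_σ`, so
`j''(x) = ∑_σ σ(x) cup v_(σ|F) v'_σ`, and `vv j'' σ = cup v_(σ|F) v'_σ` (`PkgTEN.vv_of`).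
Independence: from `∑_σ a_σ cup v_(σ|F) v'_σ = 0`, i.e. `∑_τ cup v_τ (∑_{σ|F = τ} a_σ v'_σ) = 0`, we
get by `cup_injective` `∑_{σ|F = τ} a_σ v'_σ = 0` for all `τ`, so all `a_σ = 0`. -/
def S_TENF : Prop := ∀ (𝒱 : VarClass Qbar) (T : PeriodData.{v} 𝒱), IsPeriodTheory T →
  ∀ (X Y : 𝒱.Obj) (m n : ℕ) (F K : IntermediateField ℚ ℂ) [FiniteDimensional ℚ F]
    [FiniteDimensional ℚ K] (h : F ≤ K) (j : F →+ T.H X m) (j' : K →+ T.H Y n)
    (p : (F →ₐ[ℚ] ℂ) → ℕ) (p' : (K →ₐ[ℚ] ℂ) → ℕ) (c : (F →ₐ[ℚ] ℂ) → ℂ) (c' : (K →ₐ[ℚ] ℂ) → ℂ),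
    Adm T X m F j p c → Adm T Y n K j' p' c' →
    ∃ j'' : K →+ T.H (X.prod Y) (m + n), Adm T (X.prod Y) (m + n) K j''
      (fun σ => p (σ.comp (IntermediateField.inclusion h)) + p' σ)
      (fun σ => c (σ.comp (IntermediateField.inclusion h)) * c' σ)

/-- UNQ (20 min). Koblitz-Ogus. `D(u) = L gam ε u - L gam ε' u`; by `ari aKC aDIST aGAM hL N χ hχ`
the sums `∑ χ(u) D(u)` vanish for all `χ` with `χ(-1) = -1`; by `evn aDIST aGAM hL` (with `m`),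
`D(-u) = - D(u)`, so they vanish for the other `χ` too (see the proof of `backL` in `Fin4L.lean`),
and `aCHI` gives `D = 0`. -/
def S_UNQ : Prop := ∀ L : ℂ → ℚ, IsLog L → ∀ (N : ℕ) [NeZero N] (ε ε' : ZMod N → ℚ)
  (P : (ZMod N)ˣ → ℚ) (m : ℚ),
  (∀ u : (ZMod N)ˣ, (N : ℚ) * P u = ∑ a ∈ Ioo 0 N, ε a * (((u : ZMod N) * a).val : ℚ)) →
  (∀ u : (ZMod N)ˣ, (N : ℚ) * P u = ∑ a ∈ Ioo 0 N, ε' a * (((u : ZMod N) * a).val : ℚ)) →
  (∀ u, P u + P (-u) = m) → ∀ u, L ((gam N ε u : ℝ) : ℂ) = L ((gam N ε' u : ℝ) : ℂ)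

/-- UNL (15 min; deps S_UNQ). Two levels `d, d'` dividing `N`: lift `ε` and `ε'` to the level `N` by
`aLIFT` and apply `UNQ`. -/
def S_UNL : Prop := ∀ L : ℂ → ℚ, IsLog L → ∀ (d d' N : ℕ) (h : d ∣ N) (h' : d' ∣ N), 0 < d → 0 < d' →
  0 < N → ∀ (ε : ZMod d → ℚ) (ε' : ZMod d' → ℚ) (P : (ZMod N)ˣ → ℚ) (m : ℚ),
  (∀ w : (ZMod N)ˣ, (d : ℚ) * P w = ∑ a ∈ Ioo 0 d, ε a *
    ((((ZMod.unitsMap h w : (ZMod d)ˣ) : ZMod d) * a).val : ℚ)) →
  (∀ w : (ZMod N)ˣ, (d' : ℚ) * P w = ∑ a ∈ Ioo 0 d', ε' a *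
    ((((ZMod.unitsMap h' w : (ZMod d')ˣ) : ZMod d') * a).val : ℚ)) →
  (∀ w, P w + P (-w) = m) → ∀ w, L ((gam d ε (ZMod.unitsMap h w) : ℝ) : ℂ) =
    L ((gam d' ε' (ZMod.unitsMap h' w) : ℝ) : ℂ)

/-- HDK (15 min). Adapt `hodge_of_type` in `OneT.lean` (and `series` in `Zero.lean`): let
`εt` be given by `exists_eps` for `R`, `c0` its numbers; `GDType` with `k = 0` and `aAD2` give
`L c0(σ) = L gam εt lam`. For a triple `j` of constant type `k` the tensor product `j2` has the type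
`R.p + k`; `ε = εt + εk` with `εk` from `aCONST (cond K) k`. -/
def S_HDK : Prop := ∀ (𝒱 : VarClass Qbar) (T : PeriodData.{v} 𝒱), IsPeriodTheory T →
  ∀ K : IntermediateField ℚ ℂ, AbelianField K → (∃ x ∈ K, x.im ≠ 0) → ∀ R : Triple T K,
    GDType T K R.p → HodgeFor T K

/-- DSC (30 min; deps S_TENF, S_UNL). Descent to subfields. Let `t` be a triple with the field `K`,
numbers `c0`, `εt` from `exists_eps`; `X, m, j, p` a triple for `F ≤ K` with the numbers `c`;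
`TENF` gives the triple `r` with the field `K` of type `p(σ|F) + t.p σ` and numbers `c(σ|F) c0(σ)`
(and `εr` from `exists_eps`). `GDFor T K` for `t` and `r` (with `aAD2`) gives at `σ = φ(lam)`:
`L c0(σ) = L gam εt lam` and `L c(σ|F) + L c0(σ) = L gam εr lam`, so by `gam_lin` (`q = -1`)
`L c(σ|F) = L gam (εr - εt) lam`, and `cond K · p(σ|F) = ∑ (εr - εt)(a) ⟨lam a⟩`. Now let `ε` be any
function with `IsEps (cond F) p ε` and compare the levels `cond K` and `cond F` with `UNL`,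
`N = cond K · cond F`, `P w = p(σ_w|F)` (`aCY` and `aRES` at the levels `N`, `cond K`, `cond F`;
`P w + P (-w) = m` by `aPOL`; `ZMod.unitsMap_surjective`). Finally `aSEP`. -/
def S_DSC : Prop := ∀ (𝒱 : VarClass Qbar) (T : PeriodData.{v} 𝒱), IsPeriodTheory T →
  ∀ K : IntermediateField ℚ ℂ, AbelianField K → (∃ x ∈ K, x.im ≠ 0) → Nonempty (Triple T K) →
    GDFor T K → ∀ F, F ≤ K → GDFor T F

/-- ODK (30 min). Adapt `odd_partL` (`Fin3L.lean`) and `backL` (`Fin4L.lean`) with `F = F' = K`, no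
norms: a character `χ` of the units of `ZMod (cond K)` that is trivial on the kernel of `res` is
`ψ ∘ res`. -/
def S_ODK : Prop := ∀ (𝒱 : VarClass Qbar) (T : PeriodData.{v} 𝒱), IsPeriodTheory T →
  ∀ K : IntermediateField ℚ ℂ, AbelianField K → (∃ x ∈ K, x.im ≠ 0) → ∀ R : Generator T K,
    R.toTriple.GD → HodgeFor T K → GDFor T K

end Pool.Agent.T2H05.GD
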