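import Pool.Agent.T2H05.GD.AllL

/-!
# The axioms of a period theory, in groups
-/

set_option autoImplicit false

universe v

namespace Pool.Agent.T2H05.GD

open Pool.Agent.H914 Pool.Agent.H914.VarClass

variable {𝒱 : VarClass Qbar}

/-- `B` is a rational structure and `dR` is a structure over the algebraic numbers: closed under
scalars, and linearly independent elements remain linearly independent over `ℂ`. -/
structure Structures (T : PeriodData.{v} 𝒱) : Prop where
  rat : ∀ {X m} {x : T.H X m} (r : ℚ), x ∈ T.B X m → (r : ℂ) • x ∈ T.B X m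
  alg : ∀ {X m} {x : T.H X m} (z : ℂ), IsAlgebraic ℚ z → x ∈ T.dR X m → z • x ∈ T.dR X m
  form_B : ∀ {X m} (n : ℕ) (x : Fin n → T.H X m), (∀ i, x i ∈ T.B X m) →
    (∀ r : Fin n → ℚ, ∑ i, (r i : ℂ) • x i = 0 → r = 0) → LinearIndependent ℂ x
  form_dR : ∀ {X m} (n : ℕ) (x : Fin n → T.H X m), (∀ i, x i ∈ T.dR X m) →
    (∀ z : Fin n → ℂ, (∀ i, IsAlgebraic ℚ (z i)) → ∑ i, z i • x i = 0 → z = 0) →
    LinearIndependent ℂ x

/-- The Hodge pieces of degree `m` meet in `0`, vanish for `p > m`, and are exchanged by complex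
conjugation, which is semilinear and fixes `B`. -/
structure HodgeConj (T : PeriodData.{v} 𝒱) : Prop where
  hodge_disjoint : ∀ {X m p q} {x : T.H X m}, p ≠ q → x ∈ T.hodge X m p → x ∈ T.hodge X m q →
    x = 0
  hodge_le : ∀ {X m p} {x : T.H X m}, m < p → x ∈ T.hodge X m p → x = 0
  bar_add : ∀ {X m} (x y : T.H X m), T.bar (x + y) = T.bar x + T.bar y
  bar_smul : ∀ {X m} (z : ℂ) (x : T.H X m), T.bar (z • x) = (starRingEnd ℂ) z • T.bar x
  bar_B : ∀ {X m} {x : T.H X m}, x ∈ T.B X m → T.bar x = x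
  bar_hodge : ∀ {X m p} {x : T.H X m}, p ≤ m → x ∈ T.hodge X m p → T.bar x ∈ T.hodge X m (m - p)

/-- Exterior products of classes in `B` are in `B`. -/
def CupB (T : PeriodData.{v} 𝒱) : Prop :=
  ∀ (X Y : 𝒱.Obj) (m n : ℕ) (x : T.H X m) (y : T.H Y n), x ∈ T.B X m → y ∈ T.B Y n →
    T.cup x y ∈ T.B (X.prod Y) (m + n)

/-- Exterior products of classes in `dR` are in `dR`. -/
def CupDR (T : PeriodData.{v} 𝒱) : Prop :=
  ∀ (X Y : 𝒱.Obj) (m n : ℕ) (x : T.H X m) (y : T.H Y n), x ∈ T.dR X m → y ∈ T.dR Y n →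
    T.cup x y ∈ T.dR (X.prod Y) (m + n)

/-- Exterior products and the Hodge pieces. -/
def CupHodge (T : PeriodData.{v} 𝒱) : Prop :=
  ∀ (X Y : 𝒱.Obj) (m n p q : ℕ) (x : T.H X m) (y : T.H Y n), x ∈ T.hodge X m p →
    y ∈ T.hodge Y n q → T.cup x y ∈ T.hodge (X.prod Y) (m + n) (p + q)

/-- Künneth: `H^m(X) ⊗ H^n(Y) → H^(m + n)(X × Y)` is injective. -/
def CupInjective (T : PeriodData.{v} 𝒱) : Prop :=
  ∀ (X Y : 𝒱.Obj) (m n k : ℕ) (x : Fin k → T.H X m) (y : Fin k → T.H Y n),
    LinearIndependent ℂ x → ∑ i, T.cup (x i) (y i) = 0 → ∀ i, y i = 0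

/-- The polarisation is rational on `B`, and is `(2 π i)^m` times an algebraic number on `dR`;
it is definite on the Hodge pieces in the sense that `pol x (bar x) ≠ 0` (Hodge-Riemann). -/
structure Polarised (T : PeriodData.{v} 𝒱) : Prop where
  pol_B : ∀ {X m} {x y : T.H X m}, x ∈ T.B X m → y ∈ T.B X m → ∃ r : ℚ, T.pol x y = r
  pol_dR : ∀ {X m} {x y : T.H X m}, x ∈ T.dR X m → y ∈ T.dR X m →
    ∃ z : ℂ, IsAlgebraic ℚ z ∧ T.pol x y = z * (2 * Real.pi * Complex.I) ^ m
  pol_ne_zero : ∀ {X m p} {x : T.H X m}, x ∈ T.hodge X m p → x ≠ 0 → T.pol x (T.bar x) ≠ 0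

/-- The formal properties of Betti and de Rham cohomology: rational structure, structure over the
algebraic numbers, Hodge pieces, Künneth, polarisations. -/
structure PeriodTheory (T : PeriodData.{v} 𝒱) : Prop where
  structures : Structures T
  hodgeConj : HodgeConj T
  cupB : CupB T
  cupDR : CupDR T
  cupHodge : CupHodge T
  cupInjective : CupInjective T
  polarised : Polarised T

theorem PeriodTheory.isPeriodTheory {T : PeriodData.{v} 𝒱} (h : PeriodTheory T) :
    IsPeriodTheory T where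
  rat := h.structures.rat
  alg := h.structures.alg
  form_B := h.structures.form_B
  form_dR := h.structures.form_dR
  hodge_disjoint := h.hodgeConj.hodge_disjoint
  hodge_le := h.hodgeConj.hodge_le
  bar_add := h.hodgeConj.bar_add
  bar_smul := h.hodgeConj.bar_smul
  bar_B := h.hodgeConj.bar_B
  bar_hodge := h.hodgeConj.bar_hodge
  cup_B := h.cupB _ _ _ _ _ _
  cup_dR := h.cupDR _ _ _ _ _ _
  cup_hodge := h.cupHodge _ _ _ _ _ _ _ _
  cup_injective := h.cupInjective _ _ _ _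
  pol_B := h.polarised.pol_B
  pol_dR := h.polarised.pol_dR
  pol_ne_zero := h.polarised.pol_ne_zero

end Pool.Agent.T2H05.GD
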