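import Pool.Agent.T2H05.GD.Defs
import Pool.Agent.H916R2.Descent
import Pool.Agent.H916R2.OddChar
import Pool.Agent.H916R2.Indep

/-!
# Project GD (Gross-Deligne, MP_b23d8d_ag): statements of the packages

Package `ID`: prove `theorem pID (hypotheses = deps, in order) : S_ID` in the file
`Pool/Agent/T2H05/GD/T_ID.lean` (import this file, namespace `Pool.Agent.T2H05.GD`, helper lemmas
private or prefixed). A complete proof is in the doc comment of each statement.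
-/

set_option autoImplicit false

open CategoryTheory AlgebraicGeometry IntermediateField Finset

universe v

namespace Pool.Agent.T2H05.GD

open Pool.Agent.H914 Pool.Agent.H914.VarClass
open Pool.Agent.H916R2 (OddDist SS saw)

/-! ## Logarithms -/

/-- A homomorphism from the multiplicative group of `ℂ` to `ℚ` that kills the algebraic numbers. -/
def IsLog (L : ℂ → ℚ) : Prop :=
  (∀ x y : ℂ, x ≠ 0 → y ≠ 0 → L (x * y) = L x + L y) ∧ ∀ x : ℂ, x ≠ 0 → IsAlgebraic ℚ x → L x = 0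

lemma IsLog.one {L : ℂ → ℚ} (h : IsLog L) : L 1 = 0 := h.2 1 one_ne_zero isAlgebraic_one

lemma IsLog.inv {L : ℂ → ℚ} (h : IsLog L) {x : ℂ} (hx : x ≠ 0) : L x⁻¹ = - L x := by
  have h1 := h.1 x x⁻¹ hx (inv_ne_zero hx)
  rw [mul_inv_cancel₀ hx, h.one] at h1
  linarith

lemma IsLog.pow {L : ℂ → ℚ} (h : IsLog L) {x : ℂ} (hx : x ≠ 0) (n : ℕ) : L (x ^ n) = n * L x := by
  induction n with
  | zero => simp [h.one]
  | succ n ih => rw [pow_succ, h.1 _ _ (pow_ne_zero n hx) hx, ih]; push_cast; ring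

lemma IsLog.prod {L : ℂ → ℚ} (h : IsLog L) {ι : Type*} (s : Finset ι) (f : ι → ℂ)
    (hf : ∀ i ∈ s, f i ≠ 0) : L (∏ i ∈ s, f i) = ∑ i ∈ s, L (f i) := by
  classical
  induction s using Finset.induction_on with
  | empty => simp [h.one]
  | insert a s ha ih =>
    rw [prod_insert ha, sum_insert ha, h.1 _ _ (hf a (mem_insert_self a s))
      (prod_ne_zero_iff.mpr fun i hi => hf i (mem_insert_of_mem hi)),
      ih fun i hi => hf i (mem_insert_of_mem hi)]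

lemma IsLog.sim {L : ℂ → ℚ} (h : IsLog L) {x y : ℂ} (hy : y ≠ 0) (hxy : Sim x y) : L x = L y := by
  obtain ⟨α, h1, h2, rfl⟩ := hxy
  rw [h.1 _ _ h2 hy, h.2 _ h2 h1, zero_add]

lemma sum_Ioo_zmod (N : ℕ) [NeZero N] {R : Type*} [AddCommMonoid R] (f : ZMod N → R) :
    ∑ a ∈ Ioo 0 N, f (a : ZMod N) = ∑ a ∈ univ.erase (0 : ZMod N), f a := by
  refine sum_nbij' (fun a => (a : ZMod N)) (fun a => a.val) ?_ ?_ ?_ ?_ ?_
  · intro a ha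
    rw [mem_Ioo] at ha
    simp only [mem_erase, mem_univ, and_true]
    intro h0
    rw [ZMod.natCast_eq_zero_iff] at h0
    exact absurd (Nat.le_of_dvd ha.1 h0) (by omega)
  · intro a ha
    simp only [mem_erase, mem_univ, and_true] at ha
    rw [mem_Ioo]
    exact ⟨Nat.pos_of_ne_zero fun h => ha ((ZMod.val_eq_zero a).mp h), ZMod.val_lt a⟩
  · intro a ha
    rw [mem_Ioo] at ha
    exact ZMod.val_cast_of_lt ha.2
  · intro a _
    exact ZMod.natCast_zmod_val a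
  · intro a _
    rfl

/-- SEP (45 min). Logarithms separate. Proof: the group `A = ℂˣ / {algebraic}` is torsion free (if
`z ^ n` is algebraic, `n ≥ 1`, so is `z`). If `z = x / y` is not algebraic then its class is nonzero
in `A` (written additively), hence `1 ⊗ z ≠ 0` in the `ℚ`-vector space `ℚ ⊗_ℤ A` (torsion-free
modules over ℤ are flat; or use `IsLocalizedModule`, or extend a hom from the subgroup generated by
`z` by divisibility of `ℚ`), and there is a linear form `f` with `f (1 ⊗ z) ≠ 0`; put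
`L w = f (1 ⊗ w)` for `w ≠ 0`, `L 0 = 0`. Then `L x ≠ L y`. -/
def S_SEP : Prop := ∀ x y : ℂ, x ≠ 0 → y ≠ 0 → (∀ L, IsLog L → L x = L y) → Sim x y

/-- RPOW (15 min). `(x ^ q) ^ (q.den) = x ^ (q.num)`. -/
def S_RPOW : Prop := ∀ L, IsLog L → ∀ (x : ℝ) (q : ℚ), 0 < x →
  L (((x ^ ((q : ℚ) : ℝ) : ℝ)) : ℂ) = q * L (x : ℂ)

/-! ## Gamma values -/

/-- RF (15 min). Reflection formula (`Real.Gamma_mul_Gamma_one_sub`); `sin (π x)` is algebraic for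
rational `x` (search Mathlib/ the library; it is a combination of roots of unity). -/
def S_RF : Prop := ∀ x : ℚ, 0 < x → x < 1 →
  Sim ((Real.Gamma x * Real.Gamma (1 - x) : ℝ) : ℂ) (Real.pi : ℂ)

/-- GM (50 min). Gauss multiplication formula up to algebraic factors. Proof: by Bohr-Mollerup
(`Real.eq_Gamma_of_log_convex`), `f(s) = n ^ s ∏_{k<n} Γ((s+k)/n) / C`, `C = n ∏_{k<n} Γ((1+k)/n)`,
is `Γ(s)` for `s > 0` (see `Real.doublingGamma` in Mathlib for `n = 2`: log-convexity is a sum of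
log-convex functions, `f(s+1) = s f(s)` telescopes). So `∏ Γ((x+k)/n) = C n^(-x) Γ(x)`; `n ^ x` is
algebraic, and `C = n ∏_{0<k<n} Γ(k/n)` has `C² = n² ∏ Γ(k/n) Γ(1-k/n) ∼ π^(n-1)` by RF. -/
def S_GM : Prop := ∀ (n : ℕ) (x : ℚ), 1 ≤ n → 0 < x →
  Sim (((∏ k ∈ range n, Real.Gamma (((x : ℝ) + k) / n)) ^ 2 : ℝ) : ℂ)
    ((Real.pi ^ (n - 1) * Real.Gamma x ^ 2 : ℝ) : ℂ)

/-- The odd distribution `a ↦ L(Γ(a/N)) - L(π)/2`. -/
noncomputable def cL (L : ℂ → ℚ) (N : ℕ) (a : ZMod N) : ℚ :=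
  if a = 0 then 0 else L ((Real.Gamma ((a.val : ℝ) / N) : ℝ) : ℂ) - L (Real.pi : ℂ) / 2

/-- DIST (60 min; deps S_RF, S_GM). `neg` and `half` are the reflection formula. `dist`: `m = p d`,
`a/m = x`; the residues `a + i d`, `i < p`, are, in some order, the `N`-th residues with
`y_k = (t + k) / p`, `k < p`, where `t` is the representative of `p a` divided by `m`
(`p·y = p·x mod 1`). If `t ≠ 0`: GM at `t` gives
`∑ L Γ(y_k) = (p-1)/2 L(π) + L Γ(t)`, so `∑ c = L Γ(t) - L(π)/2`. If `t = 0`: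
`∑_{0<k<p} L Γ(k/p) = (p-1)/2 L(π)` by the reflection formula, so `∑ c = 0`. -/
def S_DIST : Prop := ∀ L, IsLog L → ∀ (N : ℕ) [NeZero N], OddDist (cL L N)

/-- GAM (30 min; deps S_RPOW). `L` of the gamma product: by RPOW it is
`∑_{0<a<N} ε(a u⁻¹) L Γ(1 - a/N)`; substitute `a → a u`; for `b ≠ 0`,
`1 - b.val / N = (-b).val / N`, so `L Γ(1 - b.val/N) = cL(-b) + L(π)/2 = - cL(b) + L(π)/2`
(S_DIST gives `cL(-b) = - cL(b)`; dep S_DIST). -/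
def S_GAM : Prop := ∀ L, IsLog L → ∀ (N : ℕ) [NeZero N] (ε : ZMod N → ℚ) (u : (ZMod N)ˣ),
  L ((gam N ε u : ℝ) : ℂ) = L (Real.pi : ℂ) / 2 * ∑ a ∈ univ.erase (0 : ZMod N), ε a -
    ∑ a, ε a * cL L N ((u : ZMod N) * a)

/-- UNI (60 min). Uniqueness of the `χ`-part of odd distributions. Let `h = f(e) g - g(e) f` for a
suitable `e`; one shows: if `h` is an odd distribution with `h(u a) = χ(u)⁻¹ h(a)` and `h(e) = 0`,
`e = N / f₀`, `f₀` the conductor of `χ`, then `h = 0` (taking `h = f(e) g - g(e) f` this gives that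
`f` and `g` are proportional, as `f(e) = g(e) = 0` gives `f = g = 0`). Proof by strong induction on
the order `n` of `a` in `ZMod N` (`n ∣ N`): if some unit `u` with `u a = a` has `χ(u) ≠ 1` then
`h(a) = 0`. Otherwise `χ` is trivial on the units `≡ 1 mod n`, so `χ` factors through `n`, `f₀ ∣ n`.
If `n = f₀` then `a = u e` for a unit `u` and `h(a) = χ(u)⁻¹ h(e) = 0`. Otherwise let `p` be a prime
dividing `n / f₀`; use the distribution relation for `N = p d`: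
`∑_{i<p} h(a + i d) = h(p a)`. The right side is `0` by induction (order `n / p`). Each `a + i d` is
either of order smaller than `n` (at most one `i`, only if `p ∤ n/p`; then `h = 0` by induction) or of
order `n` and `= u a` with a unit `u ≡ 1 mod n / p`, and `χ(u) = 1` because `f₀ ∣ n / p`; so the left
side is `p h(a)` or `(p - 1) h(a)`, and `h(a) = 0`. -/
def S_UNI : Prop := ∀ (N : ℕ) [NeZero N] (χ : DirichletCharacter ℂ N) (f g : ZMod N → ℂ),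
  OddDist f → OddDist g → (∀ (u : (ZMod N)ˣ) a, f ((u : ZMod N) * a) = (χ u)⁻¹ * f a) →
  (∀ (u : (ZMod N)ˣ) a, g ((u : ZMod N) * a) = (χ u)⁻¹ * g a) → ∀ a b, f a * g b = f b * g a

/-- KC (35 min; deps S_UNI). Let `C(a) = ∑_u χ(u) c(u a)` and `SS χ a = ∑_u χ(u) saw(u a)`; both
satisfy the hypotheses of UNI (`SS_unit`, `SS_dist`, `SS_neg` in H916R2/Indep), and `SS χ b ≠ 0` for
some `b` (`Pool.Agent.H916R2.exists_SS_ne_zero`). So `C(a) = (C(b) / SS χ b) SS χ a`. As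
`saw(b) = 2 b.val - N` for `b ≠ 0` and `∑_u χ(u) = 0`, `∑_u χ(u) (u a).val = SS χ a / 2`. Sum over
`a` with the weights `x a`. -/
def S_KC : Prop := ∀ (N : ℕ) [NeZero N] (c : ZMod N → ℚ), OddDist c →
  ∀ χ : DirichletCharacter ℂ N, χ.Odd → ∃ K : ℂ, ∀ x : ZMod N → ℚ,
    ∑ u : (ZMod N)ˣ, χ u * ((∑ a, x a * c ((u : ZMod N) * a) : ℚ) : ℂ) =
      K * ∑ u : (ZMod N)ˣ, χ u * ((∑ a, x a * (((u : ZMod N) * a).val : ℚ) : ℚ) : ℂ)

/-- EX (50 min). Existence of `ε`. Linear algebra over `ℚ`: the map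
`x ↦ (u ↦ ∑_a x a (u a).val)` from functions on `ZMod N` to functions on the units has as image a
subspace; by duality it suffices: if `y` is a rational function on the units with
`∑_u y(u) (u a).val = 0` for all `a`, then `∑_u y(u) P(u) = 0` for all `P` with `P(u) + P(-u) = m`.
For `a ≠ 0` add the relations for `a` and `-a`: `N ∑_u y(u) = 0` (take `a = 1 ≠ 0`, `N ≥ 2`), so
`∑ y = 0` and `∑_u y(u) saw(u a) = 0` for all `a`. For every odd character `χ`: multiply by `χ(w)` the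
relation for `w a` and sum over `w`: `(∑_u y(u) χ(u)⁻¹) SS χ a = 0`, so by
`Pool.Agent.H916R2.exists_SS_ne_zero` `∑_u y(u) χ(u)⁻¹ = 0` for all odd `χ`, so `y(-u) = y(u)`
(orthogonality: the odd part of `y` has all transforms zero). Finally `2 ∑ y(u) P(u) =
∑ y(u) (P(u) + P(-u)) = m ∑ y = 0`. -/
def S_EX : Prop := ∀ N : ℕ, [NeZero N] → 2 ≤ N → ∀ (P : (ZMod N)ˣ → ℚ) (m : ℚ),
  (∀ u, P u + P (-u) = m) → ∃ x : ZMod N → ℚ, ∀ u : (ZMod N)ˣ,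
    (N : ℚ) * P u = ∑ a, x a * (((u : ZMod N) * a).val : ℚ)

/-- CONST (35 min; deps S_RF). Take `ε = 2 k / (N - 1)`: `∑_{0<a<N} (u a).val = N (N-1) / 2` as
`u` permutes the nonzero residues. The gamma product is `G ^ (2k/(N-1))` with
`G = ∏_{0<a<N} Γ(1 - a/N)`, `G² = ∏ Γ(1-a/N) Γ(a/N) ∼ π^(N-1)` by RF, so the product is
`(G²)^(k/(N-1)) ∼ π^k ∼ (2πi)^k` (roots of positive algebraic numbers are algebraic). -/
def S_CONST : Prop := ∀ (N k : ℕ), 2 ≤ N → ∃ ε : ZMod N → ℚ,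
  (∀ u : (ZMod N)ˣ, (N : ℚ) * k = ∑ a ∈ Ioo 0 N, ε a * (((u : ZMod N) * a).val : ℚ)) ∧
  ∀ u : (ZMod N)ˣ, Sim ((gam N ε u : ℝ) : ℂ) ((2 * Real.pi * Complex.I) ^ k)

/-- LIFT (45 min). Take `ε'(b) = ε(a)` if `b = (N/d) a`, `0 ≤ a < d`, and `0` for the other `b`
(well defined: `b.val = (N/d) a`; multiplication by units preserves the multiples of `N/d`, and
`u ((N/d) a) = (N/d) (ū a)` with `ū` the image of `u`). `Γ(1 - (N/d)a/N) = Γ(1 - a/d)`. The factors of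
`gam N ε' u` with `b` not a multiple of `N/d` are `x ^ 0 = 1`. -/
def S_LIFT : Prop := ∀ (d N : ℕ) (h : d ∣ N), 0 < d → 0 < N → ∀ ε : ZMod d → ℚ,
  ∃ ε' : ZMod N → ℚ,
    (∀ u : (ZMod N)ˣ, ∑ b ∈ Ioo 0 N, ε' b * (((u : ZMod N) * b).val : ℚ) =
      ((N / d : ℕ) : ℚ) * ∑ a ∈ Ioo 0 d, ε a *
        ((((ZMod.unitsMap h u : (ZMod d)ˣ) : ZMod d) * a).val : ℚ)) ∧
    ∀ u : (ZMod N)ˣ, gam N ε' u = gam d ε (ZMod.unitsMap h u)

/-- CHI (20 min). Orthogonality of characters of a finite abelian group. -/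
def S_CHI : Prop := ∀ (G : Type) [CommGroup G] [Fintype G] (r : G → ℂ),
  (∀ χ : G →* ℂˣ, ∑ g, (χ g : ℂ) * r g = 0) → ∀ g, r g = 0

/-- CONV (30 min). If `∑_t a(t) b'(g t⁻¹) - ∑_t b(t) a'(g t⁻¹) = C` for all `g` then for every
nontrivial character the transforms satisfy `â b̂' = b̂ â'` (multiply by `ψ(g)` and sum). -/
def S_CONV : Prop := ∀ (G : Type) [CommGroup G] [Fintype G] (a a' b b' : G → ℂ) (C : ℂ),
  (∀ g, ∑ t, a t * b' (g * t⁻¹) - ∑ t, b t * a' (g * t⁻¹) = C) →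
  ∀ ψ : G →* ℂˣ, ψ ≠ 1 → (∑ g, (ψ g : ℂ) * a g) * (∑ g, (ψ g : ℂ) * b' g) =
    (∑ g, (ψ g : ℂ) * b g) * (∑ g, (ψ g : ℂ) * a' g)

/-! ## Linear algebra of the lines `H_σ` -/

section lin

variable (F : IntermediateField ℚ ℂ) [FiniteDimensional ℚ F]

/-- A basis of `F`. -/
noncomputable def bs : Module.Basis (Fin (Module.finrank ℚ F)) ℚ F := Module.finBasis ℚ F

/-- The dual basis for the trace form. -/
noncomputable def db : Module.Basis (Fin (Module.finrank ℚ F)) ℚ F :=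
  (Algebra.traceForm ℚ F).dualBasis (traceForm_nondegenerate ℚ F) (bs F)

variable {F}

/-- The component `v_σ` of `j(1)` on the line `H_σ`. -/
noncomputable def vv {E : Type v} [AddCommGroup E] [Module ℂ E] (j : F →+ E) (σ : F →ₐ[ℚ] ℂ) : E :=
  ∑ i, σ (db F i) • j (bs F i)

end lin

open scoped Classical in
/-- DU (30 min). Duality of the bases under embeddings. `x = ∑ Tr(x b*_i) b_i`, and
`Tr = ∑ τ`: the matrices `(σ(b_i))` and `(τ(b*_i))` are inverse to each other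
(`∑_σ σ(b_i) σ(b*_j) = Tr(b_i b*_j) = δ_ij`, and a left inverse is a right inverse,
`card (F →ₐ[ℚ] ℂ) = finrank`). Then (2) `j x = ∑_σ σ(x) v_σ` (an additive map is `ℚ`-linear). -/
def S_DU : Prop := ∀ (F : IntermediateField ℚ ℂ) [FiniteDimensional ℚ F],
  (∀ σ τ : F →ₐ[ℚ] ℂ, ∑ i, σ (bs F i) * τ (db F i) = if σ = τ then 1 else 0) ∧
  ∀ (E : Type v) [AddCommGroup E] [Module ℂ E] (j : F →+ E) (x : F),
    j x = ∑ σ : F →ₐ[ℚ] ℂ, σ x • vv j σ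

/-- LIN (30 min; deps S_DU). If `w = ∑ z_k j(x_k)` satisfies the eigencondition then, with
`A_τ = ∑_k z_k τ(x_k)`, `w = ∑_τ A_τ v_τ`, and `∑_τ τ(y) A_τ v_τ = σ(y) ∑_τ A_τ v_τ`; by independence
`A_τ (τ(y) - σ(y)) = 0` for all `y`, so `A_τ = 0` for `τ ≠ σ`. Conversely
`v_σ = ∑ σ(b*_i) j(b_i)` satisfies the eigencondition (by DU (2) `∑_i σ(b*_i) j(y b_i) =
∑_τ τ(y) (∑_i σ(b*_i) τ(b_i)) v_τ = σ(y) v_σ`). -/
def S_LIN : Prop := ∀ (F : IntermediateField ℚ ℂ) [FiniteDimensional ℚ F]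
  (E : Type v) [AddCommGroup E] [Module ℂ E] (j : F →+ E), LinearIndependent ℂ (vv j) →
  (∀ (σ : F →ₐ[ℚ] ℂ) (n : ℕ) (z : Fin n → ℂ) (x : Fin n → F),
    (∀ y : F, ∑ i, z i • j (y * x i) = σ y • ∑ i, z i • j (x i)) →
    ∑ i, z i • j (x i) = (∑ i, z i * σ (x i)) • vv j σ ∧
      ∀ τ : F →ₐ[ℚ] ℂ, τ ≠ σ → ∑ i, z i * τ (x i) = 0) ∧
  ∀ (σ : F →ₐ[ℚ] ℂ) (y : F), ∑ i, σ (db F i) • j (y * bs F i) = σ y • vv j σ

/-- IND (35 min; deps S_DU). `j(b_i)` are linearly independent over `ℚ` (injectivity), so over `ℂ` by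
`form_B`; the matrix `(σ(b*_i))` is invertible by DU, so the `v_σ` are independent. Conversely if the
`v_σ` are independent then `j` is injective (DU (2): `j x = ∑ σ(x) v_σ`). -/
def S_IND : Prop := ∀ (𝒱 : VarClass Qbar) (T : PeriodData.{v} 𝒱), IsPeriodTheory T →
  ∀ (X : 𝒱.Obj) (m : ℕ) (F : IntermediateField ℚ ℂ) [FiniteDimensional ℚ F]
    (j : F →+ T.H X m), (∀ x, j x ∈ T.B X m) →
    (Function.Injective j ↔ LinearIndependent ℂ (vv j))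

/-- FORM (30 min; deps S_DU). A nonzero rational linear form `γ` of `F` is `x ↦ Tr(a x)`, `a ≠ 0`
(nondegeneracy of the trace form); so `∑_i σ(b*_i) γ(b_i) = σ(a)` is algebraic and `≠ 0`
(`∑_i b*_i Tr(a b_i) = a`), and `γ(x) = ∑_σ σ(x) σ(a)`. -/
def S_FORM : Prop := ∀ (F : IntermediateField ℚ ℂ) [FiniteDimensional ℚ F] (γ : F →ₗ[ℚ] ℚ),
  γ ≠ 0 → ∃ a : F, a ≠ 0 ∧ ∀ x, ((γ x : ℚ) : ℂ) = ∑ σ : F →ₐ[ℚ] ℂ, σ x * σ a

/-- An admissible triple with the numbers `c(σ)`: `c(σ) v_σ` is a de Rham class. -/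
structure Adm {𝒱 : VarClass Qbar} (T : PeriodData.{v} 𝒱) (X : 𝒱.Obj) (m : ℕ)
    (F : IntermediateField ℚ ℂ) [FiniteDimensional ℚ F] (j : F →+ T.H X m)
    (p : (F →ₐ[ℚ] ℂ) → ℕ) (c : (F →ₐ[ℚ] ℂ) → ℂ) : Prop where
  mem_B : ∀ x, j x ∈ T.B X m
  indep : LinearIndependent ℂ (vv j)
  hodge : ∀ σ, vv j σ ∈ T.hodge X m (p σ)
  ne : ∀ σ, c σ ≠ 0
  dR : ∀ σ, c σ • vv j σ ∈ T.dR X m

/-- AD1 (30 min; deps S_LIN, S_IND). Admissible triples and `Adm`. (→) `IND`; the class `w ≠ 0` on the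
line `H_σ` is `c v_σ` by LIN. (←) by LIN the line `H_σ` is `ℂ v_σ`. -/
def S_AD1 : Prop := ∀ (𝒱 : VarClass Qbar) (T : PeriodData.{v} 𝒱), IsPeriodTheory T →
  ∀ (X : 𝒱.Obj) (m : ℕ) (F : IntermediateField ℚ ℂ) [FiniteDimensional ℚ F]
    (j : F →+ T.H X m) (p : (F →ₐ[ℚ] ℂ) → ℕ),
    Admissible T X m F j p ↔ ∃ c, Adm T X m F j p c

/-- AD2 (35 min; deps S_LIN, S_FORM). Periods. If `w = ∑ z_k j(x_k) ≠ 0` is a de Rham class on the
line then by LIN `w = A v_σ`, `A = ∑ z_k σ(x_k)`, and by FORM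
`P = ∑ z_k γ(x_k) = ∑_τ (∑ z_k τ(x_k)) τ(a) = A σ(a)`. `A v_σ` and `c(σ) v_σ` are both de Rham
classes and linearly dependent over `ℂ`, so by `form_dR` (`n = 2`) dependent over the algebraic
numbers: `A / c(σ)` is algebraic. So `P ∼ c(σ)`. Existence: `γ = Tr`, `w = c(σ) v_σ`. -/
def S_AD2 : Prop := ∀ (𝒱 : VarClass Qbar) (T : PeriodData.{v} 𝒱), IsPeriodTheory T →
  ∀ (X : 𝒱.Obj) (m : ℕ) (F : IntermediateField ℚ ℂ) [FiniteDimensional ℚ F]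
    (j : F →+ T.H X m) (p : (F →ₐ[ℚ] ℂ) → ℕ) (c : (F →ₐ[ℚ] ℂ) → ℂ), Adm T X m F j p c →
    ∀ σ, (∀ P, IsPeriod T j σ P → Sim P (c σ)) ∧ ∃ P, IsPeriod T j σ P

/-- TW (25 min; deps S_DU). Twist: `j' = j ∘ s⁻¹`. By DU (2)
`j'(x) = ∑_σ σ(s⁻¹ x) v_σ`, so `v'_σ = v_{σ ∘ s}` (uniqueness of the coefficients: apply
`v'_σ = ∑ σ(b*_i) j'(b_i)` and DU (1)). -/
def S_TW : Prop := ∀ (𝒱 : VarClass Qbar) (T : PeriodData.{v} 𝒱)
  (X : 𝒱.Obj) (m : ℕ) (F : IntermediateField ℚ ℂ) [FiniteDimensional ℚ F]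
    (j : F →+ T.H X m) (p : (F →ₐ[ℚ] ℂ) → ℕ) (c : (F →ₐ[ℚ] ℂ) → ℂ), Adm T X m F j p c →
    ∀ s : F ≃ₐ[ℚ] F, ∃ j' : F →+ T.H X m,
      Adm T X m F j' (fun σ => p (σ.comp (s : F →ₐ[ℚ] F))) (fun σ => c (σ.comp (s : F →ₐ[ℚ] F)))

/-- TEN (45 min; deps S_DU). Tensor product over `F`:
`j''(x) = ∑_i cup (j(x b_i)) (j'(b*_i))`. By DU `j''(x) = ∑_{σ,τ} σ(x) (∑_i σ(b_i) τ(b*_i))
cup v_σ v'_τ = ∑_σ σ(x) cup v_σ v'_σ`, so `v''_σ = cup v_σ v'_σ`. Independence: from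
`∑ a_σ cup v_σ v'_σ = 0` we get `a_σ v'_σ = 0` by `cup_injective` (index by `Fin`), so `a_σ = 0`. The
rest is `cup_B`, `cup_hodge`, `cup_dR`. -/
def S_TEN : Prop := ∀ (𝒱 : VarClass Qbar) (T : PeriodData.{v} 𝒱), IsPeriodTheory T →
  ∀ (X Y : 𝒱.Obj) (m n : ℕ) (F : IntermediateField ℚ ℂ) [FiniteDimensional ℚ F]
    (j : F →+ T.H X m) (j' : F →+ T.H Y n) (p p' : (F →ₐ[ℚ] ℂ) → ℕ) (c c' : (F →ₐ[ℚ] ℂ) → ℂ),
    Adm T X m F j p c → Adm T Y n F j' p' c' →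
    ∃ j'' : F →+ T.H (X.prod Y) (m + n), Adm T (X.prod Y) (m + n) F j''
      (fun σ => p σ + p' σ) (fun σ => c σ * c' σ)

/-- RST (45 min; deps S_DU). Restriction to a subfield `F'` on which `p` and `c` depend only:
`j' = j` restricted to `F'`. By DU (2) for `F`, `j'(x) = ∑_σ σ(x) v_σ = ∑_τ τ(x) ∑_{σ|F' = τ} v_σ`,
so `v'_τ = ∑_{σ | F' = τ} v_σ` (DU for `F'`); every `τ` has an extension `σ` to `F` (`ℂ` is
algebraically closed), so the `v'_τ` are independent; `c'(τ) v'_τ = ∑ c(σ) v_σ` is in `dR`. -/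
def S_RST : Prop := ∀ (𝒱 : VarClass Qbar) (T : PeriodData.{v} 𝒱)
  (X : 𝒱.Obj) (m : ℕ) (F F' : IntermediateField ℚ ℂ) [FiniteDimensional ℚ F]
    [FiniteDimensional ℚ F'] (h : F' ≤ F) (j : F →+ T.H X m) (p : (F →ₐ[ℚ] ℂ) → ℕ)
    (c : (F →ₐ[ℚ] ℂ) → ℂ) (p' : (F' →ₐ[ℚ] ℂ) → ℕ) (c' : (F' →ₐ[ℚ] ℂ) → ℂ), Adm T X m F j p c →
    (∀ σ : F →ₐ[ℚ] ℂ, p σ = p' (σ.comp (IntermediateField.inclusion h)) ∧
      c σ = c' (σ.comp (IntermediateField.inclusion h))) →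
    ∃ j' : F' →+ T.H X m, Adm T X m F' j' p' c'

/-- POL (35 min). Polarisation. `bar v_σ = v_σ'` if `σ' = conj ∘ σ` (definition of `vv`, `bar_add`,
`bar_smul`, `bar_B`). So `v_σ'` is in `hodge (m - p σ)` (and `p σ ≤ m` by `hodge_le`) and in
`hodge (p σ')`, it is not `0`, so `p σ + p σ' = m`. `pol v_σ v_σ'` is algebraic (`pol_B`,
`vv` is a combination of rational classes with algebraic coefficients) and `≠ 0`
(`pol_ne_zero`); `c(σ) c(σ') pol v_σ v_σ' = pol (c v_σ) (c' v_σ')` is an algebraic number times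
`(2πi)^m` (`pol_dR`). -/
def S_POL : Prop := ∀ (𝒱 : VarClass Qbar) (T : PeriodData.{v} 𝒱), IsPeriodTheory T →
  ∀ (X : 𝒱.Obj) (m : ℕ) (F : IntermediateField ℚ ℂ) [FiniteDimensional ℚ F]
    (j : F →+ T.H X m) (p : (F →ₐ[ℚ] ℂ) → ℕ) (c : (F →ₐ[ℚ] ℂ) → ℂ), Adm T X m F j p c →
    ∀ σ σ' : F →ₐ[ℚ] ℂ, (∀ x, σ' x = (starRingEnd ℂ) (σ x)) →
      p σ + p σ' = m ∧ Sim (c σ * c σ') ((2 * Real.pi * Complex.I) ^ m)

/-- ITER (40 min; deps S_TW, S_TEN). Induction on `∑ n(s) ≥ 1` (or along a list of elements `s`): one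
factor is a twist, more factors are tensor products with a twist; the degree is `(∑ n(s)) m`. -/
def S_ITER : Prop := ∀ (𝒱 : VarClass Qbar) (T : PeriodData.{v} 𝒱), IsPeriodTheory T →
  ∀ (X : 𝒱.Obj) (m : ℕ) (F : IntermediateField ℚ ℂ) [FiniteDimensional ℚ F]
    (j : F →+ T.H X m) (p : (F →ₐ[ℚ] ℂ) → ℕ) (c : (F →ₐ[ℚ] ℂ) → ℂ), Adm T X m F j p c →
    ∀ n : (F ≃ₐ[ℚ] F) → ℕ, 1 ≤ ∑ s, n s →
    ∃ (X' : 𝒱.Obj) (m' : ℕ) (j' : F →+ T.H X' m'), m' = (∑ s, n s) * m ∧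
      Adm T X' m' F j' (fun σ => ∑ s : F ≃ₐ[ℚ] F, n s * p (σ.comp (s : F →ₐ[ℚ] F)))
        (fun σ => ∏ s : F ≃ₐ[ℚ] F, c (σ.comp (s : F →ₐ[ℚ] F)) ^ n s)

/-! ## Cyclotomic fields -/

/-- CY (60 min). `ℚ(ζ_N)` is cyclotomic (`zt N` is a primitive root,
`IsPrimitiveRoot.intermediateField_adjoin_isCyclotomicExtension`), its Galois group is
`(ZMod N)ˣ` (`IsCyclotomicExtension.autEquivPow`), abelian, so `F` is finite and normal, every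
`σ : F → ℂ` is a restriction of an automorphism; `res u` is the restriction to `F` of
`ζ ↦ ζ ^ u`. `res (-1)` is complex conjugation because `conj ζ = ζ⁻¹`. -/
def S_CY : Prop := ∀ (N : ℕ), 0 < N → ∀ F : IntermediateField ℚ ℂ, F ≤ ℚ⟮zt N⟯ →
  FiniteDimensional ℚ F ∧ ∃ res : (ZMod N)ˣ →* (F ≃ₐ[ℚ] F), Function.Surjective res ∧
    (∀ (u : (ZMod N)ˣ) (σ : F →ₐ[ℚ] ℂ), Restr N u σ ↔ σ = F.val.comp ((res u) : F →ₐ[ℚ] F)) ∧
    (∀ σ : F →ₐ[ℚ] ℂ, ∃ s : F ≃ₐ[ℚ] F, σ = F.val.comp (s : F →ₐ[ℚ] F)) ∧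
    ∀ x : F, ((res (-1) x : F) : ℂ) = (starRingEnd ℂ) (x : ℂ)

/-- RES (40 min). Change of level: `zt d = zt N ^ (N/d)`, so `ℚ(ζ_d) ≤ ℚ(ζ_N)`; restrict `τ`. -/
def S_RES : Prop := ∀ (d N : ℕ) (h : d ∣ N), 0 < N → ∀ (F : IntermediateField ℚ ℂ), F ≤ ℚ⟮zt d⟯ →
  (F ≤ ℚ⟮zt N⟯) ∧ ∀ (u : (ZMod N)ˣ) (σ : F →ₐ[ℚ] ℂ), Restr N u σ → Restr d (ZMod.unitsMap h u) σ

/-- SUB (60 min; deps S_CY). The subfield of `F` cut out by an odd character `χ` that is trivial on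
the `u` that fix `F`: `F' = {x ∈ F | res(u) x = x for all u ∈ ker χ}`; by Galois theory the
automorphisms of `F'` are `(ZMod N)ˣ / ker χ`, so `ψ(res' u) = χ(u)` is well defined and injective, so
the group is cyclic (a finite group embedded in `ℂˣ`); complex conjugation `res'(-1)` is not the
identity as `χ(-1) = -1`, so `F'` is not real. -/
def S_SUB : Prop := ∀ (N : ℕ), 0 < N → ∀ F : IntermediateField ℚ ℂ, F ≤ ℚ⟮zt N⟯ →
  ∀ χ : (ZMod N)ˣ →* ℂˣ, χ (-1) = -1 → (∀ u, Restr N u F.val → χ u = 1) →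
  ∃ F' : IntermediateField ℚ ℂ, F' ≤ F ∧ CyclicImaginary F' ∧
    ∃ ψ : (F' ≃ₐ[ℚ] F') →* ℂˣ, Function.Injective ψ ∧
      ∀ (u : (ZMod N)ˣ) (s : F' ≃ₐ[ℚ] F'), Restr N u (F'.val.comp (s : F' →ₐ[ℚ] F')) → ψ s = χ u

/-- HC1 (70 min; deps S_ITER, S_TEN, S_AD1, S_AD2, S_POL). The consequence of the statement on Hodge
classes. `F'` abelian with commutative group `G`, `κ` complex conjugation. Write `p(t)` for
`p (val ∘ t)`. Take `n₁(s) = p₀(s⁻¹) + 1`, `n₂(s) = p(s⁻¹ κ) + 1`, and the tensor product `H'` of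
ITER of `j` with `n₁` and of `j₀` with `n₂`. Its type at `g` is
`∑_t p₀(t) p(g t⁻¹) + ∑_t p(t) p₀(g κ t⁻¹)` + constants (sums over the whole group), and
`p₀(g κ t⁻¹) = n - p₀(g t⁻¹)` by POL, so it is constant `= k`, because
`∑_t p₀(t) p(g t⁻¹) = ∑_t p(t) p₀(g t⁻¹)`. By POL twice `k` is the degree. So HodgePeriods applies
(every embedding is `val ∘ t`), and with AD2 the numbers of `H'` are `∼ (2πi)^k`: for every `L`,
`∑_t p₀(t) L c(g t⁻¹) + ∑_t p(t) L c₀(g κ t⁻¹) + const = k L(2πi)`; by POL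
`L c₀(g κ t⁻¹) = n L(2πi) - L c₀(g t⁻¹)`. -/
def S_HC1 : Prop := ∀ (𝒱 : VarClass Qbar) (T : PeriodData.{v} 𝒱), IsPeriodTheory T →
  HodgePeriods T → ∀ (F : IntermediateField ℚ ℂ) [FiniteDimensional ℚ F], CyclicImaginary F →
  (∀ s t : F ≃ₐ[ℚ] F, s * t = t * s) →
  ∀ κ : F ≃ₐ[ℚ] F, (∀ x : F, ((κ x : F) : ℂ) = (starRingEnd ℂ) (x : ℂ)) →
  (∀ σ : F →ₐ[ℚ] ℂ, ∃ s : F ≃ₐ[ℚ] F, σ = F.val.comp (s : F →ₐ[ℚ] F)) →
  ∀ (X Y : 𝒱.Obj) (m n : ℕ) (j : F →+ T.H X m) (j₀ : F →+ T.H Y n)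
    (p p₀ : (F →ₐ[ℚ] ℂ) → ℕ) (c c₀ : (F →ₐ[ℚ] ℂ) → ℂ),
    Adm T X m F j p c → Adm T Y n F j₀ p₀ c₀ → ∀ L, IsLog L →
    ∃ C : ℚ, ∀ g : F ≃ₐ[ℚ] F,
      ∑ t : F ≃ₐ[ℚ] F, (p₀ (F.val.comp (t : F →ₐ[ℚ] F)) : ℚ) *
          L (c (F.val.comp ((g * t⁻¹ : F ≃ₐ[ℚ] F) : F →ₐ[ℚ] F))) -
        ∑ t : F ≃ₐ[ℚ] F, (p (F.val.comp (t : F →ₐ[ℚ] F)) : ℚ) *
          L (c₀ (F.val.comp ((g * t⁻¹ : F ≃ₐ[ℚ] F) : F →ₐ[ℚ] F))) = C

/-- NRM (50 min; deps S_ITER, S_RST, S_CY). The norm to a subfield `F' ≤ F ≤ ℚ(ζ_N)`, all embeddings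
given by units: from a triple of `F` we get a triple of `F'` (on another variety) with
`p'(τ) = ∑_{u : χ(u) = 1} p(σ_{lam u})`, `c'(τ) = ∏_{u : χ(u) = 1} c(σ_{lam u})` for `τ = σ_lam|F'`:
ITER with `n(s) = #{u ∈ ker χ : res u = s}`, then RST (the values depend on `τ` only because two
units with the same restriction to `F'` have the same `χ`, by the injectivity of `ψ`). The functions
`pu, cu` on the units are `pu(u) = p(σ_u)`, `cu(u) = c(σ_u)`. -/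
def S_NRM : Prop := ∀ (𝒱 : VarClass Qbar) (T : PeriodData.{v} 𝒱), IsPeriodTheory T →
  ∀ (N : ℕ) [NeZero N] (F F' : IntermediateField ℚ ℂ) [FiniteDimensional ℚ F]
    [FiniteDimensional ℚ F'], F ≤ ℚ⟮zt N⟯ → F' ≤ F →
  ∀ (χ : (ZMod N)ˣ →* ℂˣ) (ψ : (F' ≃ₐ[ℚ] F') →* ℂˣ), Function.Injective ψ →
    (∀ (u : (ZMod N)ˣ) (s : F' ≃ₐ[ℚ] F'), Restr N u (F'.val.comp (s : F' →ₐ[ℚ] F')) →
      ψ s = χ u) →
  ∀ (X : 𝒱.Obj) (m : ℕ) (j : F →+ T.H X m) (p : (F →ₐ[ℚ] ℂ) → ℕ) (c : (F →ₐ[ℚ] ℂ) → ℂ),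
    Adm T X m F j p c → ∀ (pu : (ZMod N)ˣ → ℕ) (cu : (ZMod N)ˣ → ℂ),
    (∀ u σ, Restr N u σ → pu u = p σ ∧ cu u = c σ) →
    ∃ (X' : 𝒱.Obj) (m' : ℕ) (j' : F' →+ T.H X' m') (p' : (F' →ₐ[ℚ] ℂ) → ℕ)
      (c' : (F' →ₐ[ℚ] ℂ) → ℂ), Adm T X' m' F' j' p' c' ∧
      ∀ (lam : (ZMod N)ˣ) (τ : F' →ₐ[ℚ] ℂ), Restr N lam τ →
        p' τ = ∑ᶠ (u : (ZMod N)ˣ) (_ : χ u = 1), pu (lam * u) ∧
        c' τ = ∏ᶠ (u : (ZMod N)ˣ) (_ : χ u = 1), cu (lam * u)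

end Pool.Agent.T2H05.GD
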