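import Pool.Agent.T2H05.GD.Stm

set_option autoImplicit false

open Finset IntermediateField

universe v

namespace Pool.Agent.T2H05.GD

open Pool.Agent.H916R2 (OddDist SS saw)

private lemma sum_mul_units (N : ℕ) [NeZero N] (ε : ZMod N → ℚ) (u : (ZMod N)ˣ) :
    ∑ a ∈ Ioo 0 N, ε a * (((u : ZMod N) * a).val : ℚ) = ∑ a, ε a * (((u : ZMod N) * a).val : ℚ) := by
  rw [sum_Ioo_zmod N (fun a : ZMod N => ε a * (((u : ZMod N) * a).val : ℚ)),
    ← Finset.add_sum_erase univ _ (mem_univ (0 : ZMod N))]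
  simp

/-- For an odd character, the transform of the gamma products is proportional to the transform of
the types. -/
theorem ari (hKC : S_KC) (hD : S_DIST) (hG : S_GAM) {L : ℂ → ℚ} (hL : IsLog L) (N : ℕ) [NeZero N]
    (χ : (ZMod N)ˣ →* ℂˣ) (hχ : χ (-1) = -1) :
    ∃ κ : ℂ, ∀ (ε : ZMod N → ℚ) (P : (ZMod N)ˣ → ℚ),
      (∀ u : (ZMod N)ˣ, (N : ℚ) * P u = ∑ a ∈ Ioo 0 N, ε a * (((u : ZMod N) * a).val : ℚ)) →
      ∑ u, (χ u : ℂ) * (L ((gam N ε u : ℝ) : ℂ) : ℂ) = κ * ∑ u, (χ u : ℂ) * (P u : ℂ) := by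
  obtain ⟨K, hK⟩ := hKC N (cL L N) (hD L hL N) (MulChar.ofUnitHom χ) (by
    unfold DirichletCharacter.Odd
    have : (-1 : ZMod N) = ((-1 : (ZMod N)ˣ) : ZMod N) := by simp
    rw [this, MulChar.ofUnitHom_coe, hχ]; simp)
  refine ⟨-(K * N), fun ε P hP => ?_⟩
  have h0 : ∑ u : (ZMod N)ˣ, (χ u : ℂ) = 0 := by
    have h1 : ∑ u : (ZMod N)ˣ, (χ u : ℂ) = ∑ u : (ZMod N)ˣ, (χ (-1 * u) : ℂ) :=
      (Equiv.sum_comp (Equiv.mulLeft (-1 : (ZMod N)ˣ)) (fun u => (χ u : ℂ))).symm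
    have h2 : ∑ u : (ZMod N)ˣ, (χ (-1 * u) : ℂ) = - ∑ u : (ZMod N)ˣ, (χ u : ℂ) := by
      rw [← sum_neg_distrib]
      refine sum_congr rfl fun u _ => ?_
      rw [map_mul, hχ]; simp
    rw [h2] at h1
    have h3 : (2 : ℂ) * ∑ u : (ZMod N)ˣ, (χ u : ℂ) = 0 := by linear_combination h1
    simpa using h3
  have hK' := hK ε
  simp only [MulChar.ofUnitHom_coe] at hK'
  have e1 : ∀ u : (ZMod N)ˣ, (∑ a, ε a * (((u : ZMod N) * a).val : ℚ) : ℚ) = N * P u := fun u => by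
    rw [hP u, sum_mul_units]
  simp only [e1] at hK'
  calc ∑ u, (χ u : ℂ) * (L ((gam N ε u : ℝ) : ℂ) : ℂ)
      = ∑ u, ((χ u : ℂ) * ((L (Real.pi : ℂ) / 2 * ∑ a ∈ univ.erase (0 : ZMod N), ε a : ℚ) : ℂ) -
        (χ u : ℂ) * ((∑ a, ε a * cL L N ((u : ZMod N) * a) : ℚ) : ℂ)) := by
        refine sum_congr rfl fun u _ => ?_
        rw [hG L hL N ε u]
        push_cast
        ring
    _ = - (K * ∑ u, (χ u : ℂ) * ((N * P u : ℚ) : ℂ)) := by
        rw [sum_sub_distrib, ← sum_mul, h0, zero_mul, zero_sub, hK']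
    _ = -(K * N) * ∑ u, (χ u : ℂ) * (P u : ℂ) := by
        rw [mul_sum, mul_sum, ← sum_neg_distrib]
        refine sum_congr rfl fun u _ => ?_
        push_cast
        ring

/-- The gamma products at `u` and `-u`. -/
theorem evn (hD : S_DIST) (hG : S_GAM) {L : ℂ → ℚ} (hL : IsLog L) (N : ℕ) [NeZero N]
    (ε : ZMod N → ℚ) (P : (ZMod N)ˣ → ℚ) (m : ℚ)
    (hP : ∀ u : (ZMod N)ˣ, (N : ℚ) * P u = ∑ a ∈ Ioo 0 N, ε a * (((u : ZMod N) * a).val : ℚ))
    (hm : ∀ u, P u + P (-u) = m) (u : (ZMod N)ˣ) :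
    L ((gam N ε u : ℝ) : ℂ) + L ((gam N ε (-u) : ℝ) : ℂ) = m * L (Real.pi : ℂ) := by
  have hN : (N : ℚ) ≠ 0 := Nat.cast_ne_zero.mpr (NeZero.ne N)
  have h1 : ∑ a ∈ univ.erase (0 : ZMod N), ε a = m := by
    have h2 : (N : ℚ) * m = N * ∑ a ∈ univ.erase (0 : ZMod N), ε a := by
      rw [← hm u, mul_add, hP u, hP (-u), sum_Ioo_zmod N (fun a : ZMod N => ε a * (((u : ZMod N) * a).val : ℚ)),
        sum_Ioo_zmod N (fun a : ZMod N => ε a * ((((-u : (ZMod N)ˣ) : ZMod N) * a).val : ℚ)),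
        ← sum_add_distrib, mul_sum]
      refine sum_congr rfl fun a ha => ?_
      have ha0 : a ≠ 0 := (mem_erase.mp ha).1
      have hua : (u : ZMod N) * a ≠ 0 := fun h => ha0 ((Units.mul_right_eq_zero u).mp h)
      have : NeZero ((u : ZMod N) * a) := ⟨hua⟩
      rw [Units.val_neg, neg_mul, ZMod.val_neg_of_ne_zero]
      have := (ZMod.val_lt ((u : ZMod N) * a)).le
      push_cast [this]
      ring
    exact (mul_left_cancel₀ hN h2).symm
  rw [hG L hL N ε u, hG L hL N ε (-u), h1]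
  have h3 : ∑ a, ε a * cL L N (((-u : (ZMod N)ˣ) : ZMod N) * a) =
      - ∑ a, ε a * cL L N ((u : ZMod N) * a) := by
    rw [← sum_neg_distrib]
    refine sum_congr rfl fun a _ => ?_
    rw [Units.val_neg, neg_mul, (hD L hL N).neg]
    ring
  rw [h3]
  ring

/-- Sums over a group of functions pulled back from a quotient. -/
theorem sum_surj {G H : Type*} [Group G] [Fintype G] [Group H] [Fintype H] (f : G →* H)
    (hf : Function.Surjective f) (φ : H → ℂ) :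
    ∑ g, φ (f g) = (Nat.card f.ker : ℂ) * ∑ h, φ h := by
  classical
  rw [← Finset.sum_fiberwise_of_maps_to (s := univ) (t := univ) (g := f) (fun _ _ => mem_univ _),
    mul_sum]
  refine sum_congr rfl fun h _ => ?_
  obtain ⟨g0, rfl⟩ := hf h
  rw [sum_congr rfl (g := fun _ => φ (f g0)) (fun g hg => by rw [(mem_filter.mp hg).2]), sum_const,
    nsmul_eq_mul]
  congr 2
  rw [Nat.card_eq_fintype_card, ← Fintype.card_subtype]
  refine Fintype.card_congr ⟨fun g => ⟨g0⁻¹ * g.1, by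
      rw [MonoidHom.mem_ker, map_mul, g.2, map_inv, inv_mul_cancel]⟩,
    fun k => ⟨g0 * k.1, by rw [map_mul, MonoidHom.mem_ker.mp k.2, mul_one]⟩,
    fun g => by ext; simp, fun k => by ext; simp⟩

end Pool.Agent.T2H05.GD
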