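import Pool.Agent.T2H05.GD.Stm

set_option autoImplicit false

open CategoryTheory AlgebraicGeometry IntermediateField Finset

universe v

namespace Pool.Agent.T2H05.GD

private lemma CONV_aux (G : Type) [CommGroup G] [Fintype G] (ψ : G →* ℂˣ) (a b' : G → ℂ) :
    ∑ g, (ψ g : ℂ) * ∑ t, a t * b' (g * t⁻¹) =
      (∑ g, (ψ g : ℂ) * a g) * (∑ g, (ψ g : ℂ) * b' g) := by
  have h1 : ∀ t : G, ∑ g, (ψ g : ℂ) * (a t * b' (g * t⁻¹)) =
      ((ψ t : ℂ) * a t) * ∑ g, (ψ g : ℂ) * b' g := by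
    intro t
    rw [mul_sum]
    refine Fintype.sum_equiv (Equiv.mulRight t⁻¹) _ _ fun g => ?_
    have h2 : (ψ g : ℂ) = (ψ t : ℂ) * (ψ (g * t⁻¹) : ℂ) := by
      rw [← Units.val_mul, ← map_mul]
      congr 2
      rw [mul_comm g, mul_inv_cancel_left]
    rw [Equiv.coe_mulRight, h2]
    ring
  calc ∑ g, (ψ g : ℂ) * ∑ t, a t * b' (g * t⁻¹)
      = ∑ g, ∑ t, (ψ g : ℂ) * (a t * b' (g * t⁻¹)) := by
        refine sum_congr rfl fun g _ => ?_
        rw [mul_sum]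
    _ = ∑ t, ∑ g, (ψ g : ℂ) * (a t * b' (g * t⁻¹)) := sum_comm
    _ = ∑ t, ((ψ t : ℂ) * a t) * ∑ g, (ψ g : ℂ) * b' g := sum_congr rfl fun t _ => h1 t
    _ = _ := by rw [sum_mul]

theorem pCONV : S_CONV := by
  intro G _ _ a a' b b' C h ψ hψ
  have h0 : ∑ g, (ψ g : ℂ) = 0 := by
    obtain ⟨g₀, hg₀⟩ : ∃ g, ψ g ≠ 1 := by
      by_contra hcon
      push Not at hcon
      exact hψ (MonoidHom.ext hcon)
    have h1 : ∑ g, (ψ g : ℂ) = (ψ g₀ : ℂ) * ∑ g, (ψ g : ℂ) := by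
      rw [mul_sum]
      refine (Fintype.sum_equiv (Equiv.mulLeft g₀) _ _ fun g => ?_).symm
      rw [Equiv.coe_mulLeft, map_mul, Units.val_mul]
    have h2 : ((ψ g₀ : ℂ) - 1) * ∑ g, (ψ g : ℂ) = 0 := by
      linear_combination -h1
    rcases mul_eq_zero.1 h2 with h3 | h3
    · exfalso
      apply hg₀
      apply Units.ext
      rw [Units.val_one]
      linear_combination h3
    · exact h3
  have h1 : ∑ g, (ψ g : ℂ) * (∑ t, a t * b' (g * t⁻¹) - ∑ t, b t * a' (g * t⁻¹)) = 0 := by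
    rw [sum_congr rfl fun g _ => by rw [h g], ← sum_mul, h0, zero_mul]
  simp only [mul_sub, sum_sub_distrib] at h1
  rw [CONV_aux, CONV_aux] at h1
  exact sub_eq_zero.1 h1

end Pool.Agent.T2H05.GD
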