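import Pool.Agent.T2H05.GD.Stm

set_option autoImplicit false

open CategoryTheory AlgebraicGeometry IntermediateField Finset

universe v

namespace Pool.Agent.T2H05.GD

open Pool.Agent.H914 Pool.Agent.H914.VarClass

namespace PkgSUB

/-- homomorphisms on `ℚ(ζ)` are determined by the generator -/
lemma hom_ext (N : ℕ) (f g : ℚ⟮zt N⟯ →ₐ[ℚ] ℂ)
    (h : f (AdjoinSimple.gen ℚ (zt N)) = g (AdjoinSimple.gen ℚ (zt N))) : f = g := by
  apply adjoin_algHom_ext
  intro x hx
  have hx' : x = zt N := hx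
  subst hx'
  exact h

end PkgSUB

open PkgSUB

theorem pSUB (hCY : S_CY) : S_SUB := by
  intro N hN F hF χ hχ hχF
  obtain ⟨hfd, res, hsurj, hR, hemb, hconj⟩ := hCY N hN F hF
  have := hfd
  have hker : res.ker ≤ χ.ker := by
    intro u hu
    rw [MonoidHom.mem_ker] at hu ⊢
    apply hχF
    refine (hR u _).mpr ?_
    rw [hu]
    rfl
  obtain ⟨χF, hχF'⟩ : ∃ χF : (F ≃ₐ[ℚ] F) →* ℂˣ, ∀ u, χF (res u) = χ u :=
    ⟨res.liftOfSurjective hsurj ⟨χ, hker⟩, fun u =>
      MonoidHom.liftOfRightInverse_comp_apply res _ _ ⟨χ, hker⟩ u⟩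
  have hF'F : IntermediateField.lift (IntermediateField.fixedField χF.ker) ≤ F :=
    IntermediateField.lift_le _
  set F' : IntermediateField ℚ ℂ := IntermediateField.lift (IntermediateField.fixedField χF.ker)
    with hF'def
  have hF'N : F' ≤ ℚ⟮zt N⟯ := hF'F.trans hF
  obtain ⟨hfd', res', hsurj', hR', hemb', hconj'⟩ := hCY N hN F' hF'N
  have := hfd'
  have hcomp : ∀ (u : (ZMod N)ˣ) (x : F'), ((res' u x : F') : ℂ) =
      ((res u ⟨x, hF'F x.2⟩ : F) : ℂ) := by
    intro u x
    obtain ⟨τ, h1, h2⟩ := (hR u _).mpr rfl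
    obtain ⟨τ', h1', h2'⟩ := (hR' u _).mpr rfl
    have hτ : τ = τ' := by
      apply hom_ext
      rw [h1, h1']
    have e1 := h2 x (hF'F x.2) (hF'N x.2)
    have e2 := h2' x x.2 (hF'N x.2)
    rw [hτ, e2] at e1
    exact e1
  have hmem : ∀ x : F, (x : ℂ) ∈ F' ↔ x ∈ IntermediateField.fixedField χF.ker := by
    intro x
    exact IntermediateField.mem_lift x
  have hkey : ∀ u, res' u = 1 ↔ χ u = 1 := by
    intro u
    constructor
    · intro h
      have h1 : res u ∈ IntermediateField.fixingSubgroup (IntermediateField.fixedField χF.ker) := by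
        rw [IntermediateField.mem_fixingSubgroup_iff]
        intro x hx
        have h2 := hcomp u ⟨x, (hmem x).mpr hx⟩
        rw [h] at h2
        apply Subtype.ext
        exact h2.symm
      rw [IntermediateField.fixingSubgroup_fixedField, MonoidHom.mem_ker, hχF'] at h1
      exact h1
    · intro h
      apply AlgEquiv.ext
      intro x
      apply Subtype.ext
      rw [hcomp]
      have h1 : res u ∈ χF.ker := by rw [MonoidHom.mem_ker, hχF', h]
      have h2 := (hmem ⟨x, hF'F x.2⟩).mp x.2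
      rw [IntermediateField.mem_fixedField_iff] at h2
      rw [h2 _ h1]
      rfl
  have hker' : res'.ker ≤ χ.ker := by
    intro u hu
    rw [MonoidHom.mem_ker] at hu ⊢
    exact (hkey u).mp hu
  obtain ⟨ψ, hψ⟩ : ∃ ψ : (F' ≃ₐ[ℚ] F') →* ℂˣ, ∀ u, ψ (res' u) = χ u :=
    ⟨res'.liftOfSurjective hsurj' ⟨χ, hker'⟩, fun u =>
      MonoidHom.liftOfRightInverse_comp_apply res' _ _ ⟨χ, hker'⟩ u⟩
  have hinj : Function.Injective ψ := by
    rw [injective_iff_map_eq_one]
    intro s hs
    obtain ⟨u, rfl⟩ := hsurj' s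
    rw [hψ] at hs
    exact (hkey u).mpr hs
  refine ⟨F', hF'F, ⟨⟨N, hN, hF'N⟩, ?_, ?_⟩, ψ, hinj, ?_⟩
  · have hf : Function.Injective ((Units.coeHom ℂ).comp ψ) :=
      Units.val_injective.comp hinj
    exact isCyclic_of_injective_ringHom _ hf
  · by_contra hcon
    push Not at hcon
    have h1 : res' (-1) = 1 := by
      apply AlgEquiv.ext
      intro x
      apply Subtype.ext
      rw [hconj']
      show (starRingEnd ℂ) (x : ℂ) = (x : ℂ)
      rw [Complex.conj_eq_iff_im]
      exact hcon x x.2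
    rw [hkey, hχ] at h1
    have h2 := congrArg (fun t : ℂˣ => ((t : ℂ)).re) h1
    simp at h2
    norm_num at h2
  · intro u s hs
    have h1 := (hR' u _).mp hs
    have h2 : s = res' u := by
      apply AlgEquiv.ext
      intro x
      apply Subtype.ext
      exact AlgHom.congr_fun h1 x
    rw [h2, hψ]

end Pool.Agent.T2H05.GD
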