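import Pool.Agent.T2H05.GD.OneT
import Pool.Agent.T2H05.GD.OneDefs

/-!
# A zero-one law
-/

set_option autoImplicit false

open Finset IntermediateField CategoryTheory AlgebraicGeometry

universe v

namespace Pool.Agent.T2H05.GD

open Pool.Agent.H914 Pool.Agent.H914.VarClass

variable {𝒱 : VarClass Qbar}

/-- `ε` exists. -/
theorem exists_eps {T : PeriodData.{v} 𝒱} (hT : IsPeriodTheory T) {F : IntermediateField ℚ ℂ}
    [FiniteDimensional ℚ F] (hab : AbelianField F) (him : ∃ x ∈ F, x.im ≠ 0) {Y : 𝒱.Obj} {n : ℕ}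
    {j : F →+ T.H Y n} {p : (F →ₐ[ℚ] ℂ) → ℕ} {c : (F →ₐ[ℚ] ℂ) → ℂ} (hc : Adm T Y n F j p c) :
    ∃ ε : ZMod (cond F) → ℚ, IsEps (cond F) p ε := by
  obtain ⟨hd0, hFd⟩ := cond_spec hab
  have hd2 := cond_two_le hab him
  generalize cond F = d at hd0 hFd hd2 ⊢
  have : NeZero d := ⟨hd0.ne'⟩
  obtain ⟨-, res, hsurj, hres, hval, hconj⟩ := aCY d hd0 F hFd
  let P : (ZMod d)ˣ → ℚ := fun u => p (F.val.comp ((res u) : F →ₐ[ℚ] F))
  have hPn : ∀ u, P u + P (-u) = n := by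
    intro u
    have h1 := (aPOL 𝒱 T hT Y n F j p c hc (F.val.comp ((res u) : F →ₐ[ℚ] F))
      (F.val.comp ((res (-u)) : F →ₐ[ℚ] F)) (by
        intro x
        have h2 : res (-u) = res (-1) * res u := by rw [← map_mul]; simp
        rw [h2]
        exact hconj (res u x))).1
    show ((p _ : ℕ) : ℚ) + ((p _ : ℕ) : ℚ) = n
    exact_mod_cast h1
  obtain ⟨x, hx⟩ := aEX d hd2 P n hPn
  refine ⟨x, fun u σ hσ => ?_⟩
  rw [(hres u σ).mp hσ, sum_Ioo_zmod d (fun a => x a * (((u : ZMod d) * a).val : ℚ))]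
  have h3 := hx u
  rw [← Finset.add_sum_erase univ _ (mem_univ (0 : ZMod d))] at h3
  simpa using h3

lemma gam_lin {L : ℂ → ℚ} (hL : IsLog L) (N : ℕ) [NeZero N] (ε ε' : ZMod N → ℚ) (q : ℚ)
    (u : (ZMod N)ˣ) : L ((gam N (fun a => ε a + q * ε' a) u : ℝ) : ℂ) =
      L ((gam N ε u : ℝ) : ℂ) + q * L ((gam N ε' u : ℝ) : ℂ) := by
  rw [aGAM L hL, aGAM L hL, aGAM L hL, sum_add_distrib]
  have : ∑ a, (ε a + q * ε' a) * cL L N ((u : ZMod N) * a) =
      ∑ a, ε a * cL L N ((u : ZMod N) * a) + q * ∑ a, ε' a * cL L N ((u : ZMod N) * a) := by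
    rw [mul_sum, ← sum_add_distrib]
    exact sum_congr rfl fun a _ => by ring
  rw [this, ← mul_sum]
  ring

/-- **The series.** -/
theorem series {T : PeriodData.{v} 𝒱} (hT : IsPeriodTheory T) {F : IntermediateField ℚ ℂ}
    (hab : AbelianField F) (him : ∃ x ∈ F, x.im ≠ 0) (h : Triple T F) (hh : ¬ h.GD)
    (t : Triple T F) : Series h t := by
  obtain ⟨hd0, hFd⟩ := cond_spec hab
  have : NeZero (cond F) := ⟨hd0.ne'⟩
  obtain ⟨hfd, res, hsurj, hres, hval, hconj⟩ := aCY (cond F) hd0 F hFd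
  have := hfd
  obtain ⟨ch, hch⟩ := (aAD1 𝒱 T hT h.X h.m F h.j h.p).mp h.adm
  obtain ⟨ct, hct⟩ := (aAD1 𝒱 T hT t.X t.m F t.j t.p).mp t.adm
  obtain ⟨εt, hεt⟩ := exists_eps hT hab him hct
  unfold Triple.GD GDAt at hh
  push Not at hh
  obtain ⟨εh, hεh, lam, σ, hσ, P, hP, hnot⟩ := hh
  -- the series with its numbers
  have step : ∀ q : {q : Triple T F × ((F →ₐ[ℚ] ℂ) → ℂ) // Adm T q.1.X q.1.m F q.1.j q.1.p q.2},
      ∃ q' : {q : Triple T F × ((F →ₐ[ℚ] ℂ) → ℂ) // Adm T q.1.X q.1.m F q.1.j q.1.p q.2},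
        q'.1.1.X = q.1.1.X.prod h.X ∧ q'.1.1.m = q.1.1.m + h.m ∧
        (∀ τ, q'.1.1.p τ = q.1.1.p τ + h.p τ) ∧ ∀ τ, q'.1.2 τ = q.1.2 τ * ch τ := by
    rintro ⟨⟨s, c⟩, hs⟩
    obtain ⟨j2, hA2⟩ := aTEN 𝒱 T hT s.X h.X s.m h.m F s.j h.j s.p h.p c ch hs hch
    exact ⟨⟨⟨⟨_, _, j2, _, (aAD1 𝒱 T hT _ _ F j2 _).mpr ⟨_, hA2⟩⟩, _⟩, hA2⟩, rfl, rfl,
      fun _ => rfl, fun _ => rfl⟩
  choose f hfX hfm hfp hfc using step
  let q : ℕ → {q : Triple T F × ((F →ₐ[ℚ] ℂ) → ℂ) // Adm T q.1.X q.1.m F q.1.j q.1.p q.2} :=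
    fun n => f^[n] ⟨(t, ct), hct⟩
  have q0 : q 0 = ⟨(t, ct), hct⟩ := rfl
  have qs : ∀ n, q (n + 1) = f (q n) := fun n => Function.iterate_succ_apply' f n _
  have hp : ∀ n τ, (q n).1.1.p τ = t.p τ + n * h.p τ := by
    intro n τ
    induction n with
    | zero => rw [q0]; simp
    | succ n ih => rw [qs, hfp, ih]; ring
  have hc : ∀ n τ, (q n).1.2 τ = ct τ * ch τ ^ n := by
    intro n τ
    induction n with
    | zero => rw [q0]; simp
    | succ n ih => rw [qs, hfc, ih]; ring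
  refine ⟨fun n => (q n).1.1, by simp only [q0], fun n => ?_, ?_⟩
  · refine ⟨?_, ?_, fun τ => ?_⟩
    · show (q (n + 1)).1.1.X = _
      rw [qs]
      exact hfX _
    · show (q (n + 1)).1.1.m = _
      rw [qs]
      exact hfm _
    · show (q (n + 1)).1.1.p τ = _
      rw [qs]
      exact hfp _ τ
  · have key : ∀ n, (q n).1.1.GD → ∀ L, IsLog L → L (ct σ) + n * L (ch σ) =
        L ((gam (cond F) εt lam : ℝ) : ℂ) + n * L ((gam (cond F) εh lam : ℝ) : ℂ) := by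
      intro n hn L hL
      obtain ⟨h3, P2, hP2⟩ := aAD2 𝒱 T hT _ _ F _ _ _ (q n).2 σ
      have h4 := hn (fun a => εt a + (n : ℚ) * εh a) (fun u τ hu => by
        rw [hp]
        push_cast
        have e1 := hεt u τ hu
        have e2 := hεh u τ hu
        calc (cond F : ℚ) * (t.p τ + n * h.p τ)
            = cond F * t.p τ + n * (cond F * h.p τ) := by ring
          _ = _ := by
              rw [e1, e2, mul_sum, ← sum_add_distrib]
              exact sum_congr rfl fun a _ => by ring) lam σ hσ P2 hP2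
      have h5 := h3 P2 hP2
      have e1 := hL.sim ((q n).2.ne σ) h5
      have e2 := hL.sim (gam_ne _ _ _) h4
      rw [gam_lin hL] at e2
      rw [hc, hL.1 _ _ (hct.ne σ) (pow_ne_zero n (hch.ne σ)), hL.pow (hch.ne σ)] at e1
      linarith
    intro n hn n' hn'
    by_contra hne
    refine hnot (((aAD2 𝒱 T hT h.X h.m F h.j h.p ch hch σ).1 P hP).trans ?_)
    refine aSEP _ _ (hch.ne σ) (gam_ne _ _ _) fun L hL => ?_
    have e1 := key n hn L hL
    have e2 := key n' hn' L hL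
    have e3 : ((n : ℚ) - n') * (L (ch σ) - L ((gam (cond F) εh lam : ℝ) : ℂ)) = 0 := by
      linear_combination e1 - e2
    rcases mul_eq_zero.mp e3 with h1 | h1
    · exact absurd (by exact_mod_cast sub_eq_zero.mp h1) hne
    · exact sub_eq_zero.mp h1

/-- A triple of constant type for which the relation holds. -/
theorem const_of_GD {T : PeriodData.{v} 𝒱} {F : IntermediateField ℚ ℂ} (hF : CyclicImaginary F)
    {X : 𝒱.Obj} {k : ℕ} {j : F →+ T.H X (2 * k)} (hadm : Admissible T X (2 * k) F j (fun _ => k))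
    (h : GDAt T j (fun _ => k) (cond F)) (σ : F →ₐ[ℚ] ℂ) (P : ℂ) (hP : IsPeriod T j σ P) :
    Sim P ((2 * Real.pi * Complex.I) ^ k) := by
  obtain ⟨hd0, hFd⟩ := cond_spec hF.1
  obtain ⟨-, res, hsurj, hres, hval, hconj⟩ := aCY (cond F) hd0 F hFd
  obtain ⟨ε, h1, h2⟩ := aCONST (cond F) k (cond_two_le hF.1 hF.2.2)
  obtain ⟨s, hs⟩ := hval σ
  obtain ⟨lam, rfl⟩ := hsurj s
  exact (h ε (fun u σ _ => h1 u) lam σ ((hres lam σ).mpr hs) P hP).trans (h2 lam)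

theorem zeroOne {𝒱 : VarClass Qbar} (T : PeriodData.{v} 𝒱) (hT : IsPeriodTheory T)
    (K : IntermediateField ℚ ℂ) (hK : AbelianField K)
    (ref : ∀ F, F ≤ K → CyclicImaginary F → Reference T F) :
    (∀ F, F ≤ K → GDFor T F) ∨
      (∃ F, ∃ h : F ≤ K, ∃ hF : CyclicImaginary F,
        ¬ GDAt T (ref F h hF).j (ref F h hF).p (cond F)) ∨
      ∃ F, F ≤ K ∧ CyclicImaginary F ∧ ∃ h : Triple T F, (∃ k, h.p = fun _ => k) ∧
        ∀ t : Triple T F, Series h t := by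
  by_contra hcon
  push Not at hcon
  obtain ⟨h1, h2, h3⟩ := hcon
  obtain ⟨F0, hF0, hnot⟩ := h1
  refine hnot ((mainL T hT K hK ref).mpr (fun F h hF => ⟨h2 F h hF, ?_⟩) F0 hF0)
  intro X k j hadm σ P hP
  by_contra hP2
  obtain ⟨t, ht⟩ := h3 F h hF ⟨X, 2 * k, j, fun _ => k, hadm⟩ ⟨k, rfl⟩
  exact ht (series hT hF.1 hF.2.2 ⟨X, 2 * k, j, fun _ => k, hadm⟩ (fun hGD => hP2 (const_of_GD hF hadm hGD σ P hP)) t)

end Pool.Agent.T2H05.GD
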